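import Pool.Agent.Strip051.LC.Line.Corn.GermV

/-! # The three cells at the vertical corner in scaled form -/

namespace Pool.Agent.Strip051.LC.Line.Corn

open Pool.Agent.StripNear Pool.Agent.StripSquare Pool.Agent.Strip051.Sweep
  Pool.Agent.Strip051.LC

theorem h0_lt' : h0 < 8661 / 10000 := by nlinarith [h0_sq', h0_pos]

theorem z_le {z : ℝ} (h : 2 * h0 - 1 / 10 ≤ kc3 z) : z ≤ 5801 / 10000 := by
  by_contra h1
  rw [not_le] at h1
  have hp := h0_gt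
  have hl := h0_lt'
  have hq := h0_sq'
  have h2 : (2 * h0 - 1 / 10) ^ 2 ≤ kc3 z ^ 2 := by
    apply pow_le_pow_left₀ (by linarith) h
  rcases le_or_gt (z ^ 2) 3 with h3 | h3
  · have h4 : kc3 z ^ 2 = 3 - z ^ 2 := by
      rw [kc3_eq]
      linarith [c3_sq (t := z) h3]
    nlinarith
  · have h4 : kc3 z = 0 := by
      rw [kc3_eq]
      exact Real.sqrt_eq_zero_of_nonpos (by linarith)
    linarith

theorem exc_of {X12 X13 t t' r N : ℝ} (h : X12 * (t + t') - X13 * t = r * N + h0) :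
    exc X12 X13 t t' = r * (N * (Real.sqrt ((3 : ℕ) : ℝ))⁻¹) := by
  have hp := h0_pos
  unfold exc
  rw [h, r3_eq]
  field_simp
  ring

section

variable {θ r a b e d A1 A2 t t' X12 X13 R12 R23 R13 : ℝ} (hθ : 0 < θ) (hr : 0 ≤ r)
  (ha : 0 ≤ a) (hb : 0 ≤ b) (he : exc X12 X13 t t' = r * e) (hd : R13 - R12 - R23 = r * d)
  (h5 : 2 * h0 - 1 / 10 ≤ t + t') (h6 : t + t' ≤ 2 * h0)

include hθ hr ha hb he hd h5 h6

theorem cellv_113 {q : ℝ} (h1 : t < h0) (h3 : t' < h0) (hl1 : h0 - t' = r * a)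
    (hl2 : h0 - t = r * b) (hq : (h0 - t') - (h0 - t) = q * ((h0 - t') + (h0 - t)))
    (hA1 : A1 = -R23) (hA2 : A2 = -R12) (hQ : 0 ≤ scaleQ θ r a b A1 A2 d e q) :
    NFV θ X12 X13 t t' (R12, R23, R13) := by
  have hp := h0_gt
  refine nfv_113 h5 h6 h1 h3 ?_
  rw [← hA1, ← hA2]
  refine starN_scale (r := r) (a := a) (b := b) (e := e) (d := d) (q := q) hθ hr ha hb hl1 hl2
    (by linarith) he (by linarith) ?_ hQ
  have h7 : 0 < (h0 - t') + (h0 - t) := by linarith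
  rw [hq, div_le_iff₀ h7]
  linarith

theorem cellv_213 (h1 : h0 ≤ t) (h2 : t ≤ h0 + 1 / 10) (h3 : t' < h0)
    (hl1 : 2 * h0 - (t + t') = r * a) (hl2 : t - h0 = r * b)
    (hA1 : A1 = R13) (hA2 : A2 = -R12) (hQ : 0 ≤ scaleQ θ r a b A1 A2 d e (-((1 : ℕ) : ℝ)))
    (hs : 0 ≤ -(A1 + A2 - r * d)) :
    NFV θ X12 X13 t t' (R12, R23, R13) := by
  have hp := h0_gt
  refine nfv_213 h5 h6 h1 h2 h3 ?_
  rw [← hA1, ← hA2]
  refine starN_scale (r := r) (a := a) (b := b) (e := e) (d := d) (q := -((1 : ℕ) : ℝ)) hθ hr ha hb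
    hl1 hl2 (by linarith) he (by linarith) ?_ hQ
  have := ratio_neg (A := R23) (l1 := 2 * h0 - (t + t')) (l2 := t - h0) (by linarith) (by linarith)
    (by linarith)
  push_cast
  exact this

theorem cellv_123 (h1 : t < h0) (h2 : t' ≤ h0 + 1 / 10) (h3 : h0 ≤ t')
    (hl1 : t' - h0 = r * a) (hl2 : 2 * h0 - (t + t') = r * b)
    (hA1 : A1 = -R23) (hA2 : A2 = R13) (hQ : 0 ≤ scaleQ θ r a b A1 A2 d e ((1 : ℕ) : ℝ))
    (hs : 0 ≤ A1 + A2 - r * d) :
    NFV θ X12 X13 t t' (R12, R23, R13) := by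
  have hp := h0_gt
  refine nfv_123 h5 h6 h1 h2 h3 ?_
  rw [← hA1, ← hA2]
  refine starN_scale (r := r) (a := a) (b := b) (e := e) (d := d) (q := ((1 : ℕ) : ℝ)) hθ hr ha hb
    hl1 hl2 (by linarith) he (by linarith) ?_ hQ
  have := ratio_pos (A := R12) (l1 := t' - h0) (l2 := 2 * h0 - (t + t')) (by linarith) (by linarith)
    (by linarith)
  push_cast
  exact this

end

end Pool.Agent.Strip051.LC.Line.Corn
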