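import Pool.Agent.Strip051.Box.C2
import Pool.Agent.Strip051.LC.Line.Corn.CellV

/-! # Vertical corner chart B03ppz123 (generated) -/

namespace Pool.Agent.Strip051.LC.Line.Corn.VB03ppz123

open Pool.Agent.Strip051.Box Pool.Agent.Strip051.Box2

abbrev S : Nat := 1073741824

theorem hS : 0 < S := by decide

/-- coordinates of a point of the box -/
def In (b : Bx) (E : Pt) (x1 x2 : ℝ) : Prop :=
  (S : ℝ) * x1 = ((b.p1 : ℝ) - b.n1) + b.q1 * E.e1 ∧ (S : ℝ) * x2 = ((b.p2 : ℝ) - b.n2) + b.q2 * E.e2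

variable {b : Bx} {E : Pt} {x1 x2 : ℝ}

def t0 (b : Bx) : TM := X1 b
noncomputable def v0 (x1 _x2 : ℝ) : ℝ := x1
theorem h0 (h : In b E x1 x2) : Enc S E (t0 b) (v0 x1 x2) := enc_X1 h.1

def t1 (b : Bx) : TM := X2 b
noncomputable def v1 (_x1 x2 : ℝ) : ℝ := x2
theorem h1 (h : In b E x1 x2) : Enc S E (t1 b) (v1 x1 x2) := enc_X2 h.2

def t2 (_b : Bx) : TM := tconst 1859775393 0 1
noncomputable def v2 (_x1 _x2 : ℝ) : ℝ := Real.sqrt ((3 : ℕ) : ℝ)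
theorem h2 (_h : In b E x1 x2) : Enc S E (t2 b) (v2 x1 x2) := enc_sqrtn E (by decide) (by decide)

def t3 (b : Bx) : TM := tscale 1 2 (t2 b)
noncomputable def v3 (x1 x2 : ℝ) : ℝ := ((1 : ℕ) : ℝ) / ((2 : ℕ) : ℝ) * v2 x1 x2
theorem h3 (h : In b E x1 x2) : Enc S E (t3 b) (v3 x1 x2) := enc_scale 1 (by norm_num) (h2 h)

def t4 (_b : Bx) : TM := tconst (Nat.mul 1 S) 0 0
noncomputable def v4 (_x1 _x2 : ℝ) : ℝ := ((1 : ℕ) : ℝ)
theorem h4 (_h : In b E x1 x2) : Enc S E (t4 b) (v4 x1 x2) := enc_nc E 1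

def t5 (b : Bx) : TM := tsq S (t0 b)
noncomputable def v5 (x1 x2 : ℝ) : ℝ := (v0 x1 x2) ^ 2
theorem h5 (h : In b E x1 x2) : Enc S E (t5 b) (v5 x1 x2) := enc_sq hS (h0 h)

def t6 (_b : Bx) : TM := tconst (Nat.mul 3 S) 0 0
noncomputable def v6 (_x1 _x2 : ℝ) : ℝ := ((3 : ℕ) : ℝ)
theorem h6 (_h : In b E x1 x2) : Enc S E (t6 b) (v6 x1 x2) := enc_nc E 3

def t7 (b : Bx) : TM := tsub (t6 b) (t5 b)
noncomputable def v7 (x1 x2 : ℝ) : ℝ := v6 x1 x2 - v5 x1 x2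
theorem h7 (h : In b E x1 x2) : Enc S E (t7 b) (v7 x1 x2) := enc_sub (h6 h) (h5 h)

def t8 (b : Bx) : TM := tsqrt S (t7 b)
noncomputable def v8 (x1 x2 : ℝ) : ℝ := Real.sqrt (v7 x1 x2)
theorem h8 (h : In b E x1 x2) : Enc S E (t8 b) (v8 x1 x2) := enc_sqrt hS (h7 h)

def t9 (b : Bx) : TM := tadd (t2 b) (t8 b)
noncomputable def v9 (x1 x2 : ℝ) : ℝ := v2 x1 x2 + v8 x1 x2
theorem h9 (h : In b E x1 x2) : Enc S E (t9 b) (v9 x1 x2) := enc_add (h2 h) (h8 h)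

def t10 (b : Bx) : TM := tinv S (t9 b)
noncomputable def v10 (x1 x2 : ℝ) : ℝ := (v9 x1 x2)⁻¹
theorem h10 (h : In b E x1 x2) : Enc S E (t10 b) (v10 x1 x2) := enc_inv hS (h9 h)

def t11 (b : Bx) : TM := tmul S (t0 b) (t10 b)
noncomputable def v11 (x1 x2 : ℝ) : ℝ := v0 x1 x2 * v10 x1 x2
theorem h11 (h : In b E x1 x2) : Enc S E (t11 b) (v11 x1 x2) := enc_mul hS (h0 h) (h10 h)

def t12 (b : Bx) : TM := tadd (t1 b) (t11 b)
noncomputable def v12 (x1 x2 : ℝ) : ℝ := v1 x1 x2 + v11 x1 x2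
theorem h12 (h : In b E x1 x2) : Enc S E (t12 b) (v12 x1 x2) := enc_add (h1 h) (h11 h)

def t13 (b : Bx) : TM := tneg (t12 b)
noncomputable def v13 (x1 x2 : ℝ) : ℝ := -(v12 x1 x2)
theorem h13 (h : In b E x1 x2) : Enc S E (t13 b) (v13 x1 x2) := enc_neg (h12 h)

def t14 (b : Bx) : TM := tneg (t11 b)
noncomputable def v14 (x1 x2 : ℝ) : ℝ := -(v11 x1 x2)
theorem h14 (h : In b E x1 x2) : Enc S E (t14 b) (v14 x1 x2) := enc_neg (h11 h)

def t15 (b : Bx) : TM := tinv S (t2 b)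
noncomputable def v15 (x1 x2 : ℝ) : ℝ := (v2 x1 x2)⁻¹
theorem h15 (h : In b E x1 x2) : Enc S E (t15 b) (v15 x1 x2) := enc_inv hS (h2 h)

def t16 (b : Bx) : TM := tmul S (t8 b) (t15 b)
noncomputable def v16 (x1 x2 : ℝ) : ℝ := v8 x1 x2 * v15 x1 x2
theorem h16 (h : In b E x1 x2) : Enc S E (t16 b) (v16 x1 x2) := enc_mul hS (h8 h) (h15 h)

def t17 (b : Bx) : TM := tsub (t16 b) (t0 b)
noncomputable def v17 (x1 x2 : ℝ) : ℝ := v16 x1 x2 - v0 x1 x2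
theorem h17 (h : In b E x1 x2) : Enc S E (t17 b) (v17 x1 x2) := enc_sub (h16 h) (h0 h)

def t18 (b : Bx) : TM := tadd (t4 b) (t16 b)
noncomputable def v18 (x1 x2 : ℝ) : ℝ := v4 x1 x2 + v16 x1 x2
theorem h18 (h : In b E x1 x2) : Enc S E (t18 b) (v18 x1 x2) := enc_add (h4 h) (h16 h)

def t19 (b : Bx) : TM := tsub (t18 b) (t0 b)
noncomputable def v19 (x1 x2 : ℝ) : ℝ := v18 x1 x2 - v0 x1 x2
theorem h19 (h : In b E x1 x2) : Enc S E (t19 b) (v19 x1 x2) := enc_sub (h18 h) (h0 h)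

def t20 (b : Bx) : TM := tinv S (t19 b)
noncomputable def v20 (x1 x2 : ℝ) : ℝ := (v19 x1 x2)⁻¹
theorem h20 (h : In b E x1 x2) : Enc S E (t20 b) (v20 x1 x2) := enc_inv hS (h19 h)

def t21 (b : Bx) : TM := tmul S (t17 b) (t20 b)
noncomputable def v21 (x1 x2 : ℝ) : ℝ := v17 x1 x2 * v20 x1 x2
theorem h21 (h : In b E x1 x2) : Enc S E (t21 b) (v21 x1 x2) := enc_mul hS (h17 h) (h20 h)

def t22 (b : Bx) : TM := tmul S (t0 b) (t13 b)
noncomputable def v22 (x1 x2 : ℝ) : ℝ := v0 x1 x2 * v13 x1 x2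
theorem h22 (h : In b E x1 x2) : Enc S E (t22 b) (v22 x1 x2) := enc_mul hS (h0 h) (h13 h)

def t23 (b : Bx) : TM := tmul S (t0 b) (t1 b)
noncomputable def v23 (x1 x2 : ℝ) : ℝ := v0 x1 x2 * v1 x1 x2
theorem h23 (h : In b E x1 x2) : Enc S E (t23 b) (v23 x1 x2) := enc_mul hS (h0 h) (h1 h)

def t24 (b : Bx) : TM := tadd (t2 b) (t22 b)
noncomputable def v24 (x1 x2 : ℝ) : ℝ := v2 x1 x2 + v22 x1 x2
theorem h24 (h : In b E x1 x2) : Enc S E (t24 b) (v24 x1 x2) := enc_add (h2 h) (h22 h)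

def t25 (b : Bx) : TM := tadd (t3 b) (t22 b)
noncomputable def v25 (x1 x2 : ℝ) : ℝ := v3 x1 x2 + v22 x1 x2
theorem h25 (h : In b E x1 x2) : Enc S E (t25 b) (v25 x1 x2) := enc_add (h3 h) (h22 h)

def t26 (b : Bx) : TM := tsq S (t25 b)
noncomputable def v26 (x1 x2 : ℝ) : ℝ := (v25 x1 x2) ^ 2
theorem h26 (h : In b E x1 x2) : Enc S E (t26 b) (v26 x1 x2) := enc_sq hS (h25 h)

def t27 (b : Bx) : TM := tsub (t4 b) (t26 b)
noncomputable def v27 (x1 x2 : ℝ) : ℝ := v4 x1 x2 - v26 x1 x2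
theorem h27 (h : In b E x1 x2) : Enc S E (t27 b) (v27 x1 x2) := enc_sub (h4 h) (h26 h)

def t28 (b : Bx) : TM := tsqrt S (t27 b)
noncomputable def v28 (x1 x2 : ℝ) : ℝ := Real.sqrt (v27 x1 x2)
theorem h28 (h : In b E x1 x2) : Enc S E (t28 b) (v28 x1 x2) := enc_sqrt hS (h27 h)

def t29 (_b : Bx) : TM := tconst (Nat.div (Nat.mul 1 S) 2) 0 1
noncomputable def v29 (_x1 _x2 : ℝ) : ℝ := ((1 : ℕ) : ℝ) / ((2 : ℕ) : ℝ)
theorem h29 (_h : In b E x1 x2) : Enc S E (t29 b) (v29 x1 x2) := enc_rat E 1 (by norm_num)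

def t30 (b : Bx) : TM := tadd (t28 b) (t29 b)
noncomputable def v30 (x1 x2 : ℝ) : ℝ := v28 x1 x2 + v29 x1 x2
theorem h30 (h : In b E x1 x2) : Enc S E (t30 b) (v30 x1 x2) := enc_add (h28 h) (h29 h)

def t31 (b : Bx) : TM := tinv S (t30 b)
noncomputable def v31 (x1 x2 : ℝ) : ℝ := (v30 x1 x2)⁻¹
theorem h31 (h : In b E x1 x2) : Enc S E (t31 b) (v31 x1 x2) := enc_inv hS (h30 h)

def t32 (b : Bx) : TM := tmul S (t24 b) (t31 b)
noncomputable def v32 (x1 x2 : ℝ) : ℝ := v24 x1 x2 * v31 x1 x2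
theorem h32 (h : In b E x1 x2) : Enc S E (t32 b) (v32 x1 x2) := enc_mul hS (h24 h) (h31 h)

def t33 (b : Bx) : TM := tneg (t32 b)
noncomputable def v33 (x1 x2 : ℝ) : ℝ := -(v32 x1 x2)
theorem h33 (h : In b E x1 x2) : Enc S E (t33 b) (v33 x1 x2) := enc_neg (h32 h)

def t34 (b : Bx) : TM := tmul S (t13 b) (t33 b)
noncomputable def v34 (x1 x2 : ℝ) : ℝ := v13 x1 x2 * v33 x1 x2
theorem h34 (h : In b E x1 x2) : Enc S E (t34 b) (v34 x1 x2) := enc_mul hS (h13 h) (h33 h)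

def t35 (b : Bx) : TM := tnat 3 (t33 b)
noncomputable def v35 (x1 x2 : ℝ) : ℝ := ((3 : ℕ) : ℝ) * v33 x1 x2
theorem h35 (h : In b E x1 x2) : Enc S E (t35 b) (v35 x1 x2) := enc_nat 3 (h33 h)

def t36 (b : Bx) : TM := tmul S (t2 b) (t28 b)
noncomputable def v36 (x1 x2 : ℝ) : ℝ := v2 x1 x2 * v28 x1 x2
theorem h36 (h : In b E x1 x2) : Enc S E (t36 b) (v36 x1 x2) := enc_mul hS (h2 h) (h28 h)

def t37 (b : Bx) : TM := tnat 2 (t36 b)
noncomputable def v37 (x1 x2 : ℝ) : ℝ := ((2 : ℕ) : ℝ) * v36 x1 x2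
theorem h37 (h : In b E x1 x2) : Enc S E (t37 b) (v37 x1 x2) := enc_nat 2 (h36 h)

def t38 (b : Bx) : TM := tadd (t35 b) (t37 b)
noncomputable def v38 (x1 x2 : ℝ) : ℝ := v35 x1 x2 + v37 x1 x2
theorem h38 (h : In b E x1 x2) : Enc S E (t38 b) (v38 x1 x2) := enc_add (h35 h) (h37 h)

def t39 (b : Bx) : TM := tnat 2 (t2 b)
noncomputable def v39 (x1 x2 : ℝ) : ℝ := ((2 : ℕ) : ℝ) * v2 x1 x2
theorem h39 (h : In b E x1 x2) : Enc S E (t39 b) (v39 x1 x2) := enc_nat 2 (h2 h)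

def t40 (b : Bx) : TM := tadd (t38 b) (t39 b)
noncomputable def v40 (x1 x2 : ℝ) : ℝ := v38 x1 x2 + v39 x1 x2
theorem h40 (h : In b E x1 x2) : Enc S E (t40 b) (v40 x1 x2) := enc_add (h38 h) (h39 h)

def t41 (b : Bx) : TM := tnat 2 (t22 b)
noncomputable def v41 (x1 x2 : ℝ) : ℝ := ((2 : ℕ) : ℝ) * v22 x1 x2
theorem h41 (h : In b E x1 x2) : Enc S E (t41 b) (v41 x1 x2) := enc_nat 2 (h22 h)

def t42 (b : Bx) : TM := tadd (t40 b) (t41 b)
noncomputable def v42 (x1 x2 : ℝ) : ℝ := v40 x1 x2 + v41 x1 x2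
theorem h42 (h : In b E x1 x2) : Enc S E (t42 b) (v42 x1 x2) := enc_add (h40 h) (h41 h)

def t43 (b : Bx) : TM := tmul S (t2 b) (t25 b)
noncomputable def v43 (x1 x2 : ℝ) : ℝ := v2 x1 x2 * v25 x1 x2
theorem h43 (h : In b E x1 x2) : Enc S E (t43 b) (v43 x1 x2) := enc_mul hS (h2 h) (h25 h)

def t44 (b : Bx) : TM := tadd (t4 b) (t43 b)
noncomputable def v44 (x1 x2 : ℝ) : ℝ := v4 x1 x2 + v43 x1 x2
theorem h44 (h : In b E x1 x2) : Enc S E (t44 b) (v44 x1 x2) := enc_add (h4 h) (h43 h)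

def t45 (b : Bx) : TM := tsub (t44 b) (t28 b)
noncomputable def v45 (x1 x2 : ℝ) : ℝ := v44 x1 x2 - v28 x1 x2
theorem h45 (h : In b E x1 x2) : Enc S E (t45 b) (v45 x1 x2) := enc_sub (h44 h) (h28 h)

def t46 (b : Bx) : TM := tnat 2 (t45 b)
noncomputable def v46 (x1 x2 : ℝ) : ℝ := ((2 : ℕ) : ℝ) * v45 x1 x2
theorem h46 (h : In b E x1 x2) : Enc S E (t46 b) (v46 x1 x2) := enc_nat 2 (h45 h)

def t47 (b : Bx) : TM := tinv S (t46 b)
noncomputable def v47 (x1 x2 : ℝ) : ℝ := (v46 x1 x2)⁻¹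
theorem h47 (h : In b E x1 x2) : Enc S E (t47 b) (v47 x1 x2) := enc_inv hS (h46 h)

def t48 (b : Bx) : TM := tmul S (t42 b) (t47 b)
noncomputable def v48 (x1 x2 : ℝ) : ℝ := v42 x1 x2 * v47 x1 x2
theorem h48 (h : In b E x1 x2) : Enc S E (t48 b) (v48 x1 x2) := enc_mul hS (h42 h) (h47 h)

def t49 (b : Bx) : TM := tmul S (t13 b) (t48 b)
noncomputable def v49 (x1 x2 : ℝ) : ℝ := v13 x1 x2 * v48 x1 x2
theorem h49 (h : In b E x1 x2) : Enc S E (t49 b) (v49 x1 x2) := enc_mul hS (h13 h) (h48 h)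

def t50 (b : Bx) : TM := tmul S (t4 b) (t4 b)
noncomputable def v50 (x1 x2 : ℝ) : ℝ := v4 x1 x2 * v4 x1 x2
theorem h50 (h : In b E x1 x2) : Enc S E (t50 b) (v50 x1 x2) := enc_mul hS (h4 h) (h4 h)

def t51 (b : Bx) : TM := tmul S (t4 b) (t21 b)
noncomputable def v51 (x1 x2 : ℝ) : ℝ := v4 x1 x2 * v21 x1 x2
theorem h51 (h : In b E x1 x2) : Enc S E (t51 b) (v51 x1 x2) := enc_mul hS (h4 h) (h21 h)

def t52 (b : Bx) : TM := tsub (t50 b) (t34 b)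
noncomputable def v52 (x1 x2 : ℝ) : ℝ := v50 x1 x2 - v34 x1 x2
theorem h52 (h : In b E x1 x2) : Enc S E (t52 b) (v52 x1 x2) := enc_sub (h50 h) (h34 h)

def t53 (b : Bx) : TM := tneg (t52 b)
noncomputable def v53 (x1 x2 : ℝ) : ℝ := -(v52 x1 x2)
theorem h53 (h : In b E x1 x2) : Enc S E (t53 b) (v53 x1 x2) := enc_neg (h52 h)

def t54 (b : Bx) : TM := tadd (t3 b) (t23 b)
noncomputable def v54 (x1 x2 : ℝ) : ℝ := v3 x1 x2 + v23 x1 x2
theorem h54 (h : In b E x1 x2) : Enc S E (t54 b) (v54 x1 x2) := enc_add (h3 h) (h23 h)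

def t55 (b : Bx) : TM := tmul S (t34 b) (t8 b)
noncomputable def v55 (x1 x2 : ℝ) : ℝ := v34 x1 x2 * v8 x1 x2
theorem h55 (h : In b E x1 x2) : Enc S E (t55 b) (v55 x1 x2) := enc_mul hS (h34 h) (h8 h)

def t56 (b : Bx) : TM := tscale 1 2 (t14 b)
noncomputable def v56 (x1 x2 : ℝ) : ℝ := ((1 : ℕ) : ℝ) / ((2 : ℕ) : ℝ) * v14 x1 x2
theorem h56 (h : In b E x1 x2) : Enc S E (t56 b) (v56 x1 x2) := enc_scale 1 (by norm_num) (h14 h)

def t57 (b : Bx) : TM := tadd (t55 b) (t56 b)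
noncomputable def v57 (x1 x2 : ℝ) : ℝ := v55 x1 x2 + v56 x1 x2
theorem h57 (h : In b E x1 x2) : Enc S E (t57 b) (v57 x1 x2) := enc_add (h55 h) (h56 h)

def t58 (b : Bx) : TM := tmul S (t50 b) (t25 b)
noncomputable def v58 (x1 x2 : ℝ) : ℝ := v50 x1 x2 * v25 x1 x2
theorem h58 (h : In b E x1 x2) : Enc S E (t58 b) (v58 x1 x2) := enc_mul hS (h50 h) (h25 h)

def t59 (b : Bx) : TM := tsub (t57 b) (t58 b)
noncomputable def v59 (x1 x2 : ℝ) : ℝ := v57 x1 x2 - v58 x1 x2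
theorem h59 (h : In b E x1 x2) : Enc S E (t59 b) (v59 x1 x2) := enc_sub (h57 h) (h58 h)

def t60 (b : Bx) : TM := tmul S (t59 b) (t15 b)
noncomputable def v60 (x1 x2 : ℝ) : ℝ := v59 x1 x2 * v15 x1 x2
theorem h60 (h : In b E x1 x2) : Enc S E (t60 b) (v60 x1 x2) := enc_mul hS (h59 h) (h15 h)

def t61 (b : Bx) : TM := tmul S (t0 b) (t53 b)
noncomputable def v61 (x1 x2 : ℝ) : ℝ := v0 x1 x2 * v53 x1 x2
theorem h61 (h : In b E x1 x2) : Enc S E (t61 b) (v61 x1 x2) := enc_mul hS (h0 h) (h53 h)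

def t62 (b : Bx) : TM := tadd (t29 b) (t61 b)
noncomputable def v62 (x1 x2 : ℝ) : ℝ := v29 x1 x2 + v61 x1 x2
theorem h62 (h : In b E x1 x2) : Enc S E (t62 b) (v62 x1 x2) := enc_add (h29 h) (h61 h)

def t63 (b : Bx) : TM := tmul S (t3 b) (t1 b)
noncomputable def v63 (x1 x2 : ℝ) : ℝ := v3 x1 x2 * v1 x1 x2
theorem h63 (h : In b E x1 x2) : Enc S E (t63 b) (v63 x1 x2) := enc_mul hS (h3 h) (h1 h)

def t64 (b : Bx) : TM := tnat 2 (t63 b)
noncomputable def v64 (x1 x2 : ℝ) : ℝ := ((2 : ℕ) : ℝ) * v63 x1 x2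
theorem h64 (h : In b E x1 x2) : Enc S E (t64 b) (v64 x1 x2) := enc_nat 2 (h63 h)

def t65 (b : Bx) : TM := tadd (t53 b) (t64 b)
noncomputable def v65 (x1 x2 : ℝ) : ℝ := v53 x1 x2 + v64 x1 x2
theorem h65 (h : In b E x1 x2) : Enc S E (t65 b) (v65 x1 x2) := enc_add (h53 h) (h64 h)

def t66 (b : Bx) : TM := tsq S (t53 b)
noncomputable def v66 (x1 x2 : ℝ) : ℝ := (v53 x1 x2) ^ 2
theorem h66 (h : In b E x1 x2) : Enc S E (t66 b) (v66 x1 x2) := enc_sq hS (h53 h)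

def t67 (b : Bx) : TM := tsq S (t1 b)
noncomputable def v67 (x1 x2 : ℝ) : ℝ := (v1 x1 x2) ^ 2
theorem h67 (h : In b E x1 x2) : Enc S E (t67 b) (v67 x1 x2) := enc_sq hS (h1 h)

def t68 (b : Bx) : TM := tadd (t66 b) (t67 b)
noncomputable def v68 (x1 x2 : ℝ) : ℝ := v66 x1 x2 + v67 x1 x2
theorem h68 (h : In b E x1 x2) : Enc S E (t68 b) (v68 x1 x2) := enc_add (h66 h) (h67 h)

def t69 (b : Bx) : TM := tmul S (t0 b) (t68 b)
noncomputable def v69 (x1 x2 : ℝ) : ℝ := v0 x1 x2 * v68 x1 x2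
theorem h69 (h : In b E x1 x2) : Enc S E (t69 b) (v69 x1 x2) := enc_mul hS (h0 h) (h68 h)

def t70 (b : Bx) : TM := tadd (t65 b) (t69 b)
noncomputable def v70 (x1 x2 : ℝ) : ℝ := v65 x1 x2 + v69 x1 x2
theorem h70 (h : In b E x1 x2) : Enc S E (t70 b) (v70 x1 x2) := enc_add (h65 h) (h69 h)

def t71 (b : Bx) : TM := tneg (t22 b)
noncomputable def v71 (x1 x2 : ℝ) : ℝ := -(v22 x1 x2)
theorem h71 (h : In b E x1 x2) : Enc S E (t71 b) (v71 x1 x2) := enc_neg (h22 h)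

def t72 (_b : Bx) : TM := tconst (Nat.div (Nat.mul 1 S) 10) 0 1
noncomputable def v72 (_x1 _x2 : ℝ) : ℝ := ((1 : ℕ) : ℝ) / ((10 : ℕ) : ℝ)
theorem h72 (_h : In b E x1 x2) : Enc S E (t72 b) (v72 x1 x2) := enc_rat E 1 (by norm_num)

def t73 (b : Bx) : TM := tsub (t71 b) (t72 b)
noncomputable def v73 (x1 x2 : ℝ) : ℝ := v71 x1 x2 - v72 x1 x2
theorem h73 (h : In b E x1 x2) : Enc S E (t73 b) (v73 x1 x2) := enc_sub (h71 h) (h72 h)

def t74 (b : Bx) : TM := tneg (t70 b)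
noncomputable def v74 (x1 x2 : ℝ) : ℝ := -(v70 x1 x2)
theorem h74 (h : In b E x1 x2) : Enc S E (t74 b) (v74 x1 x2) := enc_neg (h70 h)

def t75 (b : Bx) : TM := tscale 3 2 (t34 b)
noncomputable def v75 (x1 x2 : ℝ) : ℝ := ((3 : ℕ) : ℝ) / ((2 : ℕ) : ℝ) * v34 x1 x2
theorem h75 (h : In b E x1 x2) : Enc S E (t75 b) (v75 x1 x2) := enc_scale 3 (by norm_num) (h34 h)

def t76 (b : Bx) : TM := tmul S (t3 b) (t13 b)
noncomputable def v76 (x1 x2 : ℝ) : ℝ := v3 x1 x2 * v13 x1 x2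
theorem h76 (h : In b E x1 x2) : Enc S E (t76 b) (v76 x1 x2) := enc_mul hS (h3 h) (h13 h)

def t77 (b : Bx) : TM := tsub (t75 b) (t76 b)
noncomputable def v77 (x1 x2 : ℝ) : ℝ := v75 x1 x2 - v76 x1 x2
theorem h77 (h : In b E x1 x2) : Enc S E (t77 b) (v77 x1 x2) := enc_sub (h75 h) (h76 h)

def t78 (b : Bx) : TM := tsub (t77 b) (t50 b)
noncomputable def v78 (x1 x2 : ℝ) : ℝ := v77 x1 x2 - v50 x1 x2
theorem h78 (h : In b E x1 x2) : Enc S E (t78 b) (v78 x1 x2) := enc_sub (h77 h) (h50 h)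

def t79 (b : Bx) : TM := tmul S (t0 b) (t78 b)
noncomputable def v79 (x1 x2 : ℝ) : ℝ := v0 x1 x2 * v78 x1 x2
theorem h79 (h : In b E x1 x2) : Enc S E (t79 b) (v79 x1 x2) := enc_mul hS (h0 h) (h78 h)

def t80 (_b : Bx) : TM := tconst (Nat.div (Nat.mul 1 S) 16) 0 1
noncomputable def v80 (_x1 _x2 : ℝ) : ℝ := ((1 : ℕ) : ℝ) / ((16 : ℕ) : ℝ)
theorem h80 (_h : In b E x1 x2) : Enc S E (t80 b) (v80 x1 x2) := enc_rat E 1 (by norm_num)

def t81 (b : Bx) : TM := tsub (t80 b) (t79 b)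
noncomputable def v81 (x1 x2 : ℝ) : ℝ := v80 x1 x2 - v79 x1 x2
theorem h81 (h : In b E x1 x2) : Enc S E (t81 b) (v81 x1 x2) := enc_sub (h80 h) (h79 h)

def t82 (b : Bx) : TM := tadd (t80 b) (t79 b)
noncomputable def v82 (x1 x2 : ℝ) : ℝ := v80 x1 x2 + v79 x1 x2
theorem h82 (h : In b E x1 x2) : Enc S E (t82 b) (v82 x1 x2) := enc_add (h80 h) (h79 h)

def t83 (_b : Bx) : TM := tconst (Nat.div (Nat.mul 49 S) 125) 0 1
noncomputable def v83 (_x1 _x2 : ℝ) : ℝ := ((49 : ℕ) : ℝ) / ((125 : ℕ) : ℝ)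
theorem h83 (_h : In b E x1 x2) : Enc S E (t83 b) (v83 x1 x2) := enc_rat E 49 (by norm_num)

def t84 (b : Bx) : TM := tinv S (t3 b)
noncomputable def v84 (x1 x2 : ℝ) : ℝ := (v3 x1 x2)⁻¹
theorem h84 (h : In b E x1 x2) : Enc S E (t84 b) (v84 x1 x2) := enc_inv hS (h3 h)

def t85 (b : Bx) : TM := tmul S (t83 b) (t84 b)
noncomputable def v85 (x1 x2 : ℝ) : ℝ := v83 x1 x2 * v84 x1 x2
theorem h85 (h : In b E x1 x2) : Enc S E (t85 b) (v85 x1 x2) := enc_mul hS (h83 h) (h84 h)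

def t86 (b : Bx) : TM := tadd (t2 b) (t23 b)
noncomputable def v86 (x1 x2 : ℝ) : ℝ := v2 x1 x2 + v23 x1 x2
theorem h86 (h : In b E x1 x2) : Enc S E (t86 b) (v86 x1 x2) := enc_add (h2 h) (h23 h)

def t87 (b : Bx) : TM := tsq S (t54 b)
noncomputable def v87 (x1 x2 : ℝ) : ℝ := (v54 x1 x2) ^ 2
theorem h87 (h : In b E x1 x2) : Enc S E (t87 b) (v87 x1 x2) := enc_sq hS (h54 h)

def t88 (b : Bx) : TM := tsub (t4 b) (t87 b)
noncomputable def v88 (x1 x2 : ℝ) : ℝ := v4 x1 x2 - v87 x1 x2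
theorem h88 (h : In b E x1 x2) : Enc S E (t88 b) (v88 x1 x2) := enc_sub (h4 h) (h87 h)

def t89 (b : Bx) : TM := tsqrt S (t88 b)
noncomputable def v89 (x1 x2 : ℝ) : ℝ := Real.sqrt (v88 x1 x2)
theorem h89 (h : In b E x1 x2) : Enc S E (t89 b) (v89 x1 x2) := enc_sqrt hS (h88 h)

def t90 (b : Bx) : TM := tadd (t89 b) (t29 b)
noncomputable def v90 (x1 x2 : ℝ) : ℝ := v89 x1 x2 + v29 x1 x2
theorem h90 (h : In b E x1 x2) : Enc S E (t90 b) (v90 x1 x2) := enc_add (h89 h) (h29 h)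

def t91 (b : Bx) : TM := tinv S (t90 b)
noncomputable def v91 (x1 x2 : ℝ) : ℝ := (v90 x1 x2)⁻¹
theorem h91 (h : In b E x1 x2) : Enc S E (t91 b) (v91 x1 x2) := enc_inv hS (h90 h)

def t92 (b : Bx) : TM := tmul S (t86 b) (t91 b)
noncomputable def v92 (x1 x2 : ℝ) : ℝ := v86 x1 x2 * v91 x1 x2
theorem h92 (h : In b E x1 x2) : Enc S E (t92 b) (v92 x1 x2) := enc_mul hS (h86 h) (h91 h)

def t93 (b : Bx) : TM := tsq S (t23 b)
noncomputable def v93 (x1 x2 : ℝ) : ℝ := (v23 x1 x2) ^ 2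
theorem h93 (h : In b E x1 x2) : Enc S E (t93 b) (v93 x1 x2) := enc_sq hS (h23 h)

def t94 (b : Bx) : TM := tsub (t4 b) (t93 b)
noncomputable def v94 (x1 x2 : ℝ) : ℝ := v4 x1 x2 - v93 x1 x2
theorem h94 (h : In b E x1 x2) : Enc S E (t94 b) (v94 x1 x2) := enc_sub (h4 h) (h93 h)

def t95 (b : Bx) : TM := tsqrt S (t94 b)
noncomputable def v95 (x1 x2 : ℝ) : ℝ := Real.sqrt (v94 x1 x2)
theorem h95 (h : In b E x1 x2) : Enc S E (t95 b) (v95 x1 x2) := enc_sqrt hS (h94 h)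

def t96 (b : Bx) : TM := tadd (t4 b) (t95 b)
noncomputable def v96 (x1 x2 : ℝ) : ℝ := v4 x1 x2 + v95 x1 x2
theorem h96 (h : In b E x1 x2) : Enc S E (t96 b) (v96 x1 x2) := enc_add (h4 h) (h95 h)

def t97 (b : Bx) : TM := tinv S (t96 b)
noncomputable def v97 (x1 x2 : ℝ) : ℝ := (v96 x1 x2)⁻¹
theorem h97 (h : In b E x1 x2) : Enc S E (t97 b) (v97 x1 x2) := enc_inv hS (h96 h)

def t98 (b : Bx) : TM := tmul S (t23 b) (t97 b)
noncomputable def v98 (x1 x2 : ℝ) : ℝ := v23 x1 x2 * v97 x1 x2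
theorem h98 (h : In b E x1 x2) : Enc S E (t98 b) (v98 x1 x2) := enc_mul hS (h23 h) (h97 h)

def t99 (b : Bx) : TM := tadd (t92 b) (t98 b)
noncomputable def v99 (x1 x2 : ℝ) : ℝ := v92 x1 x2 + v98 x1 x2
theorem h99 (h : In b E x1 x2) : Enc S E (t99 b) (v99 x1 x2) := enc_add (h92 h) (h98 h)

def t100 (b : Bx) : TM := tscale 1 2 (t99 b)
noncomputable def v100 (x1 x2 : ℝ) : ℝ := ((1 : ℕ) : ℝ) / ((2 : ℕ) : ℝ) * v99 x1 x2
theorem h100 (h : In b E x1 x2) : Enc S E (t100 b) (v100 x1 x2) := enc_scale 1 (by norm_num) (h99 h)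

def t101 (b : Bx) : TM := tneg (t100 b)
noncomputable def v101 (x1 x2 : ℝ) : ℝ := -(v100 x1 x2)
theorem h101 (h : In b E x1 x2) : Enc S E (t101 b) (v101 x1 x2) := enc_neg (h100 h)

def t102 (b : Bx) : TM := tmul S (t85 b) (t23 b)
noncomputable def v102 (x1 x2 : ℝ) : ℝ := v85 x1 x2 * v23 x1 x2
theorem h102 (h : In b E x1 x2) : Enc S E (t102 b) (v102 x1 x2) := enc_mul hS (h85 h) (h23 h)

def t103 (b : Bx) : TM := tsub (t4 b) (t102 b)
noncomputable def v103 (x1 x2 : ℝ) : ℝ := v4 x1 x2 - v102 x1 x2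
theorem h103 (h : In b E x1 x2) : Enc S E (t103 b) (v103 x1 x2) := enc_sub (h4 h) (h102 h)

def t104 (b : Bx) : TM := tmul S (t101 b) (t103 b)
noncomputable def v104 (x1 x2 : ℝ) : ℝ := v101 x1 x2 * v103 x1 x2
theorem h104 (h : In b E x1 x2) : Enc S E (t104 b) (v104 x1 x2) := enc_mul hS (h101 h) (h103 h)

def t105 (b : Bx) : TM := tscale 1 2 (t85 b)
noncomputable def v105 (x1 x2 : ℝ) : ℝ := ((1 : ℕ) : ℝ) / ((2 : ℕ) : ℝ) * v85 x1 x2
theorem h105 (h : In b E x1 x2) : Enc S E (t105 b) (v105 x1 x2) := enc_scale 1 (by norm_num) (h85 h)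

def t106 (b : Bx) : TM := tsub (t104 b) (t105 b)
noncomputable def v106 (x1 x2 : ℝ) : ℝ := v104 x1 x2 - v105 x1 x2
theorem h106 (h : In b E x1 x2) : Enc S E (t106 b) (v106 x1 x2) := enc_sub (h104 h) (h105 h)

def t107 (b : Bx) : TM := tneg (t92 b)
noncomputable def v107 (x1 x2 : ℝ) : ℝ := -(v92 x1 x2)
theorem h107 (h : In b E x1 x2) : Enc S E (t107 b) (v107 x1 x2) := enc_neg (h92 h)

def t108 (b : Bx) : TM := tsub (t106 b) (t107 b)
noncomputable def v108 (x1 x2 : ℝ) : ℝ := v106 x1 x2 - v107 x1 x2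
theorem h108 (h : In b E x1 x2) : Enc S E (t108 b) (v108 x1 x2) := enc_sub (h106 h) (h107 h)

def t109 (b : Bx) : TM := tsub (t101 b) (t107 b)
noncomputable def v109 (x1 x2 : ℝ) : ℝ := v101 x1 x2 - v107 x1 x2
theorem h109 (h : In b E x1 x2) : Enc S E (t109 b) (v109 x1 x2) := enc_sub (h101 h) (h107 h)

def t110 (b : Bx) : TM := tinv S (t109 b)
noncomputable def v110 (x1 x2 : ℝ) : ℝ := (v109 x1 x2)⁻¹
theorem h110 (h : In b E x1 x2) : Enc S E (t110 b) (v110 x1 x2) := enc_inv hS (h109 h)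

def t111 (b : Bx) : TM := tmul S (t108 b) (t110 b)
noncomputable def v111 (x1 x2 : ℝ) : ℝ := v108 x1 x2 * v110 x1 x2
theorem h111 (h : In b E x1 x2) : Enc S E (t111 b) (v111 x1 x2) := enc_mul hS (h108 h) (h110 h)

def t112 (b : Bx) : TM := tmul S (t1 b) (t107 b)
noncomputable def v112 (x1 x2 : ℝ) : ℝ := v1 x1 x2 * v107 x1 x2
theorem h112 (h : In b E x1 x2) : Enc S E (t112 b) (v112 x1 x2) := enc_mul hS (h1 h) (h107 h)

def t113 (b : Bx) : TM := tsub (t53 b) (t112 b)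
noncomputable def v113 (x1 x2 : ℝ) : ℝ := v53 x1 x2 - v112 x1 x2
theorem h113 (h : In b E x1 x2) : Enc S E (t113 b) (v113 x1 x2) := enc_sub (h53 h) (h112 h)

def t114 (b : Bx) : TM := tmul S (t111 b) (t113 b)
noncomputable def v114 (x1 x2 : ℝ) : ℝ := v111 x1 x2 * v113 x1 x2
theorem h114 (h : In b E x1 x2) : Enc S E (t114 b) (v114 x1 x2) := enc_mul hS (h111 h) (h113 h)

def t115 (b : Bx) : TM := tadd (t112 b) (t114 b)
noncomputable def v115 (x1 x2 : ℝ) : ℝ := v112 x1 x2 + v114 x1 x2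
theorem h115 (h : In b E x1 x2) : Enc S E (t115 b) (v115 x1 x2) := enc_add (h112 h) (h114 h)

def t116 (b : Bx) : TM := tneg (t115 b)
noncomputable def v116 (x1 x2 : ℝ) : ℝ := -(v115 x1 x2)
theorem h116 (h : In b E x1 x2) : Enc S E (t116 b) (v116 x1 x2) := enc_neg (h115 h)

def t119 (b : Bx) : TM := tneg (t29 b)
noncomputable def v119 (x1 x2 : ℝ) : ℝ := -(v29 x1 x2)
theorem h119 (h : In b E x1 x2) : Enc S E (t119 b) (v119 x1 x2) := enc_neg (h29 h)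

def t120 (b : Bx) : TM := tmul S (t0 b) (t116 b)
noncomputable def v120 (x1 x2 : ℝ) : ℝ := v0 x1 x2 * v116 x1 x2
theorem h120 (h : In b E x1 x2) : Enc S E (t120 b) (v120 x1 x2) := enc_mul hS (h0 h) (h116 h)

def t121 (b : Bx) : TM := tadd (t119 b) (t120 b)
noncomputable def v121 (x1 x2 : ℝ) : ℝ := v119 x1 x2 + v120 x1 x2
theorem h121 (h : In b E x1 x2) : Enc S E (t121 b) (v121 x1 x2) := enc_add (h119 h) (h120 h)

def t122 (b : Bx) : TM := tmul S (t0 b) (t51 b)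
noncomputable def v122 (x1 x2 : ℝ) : ℝ := v0 x1 x2 * v51 x1 x2
theorem h122 (h : In b E x1 x2) : Enc S E (t122 b) (v122 x1 x2) := enc_mul hS (h0 h) (h51 h)

def t123 (b : Bx) : TM := tsub (t51 b) (t49 b)
noncomputable def v123 (x1 x2 : ℝ) : ℝ := v51 x1 x2 - v49 x1 x2
theorem h123 (h : In b E x1 x2) : Enc S E (t123 b) (v123 x1 x2) := enc_sub (h51 h) (h49 h)

def t124 (b : Bx) : TM := tsub (t123 b) (t116 b)
noncomputable def v124 (x1 x2 : ℝ) : ℝ := v123 x1 x2 - v116 x1 x2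
theorem h124 (h : In b E x1 x2) : Enc S E (t124 b) (v124 x1 x2) := enc_sub (h123 h) (h116 h)

def t125 (b : Bx) : TM := tneg (t121 b)
noncomputable def v125 (x1 x2 : ℝ) : ℝ := -(v121 x1 x2)
theorem h125 (h : In b E x1 x2) : Enc S E (t125 b) (v125 x1 x2) := enc_neg (h121 h)

def t127 (b : Bx) : TM := tneg (t113 b)
noncomputable def v127 (x1 x2 : ℝ) : ℝ := -(v113 x1 x2)
theorem h127 (h : In b E x1 x2) : Enc S E (t127 b) (v127 x1 x2) := enc_neg (h113 h)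

def t128 (b : Bx) : TM := tmul S (t1 b) (t101 b)
noncomputable def v128 (x1 x2 : ℝ) : ℝ := v1 x1 x2 * v101 x1 x2
theorem h128 (h : In b E x1 x2) : Enc S E (t128 b) (v128 x1 x2) := enc_mul hS (h1 h) (h101 h)

def t129 (b : Bx) : TM := tsub (t128 b) (t53 b)
noncomputable def v129 (x1 x2 : ℝ) : ℝ := v128 x1 x2 - v53 x1 x2
theorem h129 (h : In b E x1 x2) : Enc S E (t129 b) (v129 x1 x2) := enc_sub (h128 h) (h53 h)

def t130 (b : Bx) : TM := tneg (t129 b)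
noncomputable def v130 (x1 x2 : ℝ) : ℝ := -(v129 x1 x2)
theorem h130 (h : In b E x1 x2) : Enc S E (t130 b) (v130 x1 x2) := enc_neg (h129 h)

def t131 (b : Bx) : TM := tmul S (t3 b) (t124 b)
noncomputable def v131 (x1 x2 : ℝ) : ℝ := v3 x1 x2 * v124 x1 x2
theorem h131 (h : In b E x1 x2) : Enc S E (t131 b) (v131 x1 x2) := enc_mul hS (h3 h) (h124 h)

def t132 (b : Bx) : TM := tmul S (t0 b) (t124 b)
noncomputable def v132 (x1 x2 : ℝ) : ℝ := v0 x1 x2 * v124 x1 x2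
theorem h132 (h : In b E x1 x2) : Enc S E (t132 b) (v132 x1 x2) := enc_mul hS (h0 h) (h124 h)

def t133 (b : Bx) : TM := tadd (t132 b) (t122 b)
noncomputable def v133 (x1 x2 : ℝ) : ℝ := v132 x1 x2 + v122 x1 x2
theorem h133 (h : In b E x1 x2) : Enc S E (t133 b) (v133 x1 x2) := enc_add (h132 h) (h122 h)

def t134 (b : Bx) : TM := tmul S (t1 b) (t133 b)
noncomputable def v134 (x1 x2 : ℝ) : ℝ := v1 x1 x2 * v133 x1 x2
theorem h134 (h : In b E x1 x2) : Enc S E (t134 b) (v134 x1 x2) := enc_mul hS (h1 h) (h133 h)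

def t135 (b : Bx) : TM := tsub (t131 b) (t134 b)
noncomputable def v135 (x1 x2 : ℝ) : ℝ := v131 x1 x2 - v134 x1 x2
theorem h135 (h : In b E x1 x2) : Enc S E (t135 b) (v135 x1 x2) := enc_sub (h131 h) (h134 h)

def t136 (b : Bx) : TM := tsub (t132 b) (t125 b)
noncomputable def v136 (x1 x2 : ℝ) : ℝ := v132 x1 x2 - v125 x1 x2
theorem h136 (h : In b E x1 x2) : Enc S E (t136 b) (v136 x1 x2) := enc_sub (h132 h) (h125 h)

def t137 (b : Bx) : TM := tmul S (t11 b) (t136 b)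
noncomputable def v137 (x1 x2 : ℝ) : ℝ := v11 x1 x2 * v136 x1 x2
theorem h137 (h : In b E x1 x2) : Enc S E (t137 b) (v137 x1 x2) := enc_mul hS (h11 h) (h136 h)

def t138 (b : Bx) : TM := tsub (t135 b) (t137 b)
noncomputable def v138 (x1 x2 : ℝ) : ℝ := v135 x1 x2 - v137 x1 x2
theorem h138 (h : In b E x1 x2) : Enc S E (t138 b) (v138 x1 x2) := enc_sub (h135 h) (h137 h)

def t139 (b : Bx) : TM := tmul S (t138 b) (t15 b)
noncomputable def v139 (x1 x2 : ℝ) : ℝ := v138 x1 x2 * v15 x1 x2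
theorem h139 (h : In b E x1 x2) : Enc S E (t139 b) (v139 x1 x2) := enc_mul hS (h138 h) (h15 h)

def t140 (b : Bx) : TM := tnat 2 (t4 b)
noncomputable def v140 (x1 x2 : ℝ) : ℝ := ((2 : ℕ) : ℝ) * v4 x1 x2
theorem h140 (h : In b E x1 x2) : Enc S E (t140 b) (v140 x1 x2) := enc_nat 2 (h4 h)

def t141 (b : Bx) : TM := tinv S (t140 b)
noncomputable def v141 (x1 x2 : ℝ) : ℝ := (v140 x1 x2)⁻¹
theorem h141 (h : In b E x1 x2) : Enc S E (t141 b) (v141 x1 x2) := enc_inv hS (h140 h)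

def t142 (b : Bx) : TM := tmul S (t60 b) (t141 b)
noncomputable def v142 (x1 x2 : ℝ) : ℝ := v60 x1 x2 * v141 x1 x2
theorem h142 (h : In b E x1 x2) : Enc S E (t142 b) (v142 x1 x2) := enc_mul hS (h60 h) (h141 h)

def t143 (b : Bx) : TM := tadd (t139 b) (t142 b)
noncomputable def v143 (x1 x2 : ℝ) : ℝ := v139 x1 x2 + v142 x1 x2
theorem h143 (h : In b E x1 x2) : Enc S E (t143 b) (v143 x1 x2) := enc_add (h139 h) (h142 h)

def t144 (b : Bx) : TM := tsub (t132 b) (t122 b)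
noncomputable def v144 (x1 x2 : ℝ) : ℝ := v132 x1 x2 - v122 x1 x2
theorem h144 (h : In b E x1 x2) : Enc S E (t144 b) (v144 x1 x2) := enc_sub (h132 h) (h122 h)

def t145 (b : Bx) : TM := tmul S (t1 b) (t144 b)
noncomputable def v145 (x1 x2 : ℝ) : ℝ := v1 x1 x2 * v144 x1 x2
theorem h145 (h : In b E x1 x2) : Enc S E (t145 b) (v145 x1 x2) := enc_mul hS (h1 h) (h144 h)

def t146 (b : Bx) : TM := tadd (t132 b) (t125 b)
noncomputable def v146 (x1 x2 : ℝ) : ℝ := v132 x1 x2 + v125 x1 x2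
theorem h146 (h : In b E x1 x2) : Enc S E (t146 b) (v146 x1 x2) := enc_add (h132 h) (h125 h)

def t147 (b : Bx) : TM := tmul S (t11 b) (t146 b)
noncomputable def v147 (x1 x2 : ℝ) : ℝ := v11 x1 x2 * v146 x1 x2
theorem h147 (h : In b E x1 x2) : Enc S E (t147 b) (v147 x1 x2) := enc_mul hS (h11 h) (h146 h)

def t148 (b : Bx) : TM := tadd (t145 b) (t147 b)
noncomputable def v148 (x1 x2 : ℝ) : ℝ := v145 x1 x2 + v147 x1 x2
theorem h148 (h : In b E x1 x2) : Enc S E (t148 b) (v148 x1 x2) := enc_add (h145 h) (h147 h)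

def t149 (b : Bx) : TM := tsub (t148 b) (t131 b)
noncomputable def v149 (x1 x2 : ℝ) : ℝ := v148 x1 x2 - v131 x1 x2
theorem h149 (h : In b E x1 x2) : Enc S E (t149 b) (v149 x1 x2) := enc_sub (h148 h) (h131 h)

def t150 (b : Bx) : TM := tmul S (t149 b) (t15 b)
noncomputable def v150 (x1 x2 : ℝ) : ℝ := v149 x1 x2 * v15 x1 x2
theorem h150 (h : In b E x1 x2) : Enc S E (t150 b) (v150 x1 x2) := enc_mul hS (h149 h) (h15 h)

def t151 (b : Bx) : TM := tadd (t150 b) (t142 b)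
noncomputable def v151 (x1 x2 : ℝ) : ℝ := v150 x1 x2 + v142 x1 x2
theorem h151 (h : In b E x1 x2) : Enc S E (t151 b) (v151 x1 x2) := enc_add (h150 h) (h142 h)

def t152 (b : Bx) : TM := tmul S (t0 b) (t11 b)
noncomputable def v152 (x1 x2 : ℝ) : ℝ := v0 x1 x2 * v11 x1 x2
theorem h152 (h : In b E x1 x2) : Enc S E (t152 b) (v152 x1 x2) := enc_mul hS (h0 h) (h11 h)

def t153 (b : Bx) : TM := tsub (t3 b) (t152 b)
noncomputable def v153 (x1 x2 : ℝ) : ℝ := v3 x1 x2 - v152 x1 x2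
theorem h153 (h : In b E x1 x2) : Enc S E (t153 b) (v153 x1 x2) := enc_sub (h3 h) (h152 h)

def t154 (b : Bx) : TM := tmul S (t122 b) (t153 b)
noncomputable def v154 (x1 x2 : ℝ) : ℝ := v122 x1 x2 * v153 x1 x2
theorem h154 (h : In b E x1 x2) : Enc S E (t154 b) (v154 x1 x2) := enc_mul hS (h122 h) (h153 h)

def t155 (b : Bx) : TM := tsub (t3 b) (t23 b)
noncomputable def v155 (x1 x2 : ℝ) : ℝ := v3 x1 x2 - v23 x1 x2
theorem h155 (h : In b E x1 x2) : Enc S E (t155 b) (v155 x1 x2) := enc_sub (h3 h) (h23 h)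

def t156 (b : Bx) : TM := tmul S (t125 b) (t155 b)
noncomputable def v156 (x1 x2 : ℝ) : ℝ := v125 x1 x2 * v155 x1 x2
theorem h156 (h : In b E x1 x2) : Enc S E (t156 b) (v156 x1 x2) := enc_mul hS (h125 h) (h155 h)

def t157 (b : Bx) : TM := tsub (t154 b) (t156 b)
noncomputable def v157 (x1 x2 : ℝ) : ℝ := v154 x1 x2 - v156 x1 x2
theorem h157 (h : In b E x1 x2) : Enc S E (t157 b) (v157 x1 x2) := enc_sub (h154 h) (h156 h)

def t158 (b : Bx) : TM := tsub (t155 b) (t152 b)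
noncomputable def v158 (x1 x2 : ℝ) : ℝ := v155 x1 x2 - v152 x1 x2
theorem h158 (h : In b E x1 x2) : Enc S E (t158 b) (v158 x1 x2) := enc_sub (h155 h) (h152 h)

def t159 (b : Bx) : TM := tadd (t125 b) (t122 b)
noncomputable def v159 (x1 x2 : ℝ) : ℝ := v125 x1 x2 + v122 x1 x2
theorem h159 (h : In b E x1 x2) : Enc S E (t159 b) (v159 x1 x2) := enc_add (h125 h) (h122 h)

def t160 (b : Bx) : TM := tsub (t159 b) (t132 b)
noncomputable def v160 (x1 x2 : ℝ) : ℝ := v159 x1 x2 - v132 x1 x2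
theorem h160 (h : In b E x1 x2) : Enc S E (t160 b) (v160 x1 x2) := enc_sub (h159 h) (h132 h)

def t161 (b : Bx) : TM := tmul S (t158 b) (t160 b)
noncomputable def v161 (x1 x2 : ℝ) : ℝ := v158 x1 x2 * v160 x1 x2
theorem h161 (h : In b E x1 x2) : Enc S E (t161 b) (v161 x1 x2) := enc_mul hS (h158 h) (h160 h)

def t162 (b : Bx) : TM := tmul S (t4 b) (t161 b)
noncomputable def v162 (x1 x2 : ℝ) : ℝ := v4 x1 x2 * v161 x1 x2
theorem h162 (h : In b E x1 x2) : Enc S E (t162 b) (v162 x1 x2) := enc_mul hS (h4 h) (h161 h)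

def t163 (b : Bx) : TM := tadd (t157 b) (t162 b)
noncomputable def v163 (x1 x2 : ℝ) : ℝ := v157 x1 x2 + v162 x1 x2
theorem h163 (h : In b E x1 x2) : Enc S E (t163 b) (v163 x1 x2) := enc_add (h157 h) (h162 h)

def t164 (b : Bx) : TM := tmul S (t163 b) (t15 b)
noncomputable def v164 (x1 x2 : ℝ) : ℝ := v163 x1 x2 * v15 x1 x2
theorem h164 (h : In b E x1 x2) : Enc S E (t164 b) (v164 x1 x2) := enc_mul hS (h163 h) (h15 h)

def t165 (b : Bx) : TM := tmul S (t0 b) (t142 b)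
noncomputable def v165 (x1 x2 : ℝ) : ℝ := v0 x1 x2 * v142 x1 x2
theorem h165 (h : In b E x1 x2) : Enc S E (t165 b) (v165 x1 x2) := enc_mul hS (h0 h) (h142 h)

def t166 (b : Bx) : TM := tadd (t164 b) (t165 b)
noncomputable def v166 (x1 x2 : ℝ) : ℝ := v164 x1 x2 + v165 x1 x2
theorem h166 (h : In b E x1 x2) : Enc S E (t166 b) (v166 x1 x2) := enc_add (h164 h) (h165 h)

def t167 (_b : Bx) : TM := tconst (Nat.mul 2 S) 0 0
noncomputable def v167 (_x1 _x2 : ℝ) : ℝ := ((2 : ℕ) : ℝ)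
theorem h167 (_h : In b E x1 x2) : Enc S E (t167 b) (v167 x1 x2) := enc_nc E 2

def t168 (b : Bx) : TM := tadd (t167 b) (t2 b)
noncomputable def v168 (x1 x2 : ℝ) : ℝ := v167 x1 x2 + v2 x1 x2
theorem h168 (h : In b E x1 x2) : Enc S E (t168 b) (v168 x1 x2) := enc_add (h167 h) (h2 h)

def t169 (b : Bx) : TM := tscale 1 4 (t168 b)
noncomputable def v169 (x1 x2 : ℝ) : ℝ := ((1 : ℕ) : ℝ) / ((4 : ℕ) : ℝ) * v168 x1 x2
theorem h169 (h : In b E x1 x2) : Enc S E (t169 b) (v169 x1 x2) := enc_scale 1 (by norm_num) (h168 h)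

def t170 (b : Bx) : TM := tmul S (t60 b) (t169 b)
noncomputable def v170 (x1 x2 : ℝ) : ℝ := v60 x1 x2 * v169 x1 x2
theorem h170 (h : In b E x1 x2) : Enc S E (t170 b) (v170 x1 x2) := enc_mul hS (h60 h) (h169 h)

def t171 (b : Bx) : TM := tmul S (t0 b) (t143 b)
noncomputable def v171 (x1 x2 : ℝ) : ℝ := v0 x1 x2 * v143 x1 x2
theorem h171 (h : In b E x1 x2) : Enc S E (t171 b) (v171 x1 x2) := enc_mul hS (h0 h) (h143 h)

def t172 (b : Bx) : TM := tphi S (t171 b) (t166 b)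
noncomputable def v172 (x1 x2 : ℝ) : ℝ := Pool.Agent.Strip051.LC.Line.phi (v171 x1 x2) (v166 x1 x2)
theorem h172 (h : In b E x1 x2) : Enc S E (t172 b) (v172 x1 x2) := enc_phi hS (h171 h) (h166 h)

def t173 (b : Bx) : TM := tmul S (t1 b) (t172 b)
noncomputable def v173 (x1 x2 : ℝ) : ℝ := v1 x1 x2 * v172 x1 x2
theorem h173 (h : In b E x1 x2) : Enc S E (t173 b) (v173 x1 x2) := enc_mul hS (h1 h) (h172 h)

def t174 (b : Bx) : TM := tmul S (t0 b) (t151 b)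
noncomputable def v174 (x1 x2 : ℝ) : ℝ := v0 x1 x2 * v151 x1 x2
theorem h174 (h : In b E x1 x2) : Enc S E (t174 b) (v174 x1 x2) := enc_mul hS (h0 h) (h151 h)

def t175 (b : Bx) : TM := tphi S (t166 b) (t174 b)
noncomputable def v175 (x1 x2 : ℝ) : ℝ := Pool.Agent.Strip051.LC.Line.phi (v166 x1 x2) (v174 x1 x2)
theorem h175 (h : In b E x1 x2) : Enc S E (t175 b) (v175 x1 x2) := enc_phi hS (h166 h) (h174 h)

def t176 (b : Bx) : TM := tmul S (t11 b) (t175 b)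
noncomputable def v176 (x1 x2 : ℝ) : ℝ := v11 x1 x2 * v175 x1 x2
theorem h176 (h : In b E x1 x2) : Enc S E (t176 b) (v176 x1 x2) := enc_mul hS (h11 h) (h175 h)

def t177 (b : Bx) : TM := tadd (t173 b) (t176 b)
noncomputable def v177 (x1 x2 : ℝ) : ℝ := v173 x1 x2 + v176 x1 x2
theorem h177 (h : In b E x1 x2) : Enc S E (t177 b) (v177 x1 x2) := enc_add (h173 h) (h176 h)

def t178 (b : Bx) : TM := tphi S (t151 b) (t143 b)
noncomputable def v178 (x1 x2 : ℝ) : ℝ := Pool.Agent.Strip051.LC.Line.phi (v151 x1 x2) (v143 x1 x2)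
theorem h178 (h : In b E x1 x2) : Enc S E (t178 b) (v178 x1 x2) := enc_phi hS (h151 h) (h143 h)

def t179 (b : Bx) : TM := tmul S (t158 b) (t178 b)
noncomputable def v179 (x1 x2 : ℝ) : ℝ := v158 x1 x2 * v178 x1 x2
theorem h179 (h : In b E x1 x2) : Enc S E (t179 b) (v179 x1 x2) := enc_mul hS (h158 h) (h178 h)

def t180 (b : Bx) : TM := tadd (t177 b) (t179 b)
noncomputable def v180 (x1 x2 : ℝ) : ℝ := v177 x1 x2 + v179 x1 x2
theorem h180 (h : In b E x1 x2) : Enc S E (t180 b) (v180 x1 x2) := enc_add (h177 h) (h179 h)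

def t181 (b : Bx) : TM := tmul S (t4 b) (t180 b)
noncomputable def v181 (x1 x2 : ℝ) : ℝ := v4 x1 x2 * v180 x1 x2
theorem h181 (h : In b E x1 x2) : Enc S E (t181 b) (v181 x1 x2) := enc_mul hS (h4 h) (h180 h)

def t182 (b : Bx) : TM := tsub (t170 b) (t181 b)
noncomputable def v182 (x1 x2 : ℝ) : ℝ := v170 x1 x2 - v181 x1 x2
theorem h182 (h : In b E x1 x2) : Enc S E (t182 b) (v182 x1 x2) := enc_sub (h170 h) (h181 h)

def t183 (b : Bx) : TM := tsub (t54 b) (t3 b)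
noncomputable def v183 (x1 x2 : ℝ) : ℝ := v54 x1 x2 - v3 x1 x2
theorem h183 (h : In b E x1 x2) : Enc S E (t183 b) (v183 x1 x2) := enc_sub (h54 h) (h3 h)

def t184 (b : Bx) : TM := tsq S (t183 b)
noncomputable def v184 (x1 x2 : ℝ) : ℝ := (v183 x1 x2) ^ 2
theorem h184 (h : In b E x1 x2) : Enc S E (t184 b) (v184 x1 x2) := enc_sq hS (h183 h)

def t185 (b : Bx) : TM := tsub (t4 b) (t184 b)
noncomputable def v185 (x1 x2 : ℝ) : ℝ := v4 x1 x2 - v184 x1 x2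
theorem h185 (h : In b E x1 x2) : Enc S E (t185 b) (v185 x1 x2) := enc_sub (h4 h) (h184 h)

def t186 (b : Bx) : TM := tsqrt S (t185 b)
noncomputable def v186 (x1 x2 : ℝ) : ℝ := Real.sqrt (v185 x1 x2)
theorem h186 (h : In b E x1 x2) : Enc S E (t186 b) (v186 x1 x2) := enc_sqrt hS (h185 h)

def t187 (b : Bx) : TM := tsub (t186 b) (t29 b)
noncomputable def v187 (x1 x2 : ℝ) : ℝ := v186 x1 x2 - v29 x1 x2
theorem h187 (h : In b E x1 x2) : Enc S E (t187 b) (v187 x1 x2) := enc_sub (h186 h) (h29 h)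

def t188 (b : Bx) : TM := tsub (t6 b) (t87 b)
noncomputable def v188 (x1 x2 : ℝ) : ℝ := v6 x1 x2 - v87 x1 x2
theorem h188 (h : In b E x1 x2) : Enc S E (t188 b) (v188 x1 x2) := enc_sub (h6 h) (h87 h)

def t189 (b : Bx) : TM := tsqrt S (t188 b)
noncomputable def v189 (x1 x2 : ℝ) : ℝ := Real.sqrt (v188 x1 x2)
theorem h189 (h : In b E x1 x2) : Enc S E (t189 b) (v189 x1 x2) := enc_sqrt hS (h188 h)

def t190 (b : Bx) : TM := tadd (t187 b) (t189 b)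
noncomputable def v190 (x1 x2 : ℝ) : ℝ := v187 x1 x2 + v189 x1 x2
theorem h190 (h : In b E x1 x2) : Enc S E (t190 b) (v190 x1 x2) := enc_add (h187 h) (h189 h)

def t191 (b : Bx) : TM := tscale 1 2 (t190 b)
noncomputable def v191 (x1 x2 : ℝ) : ℝ := ((1 : ℕ) : ℝ) / ((2 : ℕ) : ℝ) * v190 x1 x2
theorem h191 (h : In b E x1 x2) : Enc S E (t191 b) (v191 x1 x2) := enc_scale 1 (by norm_num) (h190 h)

def t192 (b : Bx) : TM := tmul S (t54 b) (t84 b)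
noncomputable def v192 (x1 x2 : ℝ) : ℝ := v54 x1 x2 * v84 x1 x2
theorem h192 (h : In b E x1 x2) : Enc S E (t192 b) (v192 x1 x2) := enc_mul hS (h54 h) (h84 h)

def t193 (b : Bx) : TM := tsub (t192 b) (t4 b)
noncomputable def v193 (x1 x2 : ℝ) : ℝ := v192 x1 x2 - v4 x1 x2
theorem h193 (h : In b E x1 x2) : Enc S E (t193 b) (v193 x1 x2) := enc_sub (h192 h) (h4 h)

def t194 (b : Bx) : TM := tscale 13 25 (t193 b)
noncomputable def v194 (x1 x2 : ℝ) : ℝ := ((13 : ℕ) : ℝ) / ((25 : ℕ) : ℝ) * v193 x1 x2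
theorem h194 (h : In b E x1 x2) : Enc S E (t194 b) (v194 x1 x2) := enc_scale 13 (by norm_num) (h193 h)

def t195 (_b : Bx) : TM := tconst (Nat.div (Nat.mul 879 S) 1000) 0 1
noncomputable def v195 (_x1 _x2 : ℝ) : ℝ := ((879 : ℕ) : ℝ) / ((1000 : ℕ) : ℝ)
theorem h195 (_h : In b E x1 x2) : Enc S E (t195 b) (v195 x1 x2) := enc_rat E 879 (by norm_num)

def t196 (b : Bx) : TM := tsub (t195 b) (t194 b)
noncomputable def v196 (x1 x2 : ℝ) : ℝ := v195 x1 x2 - v194 x1 x2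
theorem h196 (h : In b E x1 x2) : Enc S E (t196 b) (v196 x1 x2) := enc_sub (h195 h) (h194 h)

def t197 (b : Bx) : TM := tmul S (t191 b) (t196 b)
noncomputable def v197 (x1 x2 : ℝ) : ℝ := v191 x1 x2 * v196 x1 x2
theorem h197 (h : In b E x1 x2) : Enc S E (t197 b) (v197 x1 x2) := enc_mul hS (h191 h) (h196 h)

def t198 (b : Bx) : TM := tadd (t89 b) (t187 b)
noncomputable def v198 (x1 x2 : ℝ) : ℝ := v89 x1 x2 + v187 x1 x2
theorem h198 (h : In b E x1 x2) : Enc S E (t198 b) (v198 x1 x2) := enc_add (h89 h) (h187 h)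

def t199 (b : Bx) : TM := tscale 1 2 (t198 b)
noncomputable def v199 (x1 x2 : ℝ) : ℝ := ((1 : ℕ) : ℝ) / ((2 : ℕ) : ℝ) * v198 x1 x2
theorem h199 (h : In b E x1 x2) : Enc S E (t199 b) (v199 x1 x2) := enc_scale 1 (by norm_num) (h198 h)

def t200 (b : Bx) : TM := tscale 49 125 (t193 b)
noncomputable def v200 (x1 x2 : ℝ) : ℝ := ((49 : ℕ) : ℝ) / ((125 : ℕ) : ℝ) * v193 x1 x2
theorem h200 (h : In b E x1 x2) : Enc S E (t200 b) (v200 x1 x2) := enc_scale 49 (by norm_num) (h193 h)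

def t201 (b : Bx) : TM := tsub (t4 b) (t200 b)
noncomputable def v201 (x1 x2 : ℝ) : ℝ := v4 x1 x2 - v200 x1 x2
theorem h201 (h : In b E x1 x2) : Enc S E (t201 b) (v201 x1 x2) := enc_sub (h4 h) (h200 h)

def t202 (b : Bx) : TM := tmul S (t199 b) (t201 b)
noncomputable def v202 (x1 x2 : ℝ) : ℝ := v199 x1 x2 * v201 x1 x2
theorem h202 (h : In b E x1 x2) : Enc S E (t202 b) (v202 x1 x2) := enc_mul hS (h199 h) (h201 h)

def t203 (b : Bx) : TM := tsub (t197 b) (t202 b)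
noncomputable def v203 (x1 x2 : ℝ) : ℝ := v197 x1 x2 - v202 x1 x2
theorem h203 (h : In b E x1 x2) : Enc S E (t203 b) (v203 x1 x2) := enc_sub (h197 h) (h202 h)

def t204 (b : Bx) : TM := tsub (t191 b) (t199 b)
noncomputable def v204 (x1 x2 : ℝ) : ℝ := v191 x1 x2 - v199 x1 x2
theorem h204 (h : In b E x1 x2) : Enc S E (t204 b) (v204 x1 x2) := enc_sub (h191 h) (h199 h)

def t205 (b : Bx) : TM := tinv S (t204 b)
noncomputable def v205 (x1 x2 : ℝ) : ℝ := (v204 x1 x2)⁻¹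
theorem h205 (h : In b E x1 x2) : Enc S E (t205 b) (v205 x1 x2) := enc_inv hS (h204 h)

def t206 (b : Bx) : TM := tmul S (t203 b) (t205 b)
noncomputable def v206 (x1 x2 : ℝ) : ℝ := v203 x1 x2 * v205 x1 x2
theorem h206 (h : In b E x1 x2) : Enc S E (t206 b) (v206 x1 x2) := enc_mul hS (h203 h) (h205 h)

def t207 (b : Bx) : TM := tmul S (t1 b) (t106 b)
noncomputable def v207 (x1 x2 : ℝ) : ℝ := v1 x1 x2 * v106 x1 x2
theorem h207 (h : In b E x1 x2) : Enc S E (t207 b) (v207 x1 x2) := enc_mul hS (h1 h) (h106 h)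

def t208 (b : Bx) : TM := tsub (t53 b) (t128 b)
noncomputable def v208 (x1 x2 : ℝ) : ℝ := v53 x1 x2 - v128 x1 x2
theorem h208 (h : In b E x1 x2) : Enc S E (t208 b) (v208 x1 x2) := enc_sub (h53 h) (h128 h)

def t209 (b : Bx) : TM := tmul S (t206 b) (t208 b)
noncomputable def v209 (x1 x2 : ℝ) : ℝ := v206 x1 x2 * v208 x1 x2
theorem h209 (h : In b E x1 x2) : Enc S E (t209 b) (v209 x1 x2) := enc_mul hS (h206 h) (h208 h)

def t210 (b : Bx) : TM := tadd (t207 b) (t209 b)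
noncomputable def v210 (x1 x2 : ℝ) : ℝ := v207 x1 x2 + v209 x1 x2
theorem h210 (h : In b E x1 x2) : Enc S E (t210 b) (v210 x1 x2) := enc_add (h207 h) (h209 h)

def t211 (b : Bx) : TM := tneg (t210 b)
noncomputable def v211 (x1 x2 : ℝ) : ℝ := -(v210 x1 x2)
theorem h211 (h : In b E x1 x2) : Enc S E (t211 b) (v211 x1 x2) := enc_neg (h210 h)

def t212 (b : Bx) : TM := tmul S (t0 b) (t211 b)
noncomputable def v212 (x1 x2 : ℝ) : ℝ := v0 x1 x2 * v211 x1 x2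
theorem h212 (h : In b E x1 x2) : Enc S E (t212 b) (v212 x1 x2) := enc_mul hS (h0 h) (h211 h)

def t213 (b : Bx) : TM := tadd (t119 b) (t212 b)
noncomputable def v213 (x1 x2 : ℝ) : ℝ := v119 x1 x2 + v212 x1 x2
theorem h213 (h : In b E x1 x2) : Enc S E (t213 b) (v213 x1 x2) := enc_add (h119 h) (h212 h)

def t214 (b : Bx) : TM := tsub (t123 b) (t211 b)
noncomputable def v214 (x1 x2 : ℝ) : ℝ := v123 x1 x2 - v211 x1 x2
theorem h214 (h : In b E x1 x2) : Enc S E (t214 b) (v214 x1 x2) := enc_sub (h123 h) (h211 h)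

def t215 (b : Bx) : TM := tneg (t213 b)
noncomputable def v215 (x1 x2 : ℝ) : ℝ := -(v213 x1 x2)
theorem h215 (h : In b E x1 x2) : Enc S E (t215 b) (v215 x1 x2) := enc_neg (h213 h)

def t216 (b : Bx) : TM := tneg (t208 b)
noncomputable def v216 (x1 x2 : ℝ) : ℝ := -(v208 x1 x2)
theorem h216 (h : In b E x1 x2) : Enc S E (t216 b) (v216 x1 x2) := enc_neg (h208 h)

def t217 (b : Bx) : TM := tmul S (t3 b) (t214 b)
noncomputable def v217 (x1 x2 : ℝ) : ℝ := v3 x1 x2 * v214 x1 x2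
theorem h217 (h : In b E x1 x2) : Enc S E (t217 b) (v217 x1 x2) := enc_mul hS (h3 h) (h214 h)

def t218 (b : Bx) : TM := tmul S (t0 b) (t214 b)
noncomputable def v218 (x1 x2 : ℝ) : ℝ := v0 x1 x2 * v214 x1 x2
theorem h218 (h : In b E x1 x2) : Enc S E (t218 b) (v218 x1 x2) := enc_mul hS (h0 h) (h214 h)

def t219 (b : Bx) : TM := tadd (t218 b) (t122 b)
noncomputable def v219 (x1 x2 : ℝ) : ℝ := v218 x1 x2 + v122 x1 x2
theorem h219 (h : In b E x1 x2) : Enc S E (t219 b) (v219 x1 x2) := enc_add (h218 h) (h122 h)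

def t220 (b : Bx) : TM := tmul S (t1 b) (t219 b)
noncomputable def v220 (x1 x2 : ℝ) : ℝ := v1 x1 x2 * v219 x1 x2
theorem h220 (h : In b E x1 x2) : Enc S E (t220 b) (v220 x1 x2) := enc_mul hS (h1 h) (h219 h)

def t221 (b : Bx) : TM := tsub (t217 b) (t220 b)
noncomputable def v221 (x1 x2 : ℝ) : ℝ := v217 x1 x2 - v220 x1 x2
theorem h221 (h : In b E x1 x2) : Enc S E (t221 b) (v221 x1 x2) := enc_sub (h217 h) (h220 h)

def t222 (b : Bx) : TM := tsub (t218 b) (t215 b)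
noncomputable def v222 (x1 x2 : ℝ) : ℝ := v218 x1 x2 - v215 x1 x2
theorem h222 (h : In b E x1 x2) : Enc S E (t222 b) (v222 x1 x2) := enc_sub (h218 h) (h215 h)

def t223 (b : Bx) : TM := tmul S (t11 b) (t222 b)
noncomputable def v223 (x1 x2 : ℝ) : ℝ := v11 x1 x2 * v222 x1 x2
theorem h223 (h : In b E x1 x2) : Enc S E (t223 b) (v223 x1 x2) := enc_mul hS (h11 h) (h222 h)

def t224 (b : Bx) : TM := tsub (t221 b) (t223 b)
noncomputable def v224 (x1 x2 : ℝ) : ℝ := v221 x1 x2 - v223 x1 x2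
theorem h224 (h : In b E x1 x2) : Enc S E (t224 b) (v224 x1 x2) := enc_sub (h221 h) (h223 h)

def t225 (b : Bx) : TM := tmul S (t224 b) (t15 b)
noncomputable def v225 (x1 x2 : ℝ) : ℝ := v224 x1 x2 * v15 x1 x2
theorem h225 (h : In b E x1 x2) : Enc S E (t225 b) (v225 x1 x2) := enc_mul hS (h224 h) (h15 h)

def t226 (b : Bx) : TM := tadd (t225 b) (t142 b)
noncomputable def v226 (x1 x2 : ℝ) : ℝ := v225 x1 x2 + v142 x1 x2
theorem h226 (h : In b E x1 x2) : Enc S E (t226 b) (v226 x1 x2) := enc_add (h225 h) (h142 h)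

def t227 (b : Bx) : TM := tsub (t218 b) (t122 b)
noncomputable def v227 (x1 x2 : ℝ) : ℝ := v218 x1 x2 - v122 x1 x2
theorem h227 (h : In b E x1 x2) : Enc S E (t227 b) (v227 x1 x2) := enc_sub (h218 h) (h122 h)

def t228 (b : Bx) : TM := tmul S (t1 b) (t227 b)
noncomputable def v228 (x1 x2 : ℝ) : ℝ := v1 x1 x2 * v227 x1 x2
theorem h228 (h : In b E x1 x2) : Enc S E (t228 b) (v228 x1 x2) := enc_mul hS (h1 h) (h227 h)

def t229 (b : Bx) : TM := tadd (t218 b) (t215 b)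
noncomputable def v229 (x1 x2 : ℝ) : ℝ := v218 x1 x2 + v215 x1 x2
theorem h229 (h : In b E x1 x2) : Enc S E (t229 b) (v229 x1 x2) := enc_add (h218 h) (h215 h)

def t230 (b : Bx) : TM := tmul S (t11 b) (t229 b)
noncomputable def v230 (x1 x2 : ℝ) : ℝ := v11 x1 x2 * v229 x1 x2
theorem h230 (h : In b E x1 x2) : Enc S E (t230 b) (v230 x1 x2) := enc_mul hS (h11 h) (h229 h)

def t231 (b : Bx) : TM := tadd (t228 b) (t230 b)
noncomputable def v231 (x1 x2 : ℝ) : ℝ := v228 x1 x2 + v230 x1 x2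
theorem h231 (h : In b E x1 x2) : Enc S E (t231 b) (v231 x1 x2) := enc_add (h228 h) (h230 h)

def t232 (b : Bx) : TM := tsub (t231 b) (t217 b)
noncomputable def v232 (x1 x2 : ℝ) : ℝ := v231 x1 x2 - v217 x1 x2
theorem h232 (h : In b E x1 x2) : Enc S E (t232 b) (v232 x1 x2) := enc_sub (h231 h) (h217 h)

def t233 (b : Bx) : TM := tmul S (t232 b) (t15 b)
noncomputable def v233 (x1 x2 : ℝ) : ℝ := v232 x1 x2 * v15 x1 x2
theorem h233 (h : In b E x1 x2) : Enc S E (t233 b) (v233 x1 x2) := enc_mul hS (h232 h) (h15 h)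

def t234 (b : Bx) : TM := tadd (t233 b) (t142 b)
noncomputable def v234 (x1 x2 : ℝ) : ℝ := v233 x1 x2 + v142 x1 x2
theorem h234 (h : In b E x1 x2) : Enc S E (t234 b) (v234 x1 x2) := enc_add (h233 h) (h142 h)

def t235 (b : Bx) : TM := tmul S (t215 b) (t155 b)
noncomputable def v235 (x1 x2 : ℝ) : ℝ := v215 x1 x2 * v155 x1 x2
theorem h235 (h : In b E x1 x2) : Enc S E (t235 b) (v235 x1 x2) := enc_mul hS (h215 h) (h155 h)

def t236 (b : Bx) : TM := tsub (t154 b) (t235 b)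
noncomputable def v236 (x1 x2 : ℝ) : ℝ := v154 x1 x2 - v235 x1 x2
theorem h236 (h : In b E x1 x2) : Enc S E (t236 b) (v236 x1 x2) := enc_sub (h154 h) (h235 h)

def t237 (b : Bx) : TM := tadd (t215 b) (t122 b)
noncomputable def v237 (x1 x2 : ℝ) : ℝ := v215 x1 x2 + v122 x1 x2
theorem h237 (h : In b E x1 x2) : Enc S E (t237 b) (v237 x1 x2) := enc_add (h215 h) (h122 h)

def t238 (b : Bx) : TM := tsub (t237 b) (t218 b)
noncomputable def v238 (x1 x2 : ℝ) : ℝ := v237 x1 x2 - v218 x1 x2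
theorem h238 (h : In b E x1 x2) : Enc S E (t238 b) (v238 x1 x2) := enc_sub (h237 h) (h218 h)

def t239 (b : Bx) : TM := tmul S (t158 b) (t238 b)
noncomputable def v239 (x1 x2 : ℝ) : ℝ := v158 x1 x2 * v238 x1 x2
theorem h239 (h : In b E x1 x2) : Enc S E (t239 b) (v239 x1 x2) := enc_mul hS (h158 h) (h238 h)

def t240 (b : Bx) : TM := tmul S (t4 b) (t239 b)
noncomputable def v240 (x1 x2 : ℝ) : ℝ := v4 x1 x2 * v239 x1 x2
theorem h240 (h : In b E x1 x2) : Enc S E (t240 b) (v240 x1 x2) := enc_mul hS (h4 h) (h239 h)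

def t241 (b : Bx) : TM := tadd (t236 b) (t240 b)
noncomputable def v241 (x1 x2 : ℝ) : ℝ := v236 x1 x2 + v240 x1 x2
theorem h241 (h : In b E x1 x2) : Enc S E (t241 b) (v241 x1 x2) := enc_add (h236 h) (h240 h)

def t242 (b : Bx) : TM := tmul S (t241 b) (t15 b)
noncomputable def v242 (x1 x2 : ℝ) : ℝ := v241 x1 x2 * v15 x1 x2
theorem h242 (h : In b E x1 x2) : Enc S E (t242 b) (v242 x1 x2) := enc_mul hS (h241 h) (h15 h)

def t243 (b : Bx) : TM := tadd (t242 b) (t165 b)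
noncomputable def v243 (x1 x2 : ℝ) : ℝ := v242 x1 x2 + v165 x1 x2
theorem h243 (h : In b E x1 x2) : Enc S E (t243 b) (v243 x1 x2) := enc_add (h242 h) (h165 h)

def t244 (b : Bx) : TM := tmul S (t0 b) (t226 b)
noncomputable def v244 (x1 x2 : ℝ) : ℝ := v0 x1 x2 * v226 x1 x2
theorem h244 (h : In b E x1 x2) : Enc S E (t244 b) (v244 x1 x2) := enc_mul hS (h0 h) (h226 h)

def t245 (b : Bx) : TM := tphi S (t244 b) (t243 b)
noncomputable def v245 (x1 x2 : ℝ) : ℝ := Pool.Agent.Strip051.LC.Line.phi (v244 x1 x2) (v243 x1 x2)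
theorem h245 (h : In b E x1 x2) : Enc S E (t245 b) (v245 x1 x2) := enc_phi hS (h244 h) (h243 h)

def t246 (b : Bx) : TM := tmul S (t1 b) (t245 b)
noncomputable def v246 (x1 x2 : ℝ) : ℝ := v1 x1 x2 * v245 x1 x2
theorem h246 (h : In b E x1 x2) : Enc S E (t246 b) (v246 x1 x2) := enc_mul hS (h1 h) (h245 h)

def t247 (b : Bx) : TM := tmul S (t0 b) (t234 b)
noncomputable def v247 (x1 x2 : ℝ) : ℝ := v0 x1 x2 * v234 x1 x2
theorem h247 (h : In b E x1 x2) : Enc S E (t247 b) (v247 x1 x2) := enc_mul hS (h0 h) (h234 h)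

def t248 (b : Bx) : TM := tphi S (t243 b) (t247 b)
noncomputable def v248 (x1 x2 : ℝ) : ℝ := Pool.Agent.Strip051.LC.Line.phi (v243 x1 x2) (v247 x1 x2)
theorem h248 (h : In b E x1 x2) : Enc S E (t248 b) (v248 x1 x2) := enc_phi hS (h243 h) (h247 h)

def t249 (b : Bx) : TM := tmul S (t11 b) (t248 b)
noncomputable def v249 (x1 x2 : ℝ) : ℝ := v11 x1 x2 * v248 x1 x2
theorem h249 (h : In b E x1 x2) : Enc S E (t249 b) (v249 x1 x2) := enc_mul hS (h11 h) (h248 h)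

def t250 (b : Bx) : TM := tadd (t246 b) (t249 b)
noncomputable def v250 (x1 x2 : ℝ) : ℝ := v246 x1 x2 + v249 x1 x2
theorem h250 (h : In b E x1 x2) : Enc S E (t250 b) (v250 x1 x2) := enc_add (h246 h) (h249 h)

def t251 (b : Bx) : TM := tphi S (t234 b) (t226 b)
noncomputable def v251 (x1 x2 : ℝ) : ℝ := Pool.Agent.Strip051.LC.Line.phi (v234 x1 x2) (v226 x1 x2)
theorem h251 (h : In b E x1 x2) : Enc S E (t251 b) (v251 x1 x2) := enc_phi hS (h234 h) (h226 h)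

def t252 (b : Bx) : TM := tmul S (t158 b) (t251 b)
noncomputable def v252 (x1 x2 : ℝ) : ℝ := v158 x1 x2 * v251 x1 x2
theorem h252 (h : In b E x1 x2) : Enc S E (t252 b) (v252 x1 x2) := enc_mul hS (h158 h) (h251 h)

def t253 (b : Bx) : TM := tadd (t250 b) (t252 b)
noncomputable def v253 (x1 x2 : ℝ) : ℝ := v250 x1 x2 + v252 x1 x2
theorem h253 (h : In b E x1 x2) : Enc S E (t253 b) (v253 x1 x2) := enc_add (h250 h) (h252 h)

def t254 (b : Bx) : TM := tmul S (t4 b) (t253 b)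
noncomputable def v254 (x1 x2 : ℝ) : ℝ := v4 x1 x2 * v253 x1 x2
theorem h254 (h : In b E x1 x2) : Enc S E (t254 b) (v254 x1 x2) := enc_mul hS (h4 h) (h253 h)

def t255 (b : Bx) : TM := tsub (t170 b) (t254 b)
noncomputable def v255 (x1 x2 : ℝ) : ℝ := v170 x1 x2 - v254 x1 x2
theorem h255 (h : In b E x1 x2) : Enc S E (t255 b) (v255 x1 x2) := enc_sub (h170 h) (h254 h)

def t256 (b : Bx) : TM := tsub (t191 b) (t62 b)
noncomputable def v256 (x1 x2 : ℝ) : ℝ := v191 x1 x2 - v62 x1 x2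
theorem h256 (h : In b E x1 x2) : Enc S E (t256 b) (v256 x1 x2) := enc_sub (h191 h) (h62 h)

def t257 (b : Bx) : TM := tsub (t62 b) (t189 b)
noncomputable def v257 (x1 x2 : ℝ) : ℝ := v62 x1 x2 - v189 x1 x2
theorem h257 (h : In b E x1 x2) : Enc S E (t257 b) (v257 x1 x2) := enc_sub (h62 h) (h189 h)

def g0 (b : Bx) : Bool := or (pos (t73 b)) (or (pos (t74 b)) (pos (t62 b)))

def Q0 (x1 x2 : ℝ) : Prop := 0 < v73 x1 x2 ∨ 0 < v74 x1 x2 ∨ 0 < v62 x1 x2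

theorem g0_sound (h : In b E x1 x2) (e : g0 b = true) : Q0 x1 x2 :=
  ((Bool.or_eq_true_iff.mp e).imp (fun a => pos_sound hS (h73 h) a) (fun a => ((Bool.or_eq_true_iff.mp a).imp (fun a => pos_sound hS (h74 h) a) (fun a => pos_sound hS (h62 h) a))))

def g1 (b : Bx) : Bool := or (pos (t73 b)) (or (pos (t74 b)) (or (and (pos (t81 b)) (pos (t82 b))) (or (pos (t127 b)) (or (pos (t130 b)) (and (pos (t182 b)) (pos (t160 b)))))))

def Q1 (x1 x2 : ℝ) : Prop := 0 < v73 x1 x2 ∨ 0 < v74 x1 x2 ∨ (0 < v81 x1 x2 ∧ 0 < v82 x1 x2) ∨ 0 < v127 x1 x2 ∨ 0 < v130 x1 x2 ∨ (0 < v182 x1 x2 ∧ 0 < v160 x1 x2)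

theorem g1_sound (h : In b E x1 x2) (e : g1 b = true) : Q1 x1 x2 :=
  ((Bool.or_eq_true_iff.mp e).imp (fun a => pos_sound hS (h73 h) a) (fun a => ((Bool.or_eq_true_iff.mp a).imp (fun a => pos_sound hS (h74 h) a) (fun a => ((Bool.or_eq_true_iff.mp a).imp (fun a => ⟨pos_sound hS (h81 h) (Bool.and_eq_true_iff.mp a).1, pos_sound hS (h82 h) (Bool.and_eq_true_iff.mp a).2⟩) (fun a => ((Bool.or_eq_true_iff.mp a).imp (fun a => pos_sound hS (h127 h) a) (fun a => ((Bool.or_eq_true_iff.mp a).imp (fun a => pos_sound hS (h130 h) a) (fun a => ⟨pos_sound hS (h182 h) (Bool.and_eq_true_iff.mp a).1, pos_sound hS (h160 h) (Bool.and_eq_true_iff.mp a).2⟩))))))))))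

def g2 (b : Bx) : Bool := or (pos (t73 b)) (or (pos (t74 b)) (or (and (pos (t81 b)) (pos (t82 b))) (or (pos (t216 b)) (and (pos (t255 b)) (pos (t238 b))))))

def Q2 (x1 x2 : ℝ) : Prop := 0 < v73 x1 x2 ∨ 0 < v74 x1 x2 ∨ (0 < v81 x1 x2 ∧ 0 < v82 x1 x2) ∨ 0 < v216 x1 x2 ∨ (0 < v255 x1 x2 ∧ 0 < v238 x1 x2)

theorem g2_sound (h : In b E x1 x2) (e : g2 b = true) : Q2 x1 x2 :=
  ((Bool.or_eq_true_iff.mp e).imp (fun a => pos_sound hS (h73 h) a) (fun a => ((Bool.or_eq_true_iff.mp a).imp (fun a => pos_sound hS (h74 h) a) (fun a => ((Bool.or_eq_true_iff.mp a).imp (fun a => ⟨pos_sound hS (h81 h) (Bool.and_eq_true_iff.mp a).1, pos_sound hS (h82 h) (Bool.and_eq_true_iff.mp a).2⟩) (fun a => ((Bool.or_eq_true_iff.mp a).imp (fun a => pos_sound hS (h216 h) a) (fun a => ⟨pos_sound hS (h255 h) (Bool.and_eq_true_iff.mp a).1, pos_sound hS (h238 h) (Bool.and_eq_true_iff.mp a).2⟩))))))))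

def g3 (b : Bx) : Bool := or (pos (t73 b)) (or (pos (t74 b)) (or (pos (t256 b)) (pos (t257 b))))

def Q3 (x1 x2 : ℝ) : Prop := 0 < v73 x1 x2 ∨ 0 < v74 x1 x2 ∨ 0 < v256 x1 x2 ∨ 0 < v257 x1 x2

theorem g3_sound (h : In b E x1 x2) (e : g3 b = true) : Q3 x1 x2 :=
  ((Bool.or_eq_true_iff.mp e).imp (fun a => pos_sound hS (h73 h) a) (fun a => ((Bool.or_eq_true_iff.mp a).imp (fun a => pos_sound hS (h74 h) a) (fun a => ((Bool.or_eq_true_iff.mp a).imp (fun a => pos_sound hS (h256 h) a) (fun a => pos_sound hS (h257 h) a))))))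

def f (b : Bx) : Nat := cond (g0 b) (cond (g1 b) (cond (g2 b) (cond (g3 b) (0) (pickb 1 (t256 b) b)) (pickb 1 (t255 b) b)) (pickb 1 (t182 b) b)) (pickb 1 (t62 b) b)

/-- the statement -/
def Q (x1 x2 : ℝ) : Prop := Q0 x1 x2 ∧ Q1 x1 x2 ∧ Q2 x1 x2 ∧ Q3 x1 x2

theorem f_sound (b : Bx) (hb : f b = 0) (x1 x2 : ℝ) (hm : Mem S b x1 x2) : Q x1 x2 := by
  obtain ⟨E, h⟩ := pt_of_mem hm
  have h : In b E x1 x2 := h
  unfold f at hb
  have e0 : g0 b = true := by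
    rcases e : g0 b with _ | _
    · rw [e, cond_false] at hb; exact absurd hb (pickb_ne _ _ _)
    · rfl
  rw [e0, cond_true] at hb
  have e1 : g1 b = true := by
    rcases e : g1 b with _ | _
    · rw [e, cond_false] at hb; exact absurd hb (pickb_ne _ _ _)
    · rfl
  rw [e1, cond_true] at hb
  have e2 : g2 b = true := by
    rcases e : g2 b with _ | _
    · rw [e, cond_false] at hb; exact absurd hb (pickb_ne _ _ _)
    · rfl
  rw [e2, cond_true] at hb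
  have e3 : g3 b = true := by
    rcases e : g3 b with _ | _
    · rw [e, cond_false] at hb; exact absurd hb (pickb_ne _ _ _)
    · rfl
  rw [e3, cond_true] at hb
  exact ⟨g0_sound h e0, g1_sound h e1, g2_sound h e2, g3_sound h e3⟩

/-- the box -/
def b0 : Bx := ⟨311438816, 0, 311438818, 536870912, 0, 536870913⟩

theorem chk_all {n : ℕ} {b : Bx} (h : chk f n b = true) (x1 x2 : ℝ) (hm : Mem S b x1 x2) : Q x1 x2 :=
  chk_sound (fun b hb x1 x2 hm => f_sound b hb x1 x2 hm) n b h x1 x2 hm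

theorem c0 : chk f 60 b0 = true := by decide +kernel

theorem mem0 {x1 x2 : ℝ} (h0 : 0 ≤ x1) (h1 : x1 ≤ 5801 / 10000) (h2 : 0 ≤ x2) (h3 : x2 ≤ 1) :
    Mem S b0 x1 x2 := by
  refine ⟨?_, ?_⟩ <;> rw [abs_le] <;> constructor <;> norm_num [S, b0] <;> linarith

end Pool.Agent.Strip051.LC.Line.Corn.VB03ppz123

namespace Pool.Agent.Strip051.LC.Line.Corn.VB03ppz123

theorem box {x y : ℝ} (h0 : 0 ≤ x) (h1 : x ≤ 5801 / 10000) (h2 : 0 ≤ y) (h3 : y ≤ 1) :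
    (0 < ((-(x * (-(y + (x * (gqz x)))))) - (((1 : ℕ) : ℝ) / ((10 : ℕ) : ℝ))) ∨ 0 < (-(((-((((1 : ℕ) : ℝ) * ((1 : ℕ) : ℝ)) - ((-(y + (x * (gqz x)))) * (x1_1 (x * (-(y + (x * (gqz x))))))))) + (((2 : ℕ) : ℝ) * (gh * y))) + (x * (((-((((1 : ℕ) : ℝ) * ((1 : ℕ) : ℝ)) - ((-(y + (x * (gqz x)))) * (x1_1 (x * (-(y + (x * (gqz x))))))))) ^ 2) + (y ^ 2))))) ∨ 0 < ((((1 : ℕ) : ℝ) / ((2 : ℕ) : ℝ)) + (x * (-((((1 : ℕ) : ℝ) * ((1 : ℕ) : ℝ)) - ((-(y + (x * (gqz x)))) * (x1_1 (x * (-(y + (x * (gqz x)))))))))))) ∧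
    (0 < ((-(x * (-(y + (x * (gqz x)))))) - (((1 : ℕ) : ℝ) / ((10 : ℕ) : ℝ))) ∨ 0 < (-(((-((((1 : ℕ) : ℝ) * ((1 : ℕ) : ℝ)) - ((-(y + (x * (gqz x)))) * (x1_1 (x * (-(y + (x * (gqz x))))))))) + (((2 : ℕ) : ℝ) * (gh * y))) + (x * (((-((((1 : ℕ) : ℝ) * ((1 : ℕ) : ℝ)) - ((-(y + (x * (gqz x)))) * (x1_1 (x * (-(y + (x * (gqz x))))))))) ^ 2) + (y ^ 2))))) ∨ (0 < ((((1 : ℕ) : ℝ) / ((16 : ℕ) : ℝ)) - (x * (((((3 : ℕ) : ℝ) / ((2 : ℕ) : ℝ) * ((-(y + (x * (gqz x)))) * (x1_1 (x * (-(y + (x * (gqz x)))))))) - (gh * (-(y + (x * (gqz x)))))) - (((1 : ℕ) : ℝ) * ((1 : ℕ) : ℝ))))) ∧ 0 < ((((1 : ℕ) : ℝ) / ((16 : ℕ) : ℝ)) + (x * (((((3 : ℕ) : ℝ) / ((2 : ℕ) : ℝ) * ((-(y + (x * (gqz x)))) * (x1_1 (x * (-(y + (x * (gqz x)))))))) - (gh * (-(y + (x * (gqz x)))))) - (((1 : ℕ) : ℝ) * ((1 : ℕ) : ℝ)))))) ∨ 0 < (-((-((((1 : ℕ) : ℝ) * ((1 : ℕ) : ℝ)) - ((-(y + (x * (gqz x)))) * (x1_1 (x * (-(y + (x *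 (gqz x))))))))) - (y * (x1_2 (x * y))))) ∨ 0 < (-((y * (y1_2 (x * y))) - (-((((1 : ℕ) : ℝ) * ((1 : ℕ) : ℝ)) - ((-(y + (x * (gqz x)))) * (x1_1 (x * (-(y + (x * (gqz x))))))))))) ∨ (0 < (scaleQ ((1 : ℕ) : ℝ) x y (x * (gqz x)) (-((-(((1 : ℕ) : ℝ) / ((2 : ℕ) : ℝ))) + (x * (-((y * (x1_2 (x * y))) + ((g0_2 (x * y)) * ((-((((1 : ℕ) : ℝ) * ((1 : ℕ) : ℝ)) - ((-(y + (x * (gqz x)))) * (x1_1 (x * (-(y + (x * (gqz x))))))))) - (y * (x1_2 (x * y)))))))))) (x * (((1 : ℕ) : ℝ) * (k3z x))) (((((1 : ℕ) : ℝ) * (k3z x)) - ((-(y + (x * (gqz x)))) * (r1_1 (x * (-(y + (x * (gqz x)))))))) - (-((y * (x1_2 (x * y))) + ((g0_2 (x * y)) * ((-((((1 : ℕ) : ℝ) * ((1 : ℕ) : ℝ)) - ((-(y + (x * (gqz x)))) * (x1_1 (x * (-(y + (x * (gqz x))))))))) - (y * (x1_2 (x * y)))))))) ((((((-(y + (x * (gqz x)))) * (x1_1 (x * (-(y + (x * (gqz x))))))) * (kc3 x)) + (((1 : ℕ) : ℝ) / ((2 : ℕ) : ℝ) * (-(x * (gqz x)))))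 - ((((1 : ℕ) : ℝ) * ((1 : ℕ) : ℝ)) * (gh + (x * (-(y + (x * (gqz x)))))))) * ((Real.sqrt ((3 : ℕ) : ℝ))⁻¹)) ((1 : ℕ) : ℝ)) ∧ 0 < (((-((-(((1 : ℕ) : ℝ) / ((2 : ℕ) : ℝ))) + (x * (-((y * (x1_2 (x * y))) + ((g0_2 (x * y)) * ((-((((1 : ℕ) : ℝ) * ((1 : ℕ) : ℝ)) - ((-(y + (x * (gqz x)))) * (x1_1 (x * (-(y + (x * (gqz x))))))))) - (y * (x1_2 (x * y)))))))))) + (x * (((1 : ℕ) : ℝ) * (k3z x)))) - (x * (((((1 : ℕ) : ℝ) * (k3z x)) - ((-(y + (x * (gqz x)))) * (r1_1 (x * (-(y + (x * (gqz x)))))))) - (-((y * (x1_2 (x * y))) + ((g0_2 (x * y)) * ((-((((1 : ℕ) : ℝ) * ((1 : ℕ) : ℝ)) - ((-(y + (x * (gqz x)))) * (x1_1 (x * (-(y + (x * (gqz x))))))))) - (y * (x1_2 (x * y)))))))))))) ∧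
    (0 < ((-(x * (-(y + (x * (gqz x)))))) - (((1 : ℕ) : ℝ) / ((10 : ℕ) : ℝ))) ∨ 0 < (-(((-((((1 : ℕ) : ℝ) * ((1 : ℕ) : ℝ)) - ((-(y + (x * (gqz x)))) * (x1_1 (x * (-(y + (x * (gqz x))))))))) + (((2 : ℕ) : ℝ) * (gh * y))) + (x * (((-((((1 : ℕ) : ℝ) * ((1 : ℕ) : ℝ)) - ((-(y + (x * (gqz x)))) * (x1_1 (x * (-(y + (x * (gqz x))))))))) ^ 2) + (y ^ 2))))) ∨ (0 < ((((1 : ℕ) : ℝ) / ((16 : ℕ) : ℝ)) - (x * (((((3 : ℕ) : ℝ) / ((2 : ℕ) : ℝ) * ((-(y + (x * (gqz x)))) * (x1_1 (x * (-(y + (x * (gqz x)))))))) - (gh * (-(y + (x * (gqz x)))))) - (((1 : ℕ) : ℝ) * ((1 : ℕ) : ℝ))))) ∧ 0 < ((((1 : ℕ) : ℝ) / ((16 : ℕ) : ℝ)) + (x * (((((3 : ℕ) : ℝ) / ((2 : ℕ) : ℝ) * ((-(y + (x * (gqz x)))) * (x1_1 (x * (-(y + (x * (gqz x)))))))) - (gh * (-(y + (x * (gqz x)))))) - (((1 : ℕ) : ℝ) * ((1 : ℕ) : ℝ)))))) ∨ 0 < (-((-((((1 : ℕ) : ℝ) * ((1 : ℕ) : ℝ)) - ((-(y + (x * (gqz x)))) * (x1_1 (x * (-(y + (x *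 (gqz x))))))))) - (y * (y1_2 (x * y))))) ∨ (0 < (scaleQ ((1 : ℕ) : ℝ) x y (x * (gqz x)) (-((-(((1 : ℕ) : ℝ) / ((2 : ℕ) : ℝ))) + (x * (-((y * (q1_2 (x * y))) + ((g1_2 (x * y)) * ((-((((1 : ℕ) : ℝ) * ((1 : ℕ) : ℝ)) - ((-(y + (x * (gqz x)))) * (x1_1 (x * (-(y + (x * (gqz x))))))))) - (y * (y1_2 (x * y)))))))))) (x * (((1 : ℕ) : ℝ) * (k3z x))) (((((1 : ℕ) : ℝ) * (k3z x)) - ((-(y + (x * (gqz x)))) * (r1_1 (x * (-(y + (x * (gqz x)))))))) - (-((y * (q1_2 (x * y))) + ((g1_2 (x * y)) * ((-((((1 : ℕ) : ℝ) * ((1 : ℕ) : ℝ)) - ((-(y + (x * (gqz x)))) * (x1_1 (x * (-(y + (x * (gqz x))))))))) - (y * (y1_2 (x * y)))))))) ((((((-(y + (x * (gqz x)))) * (x1_1 (x * (-(y + (x * (gqz x))))))) * (kc3 x)) + (((1 : ℕ) : ℝ) / ((2 : ℕ) : ℝ) * (-(x * (gqz x))))) - ((((1 : ℕ) : ℝ) * ((1 : ℕ) : ℝ)) * (gh + (x * (-(y + (x * (gqz x)))))))) * ((Real.sqrt ((3 : ℕ) : ℝ))⁻¹)) ((1 : ℕ) : ℝ)) ∧ 0 < (((-((-(((1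 : ℕ) : ℝ) / ((2 : ℕ) : ℝ))) + (x * (-((y * (q1_2 (x * y))) + ((g1_2 (x * y)) * ((-((((1 : ℕ) : ℝ) * ((1 : ℕ) : ℝ)) - ((-(y + (x * (gqz x)))) * (x1_1 (x * (-(y + (x * (gqz x))))))))) - (y * (y1_2 (x * y)))))))))) + (x * (((1 : ℕ) : ℝ) * (k3z x)))) - (x * (((((1 : ℕ) : ℝ) * (k3z x)) - ((-(y + (x * (gqz x)))) * (r1_1 (x * (-(y + (x * (gqz x)))))))) - (-((y * (q1_2 (x * y))) + ((g1_2 (x * y)) * ((-((((1 : ℕ) : ℝ) * ((1 : ℕ) : ℝ)) - ((-(y + (x * (gqz x)))) * (x1_1 (x * (-(y + (x * (gqz x))))))))) - (y * (y1_2 (x * y)))))))))))) ∧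
    (0 < ((-(x * (-(y + (x * (gqz x)))))) - (((1 : ℕ) : ℝ) / ((10 : ℕ) : ℝ))) ∨ 0 < (-(((-((((1 : ℕ) : ℝ) * ((1 : ℕ) : ℝ)) - ((-(y + (x * (gqz x)))) * (x1_1 (x * (-(y + (x * (gqz x))))))))) + (((2 : ℕ) : ℝ) * (gh * y))) + (x * (((-((((1 : ℕ) : ℝ) * ((1 : ℕ) : ℝ)) - ((-(y + (x * (gqz x)))) * (x1_1 (x * (-(y + (x * (gqz x))))))))) ^ 2) + (y ^ 2))))) ∨ 0 < ((kf2p (gh + (x * y))) - ((((1 : ℕ) : ℝ) / ((2 : ℕ) : ℝ)) + (x * (-((((1 : ℕ) : ℝ) * ((1 : ℕ) : ℝ)) - ((-(y + (x * (gqz x)))) * (x1_1 (x * (-(y + (x * (gqz x)))))))))))) ∨ 0 < (((((1 : ℕ) : ℝ) / ((2 : ℕ) : ℝ)) + (x * (-((((1 : ℕ) : ℝ) * ((1 : ℕ) : ℝ)) - ((-(y + (x * (gqz x)))) * (x1_1 (x * (-(y + (x * (gqz x))))))))))) - (kc3 (gh + (x * y))))) :=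
  chk_all c0 x y (mem0 h0 h1 h2 h3)

end Pool.Agent.Strip051.LC.Line.Corn.VB03ppz123

namespace Pool.Agent.Strip051.LC.Line.Corn

open Pool.Agent.StripNear Pool.Agent.StripSquare Pool.Agent.Strip051.Sweep
  Pool.Agent.Strip051.LC

/-- **The chart.** -/
theorem main_B03ppz123 {v : ℝ → Fin 5 → ℝ} (hv : CTV v) {x y t t' : ℝ} (hx : 0 < x)
    (hy : 0 ≤ y) (hy1 : y ≤ 1)
    (ht : t' = h0 + x * y) (hT : t + t' = kc3 x)
    (k2 : t' ≤ h0 + 1 / 10) (k1 : t < h0) (k4 : h0 - 1 / 10 ≤ t) (k5 : 2 * h0 - 1 / 10 ≤ t + t')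
    (hW : 1 / 16 ≤ |3 / 2 * cv 0 t - h0 * t - cv 3 (t + t')|)
    {i : Fin 3} {ε : ℝ} (hε : ε = 1 ∨ ε = -1)
    (H : HypB 0 3 1 1 ε i t t') :
    NFV 1 (1 * cv 0 t) (1 * cv 3 (t + t')) t t' (valB 0 3 1 1 ε i t t' v) := by
  have hp := h0_gt
  have hl := h0_lt
  have hx1 := z_le (z := x) (by rw [← hT]; exact k5)
  have hZ : 0 ≤ x := hx.le
  have hZ1 : x ≤ 6 / 10 := by linarith
  have hxy : 0 ≤ x * y := mul_nonneg hx.le hy
  obtain ⟨b0, b1, b2, b3⟩ := VB03ppz123.box hx.le hx1 hy hy1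
  obtain ⟨-, -, -, -, -, h1, h3, hlo, hhi⟩ := H
  have hg := kz_gap hZ hZ1
  have hkb := kz_bd hZ hZ1
  obtain ⟨gq0, gq1⟩ := kz_g hZ hZ1
  have hk : kc3 x = 2 * h0 + x * (-(x * (gqz x))) := by
    linear_combination hg
  have k6 : t + t' ≤ 2 * h0 := by rw [hT]; exact hkb.2
  have e1 : t' = h0 + (x * y) := by
    rw [ht]
    try push_cast
    try ring
  have e0 : t = h0 + (x * (-(y + (x * (gqz x))))) := by
    have h := hT
    rw [hk] at h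
    push_cast at h ⊢
    linear_combination h - ht
  have z0 : (x * (-(y + (x * (gqz x))))) = t - h0 := by
    linarith [e0]
  have z1 : (x * y) = t' - h0 := by
    linarith [e1]
  have hT0 : 2 * h0 - 1 / 10 ≤ kc3 x := by rw [← hT]; exact k5
  have g0 : cv 0 t = 1 / 2 + x * ((-(y + (x * (gqz x)))) * x1_1 (x * (-(y + (x * (gqz x)))))) := by
    change c1 t = _
    rw [e0, germ_x1_1 (s := (x * (-(y + (x * (gqz x)))))) (by rw [z0]; linarith) (by rw [z0]; linarith)]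
    ring
  have r0 : v t (tg 0) = 1 / 2 + x * ((-(y + (x * (gqz x)))) * r1_1 (x * (-(y + (x * (gqz x)))))) := by
    change v t 0 = _
    rw [e0, germ_r1_1 (s := (x * (-(y + (x * (gqz x)))))) (by rw [z0]; linarith) (by rw [z0]; linarith) hv.toCT]
    ring
  have g2 : cv 3 (t + t') = x * 1 := by
    change c3 (t + t') = _
    rw [hT, kz_c3 hZ hZ1]
    ring
  have r2 : v (t + t') (tg 3) = x * (k3z x) := by
    change v (t + t') 4 = _
    rw [hT, kz_v4 hZ hZ1 hv hT0]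
  have hX : (-1) * (1 * cv 3 (t + t') - 1 * cv 0 t) = 1 / 2 + x * (-((((1 : ℕ) : ℝ) * ((1 : ℕ) : ℝ)) - ((-(y + (x * (gqz x)))) * (x1_1 (x * (-(y + (x * (gqz x))))))))) := by
    rw [g0, g2]
    push_cast
    ring
  have he : exc (1 * cv 0 t) (1 * cv 3 (t + t')) t t' = x * ((((((-(y + (x * (gqz x)))) * (x1_1 (x * (-(y + (x * (gqz x))))))) * (kc3 x)) + (((1 : ℕ) : ℝ) / ((2 : ℕ) : ℝ) * (-(x * (gqz x))))) - ((((1 : ℕ) : ℝ) * ((1 : ℕ) : ℝ)) * (gh + (x * (-(y + (x * (gqz x)))))))) * ((Real.sqrt ((3 : ℕ) : ℝ))⁻¹)) := by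
    apply exc_of
    rw [g0, g2, hT, e0, gh_eq]
    push_cast
    linear_combination (1 / 2) * hk
  have hom : (1 * cv 3 (t + t') - 1 * cv 0 t) ^ 2 + t' ^ 2 - 1 = x * (((-((((1 : ℕ) : ℝ) * ((1 : ℕ) : ℝ)) - ((-(y + (x * (gqz x)))) * (x1_1 (x * (-(y + (x * (gqz x))))))))) + (((2 : ℕ) : ℝ) * (gh * y))) + (x * (((-((((1 : ℕ) : ℝ) * ((1 : ℕ) : ℝ)) - ((-(y + (x * (gqz x)))) * (x1_1 (x * (-(y + (x * (gqz x))))))))) ^ 2) + (y ^ 2)))) := by
    have h7 : 1 * cv 3 (t + t') - 1 * cv 0 t = -(1 / 2 + x * (-((((1 : ℕ) : ℝ) * ((1 : ℕ) : ℝ)) - ((-(y + (x * (gqz x)))) * (x1_1 (x * (-(y + (x * (gqz x)))))))))) := by linarith [hX]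
    rw [h7, e1, gh_eq]
    push_cast
    linear_combination h0_sq'
  have hc : ∀ m : Fin 4, 0 ≤ cv m t' := fun m => cv_nonneg m (by linarith) (by nlinarith [h0_sq'])
  have hl1 : t' - h0 = x * y := by
    rw [ht]
    try push_cast
    ring
  have hl2 : 2 * h0 - (t + t') = x * (x * (gqz x)) := by
    rw [hT, hk]
    try push_cast
    ring
  have ha : 0 ≤ y := by
    have : (0 : ℝ) ≤ 1 - y := by linarith
    push_cast
    positivity
  have hb : 0 ≤ (x * (gqz x)) := by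
    have : (0 : ℝ) ≤ 1 - y := by linarith
    push_cast
    positivity
  have hT1 : gh + (x * y) = t' := by
    rw [gh_eq]
    exact e1.symm
  rcases hε with rfl | rfl
  · exfalso
    have h5 := hc i.castSucc
    rcases b0 with hb' | hb' | hb'
    · exfalso
      push_cast at hb' z0
      linarith [z0]
    · exfalso
      have h7 := mul_pos hx hb'
      push_cast at h7 hom h1
      linarith [hom, h1]
    · have h6 : 0 < 1 / 2 + x * (-((((1 : ℕ) : ℝ) * ((1 : ℕ) : ℝ)) - ((-(y + (x * (gqz x)))) * (x1_1 (x * (-(y + (x * (gqz x))))))))) := by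
        push_cast at hb' ⊢
        linarith
      linarith
  · have hlo0 := hlo
    have hhi0 := hhi
    rw [hX] at hlo hhi
    fin_cases i
    · have hlo' : c1 t' ≤ 1 / 2 + x * (-((((1 : ℕ) : ℝ) * ((1 : ℕ) : ℝ)) - ((-(y + (x * (gqz x)))) * (x1_1 (x * (-(y + (x * (gqz x))))))))) := hlo
      have hhi' : 1 / 2 + x * (-((((1 : ℕ) : ℝ) * ((1 : ℕ) : ℝ)) - ((-(y + (x * (gqz x)))) * (x1_1 (x * (-(y + (x * (gqz x))))))))) ≤ f1 t' := hhi
      have gxlo : c1 t' = 1 / 2 + x * (y * x1_2 (x * y)) := by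
        rw [e1, germ_x1_2 (s := (x * y)) (by rw [z1]; linarith) (by rw [z1]; linarith)]
        ring
      have gxhi : f1 t' = 1 / 2 + x * (y * y1_2 (x * y)) := by
        rw [e1, germ_y1_2 (s := (x * y)) (by rw [z1]; linarith) (by rw [z1]; linarith)]
        ring
      have gr : v t' 0 = 1 / 2 + x * (y * x1_2 (x * y)) := by
        rw [e1, germ_r1_2 (s := (x * y)) (by rw [z1]; linarith) (by rw [z1]; linarith) hv.toCT]
        ring
      have gG : v t' 1 - v t' 0 = g0_2 (x * y) * (f1 t' - c1 t') := by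
        rw [e1]
        exact germ_g0_2 (s := (x * y)) (by rw [z1]; linarith) (by rw [z1]; linarith) hv.toCT
      have hseg := seg_lo (v := v) (i := 0) (T := t') (G := g0_2 (x * y)) gxlo gr rfl gG hlo' hhi'
      rcases b1 with hb' | hb' | hb' | hb' | hb' | hb'
      · exfalso
        push_cast at hb' z0
        linarith [z0]
      · exfalso
        have h7 := mul_pos hx hb'
        push_cast at h7 hom h1
        linarith [hom, h1]
      · exfalso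
        have hWe : 3 / 2 * cv 0 t - h0 * t - cv 3 (t + t') = (x * (((((3 : ℕ) : ℝ) / ((2 : ℕ) : ℝ) * ((-(y + (x * (gqz x)))) * (x1_1 (x * (-(y + (x * (gqz x)))))))) - (gh * (-(y + (x * (gqz x)))))) - (((1 : ℕ) : ℝ) * ((1 : ℕ) : ℝ)))) := by
          rw [g0, g2, e0, gh_eq]
          push_cast
          linear_combination (-1) * h0_sq'
        rw [hWe] at hW
        have h9 : |(x * (((((3 : ℕ) : ℝ) / ((2 : ℕ) : ℝ) * ((-(y + (x * (gqz x)))) * (x1_1 (x * (-(y + (x * (gqz x)))))))) - (gh * (-(y + (x * (gqz x)))))) - (((1 : ℕ) : ℝ) * ((1 : ℕ) : ℝ))))| < 1 / 16 := by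
          obtain ⟨w1, w2⟩ := hb'
          rw [abs_lt]
          push_cast at w1 w2 ⊢
          constructor <;> linarith
        linarith
      · exfalso
        rw [gxlo] at hlo'
        have h7 := mul_pos hx hb'
        push_cast at h7 hlo'
        nlinarith
      · exfalso
        rw [gxhi] at hhi'
        have h7 := mul_pos hx hb'
        push_cast at h7 hhi'
        nlinarith
      · have h8 := hb'
        refine cellv_123 (θ := 1) (r := x) one_pos hx.le ha hb he (d := (((((1 : ℕ) : ℝ) * (k3z x)) - ((-(y + (x * (gqz x)))) * (r1_1 (x * (-(y + (x * (gqz x)))))))) - (-((y * (x1_2 (x * y))) + ((g0_2 (x * y)) * ((-((((1 : ℕ) : ℝ) * ((1 : ℕ) : ℝ)) - ((-(y + (x * (gqz x)))) * (x1_1 (x * (-(y + (x * (gqz x))))))))) - (y * (x1_2 (x * y))))))))) ?_ k5 k6 k1 k2 (by rw [ht]; linarith) hl1 hl2 (A1 := (-((-(((1 : ℕ) : ℝ) / ((2 : ℕ) : ℝ))) + (x * (-((y * (x1_2 (x * y))) + ((g0_2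 (x * y)) * ((-((((1 : ℕ) : ℝ) * ((1 : ℕ) : ℝ)) - ((-(y + (x * (gqz x)))) * (x1_1 (x * (-(y + (x * (gqz x))))))))) - (y * (x1_2 (x * y))))))))))) (A2 := (x * (((1 : ℕ) : ℝ) * (k3z x)))) ?_ ?_ ?_ ?_
        · change 1 * v (t + t') (tg 3) - 1 * v t (tg 0) - (-1) * segW v 0 ((-1) * (1 * cv 3 (t + t') - 1 * cv 0 t)) t' = _
          rw [hX, hseg, r0, r2]
          push_cast
          ring
        · change (-((-(((1 : ℕ) : ℝ) / ((2 : ℕ) : ℝ))) + (x * (-((y * (x1_2 (x * y))) + ((g0_2 (x * y)) * ((-((((1 : ℕ) : ℝ) * ((1 : ℕ) : ℝ)) - ((-(y + (x * (gqz x)))) * (x1_1 (x * (-(y + (x * (gqz x))))))))) - (y * (x1_2 (x * y)))))))))) = -((-1) * segW v 0 ((-1) * (1 * cv 3 (t + t') - 1 * cv 0 t)) t')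
          rw [hX, hseg]
          push_cast
          ring
        · change (x * (((1 : ℕ) : ℝ) * (k3z x))) = 1 * v (t + t') (tg 3)
          rw [r2]
          push_cast
          ring
        · have h9 := h8.1.le
          push_cast at h9 ⊢
          exact h9
        · have h9 := h8.2.le
          push_cast at h9 ⊢
          linarith
    · have hlo' : f1 t' ≤ 1 / 2 + x * (-((((1 : ℕ) : ℝ) * ((1 : ℕ) : ℝ)) - ((-(y + (x * (gqz x)))) * (x1_1 (x * (-(y + (x * (gqz x))))))))) := hlo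
      have hhi' : 1 / 2 + x * (-((((1 : ℕ) : ℝ) * ((1 : ℕ) : ℝ)) - ((-(y + (x * (gqz x)))) * (x1_1 (x * (-(y + (x * (gqz x))))))))) ≤ f2 t' := hhi
      have gxlo : f1 t' = 1 / 2 + x * (y * y1_2 (x * y)) := by
        rw [e1, germ_y1_2 (s := (x * y)) (by rw [z1]; linarith) (by rw [z1]; linarith)]
        ring
      have gr : v t' 1 = 1 / 2 + x * (y * q1_2 (x * y)) := by
        rw [e1, germ_q1_2 (s := (x * y)) (by rw [z1]; linarith) (by rw [z1]; linarith) hv.toCT]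
        ring
      have gG : v t' 3 - v t' 1 = g1_2 (x * y) * (f2 t' - f1 t') := by
        rw [e1]
        exact germ_g1_2 (s := (x * y)) (by rw [z1]; linarith) (by rw [z1]; linarith) hv.toCT
      have hseg := seg_lo (v := v) (i := 1) (T := t') (G := g1_2 (x * y)) gxlo gr rfl gG hlo' hhi'
      rcases b2 with hb' | hb' | hb' | hb' | hb'
      · exfalso
        push_cast at hb' z0
        linarith [z0]
      · exfalso
        have h7 := mul_pos hx hb'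
        push_cast at h7 hom h1
        linarith [hom, h1]
      · exfalso
        have hWe : 3 / 2 * cv 0 t - h0 * t - cv 3 (t + t') = (x * (((((3 : ℕ) : ℝ) / ((2 : ℕ) : ℝ) * ((-(y + (x * (gqz x)))) * (x1_1 (x * (-(y + (x * (gqz x)))))))) - (gh * (-(y + (x * (gqz x)))))) - (((1 : ℕ) : ℝ) * ((1 : ℕ) : ℝ)))) := by
          rw [g0, g2, e0, gh_eq]
          push_cast
          linear_combination (-1) * h0_sq'
        rw [hWe] at hW
        have h9 : |(x * (((((3 : ℕ) : ℝ) / ((2 : ℕ) : ℝ) * ((-(y + (x * (gqz x)))) * (x1_1 (x * (-(y + (x * (gqz x)))))))) - (gh * (-(y + (x * (gqz x)))))) - (((1 : ℕ) : ℝ) * ((1 : ℕ) : ℝ))))| < 1 / 16 := by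
          obtain ⟨w1, w2⟩ := hb'
          rw [abs_lt]
          push_cast at w1 w2 ⊢
          constructor <;> linarith
        linarith
      · exfalso
        rw [gxlo] at hlo'
        have h7 := mul_pos hx hb'
        push_cast at h7 hlo'
        nlinarith
      · have h8 := hb'
        refine cellv_123 (θ := 1) (r := x) one_pos hx.le ha hb he (d := (((((1 : ℕ) : ℝ) * (k3z x)) - ((-(y + (x * (gqz x)))) * (r1_1 (x * (-(y + (x * (gqz x)))))))) - (-((y * (q1_2 (x * y))) + ((g1_2 (x * y)) * ((-((((1 : ℕ) : ℝ) * ((1 : ℕ) : ℝ)) - ((-(y + (x * (gqz x)))) * (x1_1 (x * (-(y + (x * (gqz x))))))))) - (y * (y1_2 (x * y))))))))) ?_ k5 k6 k1 k2 (by rw [ht]; linarith) hl1 hl2 (A1 := (-((-(((1 : ℕ) : ℝ) / ((2 : ℕ) : ℝ))) + (x * (-((y * (q1_2 (x * y))) + ((g1_2 (x * y)) * ((-((((1 : ℕ) : ℝ) * ((1 : ℕ) : ℝ)) - ((-(y + (x * (gqz x)))) * (x1_1 (x * (-(y + (x * (gqz x))))))))) - (y *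 (y1_2 (x * y))))))))))) (A2 := (x * (((1 : ℕ) : ℝ) * (k3z x)))) ?_ ?_ ?_ ?_
        · change 1 * v (t + t') (tg 3) - 1 * v t (tg 0) - (-1) * segW v 1 ((-1) * (1 * cv 3 (t + t') - 1 * cv 0 t)) t' = _
          rw [hX, hseg, r0, r2]
          push_cast
          ring
        · change (-((-(((1 : ℕ) : ℝ) / ((2 : ℕ) : ℝ))) + (x * (-((y * (q1_2 (x * y))) + ((g1_2 (x * y)) * ((-((((1 : ℕ) : ℝ) * ((1 : ℕ) : ℝ)) - ((-(y + (x * (gqz x)))) * (x1_1 (x * (-(y + (x * (gqz x))))))))) - (y * (y1_2 (x * y)))))))))) = -((-1) * segW v 1 ((-1) * (1 * cv 3 (t + t') - 1 * cv 0 t)) t')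
          rw [hX, hseg]
          push_cast
          ring
        · change (x * (((1 : ℕ) : ℝ) * (k3z x))) = 1 * v (t + t') (tg 3)
          rw [r2]
          push_cast
          ring
        · have h9 := h8.1.le
          push_cast at h9 ⊢
          exact h9
        · have h9 := h8.2.le
          push_cast at h9 ⊢
          linarith
    · have hlo' : f2 t' ≤ 1 / 2 + x * (-((((1 : ℕ) : ℝ) * ((1 : ℕ) : ℝ)) - ((-(y + (x * (gqz x)))) * (x1_1 (x * (-(y + (x * (gqz x))))))))) := hlo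
      have hhi' : 1 / 2 + x * (-((((1 : ℕ) : ℝ) * ((1 : ℕ) : ℝ)) - ((-(y + (x * (gqz x)))) * (x1_1 (x * (-(y + (x * (gqz x))))))))) ≤ c3 t' := hhi
      have hb0 := b3
      rw [hT1] at hb0
      rw [kf2p_eq (T := t') (by linarith)] at hb0
      rw [kc3_eq] at hb0
      rcases hb0 with hb' | hb' | hb' | hb'
      · exfalso
        push_cast at hb' z0
        linarith [z0]
      · exfalso
        have h7 := mul_pos hx hb'
        push_cast at h7 hom h1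
        linarith [hom, h1]
      · exfalso
        push_cast at hb' hlo' hhi'
        linarith
      · exfalso
        push_cast at hb' hlo' hhi'
        linarith

end Pool.Agent.Strip051.LC.Line.Corn
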