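import Pool.Agent.Strip051.LC.Line.Corn.VA00pm113

/-! # The vertical corner, two unit sides on the same side (generated) -/

namespace Pool.Agent.Strip051.LC.Line.Corn

open Pool.Agent.StripNear Pool.Agent.StripSquare Pool.Agent.Strip051.Sweep
  Pool.Agent.Strip051.LC

/-- **The chart.** -/
theorem main_A00pm113 {v : ℝ → Fin 5 → ℝ} (hv : CTV v) {x y t t' : ℝ} (hx : 0 < x) (hx1 : x ≤ 1 / 10)
    (hy : 0 ≤ y) (hy1 : y ≤ 1) (ht : t = h0 - x * (1 - y)) (ht' : t' = h0 - x * y)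
    (k1 : t < h0) (k3 : t' < h0) {i : Fin 3} {ε : ℝ} (hε : ε = 1 ∨ ε = -1)
    (H : HypA 0 0 1 (-1) ε i t t') :
    NFV 1 (1 * cv 0 t) (1 * cv 0 t + (-1) * cv 0 t') t t' (valA 0 0 1 (-1) ε i t t' v) := by
  have hp := h0_gt
  have hl := h0_lt
  obtain ⟨b0, b1, b2, b3⟩ := VA00pm113.box hx.le hx1 hy hy1
  obtain ⟨-, -, -, -, -, h1, h3, hlo, hhi⟩ := H
  have ea : 0 ≤ x * y := mul_nonneg hx.le hy
  have eb : 0 ≤ x * (1 - y) := mul_nonneg hx.le (by linarith)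
  have za : x * y ≤ 1 / 10 := by nlinarith
  have zb : x * (1 - y) ≤ 1 / 10 := by nlinarith
  have e0 : t = h0 + (-(x * (((1 : ℕ) : ℝ) - y))) := by rw [ht]; push_cast; ring
  have e1 : t' = h0 + (-(x * y)) := by rw [ht']; ring
  have e2 : t + t' = 2 * h0 - x := by rw [ht, ht']; ring
  have z0 : (-(x * (((1 : ℕ) : ℝ) - y))) = t - h0 := by linarith [e0]
  have z1 : (-(x * y)) = t' - h0 := by linarith [e1]
  have g0 : cv 0 t = 1 / 2 + x * (-((((1 : ℕ) : ℝ) - y) * (x1_1 (-(x * (((1 : ℕ) : ℝ) - y)))))) := by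
    change c1 t = _
    rw [e0, germ_x1_1 (s := (-(x * (((1 : ℕ) : ℝ) - y)))) (by rw [z0]; linarith) (by rw [z0]; linarith)]
    push_cast
    ring
  have g1 : cv 0 t' = 1 / 2 - x * (y * (x1_1 (-(x * y)))) := by
    change c1 t' = _
    rw [e1, germ_x1_1 (s := (-(x * y))) (by rw [z1]; linarith) (by rw [z1]; linarith)]
    ring
  have r0 : v t (tg 0) = ((((1 : ℕ) : ℝ) / ((2 : ℕ) : ℝ)) + (x * (-((((1 : ℕ) : ℝ) - y) * (r1_1 (-(x * (((1 : ℕ) : ℝ) - y)))))))) := by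
    change v t 0 = _
    rw [e0, germ_r1_1 (s := (-(x * (((1 : ℕ) : ℝ) - y)))) (by rw [z0]; linarith) (by rw [z0]; linarith) hv.toCT]
    push_cast
    ring
  have r1 : v t' (tg 0) = -(-((((1 : ℕ) : ℝ) / ((2 : ℕ) : ℝ)) - (x * (y * (r1_1 (-(x * y))))))) := by
    change v t' 0 = _
    rw [e1, germ_r1_1 (s := (-(x * y))) (by rw [z1]; linarith) (by rw [z1]; linarith) hv.toCT]
    push_cast
    ring
  have hX : 1 * cv 0 t + (-1) * cv 0 t' = x * ((-((((1 : ℕ) : ℝ) - y) * (x1_1 (-(x * (((1 : ℕ) : ℝ) - y)))))) + (y * (x1_1 (-(x * y))))) := by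
    rw [g0, g1]
    ring
  have he : exc (1 * cv 0 t) (1 * cv 0 t + (-1) * cv 0 t') t t' = x * (((((-((((1 : ℕ) : ℝ) - y) * (x1_1 (-(x * (((1 : ℕ) : ℝ) - y)))))) * ((((2 : ℕ) : ℝ) * gh) - x)) - (((1 : ℕ) : ℝ) / ((2 : ℕ) : ℝ))) - (((-((((1 : ℕ) : ℝ) - y) * (x1_1 (-(x * (((1 : ℕ) : ℝ) - y)))))) + (y * (x1_1 (-(x * y))))) * (gh + (-(x * (((1 : ℕ) : ℝ) - y)))))) * ((Real.sqrt ((3 : ℕ) : ℝ))⁻¹)) := by
    apply exc_of
    rw [hX, g0, e2, e0, gh_eq]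
    push_cast
    ring
  have f1e := vg_f1 hx.le hx1
  have c1e : c1 (2 * h0 - x) = 0 := c1_zero (by linarith)
  have wq := vg_wq hx.le hx1
  have v0e := vg_v0 hx.le hx1 hv
  have v1e := vg_v1 hx.le hx1 hv
  have G1e := vg_G1 hx.le hx1 hv
  have hB : b1_3 (2 * h0 - x) = (b1_3 ((((2 : ℕ) : ℝ) * gh) - x)) := by
    rw [gh_eq]
    push_cast
    ring_nf
  rw [hX, e2] at hlo hhi
  have cone : ∀ R13 r2 : ℝ, R13 = x * r2 → 0 < coneQ ((1 : ℕ) : ℝ) x y (((1 : ℕ) : ℝ) - y) (-(-((((1 : ℕ) : ℝ) / ((2 : ℕ) : ℝ)) - (x * (y * (r1_1 (-(x * y)))))))) (-((((1 : ℕ) : ℝ) / ((2 : ℕ) : ℝ)) + (x * (-((((1 : ℕ) : ℝ) - y) * (r1_1 (-(x * (((1 : ℕ) : ℝ) - y))))))))) (r2 - (-((((1 : ℕ) : ℝ) - y) * (r1_1 (-(x * (((1 : ℕ) : ℝ) - y)))))) - (y * (r1_1 (-(x * y))))) (((((-((((1 : ℕ) : ℝ) - y) * (x1_1 (-(x * (((1 : ℕ) : ℝ) - y)))))) * ((((2 : ℕ) : ℝ) * gh) - x)) - (((1 : ℕ) : ℝ) / ((2 :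 ℕ) : ℝ))) - (((-((((1 : ℕ) : ℝ) - y) * (x1_1 (-(x * (((1 : ℕ) : ℝ) - y)))))) + (y * (x1_1 (-(x * y))))) * (gh + (-(x * (((1 : ℕ) : ℝ) - y)))))) * ((Real.sqrt ((3 : ℕ) : ℝ))⁻¹)) →
      NFV 1 (1 * cv 0 t) (1 * cv 0 t + (-1) * cv 0 t') t t' (1 * v t (tg 0), (-1) * v t' (tg 0), R13) := by
    intro R13 r2 hR hQ
    refine cell_113 one_pos hx hx1 hy hy1 he (d := r2 - (-((((1 : ℕ) : ℝ) - y) * (r1_1 (-(x * (((1 : ℕ) : ℝ) - y)))))) - (y * (r1_1 (-(x * y))))) ?_ ht ht' (A1 := -(-((((1 : ℕ) : ℝ) / ((2 : ℕ) : ℝ)) - (x * (y * (r1_1 (-(x * y)))))))) (A2 := -((((1 : ℕ) : ℝ) / ((2 : ℕ) : ℝ)) + (x * (-((((1 : ℕ) : ℝ) - y) * (r1_1 (-(x * (((1 : ℕ) : ℝ) - y))))))))) ?_ ?_ ?_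
    · rw [hR, r0, r1]
      push_cast
      ring
    · rw [r1]
      ring
    · rw [r0]
      ring
    · have h8 := hQ.le
      push_cast at h8 ⊢
      exact h8
  have i2 : ∀ ε : ℝ, (ε = 1 ∨ ε = -1) → f2 (2 * h0 - x) ≤ ε * (x * ((-((((1 : ℕ) : ℝ) - y) * (x1_1 (-(x * (((1 : ℕ) : ℝ) - y)))))) + (y * (x1_1 (-(x * y)))))) → False := by
    intro ε hε h
    have hc := vg_c3 hx.le hx1
    have hc0 := c3_nonneg (2 * h0 - x)
    have hf : f2 (2 * h0 - x) = (x * wqg x + c3 (2 * h0 - x)) / 2 := by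
      unfold f2
      rw [vg_W hx.le hx1]
    have hw : 0 < x * wqg x := mul_pos hx wq.1
    have h2 : c3 (2 * h0 - x) ≤ 2 * (ε * (x * ((-((((1 : ℕ) : ℝ) - y) * (x1_1 (-(x * (((1 : ℕ) : ℝ) - y)))))) + (y * (x1_1 (-(x * y))))))) := by linarith
    have h4 : c3 (2 * h0 - x) ^ 2 ≤ (2 * (ε * (x * ((-((((1 : ℕ) : ℝ) - y) * (x1_1 (-(x * (((1 : ℕ) : ℝ) - y)))))) + (y * (x1_1 (-(x * y)))))))) ^ 2 := by
      apply pow_le_pow_left₀ hc0 h2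
    have h5 : ε ^ 2 = 1 := by
      rcases hε with rfl | rfl <;> norm_num
    have h6 := mul_pos hx b3
    rw [gh_eq] at h6
    push_cast at h6
    have h7 : (2 * (ε * (x * ((-((((1 : ℕ) : ℝ) - y) * (x1_1 (-(x * (((1 : ℕ) : ℝ) - y)))))) + (y * (x1_1 (-(x * y)))))))) ^ 2 = 4 * x ^ 2 * ((-((((1 : ℕ) : ℝ) - y) * (x1_1 (-(x * (((1 : ℕ) : ℝ) - y)))))) + (y * (x1_1 (-(x * y))))) ^ 2 := by
      rw [mul_pow, mul_pow, h5]
      ring
    rw [hc, h7] at h4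
    push_cast at h4
    nlinarith
  have hd0 : ((((b1_3 ((((2 : ℕ) : ℝ) * gh) - x)) * ((-((((1 : ℕ) : ℝ) - y) * (x1_1 (-(x * (((1 : ℕ) : ℝ) - y)))))) + (y * (x1_1 (-(x * y)))))) - (-((((1 : ℕ) : ℝ) - y) * (r1_1 (-(x * (((1 : ℕ) : ℝ) - y))))))) - (y * (r1_1 (-(x * y))))) = (b1_3 ((((2 : ℕ) : ℝ) * gh) - x)) * ((-((((1 : ℕ) : ℝ) - y) * (x1_1 (-(x * (((1 : ℕ) : ℝ) - y)))))) + (y * (x1_1 (-(x * y))))) - (-((((1 : ℕ) : ℝ) - y) * (r1_1 (-(x * (((1 : ℕ) : ℝ) - y)))))) - (y * (r1_1 (-(x * y)))) := by ring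
  rcases hε with rfl | rfl
  · fin_cases i
    · have l0 : c1 (2 * h0 - x) ≤ 1 * (x * ((-((((1 : ℕ) : ℝ) - y) * (x1_1 (-(x * (((1 : ℕ) : ℝ) - y)))))) + (y * (x1_1 (-(x * y)))))) := hlo
      have l1 : 1 * (x * ((-((((1 : ℕ) : ℝ) - y) * (x1_1 (-(x * (((1 : ℕ) : ℝ) - y)))))) + (y * (x1_1 (-(x * y)))))) ≤ f1 (2 * h0 - x) := hhi
      have hG : v (2 * h0 - x) (tg (0 : Fin 3).succ) - v (2 * h0 - x) (tg (0 : Fin 3).castSucc) =
          (b1_3 ((((2 : ℕ) : ℝ) * gh) - x)) * (cv (0 : Fin 3).succ (2 * h0 - x) - cv (0 : Fin 3).castSucc (2 * h0 - x)) := by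
        change v (2 * h0 - x) 1 - v (2 * h0 - x) 0 = (b1_3 ((((2 : ℕ) : ℝ) * gh) - x)) * (f1 (2 * h0 - x) - c1 (2 * h0 - x))
        rw [v0e, v1e, c1e, f1e, hB]
        ring
      have hs := seg_low (i := 0) hG hlo hhi
      rw [c1e] at l0
      rw [f1e] at l1
      rcases b0 with hb | hb | hb
      · exfalso
        have h7 := mul_pos hx hb
        have h8 := mul_pos hx wq.1
        push_cast at h7 l0 l1
        linarith
      · exfalso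
        have h7 := mul_pos hx hb
        have h8 := mul_pos hx wq.1
        push_cast at h7 l0 l1
        linarith
      · refine cone (1 * segW v 0 (1 * (1 * cv 0 t + (-1) * cv 0 t')) (t + t')) ((b1_3 ((((2 : ℕ) : ℝ) * gh) - x)) * ((-((((1 : ℕ) : ℝ) - y) * (x1_1 (-(x * (((1 : ℕ) : ℝ) - y)))))) + (y * (x1_1 (-(x * y)))))) ?_ ?_
        · rw [hX, e2, hs]
          change 1 * (v (2 * h0 - x) 0 + _ * (_ - c1 (2 * h0 - x))) = _
          rw [v0e, c1e]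
          ring
        · exact hb
    · have l0 : f1 (2 * h0 - x) ≤ 1 * (x * ((-((((1 : ℕ) : ℝ) - y) * (x1_1 (-(x * (((1 : ℕ) : ℝ) - y)))))) + (y * (x1_1 (-(x * y)))))) := hlo
      have hs := seg_low (v := v) (i := 1) (G := G1g x) G1e hlo hhi
      rw [f1e] at l0
      rcases b1 with hb | hb
      · exfalso
        have h7 := mul_pos hx hb
        push_cast at h7 l0
        linarith
      · refine cone (1 * segW v 1 (1 * (1 * cv 0 t + (-1) * cv 0 t')) (t + t')) (((b1_3 ((((2 : ℕ) : ℝ) * gh) - x)) * (((1 : ℕ) : ℝ) / ((2 : ℕ) : ℝ) * (wqg x))) + ((G1g x) * (((-((((1 : ℕ) : ℝ) - y) * (x1_1 (-(x * (((1 : ℕ) : ℝ) - y)))))) + (y * (x1_1 (-(x * y))))) - (((1 : ℕ) : ℝ) / ((2 : ℕ) : ℝ) * (wqg x))))) ?_ ?_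
        · rw [hX, e2, hs]
          change 1 * (v (2 * h0 - x) 1 + _ * (_ - f1 (2 * h0 - x))) = _
          rw [v1e, f1e, hB]
          push_cast
          ring
        · exact hb
    · exact (i2 _ (by norm_num) hlo).elim
  · fin_cases i
    · have l0 : c1 (2 * h0 - x) ≤ -1 * (x * ((-((((1 : ℕ) : ℝ) - y) * (x1_1 (-(x * (((1 : ℕ) : ℝ) - y)))))) + (y * (x1_1 (-(x * y)))))) := hlo
      have l1 : -1 * (x * ((-((((1 : ℕ) : ℝ) - y) * (x1_1 (-(x * (((1 : ℕ) : ℝ) - y)))))) + (y * (x1_1 (-(x * y)))))) ≤ f1 (2 * h0 - x) := hhi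
      have hG : v (2 * h0 - x) (tg (0 : Fin 3).succ) - v (2 * h0 - x) (tg (0 : Fin 3).castSucc) =
          (b1_3 ((((2 : ℕ) : ℝ) * gh) - x)) * (cv (0 : Fin 3).succ (2 * h0 - x) - cv (0 : Fin 3).castSucc (2 * h0 - x)) := by
        change v (2 * h0 - x) 1 - v (2 * h0 - x) 0 = (b1_3 ((((2 : ℕ) : ℝ) * gh) - x)) * (f1 (2 * h0 - x) - c1 (2 * h0 - x))
        rw [v0e, v1e, c1e, f1e, hB]
        ring
      have hs := seg_low (i := 0) hG hlo hhi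
      rw [c1e] at l0
      rw [f1e] at l1
      rcases b0 with hb | hb | hb
      · exfalso
        have h7 := mul_pos hx hb
        have h8 := mul_pos hx wq.1
        push_cast at h7 l0 l1
        linarith
      · exfalso
        have h7 := mul_pos hx hb
        have h8 := mul_pos hx wq.1
        push_cast at h7 l0 l1
        linarith
      · refine cone ((-1) * segW v 0 ((-1) * (1 * cv 0 t + (-1) * cv 0 t')) (t + t')) ((b1_3 ((((2 : ℕ) : ℝ) * gh) - x)) * ((-((((1 : ℕ) : ℝ) - y) * (x1_1 (-(x * (((1 : ℕ) : ℝ) - y)))))) + (y * (x1_1 (-(x * y)))))) ?_ ?_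
        · rw [hX, e2, hs]
          change (-1) * (v (2 * h0 - x) 0 + _ * (_ - c1 (2 * h0 - x))) = _
          rw [v0e, c1e]
          ring
        · exact hb
    · have l0 : f1 (2 * h0 - x) ≤ -1 * (x * ((-((((1 : ℕ) : ℝ) - y) * (x1_1 (-(x * (((1 : ℕ) : ℝ) - y)))))) + (y * (x1_1 (-(x * y)))))) := hlo
      have hs := seg_low (v := v) (i := 1) (G := G1g x) G1e hlo hhi
      rw [f1e] at l0
      rcases b2 with hb | hb
      · exfalso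
        have h7 := mul_pos hx hb
        push_cast at h7 l0
        linarith
      · refine cone ((-1) * segW v 1 ((-1) * (1 * cv 0 t + (-1) * cv 0 t')) (t + t')) (-(((b1_3 ((((2 : ℕ) : ℝ) * gh) - x)) * (((1 : ℕ) : ℝ) / ((2 : ℕ) : ℝ) * (wqg x))) + ((G1g x) * ((-((-((((1 : ℕ) : ℝ) - y) * (x1_1 (-(x * (((1 : ℕ) : ℝ) - y)))))) + (y * (x1_1 (-(x * y)))))) - (((1 : ℕ) : ℝ) / ((2 : ℕ) : ℝ) * (wqg x)))))) ?_ ?_
        · rw [hX, e2, hs]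
          change (-1) * (v (2 * h0 - x) 1 + _ * (_ - f1 (2 * h0 - x))) = _
          rw [v1e, f1e, hB]
          push_cast
          ring
        · exact hb
    · exact (i2 _ (by norm_num) hlo).elim

end Pool.Agent.Strip051.LC.Line.Corn
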