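import Pool.Agent.Strip051.LC.Line.Corn.CellV

/-! # The two degenerate charts at the vertical corner: algebra -/

namespace Pool.Agent.Strip051.LC.Line.Corn

open Pool.Agent.StripNear Pool.Agent.StripSquare Pool.Agent.Strip051.Sweep
  Pool.Agent.Strip051.LC

/-- The star inequality in the degenerate form, with the generated function. -/
theorem starN_degQ {z ω a b e1 e2 d1 d2 g1 A1 A2 A3 ex l1 l2 : ℝ} (hz : 0 ≤ z)
    (hω : 0 ≤ ω) (ha : 0 ≤ a) (hb : 0 ≤ b) (hl1 : l1 = z * a) (hl2 : l2 = z * b)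
    (hs : l1 + l2 ≤ h0) (he : ex = z * (e1 * ω + z * e2))
    (hd : A1 + A2 - A3 = z * (d1 * ω + z * d2)) (hg : b * A1 - a * A2 = z * g1)
    (hW : (-A1 * (h0 - l1) + A2 * (h0 - l2) + A3 * (l1 - l2) / (l1 + l2) * (h0 - l1 - l2)) /
      (2 * h0) + ex / (2 * 1) ≤ 0)
    (hQ1 : 0 ≤ degQ ((1 : ℕ) : ℝ) z a b d1 ((0 : ℕ) : ℝ) e1)
    (hQ2 : 0 ≤ degQ ((1 : ℕ) : ℝ) z a b d2 g1 e2) :
    StarN 1 ex l1 l2 A1 A2 A3 := by
  have key : ∀ m g e : ℝ, degQ ((1 : ℕ) : ℝ) z a b m g e =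
      e * L0 - 1 * ((h0 - z * (a + b)) *
        phi (g / (2 * h0) + e / (2 * 1) - (h0 - z * (a + b)) * m / (2 * h0))
          (g / (2 * h0) + e / (2 * 1) + (h0 - z * (a + b)) * m / (2 * h0)) +
        z * ((a * max (g / (2 * h0) + e / (2 * 1) + (h0 - z * (a + b)) * m / (2 * h0)) 0 +
          b * max (g / (2 * h0) + e / (2 * 1) - (h0 - z * (a + b)) * m / (2 * h0)) 0) / 2)) := by
    intro m g e
    have hL : (((1 : ℕ) : ℝ) / ((4 : ℕ) : ℝ) *
        (((2 : ℕ) : ℝ) + (Real.sqrt ((3 : ℕ) : ℝ)))) = L0 := by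
      unfold L0
      push_cast
      ring
    unfold degQ
    rw [gh_eq, hL]
    simp only [div_eq_mul_inv]
    push_cast
    ring
  rw [key] at hQ1 hQ2
  have z0 : ((0 : ℕ) : ℝ) / (2 * h0) = 0 := by
    push_cast
    exact zero_div _
  rw [z0, zero_add] at hQ1
  refine starN_deg (θ := 1) one_pos hz hω ha hb hl1 hl2 hs he hd hg hW ?_ hQ2
  rw [add_comm ((h0 - z * (a + b)) * d1 / (2 * h0))]
  exact hQ1

/-! ### The quotients -/

theorem K1q_eq {s C : ℝ} (hC : kc1 (gh + s) = C) (hC0 : 0 ≤ C) (hx : C = 1 / 2 + s * x1_1 s) :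
    h0 + x1_1 s * C = s * K1q s := by
  have hd : C + 1 / 2 ≠ 0 := by linarith
  have e1 : x1_1 s * (C + 1 / 2) = -(2 * h0 + s) := by
    unfold x1_1
    rw [hC, r3_eq]
    push_cast
    field_simp
  have e2 : K1q s = -((h0 * x1_1 s + C) / (C + 1 / 2)) := by
    unfold K1q
    rw [hC, gh_eq]
    push_cast
    ring
  rw [e2, mul_neg, ← mul_div_assoc, eq_neg_iff_add_eq_zero, add_comm,
    div_add' _ _ _ hd, div_eq_zero_iff]
  left
  linear_combination C * e1 - h0 * hx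

theorem r1q_eq {s C : ℝ} (hC : kc1 (gh + s) = C) (hC0 : 0 ≤ C) (hx : C = 1 / 2 + s * x1_1 s) :
    r1_1 s = s * r1q s := by
  have hd : C + 1 / 2 ≠ 0 := by linarith
  have e1 : x1_1 s * (C + 1 / 2) = -(2 * h0 + s) := by
    unfold x1_1
    rw [hC, r3_eq]
    push_cast
    field_simp
  have hn : x1_1 s * 3 + 2 * h0 * C * 2 + 2 * h0 * 2 + s * 2 =
      s * ((2 * h0 * x1_1 s - 1) * (C + 1 / 2)⁻¹ * 3 + 2 + 2 * h0 * x1_1 s * 2) := by
    have hi : (C + 1 / 2) * (C + 1 / 2)⁻¹ = 1 := mul_inv_cancel₀ hd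
    have : (x1_1 s * 3 + 2 * h0 * 3) = s * ((2 * h0 * x1_1 s - 1) * (C + 1 / 2)⁻¹ * 3) := by
      have h2 : (x1_1 s * 3 + 2 * h0 * 3) * (C + 1 / 2) = s * (2 * h0 * x1_1 s - 1) * 3 := by
        linear_combination 3 * e1 + 6 * h0 * hx
      calc (x1_1 s * 3 + 2 * h0 * 3) = (x1_1 s * 3 + 2 * h0 * 3) * ((C + 1 / 2) * (C + 1 / 2)⁻¹) := by
            rw [hi, mul_one]
        _ = (x1_1 s * 3 + 2 * h0 * 3) * (C + 1 / 2) * (C + 1 / 2)⁻¹ := by ring
        _ = _ := by rw [h2]; ring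
    linear_combination this + 4 * h0 * hx
  unfold r1_1 r1q
  rw [hC, r3_eq, gh_eq]
  push_cast
  rw [← mul_assoc s]
  congr 1
  linear_combination hn

/-! ### Cell 213 -/

section

variable {z μ g x xz C h : ℝ} (hz : 0 < z)

include hz

theorem deg_om213 (hC : C = 1 / 2 + z * (μ * x)) (hc : C ^ 2 + (h + z * μ) ^ 2 = 1)
    (hh : h ^ 2 = 3 / 4) :
    (xz + μ * x) + 2 * (h * (-(μ + z * g))) + z * ((xz + μ * x) ^ 2 + (-(μ + z * g)) ^ 2) =
      -4 * h * μ + 2 * C * xz + z * (xz ^ 2 - 2 * (h * g) + (2 * (μ * (z * g)) + (z * g) ^ 2)) := by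
  have h1 : z * ((xz + μ * x) + 2 * (h * (-(μ + z * g))) +
      z * ((xz + μ * x) ^ 2 + (-(μ + z * g)) ^ 2)) =
      z * (-4 * h * μ + 2 * C * xz +
        z * (xz ^ 2 - 2 * (h * g) + (2 * (μ * (z * g)) + (z * g) ^ 2))) := by
    linear_combination hc - hh - (C + 1 / 2 + z * (μ * x) + 2 * z * xz) * hC
  exact mul_left_cancel₀ hz.ne' h1

theorem deg_om123 (hC : C = 1 / 2 + z * (-(μ + z * g) * x))
    (hc : C ^ 2 + (h - z * (μ + z * g)) ^ 2 = 1) (hh : h ^ 2 = 3 / 4) :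
    (-xz - (μ + z * g) * x) + 2 * (h * μ) + z * ((-xz - (μ + z * g) * x) ^ 2 + μ ^ 2) =
      4 * h * μ - 2 * C * xz + z * (xz ^ 2 + 2 * (h * g) - (2 * (μ * (z * g)) + (z * g) ^ 2)) := by
  have h1 : z * ((-xz - (μ + z * g) * x) + 2 * (h * μ) +
      z * ((-xz - (μ + z * g) * x) ^ 2 + μ ^ 2)) =
      z * (4 * h * μ - 2 * C * xz +
        z * (xz ^ 2 + 2 * (h * g) - (2 * (μ * (z * g)) + (z * g) ^ 2))) := by
    linear_combination hc - hh - (C + 1 / 2 + z * (-(μ + z * g) * x) - 2 * z * xz) * hC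
  exact mul_left_cancel₀ hz.ne' h1

/-- The increment of the third side over the unit circle. -/
theorem deg_seg {u om X cp T y : ℝ} (hX : X = 1 / 2 + z * u) (hcp : cp = 1 / 2 + z * y)
    (h1 : X ^ 2 + T ^ 2 - 1 = z * om) (h2 : cp ^ 2 + T ^ 2 = 1) (h3 : 0 < X + cp) :
    u - y = om * (X + cp)⁻¹ := by
  rw [← div_eq_mul_inv, eq_div_iff h3.ne']
  have : z * ((u - y) * (X + cp)) = z * om := by
    linear_combination h1 - h2 - (X + cp) * hX + (X + cp) * hcp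
  exact mul_left_cancel₀ hz.ne' this

end

theorem ratio_d213 {A z g μ : ℝ} (hz : 0 < z) (hm : 0 < μ + z * g) :
    A * (z * (z * g) - z * μ) / (z * (z * g) + z * μ) = A * (-1 + 2 * (z * (g * (μ + z * g)⁻¹))) := by
  have h1 : z * (z * g) + z * μ = z * (μ + z * g) := by ring
  rw [h1, div_eq_iff (mul_pos hz hm).ne']
  have hi : (μ + z * g)⁻¹ * (μ + z * g) = 1 := inv_mul_cancel₀ hm.ne'
  linear_combination (-2 * A * z * z * g) * hi

theorem ratio_d123 {A z g μ : ℝ} (hz : 0 < z) (hm : 0 < μ + z * g) :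
    A * (z * μ - z * (z * g)) / (z * μ + z * (z * g)) = A * (1 - 2 * (z * (g * (μ + z * g)⁻¹))) := by
  have h1 : z * μ + z * (z * g) = z * (μ + z * g) := by ring
  rw [h1, div_eq_iff (mul_pos hz hm).ne']
  have hi : (μ + z * g)⁻¹ * (μ + z * g) = 1 := inv_mul_cancel₀ hm.ne'
  linear_combination (2 * A * z * z * g) * hi

end Pool.Agent.Strip051.LC.Line.Corn
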