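import Pool.Agent.Strip051.LC.Line.Corn.VB02pmz213
import Pool.Agent.Strip051.LC.Line.Corn.Deg

/-! # Degenerate vertical chart B02pmz213 (generated) -/

namespace Pool.Agent.Strip051.LC.Line.Corn

open Pool.Agent.StripNear Pool.Agent.StripSquare Pool.Agent.Strip051.Sweep
  Pool.Agent.Strip051.LC

/-- **The chart.** -/
theorem main_B02pmz213 {v : ℝ → Fin 5 → ℝ} (hv : CTV v) {x y t t' : ℝ} (hx : 0 < x)
    (hy : 0 ≤ y) (hy1 : y ≤ 1)
    (ht : t = h0 + x * y) (hT : t + t' = kc3 x)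
    (k2 : t ≤ h0 + 1 / 10) (k3 : t' < h0) (k4 : h0 - 1 / 10 ≤ t') (k5 : 2 * h0 - 1 / 10 ≤ t + t')
    {i : Fin 3} {ε : ℝ} (hε : ε = 1 ∨ ε = -1)
    (H : HypB 0 2 1 (-1) ε i t t') :
    NFV 1 (1 * cv 0 t) ((-1) * cv 2 (t + t')) t t' (valB 0 2 1 (-1) ε i t t' v) := by
  have hp := h0_gt
  have hl := h0_lt
  have hx1 := z_le (z := x) (by rw [← hT]; exact k5)
  have hZ : 0 ≤ x := hx.le
  have hZ1 : x ≤ 6 / 10 := by linarith
  have hxy : 0 ≤ x * y := mul_nonneg hx.le hy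
  obtain ⟨b0, b1, b2, b3⟩ := VB02pmz213.box hx.le hx1 hy hy1
  obtain ⟨-, -, -, -, -, h1, h3, hlo, hhi⟩ := H
  have hg := kz_gap hZ hZ1
  have hkb := kz_bd hZ hZ1
  obtain ⟨gq0, gq1⟩ := kz_g hZ hZ1
  have hk : kc3 x = 2 * h0 + x * (-(x * (gqz x))) := by
    linear_combination hg
  have k6 : t + t' ≤ 2 * h0 := by rw [hT]; exact hkb.2
  have e0 : t = h0 + (x * y) := by
    rw [ht]
    try push_cast
    try ring
  have e1 : t' = h0 + (x * (-(y + (x * (gqz x))))) := by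
    have h := hT
    rw [hk] at h
    push_cast at h ⊢
    linear_combination h - ht
  have z0 : (x * y) = t - h0 := by
    linarith [e0]
  have z1 : (x * (-(y + (x * (gqz x))))) = t' - h0 := by
    linarith [e1]
  have hT0 : 2 * h0 - 1 / 10 ≤ kc3 x := by rw [← hT]; exact k5
  have g0 : cv 0 t = 1 / 2 + x * (y * x1_2 (x * y)) := by
    change c1 t = _
    rw [e0, germ_x1_2 (s := (x * y)) (by rw [z0]; linarith) (by rw [z0]; linarith)]
    ring
  have r0 : v t (tg 0) = 1 / 2 + x * (y * x1_2 (x * y)) := by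
    change v t 0 = _
    rw [e0, germ_r1_2 (s := (x * y)) (by rw [z0]; linarith) (by rw [z0]; linarith) hv.toCT]
    ring
  have g2 : cv 2 (t + t') = x * (x2z x) := by
    change f2 (t + t') = _
    rw [hT, kz_f2 hZ hZ1]
  have r2 : v (t + t') (tg 2) = x * ((x2z x * b2z x)) := by
    change v (t + t') 3 = _
    rw [hT, kz_v3 hZ hZ1 hv hT0]
  have hX : (-1) * ((-1) * cv 2 (t + t') - 1 * cv 0 t) = 1 / 2 + x * (-((-(((1 : ℕ) : ℝ) * (x2z x))) - (y * (x1_2 (x * y))))) := by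
    rw [g0, g2]
    push_cast
    ring
  have he : exc (1 * cv 0 t) ((-1) * cv 2 (t + t')) t t' = x * (((((y * (x1_2 (x * y))) * (kc3 x)) + (((1 : ℕ) : ℝ) / ((2 : ℕ) : ℝ) * (-(x * (gqz x))))) - ((-(((1 : ℕ) : ℝ) * (x2z x))) * (gh + (x * y)))) * ((Real.sqrt ((3 : ℕ) : ℝ))⁻¹)) := by
    apply exc_of
    rw [g0, g2, hT, e0, gh_eq]
    push_cast
    linear_combination (1 / 2) * hk
  have hom : ((-1) * cv 2 (t + t') - 1 * cv 0 t) ^ 2 + t' ^ 2 - 1 = x * (((-((-(((1 : ℕ) : ℝ) * (x2z x))) - (y * (x1_2 (x * y))))) + (((2 : ℕ) : ℝ) * (gh * (-(y + (x * (gqz x))))))) + (x * (((-((-(((1 : ℕ) : ℝ) * (x2z x))) - (y * (x1_2 (x * y))))) ^ 2) + ((-(y + (x * (gqz x)))) ^ 2)))) := by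
    have h7 : (-1) * cv 2 (t + t') - 1 * cv 0 t = -(1 / 2 + x * (-((-(((1 : ℕ) : ℝ) * (x2z x))) - (y * (x1_2 (x * y)))))) := by linarith [hX]
    rw [h7, e1, gh_eq]
    push_cast
    linear_combination h0_sq'
  have hc : ∀ m : Fin 4, 0 ≤ cv m t' := fun m => cv_nonneg m (by linarith) (by nlinarith [h0_sq'])
  have hl1 : 2 * h0 - (t + t') = x * (x * (gqz x)) := by
    rw [hT, hk]
    try push_cast
    ring
  have hl2 : t - h0 = x * y := by
    rw [ht]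
    try push_cast
    ring
  have ha : 0 ≤ (x * (gqz x)) := by
    have : (0 : ℝ) ≤ 1 - y := by linarith
    push_cast
    positivity
  have hb : 0 ≤ y := by
    have : (0 : ℝ) ≤ 1 - y := by linarith
    push_cast
    positivity
  have hT1 : gh + (x * (-(y + (x * (gqz x))))) = t' := by
    rw [gh_eq]
    exact e1.symm
  rcases hε with rfl | rfl
  · exfalso
    have h5 := hc i.castSucc
    rcases b0 with hb' | hb' | hb'
    · exfalso
      push_cast at hb' z1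
      linarith [z1]
    · exfalso
      have h7 := mul_pos hx hb'
      push_cast at h7 hom h1
      linarith [hom, h1]
    · have h6 : 0 < 1 / 2 + x * (-((-(((1 : ℕ) : ℝ) * (x2z x))) - (y * (x1_2 (x * y))))) := by
        push_cast at hb' ⊢
        linarith
      linarith
  · have hlo0 := hlo
    have hhi0 := hhi
    rw [hX] at hlo hhi
    fin_cases i
    · have hlo' : c1 t' ≤ 1 / 2 + x * (-((-(((1 : ℕ) : ℝ) * (x2z x))) - (y * (x1_2 (x * y))))) := hlo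
      have hhi' : 1 / 2 + x * (-((-(((1 : ℕ) : ℝ) * (x2z x))) - (y * (x1_2 (x * y))))) ≤ f1 t' := hhi
      have gxlo : c1 t' = 1 / 2 + x * ((-(y + (x * (gqz x)))) * x1_1 (x * (-(y + (x * (gqz x)))))) := by
        rw [e1, germ_x1_1 (s := (x * (-(y + (x * (gqz x)))))) (by rw [z1]; linarith) (by rw [z1]; linarith)]
        ring
      have gr : v t' 0 = 1 / 2 + x * ((-(y + (x * (gqz x)))) * r1_1 (x * (-(y + (x * (gqz x)))))) := by
        rw [e1, germ_r1_1 (s := (x * (-(y + (x * (gqz x)))))) (by rw [z1]; linarith) (by rw [z1]; linarith) hv.toCT]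
        ring
      have gG : v t' 1 - v t' 0 = g0_1 (x * (-(y + (x * (gqz x))))) * (f1 t' - c1 t') := by
        rw [e1]
        exact germ_g0_1 (s := (x * (-(y + (x * (gqz x)))))) (by rw [z1]; linarith) (by rw [z1]; linarith) hv.toCT
      have hseg := seg_lo (v := v) (i := 0) (T := t') (G := g0_1 (x * (-(y + (x * (gqz x)))))) gxlo gr rfl gG hlo' hhi'
      rcases b1 with hb' | hb' | hb' | hb' | hb'
      · exfalso
        push_cast at hb' z1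
        linarith [z1]
      · exfalso
        have h7 := mul_pos hx hb'
        push_cast at h7 hom h1
        linarith [hom, h1]
      · exfalso
        rw [gxlo] at hlo'
        have h7 := mul_pos hx hb'
        push_cast at h7 hlo'
        nlinarith
      · have h8 := hb'
        refine cellv_213 (θ := 1) (r := x) one_pos hx.le ha hb he (d := (((-(((1 : ℕ) : ℝ) * ((x2z x) * (b2z x)))) - (y * (x1_2 (x * y)))) - (-(((-(y + (x * (gqz x)))) * (r1_1 (x * (-(y + (x * (gqz x))))))) + ((g0_1 (x * (-(y + (x * (gqz x)))))) * ((-((-(((1 : ℕ) : ℝ) * (x2z x))) - (y * (x1_2 (x * y))))) - ((-(y + (x * (gqz x)))) * (x1_1 (x * (-(y + (x * (gqz x))))))))))))) ?_ k5 k6 (by rw [ht]; linarith) k2 k3 hl1 hl2 (A1 := (x * (-(((1 : ℕ) : ℝ) * ((x2z x) * (b2z x)))))) (A2 := (-((((1 : ℕ) : ℝ) / ((2 : ℕ) : ℝ)) + (x * (y * (x1_2 (x * y))))))) ?_ ?_ ?_ ?_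
        · change (-1) * v (t + t') (tg 2) - 1 * v t (tg 0) - (-1) * segW v 0 ((-1) * ((-1) * cv 2 (t + t') - 1 * cv 0 t)) t' = _
          rw [hX, hseg, r0, r2]
          push_cast
          ring
        · change (x * (-(((1 : ℕ) : ℝ) * ((x2z x) * (b2z x))))) = (-1) * v (t + t') (tg 2)
          rw [r2]
          push_cast
          ring
        · change (-((((1 : ℕ) : ℝ) / ((2 : ℕ) : ℝ)) + (x * (y * (x1_2 (x * y)))))) = -(1 * v t (tg 0))
          rw [r0]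
          push_cast
          ring
        · have h9 := h8.1.le
          push_cast at h9 ⊢
          exact h9
        · have h9 := h8.2.le
          push_cast at h9 ⊢
          linarith
      · obtain ⟨q1, q2, q3⟩ := hb'
        have b0t := c1_bd (T := t) (by linarith) (by linarith)
        have b1t := c1_bd (T := t') (by linarith) (by linarith)
        simp only [show x1_2 = x1_1 from rfl] at *
        have hω : 0 ≤ (((-((-(((1 : ℕ) : ℝ) * (x2z x))) - (y * (x1_1 (x * y))))) + (((2 : ℕ) : ℝ) * (gh * (-(y + (x * (gqz x))))))) + (x * (((-((-(((1 : ℕ) : ℝ) * (x2z x))) - (y * (x1_1 (x * y))))) ^ 2) + ((-(y + (x * (gqz x)))) ^ 2)))) := by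
          have h7 : 0 ≤ x * (((-((-(((1 : ℕ) : ℝ) * (x2z x))) - (y * (x1_1 (x * y))))) + (((2 : ℕ) : ℝ) * (gh * (-(y + (x * (gqz x))))))) + (x * (((-((-(((1 : ℕ) : ℝ) * (x2z x))) - (y * (x1_1 (x * y))))) ^ 2) + ((-(y + (x * (gqz x)))) ^ 2)))) := by linarith [hom, h1]
          exact (mul_nonneg_iff_of_pos_left hx).1 h7
        have hxg := mul_pos hx gq0
        have hmg : 0 < y + x * gqz x := by linarith
        have hq := h0_sq'
        have hCt : kc1 (gh + (x * y)) = c1 t := by rw [kc1_eq, gh_eq, ← e0]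
        have hPt : kc1 (gh + (x * (-(y + (x * (gqz x)))))) = c1 t' := by rw [kc1_eq, gh_eq, ← e1]
        have g0' : c1 t = 1 / 2 + x * (y * x1_1 (x * y)) := g0
        have hb2 : b2z x = 1 / 2 - x ^ 2 * (gqz x * m2z) := by
          unfold b2z
          push_cast
          ring
        have hK0 := K1q_eq (s := (x * y)) hCt b0t.1.le (by rw [g0']; ring)
        have hK1 := K1q_eq (s := (x * (-(y + (x * (gqz x)))))) hPt b1t.1.le (by rw [gxlo]; ring)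
        have hr := r1q_eq (s := (x * (-(y + (x * (gqz x)))))) hPt b1t.1.le (by rw [gxlo]; ring)
        have hR1 : (((-((-(((1 : ℕ) : ℝ) * (x2z x))) - (y * (x1_1 (x * y))))) + (((2 : ℕ) : ℝ) * (gh * (-(y + (x * (gqz x))))))) + (x * (((-((-(((1 : ℕ) : ℝ) * (x2z x))) - (y * (x1_1 (x * y))))) ^ 2) + ((-(y + (x * (gqz x)))) ^ 2)))) =
            -4 * h0 * y + 2 * c1 t * x2z x + x * ((x2z x) ^ 2 - 2 * (h0 * gqz x) + (2 * (y * (x * gqz x)) + (x * gqz x) ^ 2)) := by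
          rw [← deg_om213 (z := x) (μ := y) (g := gqz x) (x := x1_1 (x * y)) (xz := x2z x) (C := c1 t) (h := h0) hx (by rw [g0']) (by rw [b0t.2, e0]; ring) hq, gh_eq]
          push_cast
          ring
        have hXX : c1 t + x * x2z x = 1 / 2 + x * (-((-(((1 : ℕ) : ℝ) * (x2z x))) - (y * (x1_1 (x * y))))) := by
          rw [g0']
          push_cast
          ring
        have hXp : 0 < c1 t + x * x2z x + c1 t' := by
          rw [hXX]
          linarith [b1t.1]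
        have hsg := deg_seg (z := x) (u := (-((-(((1 : ℕ) : ℝ) * (x2z x))) - (y * (x1_1 (x * y)))))) (om := (((-((-(((1 : ℕ) : ℝ) * (x2z x))) - (y * (x1_1 (x * y))))) + (((2 : ℕ) : ℝ) * (gh * (-(y + (x * (gqz x))))))) + (x * (((-((-(((1 : ℕ) : ℝ) * (x2z x))) - (y * (x1_1 (x * y))))) ^ 2) + ((-(y + (x * (gqz x)))) ^ 2)))))
          (X := c1 t + x * x2z x) (cp := c1 t') (T := t') (y := (-(y + (x * (gqz x)))) * x1_1 (x * (-(y + (x * (gqz x)))))) hx hXX (by rw [gxlo])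
          (by rw [hXX, ← hX, ← hom]; ring) (by linarith [b1t.2]) hXp
        have E12 : 1 * v t (tg 0) = c1 t := by
          rw [r0, g0']
          ring
        have E13 : (-1) * v (t + t') (tg 2) = -(x * (x2z x * b2z x)) := by
          rw [r2]
          ring
        have E23 : (-1) * segW v 0 ((-1) * ((-1) * cv 2 (t + t') - 1 * cv 0 t)) t' = -(c1 t + x * ((y + x * gqz x) ^ 2 * (x * r1q (x * (-(y + (x * (gqz x)))))) - y * x1_1 (x * y) + (g0_1 (x * (-(y + (x * (gqz x)))))) * (((-((-(((1 : ℕ) : ℝ) * (x2z x))) - (y * (x1_1 (x * y))))) + (((2 : ℕ) : ℝ) * (gh * (-(y + (x * (gqz x))))))) + (x * (((-((-(((1 : ℕ) : ℝ) * (x2z x))) - (y * (x1_1 (x * y))))) ^ 2) + ((-(y + (x * (gqz x)))) ^ 2)))) * (c1 t + x * x2z x + c1 t')⁻¹)) := by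
          rw [hX, hseg, hr, g0']
          push_cast at hsg ⊢
          rw [g0'] at hsg
          linear_combination (-(x * (g0_1 (x * (-(y + (x * (gqz x)))))))) * hsg
        have he2 : exc (1 * cv 0 t) ((-1) * cv 2 (t + t')) t t' = x * ((-((x1_1 (x * y)) * ((((4 : ℕ) : ℝ) * gh)⁻¹))) * (((-((-(((1 : ℕ) : ℝ) * (x2z x))) - (y * (x1_1 (x * y))))) + (((2 : ℕ) : ℝ) * (gh * (-(y + (x * (gqz x))))))) + (x * (((-((-(((1 : ℕ) : ℝ) * (x2z x))) - (y * (x1_1 (x * y))))) ^ 2) + ((-(y + (x * (gqz x)))) ^ 2)))) + x * ((((((x2z x) * (y * (K1q (x * y)))) + ((((1 : ℕ) : ℝ) / ((2 : ℕ) : ℝ) * (x1_1 (x * y))) * ((((x2z x) ^ 2) - (((2 : ℕ) : ℝ) * (gh * (gqz x)))) + ((((2 : ℕ) : ℝ) * (y * (x * (gqz x)))) + ((x * (gqz x)) ^ 2))))) - ((kc1 (gh + (x * y))) * (gqz x))) + ((x2z x) * y)) * ((((2 : ℕ) : ℝ) * gh)⁻¹))) := by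
          rw [he, hCt, hR1, gh_eq, r3_eq]
          push_cast at hK0 hk ⊢
          linear_combination (x * h0⁻¹ / 2) * (x2z x * hK0 + x * gqz x * g0' + (y * x1_1 (x * y)) * hk)
        refine nfv_213 (R12 := 1 * v t (tg 0)) (R23 := (-1) * segW v 0 ((-1) * ((-1) * cv 2 (t + t') - 1 * cv 0 t)) t') (R13 := (-1) * v (t + t') (tg 2)) k5 k6 (by rw [ht]; linarith) k2 k3 ?_
        refine starN_degQ (z := x) (ω := (((-((-(((1 : ℕ) : ℝ) * (x2z x))) - (y * (x1_1 (x * y))))) + (((2 : ℕ) : ℝ) * (gh * (-(y + (x * (gqz x))))))) + (x * (((-((-(((1 : ℕ) : ℝ) * (x2z x))) - (y * (x1_1 (x * y))))) ^ 2) + ((-(y + (x * (gqz x)))) ^ 2))))) (a := (x * (gqz x))) (b := y) (e1 := (-((x1_1 (x * y)) * ((((4 : ℕ) : ℝ) * gh)⁻¹)))) (e2 := ((((((x2z x) * (y * (K1q (x * y)))) + ((((1 : ℕ) : ℝ) / ((2 : ℕ) : ℝ) * (x1_1 (x * y))) * ((((x2z x) ^ 2) - (((2 : ℕ) : ℝ) * (gh * (gqz x)))) + ((((2 : ℕ) : ℝ) * (y * (x * (gqz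 x)))) + ((x * (gqz x)) ^ 2))))) - ((kc1 (gh + (x * y))) * (gqz x))) + ((x2z x) * y)) * ((((2 : ℕ) : ℝ) * gh)⁻¹))) (d1 := (((x1_1 (x * y)) * ((((4 : ℕ) : ℝ) * gh)⁻¹)) + ((g0_1 (x * (-(y + (x * (gqz x)))))) * ((((kc1 (gh + (x * y))) + (x * (x2z x))) + (kc1 (gh + (x * (-(y + (x * (gqz x))))))))⁻¹)))) (d2 := (((-((x2z x) * (((y * (K1q (x * y))) * ((((2 : ℕ) : ℝ) * gh)⁻¹)) - ((x * (gqz x)) * m2z)))) - (((x1_1 (x * y)) * ((((4 : ℕ) : ℝ) * gh)⁻¹)) * ((((x2z x) ^ 2) - (((2 : ℕ) : ℝ) * (gh * (gqz x)))) + ((((2 : ℕ) : ℝ) * (y * (x * (gqz x)))) + ((x * (gqz x)) ^ 2))))) + (((y + (x * (gqz x))) ^ 2) * (r1q (x * (-(y + (x * (gqz x))))))))) (g1 := (((gqz x) * (kc1 (gh + (x * y)))) - (y * ((x2z x) * (b2z x))))) hx.le hω ha hb hl1 hl2 (by linarith) he2 ?_ ?_ ?_ q1.le q2.le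
        · rw [E12, E13, E23, hCt, hPt]
          rw [gh_eq]
          have hi : h0 * h0⁻¹ = 1 := mul_inv_cancel₀ h0_pos.ne'
          rw [gh_eq] at hR1
          push_cast at hK0 hb2 hR1 ⊢
          linear_combination (-(x * (x2z x)) * (h0⁻¹ / 2)) * hK0 + (x * (x2z x / 2 + y * x1_1 (x * y))) * hi - x * x2z x * hb2 - (x * x1_1 (x * y) * h0⁻¹ / 4) * hR1
        · rw [E12, E13, hCt]
          ring
        · have hrt := ratio_d213 (A := ((-1) * segW v 0 ((-1) * ((-1) * cv 2 (t + t') - 1 * cv 0 t)) t')) (z := x) (g := gqz x) (μ := y) hx hmg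
          have hS : (-((-1) * v (t + t') (tg 2)) * (h0 - x * (x * gqz x)) + (-(1 * v t (tg 0))) * (h0 - x * y) + ((-1) * segW v 0 ((-1) * ((-1) * cv 2 (t + t') - 1 * cv 0 t)) t') * (-1 + 2 * (x * (gqz x * (y + x * gqz x)⁻¹))) * (h0 - x * (x * gqz x) - x * y)) + h0 * (x * ((-((x1_1 (x * y)) * ((((4 : ℕ) : ℝ) * gh)⁻¹))) * (((-((-(((1 : ℕ) : ℝ) * (x2z x))) - (y * (x1_1 (x * y))))) + (((2 : ℕ) : ℝ) * (gh * (-(y + (x * (gqz x))))))) + (x * (((-((-(((1 : ℕ) : ℝ) * (x2z x))) - (y * (x1_1 (x * y))))) ^ 2) + ((-(y + (x * (gqz x)))) ^ 2)))) + x * ((((((x2z x) * (y * (K1q (x * y)))) + ((((1 : ℕ) : ℝ) / ((2 : ℕ) : ℝ) * (x1_1 (x * y))) * ((((x2z x) ^ 2) - (((2 : ℕ) : ℝ) * (gh * (gqz x)))) + ((((2 : ℕ) : ℝ) * (y * (x * (gqz x)))) + ((x * (gqz x)) ^ 2))))) - ((kc1 (gh + (x * y))) * (gqz x))) + ((x2z x) * y)) * ((((2 : ℕ) : ℝ) * gh)⁻¹)))) = x * (((((((kc1 (gh + (x * y))) * y) + (((x2z x) * (b2z x))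 * (gh - (x * (x * (gqz x)))))) + (gh * (((((y + (x * (gqz x))) ^ 2) * (x * (r1q (x * (-(y + (x * (gqz x)))))))) - (y * (x1_1 (x * y)))) + (((g0_1 (x * (-(y + (x * (gqz x)))))) * (((-((-(((1 : ℕ) : ℝ) * (x2z x))) - (y * (x1_1 (x * y))))) + (((2 : ℕ) : ℝ) * (gh * (-(y + (x * (gqz x))))))) + (x * (((-((-(((1 : ℕ) : ℝ) * (x2z x))) - (y * (x1_1 (x * y))))) ^ 2) + ((-(y + (x * (gqz x)))) ^ 2))))) * ((((kc1 (gh + (x * y))) + (x * (x2z x))) + (kc1 (gh + (x * (-(y + (x * (gqz x))))))))⁻¹))))) - (((x * (gqz x)) + y) * ((kc1 (gh + (x * y))) + (x * (((((y + (x * (gqz x))) ^ 2) * (x * (r1q (x * (-(y + (x * (gqz x)))))))) - (y * (x1_1 (x * y)))) + (((g0_1 (x * (-(y + (x * (gqz x)))))) * (((-((-(((1 : ℕ) : ℝ) * (x2z x))) - (y * (x1_1 (x * y))))) + (((2 : ℕ) : ℝ) * (gh * (-(y + (x * (gqz x))))))) + (x * (((-((-(((1 : ℕ) : ℝ) * (x2z x))) - (y * (x1_1 (x * y))))) ^ 2) + ((-(y + (x * (gqz x)))) ^ 2)))))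 * ((((kc1 (gh + (x * y))) + (x * (x2z x))) + (kc1 (gh + (x * (-(y + (x * (gqz x))))))))⁻¹))))))) - ((((2 : ℕ) : ℝ) * ((gqz x) * ((y + (x * (gqz x)))⁻¹))) * ((gh - (x * ((x * (gqz x)) + y))) * ((kc1 (gh + (x * y))) + (x * (((((y + (x * (gqz x))) ^ 2) * (x * (r1q (x * (-(y + (x * (gqz x)))))))) - (y * (x1_1 (x * y)))) + (((g0_1 (x * (-(y + (x * (gqz x)))))) * (((-((-(((1 : ℕ) : ℝ) * (x2z x))) - (y * (x1_1 (x * y))))) + (((2 : ℕ) : ℝ) * (gh * (-(y + (x * (gqz x))))))) + (x * (((-((-(((1 : ℕ) : ℝ) * (x2z x))) - (y * (x1_1 (x * y))))) ^ 2) + ((-(y + (x * (gqz x)))) ^ 2))))) * ((((kc1 (gh + (x * y))) + (x * (x2z x))) + (kc1 (gh + (x * (-(y + (x * (gqz x))))))))⁻¹)))))))) + ((gh * (((-((x1_1 (x * y)) * ((((4 : ℕ) : ℝ) * gh)⁻¹))) * (((-((-(((1 : ℕ) : ℝ) * (x2z x))) - (y * (x1_1 (x * y))))) + (((2 : ℕ) : ℝ) * (gh * (-(y + (x * (gqz x))))))) + (x * (((-((-(((1 : ℕ) : ℝ) * (x2z x))) - (y * (x1_1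 (x * y))))) ^ 2) + ((-(y + (x * (gqz x)))) ^ 2))))) + (x * ((((((x2z x) * (y * (K1q (x * y)))) + ((((1 : ℕ) : ℝ) / ((2 : ℕ) : ℝ) * (x1_1 (x * y))) * ((((x2z x) ^ 2) - (((2 : ℕ) : ℝ) * (gh * (gqz x)))) + ((((2 : ℕ) : ℝ) * (y * (x * (gqz x)))) + ((x * (gqz x)) ^ 2))))) - ((kc1 (gh + (x * y))) * (gqz x))) + ((x2z x) * y)) * ((((2 : ℕ) : ℝ) * gh)⁻¹))))) * (((1 : ℕ) : ℝ)⁻¹))) := by
            rw [E12, E13, E23, hCt, hPt, gh_eq]
            push_cast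
            ring
          have q4 := mul_pos hx q3
          rw [hl1, hl2, he2, hrt]
          refine le_of_eq_of_le (b := x * (((((((kc1 (gh + (x * y))) * y) + (((x2z x) * (b2z x)) * (gh - (x * (x * (gqz x)))))) + (gh * (((((y + (x * (gqz x))) ^ 2) * (x * (r1q (x * (-(y + (x * (gqz x)))))))) - (y * (x1_1 (x * y)))) + (((g0_1 (x * (-(y + (x * (gqz x)))))) * (((-((-(((1 : ℕ) : ℝ) * (x2z x))) - (y * (x1_1 (x * y))))) + (((2 : ℕ) : ℝ) * (gh * (-(y + (x * (gqz x))))))) + (x * (((-((-(((1 : ℕ) : ℝ) * (x2z x))) - (y * (x1_1 (x * y))))) ^ 2) + ((-(y + (x * (gqz x)))) ^ 2))))) * ((((kc1 (gh + (x * y))) + (x * (x2z x))) + (kc1 (gh + (x * (-(y + (x * (gqz x))))))))⁻¹))))) - (((x * (gqz x)) + y) * ((kc1 (gh + (x * y))) + (x * (((((y + (x * (gqz x))) ^ 2) * (x * (r1q (x * (-(y + (x * (gqz x)))))))) - (y * (x1_1 (x * y)))) + (((g0_1 (x * (-(y + (x * (gqz x)))))) * (((-((-(((1 : ℕ) : ℝ) * (x2z x)))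 - (y * (x1_1 (x * y))))) + (((2 : ℕ) : ℝ) * (gh * (-(y + (x * (gqz x))))))) + (x * (((-((-(((1 : ℕ) : ℝ) * (x2z x))) - (y * (x1_1 (x * y))))) ^ 2) + ((-(y + (x * (gqz x)))) ^ 2))))) * ((((kc1 (gh + (x * y))) + (x * (x2z x))) + (kc1 (gh + (x * (-(y + (x * (gqz x))))))))⁻¹))))))) - ((((2 : ℕ) : ℝ) * ((gqz x) * ((y + (x * (gqz x)))⁻¹))) * ((gh - (x * ((x * (gqz x)) + y))) * ((kc1 (gh + (x * y))) + (x * (((((y + (x * (gqz x))) ^ 2) * (x * (r1q (x * (-(y + (x * (gqz x)))))))) - (y * (x1_1 (x * y)))) + (((g0_1 (x * (-(y + (x * (gqz x)))))) * (((-((-(((1 : ℕ) : ℝ) * (x2z x))) - (y * (x1_1 (x * y))))) + (((2 : ℕ) : ℝ) * (gh * (-(y + (x * (gqz x))))))) + (x * (((-((-(((1 : ℕ) : ℝ) * (x2z x))) - (y * (x1_1 (x * y))))) ^ 2) + ((-(y + (x * (gqz x)))) ^ 2))))) * ((((kc1 (gh + (x * y))) + (x * (x2z x))) + (kc1 (gh + (x * (-(y + (x * (gqz x))))))))⁻¹)))))))) + ((gh * (((-((x1_1 (x * y)) * ((((4 : ℕ)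 : ℝ) * gh)⁻¹))) * (((-((-(((1 : ℕ) : ℝ) * (x2z x))) - (y * (x1_1 (x * y))))) + (((2 : ℕ) : ℝ) * (gh * (-(y + (x * (gqz x))))))) + (x * (((-((-(((1 : ℕ) : ℝ) * (x2z x))) - (y * (x1_1 (x * y))))) ^ 2) + ((-(y + (x * (gqz x)))) ^ 2))))) + (x * ((((((x2z x) * (y * (K1q (x * y)))) + ((((1 : ℕ) : ℝ) / ((2 : ℕ) : ℝ) * (x1_1 (x * y))) * ((((x2z x) ^ 2) - (((2 : ℕ) : ℝ) * (gh * (gqz x)))) + ((((2 : ℕ) : ℝ) * (y * (x * (gqz x)))) + ((x * (gqz x)) ^ 2))))) - ((kc1 (gh + (x * y))) * (gqz x))) + ((x2z x) * y)) * ((((2 : ℕ) : ℝ) * gh)⁻¹))))) * (((1 : ℕ) : ℝ)⁻¹))) / (2 * h0)) ?_ ?_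
          · rw [← hS]
            field_simp
            try ring
          · exact div_nonpos_of_nonpos_of_nonneg (by linarith) (by linarith)
    · have hlo' : f1 t' ≤ 1 / 2 + x * (-((-(((1 : ℕ) : ℝ) * (x2z x))) - (y * (x1_2 (x * y))))) := hlo
      have hhi' : 1 / 2 + x * (-((-(((1 : ℕ) : ℝ) * (x2z x))) - (y * (x1_2 (x * y))))) ≤ f2 t' := hhi
      have hb0 := b2
      rw [hT1] at hb0
      rw [kf1m_eq (T := t') (by linarith)] at hb0
      rw [kf2m_eq (T := t') (by linarith)] at hb0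
      rcases hb0 with hb' | hb' | hb' | hb'
      · exfalso
        push_cast at hb' z1
        linarith [z1]
      · exfalso
        have h7 := mul_pos hx hb'
        push_cast at h7 hom h1
        linarith [hom, h1]
      · exfalso
        push_cast at hb' hlo' hhi'
        linarith
      · exfalso
        push_cast at hb' hlo' hhi'
        linarith
    · have hlo' : f2 t' ≤ 1 / 2 + x * (-((-(((1 : ℕ) : ℝ) * (x2z x))) - (y * (x1_2 (x * y))))) := hlo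
      have hhi' : 1 / 2 + x * (-((-(((1 : ℕ) : ℝ) * (x2z x))) - (y * (x1_2 (x * y))))) ≤ c3 t' := hhi
      have hb0 := b3
      rw [hT1] at hb0
      rw [kf2m_eq (T := t') (by linarith)] at hb0
      rw [kc3_eq] at hb0
      rcases hb0 with hb' | hb' | hb' | hb'
      · exfalso
        push_cast at hb' z1
        linarith [z1]
      · exfalso
        have h7 := mul_pos hx hb'
        push_cast at h7 hom h1
        linarith [hom, h1]
      · exfalso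
        push_cast at hb' hlo' hhi'
        linarith
      · exfalso
        push_cast at hb' hlo' hhi'
        linarith

end Pool.Agent.Strip051.LC.Line.Corn
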