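import Pool.Agent.Strip051.LC.Line.Corn.VB02ppz123
import Pool.Agent.Strip051.LC.Line.Corn.Deg

/-! # Degenerate vertical chart B02ppz123 (generated) -/

namespace Pool.Agent.Strip051.LC.Line.Corn

open Pool.Agent.StripNear Pool.Agent.StripSquare Pool.Agent.Strip051.Sweep
  Pool.Agent.Strip051.LC

/-- **The chart.** -/
theorem main_B02ppz123 {v : ℝ → Fin 5 → ℝ} (hv : CTV v) {x y t t' : ℝ} (hx : 0 < x)
    (hy : 0 ≤ y) (hy1 : y ≤ 1)
    (ht : t' = h0 + x * y) (hT : t + t' = kc3 x)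
    (k2 : t' ≤ h0 + 1 / 10) (k1 : t < h0) (k4 : h0 - 1 / 10 ≤ t) (k5 : 2 * h0 - 1 / 10 ≤ t + t')
    {i : Fin 3} {ε : ℝ} (hε : ε = 1 ∨ ε = -1)
    (H : HypB 0 2 1 1 ε i t t') :
    NFV 1 (1 * cv 0 t) (1 * cv 2 (t + t')) t t' (valB 0 2 1 1 ε i t t' v) := by
  have hp := h0_gt
  have hl := h0_lt
  have hx1 := z_le (z := x) (by rw [← hT]; exact k5)
  have hZ : 0 ≤ x := hx.le
  have hZ1 : x ≤ 6 / 10 := by linarith
  have hxy : 0 ≤ x * y := mul_nonneg hx.le hy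
  obtain ⟨b0, b1, b2, b3⟩ := VB02ppz123.box hx.le hx1 hy hy1
  obtain ⟨-, -, -, -, -, h1, h3, hlo, hhi⟩ := H
  have hg := kz_gap hZ hZ1
  have hkb := kz_bd hZ hZ1
  obtain ⟨gq0, gq1⟩ := kz_g hZ hZ1
  have hk : kc3 x = 2 * h0 + x * (-(x * (gqz x))) := by
    linear_combination hg
  have k6 : t + t' ≤ 2 * h0 := by rw [hT]; exact hkb.2
  have e1 : t' = h0 + (x * y) := by
    rw [ht]
    try push_cast
    try ring
  have e0 : t = h0 + (x * (-(y + (x * (gqz x))))) := by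
    have h := hT
    rw [hk] at h
    push_cast at h ⊢
    linear_combination h - ht
  have z0 : (x * (-(y + (x * (gqz x))))) = t - h0 := by
    linarith [e0]
  have z1 : (x * y) = t' - h0 := by
    linarith [e1]
  have hT0 : 2 * h0 - 1 / 10 ≤ kc3 x := by rw [← hT]; exact k5
  have g0 : cv 0 t = 1 / 2 + x * ((-(y + (x * (gqz x)))) * x1_1 (x * (-(y + (x * (gqz x)))))) := by
    change c1 t = _
    rw [e0, germ_x1_1 (s := (x * (-(y + (x * (gqz x)))))) (by rw [z0]; linarith) (by rw [z0]; linarith)]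
    ring
  have r0 : v t (tg 0) = 1 / 2 + x * ((-(y + (x * (gqz x)))) * r1_1 (x * (-(y + (x * (gqz x)))))) := by
    change v t 0 = _
    rw [e0, germ_r1_1 (s := (x * (-(y + (x * (gqz x)))))) (by rw [z0]; linarith) (by rw [z0]; linarith) hv.toCT]
    ring
  have g2 : cv 2 (t + t') = x * (x2z x) := by
    change f2 (t + t') = _
    rw [hT, kz_f2 hZ hZ1]
  have r2 : v (t + t') (tg 2) = x * ((x2z x * b2z x)) := by
    change v (t + t') 3 = _
    rw [hT, kz_v3 hZ hZ1 hv hT0]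
  have hX : (-1) * (1 * cv 2 (t + t') - 1 * cv 0 t) = 1 / 2 + x * (-((((1 : ℕ) : ℝ) * (x2z x)) - ((-(y + (x * (gqz x)))) * (x1_1 (x * (-(y + (x * (gqz x))))))))) := by
    rw [g0, g2]
    push_cast
    ring
  have he : exc (1 * cv 0 t) (1 * cv 2 (t + t')) t t' = x * ((((((-(y + (x * (gqz x)))) * (x1_1 (x * (-(y + (x * (gqz x))))))) * (kc3 x)) + (((1 : ℕ) : ℝ) / ((2 : ℕ) : ℝ) * (-(x * (gqz x))))) - ((((1 : ℕ) : ℝ) * (x2z x)) * (gh + (x * (-(y + (x * (gqz x)))))))) * ((Real.sqrt ((3 : ℕ) : ℝ))⁻¹)) := by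
    apply exc_of
    rw [g0, g2, hT, e0, gh_eq]
    push_cast
    linear_combination (1 / 2) * hk
  have hom : (1 * cv 2 (t + t') - 1 * cv 0 t) ^ 2 + t' ^ 2 - 1 = x * (((-((((1 : ℕ) : ℝ) * (x2z x)) - ((-(y + (x * (gqz x)))) * (x1_1 (x * (-(y + (x * (gqz x))))))))) + (((2 : ℕ) : ℝ) * (gh * y))) + (x * (((-((((1 : ℕ) : ℝ) * (x2z x)) - ((-(y + (x * (gqz x)))) * (x1_1 (x * (-(y + (x * (gqz x))))))))) ^ 2) + (y ^ 2)))) := by
    have h7 : 1 * cv 2 (t + t') - 1 * cv 0 t = -(1 / 2 + x * (-((((1 : ℕ) : ℝ) * (x2z x)) - ((-(y + (x * (gqz x)))) * (x1_1 (x * (-(y + (x * (gqz x)))))))))) := by linarith [hX]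
    rw [h7, e1, gh_eq]
    push_cast
    linear_combination h0_sq'
  have hc : ∀ m : Fin 4, 0 ≤ cv m t' := fun m => cv_nonneg m (by linarith) (by nlinarith [h0_sq'])
  have hl1 : t' - h0 = x * y := by
    rw [ht]
    try push_cast
    ring
  have hl2 : 2 * h0 - (t + t') = x * (x * (gqz x)) := by
    rw [hT, hk]
    try push_cast
    ring
  have ha : 0 ≤ y := by
    have : (0 : ℝ) ≤ 1 - y := by linarith
    push_cast
    positivity
  have hb : 0 ≤ (x * (gqz x)) := by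
    have : (0 : ℝ) ≤ 1 - y := by linarith
    push_cast
    positivity
  have hT1 : gh + (x * y) = t' := by
    rw [gh_eq]
    exact e1.symm
  rcases hε with rfl | rfl
  · exfalso
    have h5 := hc i.castSucc
    rcases b0 with hb' | hb' | hb'
    · exfalso
      push_cast at hb' z0
      linarith [z0]
    · exfalso
      have h7 := mul_pos hx hb'
      push_cast at h7 hom h1
      linarith [hom, h1]
    · have h6 : 0 < 1 / 2 + x * (-((((1 : ℕ) : ℝ) * (x2z x)) - ((-(y + (x * (gqz x)))) * (x1_1 (x * (-(y + (x * (gqz x))))))))) := by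
        push_cast at hb' ⊢
        linarith
      linarith
  · have hlo0 := hlo
    have hhi0 := hhi
    rw [hX] at hlo hhi
    fin_cases i
    · have hlo' : c1 t' ≤ 1 / 2 + x * (-((((1 : ℕ) : ℝ) * (x2z x)) - ((-(y + (x * (gqz x)))) * (x1_1 (x * (-(y + (x * (gqz x))))))))) := hlo
      have hhi' : 1 / 2 + x * (-((((1 : ℕ) : ℝ) * (x2z x)) - ((-(y + (x * (gqz x)))) * (x1_1 (x * (-(y + (x * (gqz x))))))))) ≤ f1 t' := hhi
      have gxlo : c1 t' = 1 / 2 + x * (y * x1_2 (x * y)) := by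
        rw [e1, germ_x1_2 (s := (x * y)) (by rw [z1]; linarith) (by rw [z1]; linarith)]
        ring
      have gxhi : f1 t' = 1 / 2 + x * (y * y1_2 (x * y)) := by
        rw [e1, germ_y1_2 (s := (x * y)) (by rw [z1]; linarith) (by rw [z1]; linarith)]
        ring
      have gr : v t' 0 = 1 / 2 + x * (y * x1_2 (x * y)) := by
        rw [e1, germ_r1_2 (s := (x * y)) (by rw [z1]; linarith) (by rw [z1]; linarith) hv.toCT]
        ring
      have gG : v t' 1 - v t' 0 = g0_2 (x * y) * (f1 t' - c1 t') := by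
        rw [e1]
        exact germ_g0_2 (s := (x * y)) (by rw [z1]; linarith) (by rw [z1]; linarith) hv.toCT
      have hseg := seg_lo (v := v) (i := 0) (T := t') (G := g0_2 (x * y)) gxlo gr rfl gG hlo' hhi'
      rcases b1 with hb' | hb' | hb' | hb' | hb' | hb'
      · exfalso
        push_cast at hb' z0
        linarith [z0]
      · exfalso
        have h7 := mul_pos hx hb'
        push_cast at h7 hom h1
        linarith [hom, h1]
      · exfalso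
        rw [gxlo] at hlo'
        have h7 := mul_pos hx hb'
        push_cast at h7 hlo'
        nlinarith
      · exfalso
        rw [gxhi] at hhi'
        have h7 := mul_pos hx hb'
        push_cast at h7 hhi'
        nlinarith
      · have h8 := hb'
        refine cellv_123 (θ := 1) (r := x) one_pos hx.le ha hb he (d := (((((1 : ℕ) : ℝ) * ((x2z x) * (b2z x))) - ((-(y + (x * (gqz x)))) * (r1_1 (x * (-(y + (x * (gqz x)))))))) - (-((y * (x1_2 (x * y))) + ((g0_2 (x * y)) * ((-((((1 : ℕ) : ℝ) * (x2z x)) - ((-(y + (x * (gqz x)))) * (x1_1 (x * (-(y + (x * (gqz x))))))))) - (y * (x1_2 (x * y))))))))) ?_ k5 k6 k1 k2 (by rw [ht]; linarith) hl1 hl2 (A1 := (-((-(((1 : ℕ) : ℝ) / ((2 : ℕ) : ℝ))) + (x * (-((y * (x1_2 (x * y))) + ((g0_2 (x * y)) * ((-((((1 : ℕ) : ℝ) * (x2z x)) - ((-(y + (x * (gqz x)))) * (x1_1 (x * (-(y + (x * (gqz x))))))))) - (y * (x1_2 (x * y))))))))))) (A2 := (x * (((1 : ℕ) :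 ℝ) * ((x2z x) * (b2z x))))) ?_ ?_ ?_ ?_
        · change 1 * v (t + t') (tg 2) - 1 * v t (tg 0) - (-1) * segW v 0 ((-1) * (1 * cv 2 (t + t') - 1 * cv 0 t)) t' = _
          rw [hX, hseg, r0, r2]
          push_cast
          ring
        · change (-((-(((1 : ℕ) : ℝ) / ((2 : ℕ) : ℝ))) + (x * (-((y * (x1_2 (x * y))) + ((g0_2 (x * y)) * ((-((((1 : ℕ) : ℝ) * (x2z x)) - ((-(y + (x * (gqz x)))) * (x1_1 (x * (-(y + (x * (gqz x))))))))) - (y * (x1_2 (x * y)))))))))) = -((-1) * segW v 0 ((-1) * (1 * cv 2 (t + t') - 1 * cv 0 t)) t')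
          rw [hX, hseg]
          push_cast
          ring
        · change (x * (((1 : ℕ) : ℝ) * ((x2z x) * (b2z x)))) = 1 * v (t + t') (tg 2)
          rw [r2]
          push_cast
          ring
        · have h9 := h8.1.le
          push_cast at h9 ⊢
          exact h9
        · have h9 := h8.2.le
          push_cast at h9 ⊢
          linarith
      · obtain ⟨q1, q2, q3⟩ := hb'
        have b0t := c1_bd (T := t) (by linarith) (by linarith)
        have b1t := c1_bd (T := t') (by linarith) (by linarith)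
        simp only [show x1_2 = x1_1 from rfl] at *
        have hω : 0 ≤ (((-((((1 : ℕ) : ℝ) * (x2z x)) - ((-(y + (x * (gqz x)))) * (x1_1 (x * (-(y + (x * (gqz x))))))))) + (((2 : ℕ) : ℝ) * (gh * y))) + (x * (((-((((1 : ℕ) : ℝ) * (x2z x)) - ((-(y + (x * (gqz x)))) * (x1_1 (x * (-(y + (x * (gqz x))))))))) ^ 2) + (y ^ 2)))) := by
          have h7 : 0 ≤ x * (((-((((1 : ℕ) : ℝ) * (x2z x)) - ((-(y + (x * (gqz x)))) * (x1_1 (x * (-(y + (x * (gqz x))))))))) + (((2 : ℕ) : ℝ) * (gh * y))) + (x * (((-((((1 : ℕ) : ℝ) * (x2z x)) - ((-(y + (x * (gqz x)))) * (x1_1 (x * (-(y + (x * (gqz x))))))))) ^ 2) + (y ^ 2)))) := by linarith [hom, h1]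
          exact (mul_nonneg_iff_of_pos_left hx).1 h7
        have hxg := mul_pos hx gq0
        have hmg : 0 < y + x * gqz x := by linarith
        have hq := h0_sq'
        have hCt : kc1 (gh + (x * (-(y + (x * (gqz x)))))) = c1 t := by rw [kc1_eq, gh_eq, ← e0]
        have hPt : kc1 (gh + (x * y)) = c1 t' := by rw [kc1_eq, gh_eq, ← e1]
        have g0' : c1 t = 1 / 2 + x * ((-(y + (x * (gqz x)))) * x1_1 (x * (-(y + (x * (gqz x)))))) := g0
        have hb2 : b2z x = 1 / 2 - x ^ 2 * (gqz x * m2z) := by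
          unfold b2z
          push_cast
          ring
        have hK0 := K1q_eq (s := (x * (-(y + (x * (gqz x)))))) hCt b0t.1.le (by rw [g0']; ring)
        have hK1 := K1q_eq (s := (x * y)) hPt b1t.1.le (by rw [gxlo]; ring)
        have hr := r1q_eq (s := (x * (-(y + (x * (gqz x)))))) hCt b0t.1.le (by rw [g0']; ring)
        have hR1 : (((-((((1 : ℕ) : ℝ) * (x2z x)) - ((-(y + (x * (gqz x)))) * (x1_1 (x * (-(y + (x * (gqz x))))))))) + (((2 : ℕ) : ℝ) * (gh * y))) + (x * (((-((((1 : ℕ) : ℝ) * (x2z x)) - ((-(y + (x * (gqz x)))) * (x1_1 (x * (-(y + (x * (gqz x))))))))) ^ 2) + (y ^ 2)))) =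
            4 * h0 * y - 2 * c1 t * x2z x + x * ((x2z x) ^ 2 + 2 * (h0 * gqz x) - (2 * (y * (x * gqz x)) + (x * gqz x) ^ 2)) := by
          rw [← deg_om123 (z := x) (μ := y) (g := gqz x) (x := x1_1 (x * (-(y + (x * (gqz x)))))) (xz := x2z x) (C := c1 t) (h := h0) hx (by rw [g0']) (by rw [b0t.2, e0]; ring) hq, gh_eq]
          push_cast
          ring
        have hXX : c1 t - x * x2z x = 1 / 2 + x * (-((((1 : ℕ) : ℝ) * (x2z x)) - ((-(y + (x * (gqz x)))) * (x1_1 (x * (-(y + (x * (gqz x))))))))) := by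
          rw [g0']
          push_cast
          ring
        have hXp : 0 < c1 t - x * x2z x + c1 t' := by
          rw [hXX]
          linarith [b1t.1]
        have hsg := deg_seg (z := x) (u := (-((((1 : ℕ) : ℝ) * (x2z x)) - ((-(y + (x * (gqz x)))) * (x1_1 (x * (-(y + (x * (gqz x)))))))))) (om := (((-((((1 : ℕ) : ℝ) * (x2z x)) - ((-(y + (x * (gqz x)))) * (x1_1 (x * (-(y + (x * (gqz x))))))))) + (((2 : ℕ) : ℝ) * (gh * y))) + (x * (((-((((1 : ℕ) : ℝ) * (x2z x)) - ((-(y + (x * (gqz x)))) * (x1_1 (x * (-(y + (x * (gqz x))))))))) ^ 2) + (y ^ 2)))))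
          (X := c1 t - x * x2z x) (cp := c1 t') (T := t') (y := y * x1_1 (x * y)) hx hXX (by rw [gxlo])
          (by rw [hXX, ← hX, ← hom]; ring) (by linarith [b1t.2]) hXp
        have E12 : 1 * v t (tg 0) = 1 / 2 + x * (x * ((y + x * gqz x) ^ 2 * r1q (x * (-(y + (x * (gqz x))))))) := by
          rw [r0, hr]
          push_cast
          ring
        have E13 : 1 * v (t + t') (tg 2) = x * (x2z x * b2z x) := by
          rw [r2]
          ring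
        have E23 : (-1) * segW v 0 ((-1) * (1 * cv 2 (t + t') - 1 * cv 0 t)) t' = -(1 / 2 + x * (y * x1_1 (x * y) + (g0_2 (x * y)) * (((-((((1 : ℕ) : ℝ) * (x2z x)) - ((-(y + (x * (gqz x)))) * (x1_1 (x * (-(y + (x * (gqz x))))))))) + (((2 : ℕ) : ℝ) * (gh * y))) + (x * (((-((((1 : ℕ) : ℝ) * (x2z x)) - ((-(y + (x * (gqz x)))) * (x1_1 (x * (-(y + (x * (gqz x))))))))) ^ 2) + (y ^ 2)))) * (c1 t - x * x2z x + c1 t')⁻¹)) := by
          rw [hX, hseg]
          push_cast at hsg ⊢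
          linear_combination (-(x * (g0_2 (x * y)))) * hsg
        have he2 : exc (1 * cv 0 t) (1 * cv 2 (t + t')) t t' = x * ((-((x1_1 (x * (-(y + (x * (gqz x)))))) * ((((4 : ℕ) : ℝ) * gh)⁻¹))) * (((-((((1 : ℕ) : ℝ) * (x2z x)) - ((-(y + (x * (gqz x)))) * (x1_1 (x * (-(y + (x * (gqz x))))))))) + (((2 : ℕ) : ℝ) * (gh * y))) + (x * (((-((((1 : ℕ) : ℝ) * (x2z x)) - ((-(y + (x * (gqz x)))) * (x1_1 (x * (-(y + (x * (gqz x))))))))) ^ 2) + (y ^ 2)))) + x * (((((((x2z x) * ((y + (x * (gqz x))) * (K1q (x * (-(y + (x * (gqz x)))))))) + ((((1 : ℕ) : ℝ) / ((2 : ℕ) : ℝ) * (x1_1 (x * (-(y + (x * (gqz x))))))) * ((((x2z x) ^ 2) + (((2 : ℕ) : ℝ) * (gh * (gqz x)))) - ((((2 : ℕ) : ℝ) * (y * (x * (gqz x)))) + ((x * (gqz x)) ^ 2))))) - (((2 : ℕ) : ℝ) * (gh * ((gqz x) * (x1_1 (x * (-(y + (x * (gqz x)))))))))) - ((kc1 (gh + (x * (-(y + (x * (gqz x))))))) * (gqz x))) + ((x2z x) * (y + (x * (gqz x))))) * ((((2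 : ℕ) : ℝ) * gh)⁻¹))) := by
          rw [he, hCt, hR1, gh_eq, r3_eq]
          push_cast at hK0 hk ⊢
          linear_combination (x * h0⁻¹ / 2) * (-(x2z x) * hK0 + x * gqz x * g0' - ((y + x * gqz x) * x1_1 (x * (-(y + (x * (gqz x)))))) * hk)
        refine nfv_123 (R12 := 1 * v t (tg 0)) (R23 := (-1) * segW v 0 ((-1) * (1 * cv 2 (t + t') - 1 * cv 0 t)) t') (R13 := 1 * v (t + t') (tg 2)) k5 k6 k1 k2 (by rw [ht]; linarith) ?_
        refine starN_degQ (z := x) (ω := (((-((((1 : ℕ) : ℝ) * (x2z x)) - ((-(y + (x * (gqz x)))) * (x1_1 (x * (-(y + (x * (gqz x))))))))) + (((2 : ℕ) : ℝ) * (gh * y))) + (x * (((-((((1 : ℕ) : ℝ) * (x2z x)) - ((-(y + (x * (gqz x)))) * (x1_1 (x * (-(y + (x * (gqz x))))))))) ^ 2) + (y ^ 2))))) (a := y) (b := (x * (gqz x))) (e1 := (-((x1_1 (x * (-(y + (x * (gqz x)))))) * ((((4 : ℕ) : ℝ) * gh)⁻¹)))) (e2 := (((((((x2z x) * ((y + (x * (gqz x))) * (K1q (x * (-(y + (x * (gqz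 x)))))))) + ((((1 : ℕ) : ℝ) / ((2 : ℕ) : ℝ) * (x1_1 (x * (-(y + (x * (gqz x))))))) * ((((x2z x) ^ 2) + (((2 : ℕ) : ℝ) * (gh * (gqz x)))) - ((((2 : ℕ) : ℝ) * (y * (x * (gqz x)))) + ((x * (gqz x)) ^ 2))))) - (((2 : ℕ) : ℝ) * (gh * ((gqz x) * (x1_1 (x * (-(y + (x * (gqz x)))))))))) - ((kc1 (gh + (x * (-(y + (x * (gqz x))))))) * (gqz x))) + ((x2z x) * (y + (x * (gqz x))))) * ((((2 : ℕ) : ℝ) * gh)⁻¹))) (d1 := (((x1_1 (x * y)) * ((((4 : ℕ) : ℝ) * gh)⁻¹)) + ((g0_2 (x * y)) * ((((kc1 (gh + (x * (-(y + (x * (gqz x))))))) - (x * (x2z x))) + (kc1 (gh + (x * y))))⁻¹)))) (d2 := ((((x2z x) * ((((y * (K1q (x * y))) - ((x1_1 (x * y)) * (((y + (x * (gqz x))) * (x1_1 (x * (-(y + (x * (gqz x))))))) + (y * (x1_1 (x * y)))))) * ((((2 : ℕ) : ℝ) * gh)⁻¹)) - ((x * (gqz x)) * m2z))) - (((x1_1 (x * y)) * ((((4 : ℕ) : ℝ) * gh)⁻¹)) * ((((x2z x) ^ 2) + (((2 : ℕ) : ℝ) * (gh * (gqz x)))) - ((((2 : ℕ) : ℝ) * (y * (x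 * (gqz x)))) + ((x * (gqz x)) ^ 2))))) - (((y + (x * (gqz x))) ^ 2) * (r1q (x * (-(y + (x * (gqz x))))))))) (g1 := (((gqz x) * ((((1 : ℕ) : ℝ) / ((2 : ℕ) : ℝ)) + (x * ((y * (x1_1 (x * y))) + (((g0_2 (x * y)) * (((-((((1 : ℕ) : ℝ) * (x2z x)) - ((-(y + (x * (gqz x)))) * (x1_1 (x * (-(y + (x * (gqz x))))))))) + (((2 : ℕ) : ℝ) * (gh * y))) + (x * (((-((((1 : ℕ) : ℝ) * (x2z x)) - ((-(y + (x * (gqz x)))) * (x1_1 (x * (-(y + (x * (gqz x))))))))) ^ 2) + (y ^ 2))))) * ((((kc1 (gh + (x * (-(y + (x * (gqz x))))))) - (x * (x2z x))) + (kc1 (gh + (x * y))))⁻¹)))))) - (y * ((x2z x) * (b2z x))))) hx.le hω ha hb hl1 hl2 (by linarith) he2 ?_ ?_ ?_ q1.le q2.le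
        · rw [E12, E13, E23, hCt, hPt]
          rw [gh_eq]
          have hi : h0 * h0⁻¹ = 1 := mul_inv_cancel₀ h0_pos.ne'
          rw [gh_eq] at hR1
          push_cast at hK1 hb2 g0' gxlo hR1 ⊢
          linear_combination (x * (x2z x) * (h0⁻¹ / 2)) * (hK1 + x1_1 (x * y) * (g0' - gxlo)) - (x * (x2z x / 2 + y * x1_1 (x * y))) * hi + x * x2z x * hb2 - (x * x1_1 (x * y) * h0⁻¹ / 4) * hR1
        · rw [E13, E23, hCt, hPt]
          push_cast
          ring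
        · have hrt := ratio_d123 (A := (1 * v t (tg 0))) (z := x) (g := gqz x) (μ := y) hx hmg
          have hS : (-(-((-1) * segW v 0 ((-1) * (1 * cv 2 (t + t') - 1 * cv 0 t)) t')) * (h0 - x * y) + (1 * v (t + t') (tg 2)) * (h0 - x * (x * gqz x)) + (1 * v t (tg 0)) * (1 - 2 * (x * (gqz x * (y + x * gqz x)⁻¹))) * (h0 - x * y - x * (x * gqz x))) + h0 * (x * ((-((x1_1 (x * (-(y + (x * (gqz x)))))) * ((((4 : ℕ) : ℝ) * gh)⁻¹))) * (((-((((1 : ℕ) : ℝ) * (x2z x)) - ((-(y + (x * (gqz x)))) * (x1_1 (x * (-(y + (x * (gqz x))))))))) + (((2 : ℕ) : ℝ) * (gh * y))) + (x * (((-((((1 : ℕ) : ℝ) * (x2z x)) - ((-(y + (x * (gqz x)))) * (x1_1 (x * (-(y + (x * (gqz x))))))))) ^ 2) + (y ^ 2)))) + x * (((((((x2z x) * ((y + (x * (gqz x))) * (K1q (x * (-(y + (x * (gqz x)))))))) + ((((1 : ℕ) : ℝ) / ((2 : ℕ) : ℝ) * (x1_1 (x * (-(y + (x * (gqz x))))))) * ((((x2z x) ^ 2) + (((2 : ℕ) : ℝ) * (gh * (gqz x)))) - ((((2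 : ℕ) : ℝ) * (y * (x * (gqz x)))) + ((x * (gqz x)) ^ 2))))) - (((2 : ℕ) : ℝ) * (gh * ((gqz x) * (x1_1 (x * (-(y + (x * (gqz x)))))))))) - ((kc1 (gh + (x * (-(y + (x * (gqz x))))))) * (gqz x))) + ((x2z x) * (y + (x * (gqz x))))) * ((((2 : ℕ) : ℝ) * gh)⁻¹)))) = x * (((((((((x2z x) * (b2z x)) * (gh - (x * (x * (gqz x))))) - (((y * (x1_1 (x * y))) + (((g0_2 (x * y)) * (((-((((1 : ℕ) : ℝ) * (x2z x)) - ((-(y + (x * (gqz x)))) * (x1_1 (x * (-(y + (x * (gqz x))))))))) + (((2 : ℕ) : ℝ) * (gh * y))) + (x * (((-((((1 : ℕ) : ℝ) * (x2z x)) - ((-(y + (x * (gqz x)))) * (x1_1 (x * (-(y + (x * (gqz x))))))))) ^ 2) + (y ^ 2))))) * ((((kc1 (gh + (x * (-(y + (x * (gqz x))))))) - (x * (x2z x))) + (kc1 (gh + (x * y))))⁻¹))) * (gh - (x * y)))) + (((1 : ℕ) : ℝ) / ((2 : ℕ) : ℝ) * y)) + ((x * (((y + (x * (gqz x))) ^ 2) * (r1q (x * (-(y + (x * (gqz x)))))))) * (gh - (x * ((x * (gqz x)) + y))))) - (((1 : ℕ) : ℝ)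 / ((2 : ℕ) : ℝ) * ((x * (gqz x)) + y))) - ((((2 : ℕ) : ℝ) * ((gqz x) * ((y + (x * (gqz x)))⁻¹))) * ((gh - (x * ((x * (gqz x)) + y))) * ((((1 : ℕ) : ℝ) / ((2 : ℕ) : ℝ)) + (x * (x * (((y + (x * (gqz x))) ^ 2) * (r1q (x * (-(y + (x * (gqz x))))))))))))) + ((gh * (((-((x1_1 (x * (-(y + (x * (gqz x)))))) * ((((4 : ℕ) : ℝ) * gh)⁻¹))) * (((-((((1 : ℕ) : ℝ) * (x2z x)) - ((-(y + (x * (gqz x)))) * (x1_1 (x * (-(y + (x * (gqz x))))))))) + (((2 : ℕ) : ℝ) * (gh * y))) + (x * (((-((((1 : ℕ) : ℝ) * (x2z x)) - ((-(y + (x * (gqz x)))) * (x1_1 (x * (-(y + (x * (gqz x))))))))) ^ 2) + (y ^ 2))))) + (x * (((((((x2z x) * ((y + (x * (gqz x))) * (K1q (x * (-(y + (x * (gqz x)))))))) + ((((1 : ℕ) : ℝ) / ((2 : ℕ) : ℝ) * (x1_1 (x * (-(y + (x * (gqz x))))))) * ((((x2z x) ^ 2) + (((2 : ℕ) : ℝ) * (gh * (gqz x)))) - ((((2 : ℕ) : ℝ) * (y * (x * (gqz x)))) + ((x * (gqz x)) ^ 2))))) - (((2 : ℕ) : ℝ) * (gh * ((gqz x) *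 (x1_1 (x * (-(y + (x * (gqz x)))))))))) - ((kc1 (gh + (x * (-(y + (x * (gqz x))))))) * (gqz x))) + ((x2z x) * (y + (x * (gqz x))))) * ((((2 : ℕ) : ℝ) * gh)⁻¹))))) * (((1 : ℕ) : ℝ)⁻¹))) := by
            rw [E12, E13, E23, hCt, hPt, gh_eq]
            push_cast
            ring
          have q4 := mul_pos hx q3
          rw [hl1, hl2, he2, hrt]
          refine le_of_eq_of_le (b := x * (((((((((x2z x) * (b2z x)) * (gh - (x * (x * (gqz x))))) - (((y * (x1_1 (x * y))) + (((g0_2 (x * y)) * (((-((((1 : ℕ) : ℝ) * (x2z x)) - ((-(y + (x * (gqz x)))) * (x1_1 (x * (-(y + (x * (gqz x))))))))) + (((2 : ℕ) : ℝ) * (gh * y))) + (x * (((-((((1 : ℕ) : ℝ) * (x2z x)) - ((-(y + (x * (gqz x)))) * (x1_1 (x * (-(y + (x * (gqz x))))))))) ^ 2) + (y ^ 2))))) * ((((kc1 (gh + (x * (-(y + (x * (gqz x))))))) - (x * (x2z x))) + (kc1 (gh + (x * y))))⁻¹))) * (gh - (x * y)))) + (((1 : ℕ) : ℝ) / ((2 : ℕ) : ℝ) * y)) +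 ((x * (((y + (x * (gqz x))) ^ 2) * (r1q (x * (-(y + (x * (gqz x)))))))) * (gh - (x * ((x * (gqz x)) + y))))) - (((1 : ℕ) : ℝ) / ((2 : ℕ) : ℝ) * ((x * (gqz x)) + y))) - ((((2 : ℕ) : ℝ) * ((gqz x) * ((y + (x * (gqz x)))⁻¹))) * ((gh - (x * ((x * (gqz x)) + y))) * ((((1 : ℕ) : ℝ) / ((2 : ℕ) : ℝ)) + (x * (x * (((y + (x * (gqz x))) ^ 2) * (r1q (x * (-(y + (x * (gqz x))))))))))))) + ((gh * (((-((x1_1 (x * (-(y + (x * (gqz x)))))) * ((((4 : ℕ) : ℝ) * gh)⁻¹))) * (((-((((1 : ℕ) : ℝ) * (x2z x)) - ((-(y + (x * (gqz x)))) * (x1_1 (x * (-(y + (x * (gqz x))))))))) + (((2 : ℕ) : ℝ) * (gh * y))) + (x * (((-((((1 : ℕ) : ℝ) * (x2z x)) - ((-(y + (x * (gqz x)))) * (x1_1 (x * (-(y + (x * (gqz x))))))))) ^ 2) + (y ^ 2))))) + (x * (((((((x2z x) * ((y + (x * (gqz x))) * (K1q (x * (-(y + (x * (gqz x)))))))) + ((((1 : ℕ) : ℝ) / ((2 : ℕ) : ℝ) * (x1_1 (x * (-(y + (x * (gqz x))))))) * ((((x2z x) ^ 2) + (((2 : ℕ) :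 ℝ) * (gh * (gqz x)))) - ((((2 : ℕ) : ℝ) * (y * (x * (gqz x)))) + ((x * (gqz x)) ^ 2))))) - (((2 : ℕ) : ℝ) * (gh * ((gqz x) * (x1_1 (x * (-(y + (x * (gqz x)))))))))) - ((kc1 (gh + (x * (-(y + (x * (gqz x))))))) * (gqz x))) + ((x2z x) * (y + (x * (gqz x))))) * ((((2 : ℕ) : ℝ) * gh)⁻¹))))) * (((1 : ℕ) : ℝ)⁻¹))) / (2 * h0)) ?_ ?_
          · rw [← hS]
            field_simp
            try ring
          · exact div_nonpos_of_nonpos_of_nonneg (by linarith) (by linarith)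
    · have hlo' : f1 t' ≤ 1 / 2 + x * (-((((1 : ℕ) : ℝ) * (x2z x)) - ((-(y + (x * (gqz x)))) * (x1_1 (x * (-(y + (x * (gqz x))))))))) := hlo
      have hhi' : 1 / 2 + x * (-((((1 : ℕ) : ℝ) * (x2z x)) - ((-(y + (x * (gqz x)))) * (x1_1 (x * (-(y + (x * (gqz x))))))))) ≤ f2 t' := hhi
      have gxlo : f1 t' = 1 / 2 + x * (y * y1_2 (x * y)) := by
        rw [e1, germ_y1_2 (s := (x * y)) (by rw [z1]; linarith) (by rw [z1]; linarith)]
        ring
      have gr : v t' 1 = 1 / 2 + x * (y * q1_2 (x * y)) := by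
        rw [e1, germ_q1_2 (s := (x * y)) (by rw [z1]; linarith) (by rw [z1]; linarith) hv.toCT]
        ring
      have gG : v t' 3 - v t' 1 = g1_2 (x * y) * (f2 t' - f1 t') := by
        rw [e1]
        exact germ_g1_2 (s := (x * y)) (by rw [z1]; linarith) (by rw [z1]; linarith) hv.toCT
      have hseg := seg_lo (v := v) (i := 1) (T := t') (G := g1_2 (x * y)) gxlo gr rfl gG hlo' hhi'
      rcases b2 with hb' | hb' | hb' | hb'
      · exfalso
        push_cast at hb' z0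
        linarith [z0]
      · exfalso
        have h7 := mul_pos hx hb'
        push_cast at h7 hom h1
        linarith [hom, h1]
      · exfalso
        rw [gxlo] at hlo'
        have h7 := mul_pos hx hb'
        push_cast at h7 hlo'
        nlinarith
      · have h8 := hb'
        refine cellv_123 (θ := 1) (r := x) one_pos hx.le ha hb he (d := (((((1 : ℕ) : ℝ) * ((x2z x) * (b2z x))) - ((-(y + (x * (gqz x)))) * (r1_1 (x * (-(y + (x * (gqz x)))))))) - (-((y * (q1_2 (x * y))) + ((g1_2 (x * y)) * ((-((((1 : ℕ) : ℝ) * (x2z x)) - ((-(y + (x * (gqz x)))) * (x1_1 (x * (-(y + (x * (gqz x))))))))) - (y * (y1_2 (x * y))))))))) ?_ k5 k6 k1 k2 (by rw [ht]; linarith) hl1 hl2 (A1 := (-((-(((1 : ℕ) : ℝ) / ((2 : ℕ) : ℝ))) + (x * (-((y * (q1_2 (x * y))) + ((g1_2 (x * y)) * ((-((((1 : ℕ) : ℝ) * (x2z x)) - ((-(y + (x * (gqz x)))) * (x1_1 (x * (-(y + (x * (gqz x))))))))) - (y * (y1_2 (x * y))))))))))) (A2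 := (x * (((1 : ℕ) : ℝ) * ((x2z x) * (b2z x))))) ?_ ?_ ?_ ?_
        · change 1 * v (t + t') (tg 2) - 1 * v t (tg 0) - (-1) * segW v 1 ((-1) * (1 * cv 2 (t + t') - 1 * cv 0 t)) t' = _
          rw [hX, hseg, r0, r2]
          push_cast
          ring
        · change (-((-(((1 : ℕ) : ℝ) / ((2 : ℕ) : ℝ))) + (x * (-((y * (q1_2 (x * y))) + ((g1_2 (x * y)) * ((-((((1 : ℕ) : ℝ) * (x2z x)) - ((-(y + (x * (gqz x)))) * (x1_1 (x * (-(y + (x * (gqz x))))))))) - (y * (y1_2 (x * y)))))))))) = -((-1) * segW v 1 ((-1) * (1 * cv 2 (t + t') - 1 * cv 0 t)) t')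
          rw [hX, hseg]
          push_cast
          ring
        · change (x * (((1 : ℕ) : ℝ) * ((x2z x) * (b2z x)))) = 1 * v (t + t') (tg 2)
          rw [r2]
          push_cast
          ring
        · have h9 := h8.1.le
          push_cast at h9 ⊢
          exact h9
        · have h9 := h8.2.le
          push_cast at h9 ⊢
          linarith
    · have hlo' : f2 t' ≤ 1 / 2 + x * (-((((1 : ℕ) : ℝ) * (x2z x)) - ((-(y + (x * (gqz x)))) * (x1_1 (x * (-(y + (x * (gqz x))))))))) := hlo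
      have hhi' : 1 / 2 + x * (-((((1 : ℕ) : ℝ) * (x2z x)) - ((-(y + (x * (gqz x)))) * (x1_1 (x * (-(y + (x * (gqz x))))))))) ≤ c3 t' := hhi
      have hb0 := b3
      rw [hT1] at hb0
      rw [kf2p_eq (T := t') (by linarith)] at hb0
      rw [kc3_eq] at hb0
      rcases hb0 with hb' | hb' | hb' | hb'
      · exfalso
        push_cast at hb' z0
        linarith [z0]
      · exfalso
        have h7 := mul_pos hx hb'
        push_cast at h7 hom h1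
        linarith [hom, h1]
      · exfalso
        push_cast at hb' hlo' hhi'
        linarith
      · exfalso
        push_cast at hb' hlo' hhi'
        linarith

end Pool.Agent.Strip051.LC.Line.Corn
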