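import Pool.Agent.Strip051.LC.Line.Corn.Germ

/-! # The nine cells at the aligned corners -/

namespace Pool.Agent.Strip051.LC.Line.Corn

open Pool.Agent.StripNear Pool.Agent.StripSquare Pool.Agent.Strip051.Sweep
  Pool.Agent.Strip051.LC

theorem jn_0 {T : ℝ} (h : T < h0 / 2) : jn T = 0 := by
  unfold jn
  rw [if_pos h]

theorem jn_1 {T : ℝ} (h : h0 / 2 ≤ T) (h' : T < 3 * h0 / 2) : jn T = 1 := by
  unfold jn
  rw [if_neg h.not_gt, if_pos h']

theorem jn_2 {T : ℝ} (h : 3 * h0 / 2 ≤ T) : jn T = 2 := by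
  have := h0_pos
  unfold jn
  rw [if_neg (by linarith), if_neg h.not_gt]

theorem tau_0 {T : ℝ} (h : T < h0 / 2) : tau T = T := by
  unfold tau
  rw [jn_0 h]
  push_cast
  ring

theorem tau_1 {T : ℝ} (h : h0 / 2 ≤ T) (h' : T < 3 * h0 / 2) : tau T = T - h0 := by
  unfold tau
  rw [jn_1 h h']
  push_cast
  ring

theorem tau_2 {T : ℝ} (h : 3 * h0 / 2 ≤ T) : tau T = T - 2 * h0 := by
  unfold tau
  rw [jn_2 h]
  push_cast
  ring

section

variable {θ ρ a t t' X12 X13 R12 R23 R13 A1 A2 e d : ℝ} (hθ : 0 < θ) (hρ : 0 < ρ)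
  (hρ1 : ρ ≤ 1 / 10) (ha : 0 ≤ a) (ha1 : a ≤ 1) (he : exc X12 X13 t t' = ρ * e)
  (hd : R13 - R12 - R23 = ρ * d)

include hθ hρ hρ1 ha ha1 he hd

theorem cell_pp (hj : jn (t + t') = jn t + jn t') (h1 : tau t = ρ * a) (h2 : tau t' = ρ * (1 - a))
    (hA1 : A1 = -R12) (hA2 : A2 = -R23) (hQ : 0 ≤ coneQ θ ρ a (1 - a) A1 A2 d e) :
    NFV θ X12 X13 t t' (R12, R23, R13) :=
  .pp hj (by rw [h1]; positivity) (by rw [h2]; exact mul_nonneg hρ.le (by linarith))
    (starN_cone hθ hρ (d := d) (by ring) h1 h2 he (by dsimp only; linarith) (by rw [← hA1, ← hA2]; exact hQ))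

theorem cell_nn (hj : jn (t + t') = jn t + jn t') (h1 : tau t' = -(ρ * a))
    (h2 : tau t = -(ρ * (1 - a))) (hA1 : A1 = -R23) (hA2 : A2 = -R12)
    (hQ : 0 ≤ coneQ θ ρ a (1 - a) A1 A2 d e) :
    NFV θ X12 X13 t t' (R12, R23, R13) := by
  have e1 : 0 ≤ ρ * a := mul_nonneg hρ.le ha
  have e2 : 0 ≤ ρ * (1 - a) := mul_nonneg hρ.le (by linarith)
  exact .nn hj (by rw [h2]; linarith) (by rw [h1]; linarith)
    (starN_cone hθ hρ (a := a) (b := 1 - a) (d := d) (by ring) (by rw [h1]; ring) (by rw [h2]; ring) he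
      (by dsimp only; linarith) (by rw [← hA1, ← hA2]; exact hQ))

theorem cell_pnp (hj : jn (t + t') = jn t + jn t') (h0t : 0 ≤ tau t) (h1 : tau (t + t') = ρ * a)
    (h2 : tau t' = -(ρ * (1 - a))) (hA1 : A1 = R13) (hA2 : A2 = -R23)
    (hQ : 0 ≤ coneQ θ ρ a (1 - a) A1 A2 d e) :
    NFV θ X12 X13 t t' (R12, R23, R13) := by
  have e1 : 0 ≤ ρ * a := mul_nonneg hρ.le ha
  have e2 : 0 ≤ ρ * (1 - a) := mul_nonneg hρ.le (by linarith)
  exact .pnp hj h0t (by rw [h2]; linarith) (by rw [h1]; linarith)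
    (starN_cone hθ hρ (a := a) (b := 1 - a) (d := d) (by ring) h1 (by rw [h2]; ring) he (by dsimp only; linarith)
      (by rw [← hA1, ← hA2]; exact hQ))

theorem cell_pnn (hj : jn (t + t') = jn t + jn t') (h0t' : tau t' ≤ 0)
    (h1 : tau (t + t') = -(ρ * a)) (h2 : tau t = ρ * (1 - a)) (hA1 : A1 = R13) (hA2 : A2 = -R12)
    (hQ : 0 ≤ coneQ θ ρ a (1 - a) A1 A2 d e) :
    NFV θ X12 X13 t t' (R12, R23, R13) := by
  have e1 : 0 ≤ ρ * a := mul_nonneg hρ.le ha
  have e2 : 0 ≤ ρ * (1 - a) := mul_nonneg hρ.le (by linarith)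
  exact .pnn hj (by rw [h2]; linarith) h0t' (by rw [h1]; linarith)
    (starN_cone hθ hρ (a := a) (b := 1 - a) (d := d) (by ring) (by rw [h1]; ring) h2 he (by dsimp only; linarith)
      (by rw [← hA1, ← hA2]; exact hQ))

theorem cell_npp (hj : jn (t + t') = jn t + jn t') (h0t' : 0 ≤ tau t')
    (h1 : tau t = -(ρ * a)) (h2 : tau (t + t') = ρ * (1 - a)) (hA1 : A1 = -R12) (hA2 : A2 = R13)
    (hQ : 0 ≤ coneQ θ ρ a (1 - a) A1 A2 d e) :
    NFV θ X12 X13 t t' (R12, R23, R13) := by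
  have e1 : 0 ≤ ρ * a := mul_nonneg hρ.le ha
  have e2 : 0 ≤ ρ * (1 - a) := mul_nonneg hρ.le (by linarith)
  exact .npp hj (by rw [h1]; linarith) h0t' (by rw [h2]; linarith)
    (starN_cone hθ hρ (a := a) (b := 1 - a) (d := d) (by ring) (by rw [h1]; ring) h2 he (by dsimp only; linarith)
      (by rw [← hA1, ← hA2]; exact hQ))

theorem cell_npn (hj : jn (t + t') = jn t + jn t') (h0t : tau t ≤ 0)
    (h1 : tau t' = ρ * a) (h2 : tau (t + t') = -(ρ * (1 - a))) (hA1 : A1 = -R23) (hA2 : A2 = R13)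
    (hQ : 0 ≤ coneQ θ ρ a (1 - a) A1 A2 d e) :
    NFV θ X12 X13 t t' (R12, R23, R13) := by
  have e1 : 0 ≤ ρ * a := mul_nonneg hρ.le ha
  have e2 : 0 ≤ ρ * (1 - a) := mul_nonneg hρ.le (by linarith)
  exact .npn hj h0t (by rw [h1]; linarith) (by rw [h2]; linarith)
    (starN_cone hθ hρ (a := a) (b := 1 - a) (d := d) (by ring) h1 (by rw [h2]; ring) he (by dsimp only; linarith)
      (by rw [← hA1, ← hA2]; exact hQ))

theorem cell_011 (ht : t = ρ * (1 - a)) (ht' : t' = h0 - ρ) (hA1 : A1 = R13) (hA2 : A2 = -R12)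
    (hQ : 0 ≤ coneQ θ ρ a (1 - a) A1 A2 d e) : NFV θ X12 X13 t t' (R12, R23, R13) := by
  have hp := h0_gt
  have hl := h0_lt
  have e1 : 0 ≤ ρ * a := mul_nonneg hρ.le ha
  have e2 : 0 ≤ ρ * (1 - a) := mul_nonneg hρ.le (by linarith)
  have hT : t + t' = h0 - ρ * a := by rw [ht, ht']; ring
  have e3 : t ≤ 1 / 10 := by nlinarith
  have e4 : ρ * a ≤ 1 / 10 := by nlinarith
  refine cell_pnn hθ hρ hρ1 ha ha1 he hd ?_ ?_ ?_ ?_ hA1 hA2 hQ
  · rw [jn_0 (T := t) (by linarith), jn_1 (T := t') (by linarith) (by linarith),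
      jn_1 (T := t + t') (by linarith) (by linarith)]
  · rw [tau_1 (T := t') (by linarith) (by linarith)]
    linarith
  · rw [tau_1 (T := t + t') (by linarith) (by linarith)]
    linarith
  · rw [tau_0 (T := t) (by linarith), ht]

theorem cell_012 (ht : t = ρ) (ht' : t' = h0 - ρ * (1 - a)) (hA1 : A1 = R13) (hA2 : A2 = -R23)
    (hQ : 0 ≤ coneQ θ ρ a (1 - a) A1 A2 d e) : NFV θ X12 X13 t t' (R12, R23, R13) := by
  have hp := h0_gt
  have hl := h0_lt
  have e1 : 0 ≤ ρ * a := mul_nonneg hρ.le ha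
  have e2 : 0 ≤ ρ * (1 - a) := mul_nonneg hρ.le (by linarith)
  have hT : t + t' = h0 + ρ * a := by rw [ht, ht']; ring
  have e3 : ρ * (1 - a) ≤ 1 / 10 := by nlinarith
  have e4 : ρ * a ≤ 1 / 10 := by nlinarith
  refine cell_pnp hθ hρ hρ1 ha ha1 he hd ?_ ?_ ?_ ?_ hA1 hA2 hQ
  · rw [jn_0 (T := t) (by linarith), jn_1 (T := t') (by linarith) (by linarith),
      jn_1 (T := t + t') (by linarith) (by linarith)]
  · rw [tau_0 (T := t) (by linarith)]
    linarith
  · rw [tau_1 (T := t + t') (by linarith) (by linarith)]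
    linarith
  · rw [tau_1 (T := t') (by linarith) (by linarith)]
    linarith

theorem cell_022 (ht : t = ρ * a) (ht' : t' = h0 + ρ * (1 - a)) (hA1 : A1 = -R12)
    (hA2 : A2 = -R23) (hQ : 0 ≤ coneQ θ ρ a (1 - a) A1 A2 d e) :
    NFV θ X12 X13 t t' (R12, R23, R13) := by
  have hp := h0_gt
  have hl := h0_lt
  have e1 : 0 ≤ ρ * a := mul_nonneg hρ.le ha
  have e2 : 0 ≤ ρ * (1 - a) := mul_nonneg hρ.le (by linarith)
  have hT : t + t' = h0 + ρ := by rw [ht, ht']; ring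
  have e3 : ρ * (1 - a) ≤ 1 / 10 := by nlinarith
  have e4 : ρ * a ≤ 1 / 10 := by nlinarith
  refine cell_pp hθ hρ hρ1 ha ha1 he hd ?_ ?_ ?_ hA1 hA2 hQ
  · rw [jn_0 (T := t) (by linarith), jn_1 (T := t') (by linarith) (by linarith),
      jn_1 (T := t + t') (by linarith) (by linarith)]
  · rw [tau_0 (T := t) (by linarith), ht]
  · rw [tau_1 (T := t') (by linarith) (by linarith)]
    linarith

theorem cell_101 (ht : t = h0 - ρ) (ht' : t' = ρ * a) (hA1 : A1 = -R23) (hA2 : A2 = R13)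
    (hQ : 0 ≤ coneQ θ ρ a (1 - a) A1 A2 d e) : NFV θ X12 X13 t t' (R12, R23, R13) := by
  have hp := h0_gt
  have hl := h0_lt
  have e1 : 0 ≤ ρ * a := mul_nonneg hρ.le ha
  have e2 : 0 ≤ ρ * (1 - a) := mul_nonneg hρ.le (by linarith)
  have hT : t + t' = h0 - ρ * (1 - a) := by rw [ht, ht']; ring
  have e3 : ρ * (1 - a) ≤ 1 / 10 := by nlinarith
  have e4 : ρ * a ≤ 1 / 10 := by nlinarith
  refine cell_npn hθ hρ hρ1 ha ha1 he hd ?_ ?_ ?_ ?_ hA1 hA2 hQ
  · rw [jn_1 (T := t) (by linarith) (by linarith), jn_0 (T := t') (by linarith),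
      jn_1 (T := t + t') (by linarith) (by linarith)]
  · rw [tau_1 (T := t) (by linarith) (by linarith)]
    linarith
  · rw [tau_0 (T := t') (by linarith), ht']
  · rw [tau_1 (T := t + t') (by linarith) (by linarith)]
    linarith

theorem cell_102 (ht : t = h0 - ρ * a) (ht' : t' = ρ) (hA1 : A1 = -R12) (hA2 : A2 = R13)
    (hQ : 0 ≤ coneQ θ ρ a (1 - a) A1 A2 d e) : NFV θ X12 X13 t t' (R12, R23, R13) := by
  have hp := h0_gt
  have hl := h0_lt
  have e1 : 0 ≤ ρ * a := mul_nonneg hρ.le ha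
  have e2 : 0 ≤ ρ * (1 - a) := mul_nonneg hρ.le (by linarith)
  have hT : t + t' = h0 + ρ * (1 - a) := by rw [ht, ht']; ring
  have e3 : ρ * (1 - a) ≤ 1 / 10 := by nlinarith
  have e4 : ρ * a ≤ 1 / 10 := by nlinarith
  refine cell_npp hθ hρ hρ1 ha ha1 he hd ?_ ?_ ?_ ?_ hA1 hA2 hQ
  · rw [jn_1 (T := t) (by linarith) (by linarith), jn_0 (T := t') (by linarith),
      jn_1 (T := t + t') (by linarith) (by linarith)]
  · rw [tau_0 (T := t') (by linarith)]
    linarith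
  · rw [tau_1 (T := t) (by linarith) (by linarith)]
    linarith
  · rw [tau_1 (T := t + t') (by linarith) (by linarith)]
    linarith

theorem cell_202 (ht : t = h0 + ρ * a) (ht' : t' = ρ * (1 - a)) (hA1 : A1 = -R12)
    (hA2 : A2 = -R23) (hQ : 0 ≤ coneQ θ ρ a (1 - a) A1 A2 d e) :
    NFV θ X12 X13 t t' (R12, R23, R13) := by
  have hp := h0_gt
  have hl := h0_lt
  have e1 : 0 ≤ ρ * a := mul_nonneg hρ.le ha
  have e2 : 0 ≤ ρ * (1 - a) := mul_nonneg hρ.le (by linarith)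
  have hT : t + t' = h0 + ρ := by rw [ht, ht']; ring
  have e3 : ρ * (1 - a) ≤ 1 / 10 := by nlinarith
  have e4 : ρ * a ≤ 1 / 10 := by nlinarith
  refine cell_pp hθ hρ hρ1 ha ha1 he hd ?_ ?_ ?_ hA1 hA2 hQ
  · rw [jn_1 (T := t) (by linarith) (by linarith), jn_0 (T := t') (by linarith),
      jn_1 (T := t + t') (by linarith) (by linarith)]
  · rw [tau_1 (T := t) (by linarith) (by linarith)]
    linarith
  · rw [tau_0 (T := t') (by linarith), ht']

theorem cell_113 (ht : t = h0 - ρ * (1 - a)) (ht' : t' = h0 - ρ * a) (hA1 : A1 = -R23)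
    (hA2 : A2 = -R12) (hQ : 0 ≤ coneQ θ ρ a (1 - a) A1 A2 d e) :
    NFV θ X12 X13 t t' (R12, R23, R13) := by
  have hp := h0_gt
  have hl := h0_lt
  have e1 : 0 ≤ ρ * a := mul_nonneg hρ.le ha
  have e2 : 0 ≤ ρ * (1 - a) := mul_nonneg hρ.le (by linarith)
  have hT : t + t' = 2 * h0 - ρ := by rw [ht, ht']; ring
  have e3 : ρ * (1 - a) ≤ 1 / 10 := by nlinarith
  have e4 : ρ * a ≤ 1 / 10 := by nlinarith
  refine cell_nn hθ hρ hρ1 ha ha1 he hd ?_ ?_ ?_ hA1 hA2 hQ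
  · rw [jn_1 (T := t) (by linarith) (by linarith), jn_1 (T := t') (by linarith) (by linarith),
      jn_2 (T := t + t') (by linarith)]
  · rw [tau_1 (T := t') (by linarith) (by linarith)]
    linarith
  · rw [tau_1 (T := t) (by linarith) (by linarith)]
    linarith

theorem cell_123 (ht : t = h0 - ρ) (ht' : t' = h0 + ρ * a) (hA1 : A1 = -R23) (hA2 : A2 = R13)
    (hQ : 0 ≤ coneQ θ ρ a (1 - a) A1 A2 d e) : NFV θ X12 X13 t t' (R12, R23, R13) := by
  have hp := h0_gt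
  have hl := h0_lt
  have e1 : 0 ≤ ρ * a := mul_nonneg hρ.le ha
  have e2 : 0 ≤ ρ * (1 - a) := mul_nonneg hρ.le (by linarith)
  have hT : t + t' = 2 * h0 - ρ * (1 - a) := by rw [ht, ht']; ring
  have e3 : ρ * (1 - a) ≤ 1 / 10 := by nlinarith
  have e4 : ρ * a ≤ 1 / 10 := by nlinarith
  refine cell_npn hθ hρ hρ1 ha ha1 he hd ?_ ?_ ?_ ?_ hA1 hA2 hQ
  · rw [jn_1 (T := t) (by linarith) (by linarith), jn_1 (T := t') (by linarith) (by linarith),
      jn_2 (T := t + t') (by linarith)]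
  · rw [tau_1 (T := t) (by linarith) (by linarith)]
    linarith
  · rw [tau_1 (T := t') (by linarith) (by linarith)]
    linarith
  · rw [tau_2 (T := t + t') (by linarith)]
    linarith

theorem cell_213 (ht : t = h0 + ρ * (1 - a)) (ht' : t' = h0 - ρ) (hA1 : A1 = R13)
    (hA2 : A2 = -R12) (hQ : 0 ≤ coneQ θ ρ a (1 - a) A1 A2 d e) :
    NFV θ X12 X13 t t' (R12, R23, R13) := by
  have hp := h0_gt
  have hl := h0_lt
  have e1 : 0 ≤ ρ * a := mul_nonneg hρ.le ha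
  have e2 : 0 ≤ ρ * (1 - a) := mul_nonneg hρ.le (by linarith)
  have hT : t + t' = 2 * h0 - ρ * a := by rw [ht, ht']; ring
  have e3 : ρ * (1 - a) ≤ 1 / 10 := by nlinarith
  have e4 : ρ * a ≤ 1 / 10 := by nlinarith
  refine cell_pnn hθ hρ hρ1 ha ha1 he hd ?_ ?_ ?_ ?_ hA1 hA2 hQ
  · rw [jn_1 (T := t) (by linarith) (by linarith), jn_1 (T := t') (by linarith) (by linarith),
      jn_2 (T := t + t') (by linarith)]
  · rw [tau_1 (T := t') (by linarith) (by linarith)]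
    linarith
  · rw [tau_2 (T := t + t') (by linarith)]
    linarith
  · rw [tau_1 (T := t) (by linarith) (by linarith)]
    linarith

end

/-! ### The third side -/

/-- The value on a piece whose lower curve passes through the corner. -/
theorem seg_lo {v : ℝ → Fin 5 → ℝ} {i : Fin 3} {X T X0 R0 ρ κ u xl al G : ℝ}
    (hx : cv i.castSucc T = X0 + ρ * (κ * xl)) (ha : v T (tg i.castSucc) = R0 + ρ * (κ * al))
    (hX : X = X0 + ρ * u)
    (hG : v T (tg i.succ) - v T (tg i.castSucc) = G * (cv i.succ T - cv i.castSucc T))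
    (h1 : cv i.castSucc T ≤ X) (h2 : X ≤ cv i.succ T) :
    segW v i X T = R0 + ρ * (κ * al + G * (u - κ * xl)) := by
  unfold segW
  rw [hG]
  rcases eq_or_ne (cv i.succ T - cv i.castSucc T) 0 with h | h
  · have h3 : X = cv i.castSucc T := by linarith
    rw [h, ha]
    have h4 : G * (ρ * u - ρ * (κ * xl)) = 0 := by
      have : ρ * u - ρ * (κ * xl) = 0 := by linarith
      rw [this, mul_zero]
    linarith
  · rw [mul_assoc, mul_div_cancel₀ _ h, ha, hX, hx]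
    ring

/-- The value on a piece whose upper curve passes through the corner. -/
theorem seg_hi {v : ℝ → Fin 5 → ℝ} {i : Fin 3} {X T X0 R0 ρ κ u xl al G : ℝ}
    (hx : cv i.succ T = X0 + ρ * (κ * xl)) (ha : v T (tg i.succ) = R0 + ρ * (κ * al))
    (hX : X = X0 + ρ * u)
    (hG : v T (tg i.succ) - v T (tg i.castSucc) = G * (cv i.succ T - cv i.castSucc T))
    (h1 : cv i.castSucc T ≤ X) (h2 : X ≤ cv i.succ T) :
    segW v i X T = R0 + ρ * (κ * al + G * (u - κ * xl)) := by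
  unfold segW
  rw [hG]
  have hl : v T (tg i.castSucc) = R0 + ρ * (κ * al) - G * (cv i.succ T - cv i.castSucc T) := by
    rw [← ha, ← hG]
    ring
  rcases eq_or_ne (cv i.succ T - cv i.castSucc T) 0 with h | h
  · have h3 : X = cv i.castSucc T := by linarith
    rw [h, hl, h]
    have h4 : G * (ρ * u - ρ * (κ * xl)) = 0 := by
      have : ρ * u - ρ * (κ * xl) = 0 := by linarith
      rw [this, mul_zero]
    linarith
  · have e : G * (cv i.succ T - cv i.castSucc T) *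
        ((X - cv i.castSucc T) / (cv i.succ T - cv i.castSucc T)) =
        G * (X - cv i.castSucc T) := by
      rw [mul_assoc, mul_div_cancel₀ _ h]
    rw [e, hl, hX, hx]
    ring

end Pool.Agent.Strip051.LC.Line.Corn
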