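import Pool.Agent.Strip051.Box.C2
import Pool.Agent.Strip051.LC.Line.Corn.Cell

/-! # Corner chart A00pm011 (generated) -/

namespace Pool.Agent.Strip051.LC.Line.Corn.A00pm011

open Pool.Agent.Strip051.Box Pool.Agent.Strip051.Box2

abbrev S : Nat := 1073741824

theorem hS : 0 < S := by decide

/-- coordinates of a point of the box -/
def In (b : Bx) (E : Pt) (x1 x2 : ℝ) : Prop :=
  (S : ℝ) * x1 = ((b.p1 : ℝ) - b.n1) + b.q1 * E.e1 ∧ (S : ℝ) * x2 = ((b.p2 : ℝ) - b.n2) + b.q2 * E.e2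

variable {b : Bx} {E : Pt} {x1 x2 : ℝ}

def t0 (b : Bx) : TM := X1 b
noncomputable def v0 (x1 _x2 : ℝ) : ℝ := x1
theorem h0 (h : In b E x1 x2) : Enc S E (t0 b) (v0 x1 x2) := enc_X1 h.1

def t1 (b : Bx) : TM := X2 b
noncomputable def v1 (_x1 x2 : ℝ) : ℝ := x2
theorem h1 (h : In b E x1 x2) : Enc S E (t1 b) (v1 x1 x2) := enc_X2 h.2

def t2 (_b : Bx) : TM := tconst (Nat.mul 1 S) 0 0
noncomputable def v2 (_x1 _x2 : ℝ) : ℝ := ((1 : ℕ) : ℝ)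
theorem h2 (_h : In b E x1 x2) : Enc S E (t2 b) (v2 x1 x2) := enc_nc E 1

def t3 (b : Bx) : TM := tsub (t2 b) (t1 b)
noncomputable def v3 (x1 x2 : ℝ) : ℝ := v2 x1 x2 - v1 x1 x2
theorem h3 (h : In b E x1 x2) : Enc S E (t3 b) (v3 x1 x2) := enc_sub (h2 h) (h1 h)

def t4 (b : Bx) : TM := tneg (t1 b)
noncomputable def v4 (x1 x2 : ℝ) : ℝ := -(v1 x1 x2)
theorem h4 (h : In b E x1 x2) : Enc S E (t4 b) (v4 x1 x2) := enc_neg (h1 h)

def t6 (b : Bx) : TM := tneg (t2 b)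
noncomputable def v6 (x1 x2 : ℝ) : ℝ := -(v2 x1 x2)
theorem h6 (h : In b E x1 x2) : Enc S E (t6 b) (v6 x1 x2) := enc_neg (h2 h)

def t7 (_b : Bx) : TM := tconst 1859775393 0 1
noncomputable def v7 (_x1 _x2 : ℝ) : ℝ := Real.sqrt ((3 : ℕ) : ℝ)
theorem h7 (_h : In b E x1 x2) : Enc S E (t7 b) (v7 x1 x2) := enc_sqrtn E (by decide) (by decide)

def t8 (b : Bx) : TM := tscale 1 2 (t7 b)
noncomputable def v8 (x1 x2 : ℝ) : ℝ := ((1 : ℕ) : ℝ) / ((2 : ℕ) : ℝ) * v7 x1 x2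
theorem h8 (h : In b E x1 x2) : Enc S E (t8 b) (v8 x1 x2) := enc_scale 1 (by norm_num) (h7 h)

def t9 (b : Bx) : TM := tmul S (t0 b) (t3 b)
noncomputable def v9 (x1 x2 : ℝ) : ℝ := v0 x1 x2 * v3 x1 x2
theorem h9 (h : In b E x1 x2) : Enc S E (t9 b) (v9 x1 x2) := enc_mul hS (h0 h) (h3 h)

def t10 (b : Bx) : TM := tmul S (t0 b) (t6 b)
noncomputable def v10 (x1 x2 : ℝ) : ℝ := v0 x1 x2 * v6 x1 x2
theorem h10 (h : In b E x1 x2) : Enc S E (t10 b) (v10 x1 x2) := enc_mul hS (h0 h) (h6 h)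

def t11 (b : Bx) : TM := tmul S (t0 b) (t4 b)
noncomputable def v11 (x1 x2 : ℝ) : ℝ := v0 x1 x2 * v4 x1 x2
theorem h11 (h : In b E x1 x2) : Enc S E (t11 b) (v11 x1 x2) := enc_mul hS (h0 h) (h4 h)

def t12 (b : Bx) : TM := tsq S (t9 b)
noncomputable def v12 (x1 x2 : ℝ) : ℝ := (v9 x1 x2) ^ 2
theorem h12 (h : In b E x1 x2) : Enc S E (t12 b) (v12 x1 x2) := enc_sq hS (h9 h)

def t13 (b : Bx) : TM := tsub (t2 b) (t12 b)
noncomputable def v13 (x1 x2 : ℝ) : ℝ := v2 x1 x2 - v12 x1 x2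
theorem h13 (h : In b E x1 x2) : Enc S E (t13 b) (v13 x1 x2) := enc_sub (h2 h) (h12 h)

def t14 (b : Bx) : TM := tsqrt S (t13 b)
noncomputable def v14 (x1 x2 : ℝ) : ℝ := Real.sqrt (v13 x1 x2)
theorem h14 (h : In b E x1 x2) : Enc S E (t14 b) (v14 x1 x2) := enc_sqrt hS (h13 h)

def t15 (b : Bx) : TM := tadd (t2 b) (t14 b)
noncomputable def v15 (x1 x2 : ℝ) : ℝ := v2 x1 x2 + v14 x1 x2
theorem h15 (h : In b E x1 x2) : Enc S E (t15 b) (v15 x1 x2) := enc_add (h2 h) (h14 h)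

def t16 (b : Bx) : TM := tinv S (t15 b)
noncomputable def v16 (x1 x2 : ℝ) : ℝ := (v15 x1 x2)⁻¹
theorem h16 (h : In b E x1 x2) : Enc S E (t16 b) (v16 x1 x2) := enc_inv hS (h15 h)

def t17 (b : Bx) : TM := tmul S (t9 b) (t16 b)
noncomputable def v17 (x1 x2 : ℝ) : ℝ := v9 x1 x2 * v16 x1 x2
theorem h17 (h : In b E x1 x2) : Enc S E (t17 b) (v17 x1 x2) := enc_mul hS (h9 h) (h16 h)

def t18 (b : Bx) : TM := tneg (t17 b)
noncomputable def v18 (x1 x2 : ℝ) : ℝ := -(v17 x1 x2)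
theorem h18 (h : In b E x1 x2) : Enc S E (t18 b) (v18 x1 x2) := enc_neg (h17 h)

def t19 (b : Bx) : TM := tmul S (t3 b) (t18 b)
noncomputable def v19 (x1 x2 : ℝ) : ℝ := v3 x1 x2 * v18 x1 x2
theorem h19 (h : In b E x1 x2) : Enc S E (t19 b) (v19 x1 x2) := enc_mul hS (h3 h) (h18 h)

def t20 (b : Bx) : TM := tmul S (t7 b) (t14 b)
noncomputable def v20 (x1 x2 : ℝ) : ℝ := v7 x1 x2 * v14 x1 x2
theorem h20 (h : In b E x1 x2) : Enc S E (t20 b) (v20 x1 x2) := enc_mul hS (h7 h) (h14 h)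

def t21 (b : Bx) : TM := tadd (t9 b) (t20 b)
noncomputable def v21 (x1 x2 : ℝ) : ℝ := v9 x1 x2 + v20 x1 x2
theorem h21 (h : In b E x1 x2) : Enc S E (t21 b) (v21 x1 x2) := enc_add (h9 h) (h20 h)

def t22 (b : Bx) : TM := tmul S (t7 b) (t9 b)
noncomputable def v22 (x1 x2 : ℝ) : ℝ := v7 x1 x2 * v9 x1 x2
theorem h22 (h : In b E x1 x2) : Enc S E (t22 b) (v22 x1 x2) := enc_mul hS (h7 h) (h9 h)

def t23 (b : Bx) : TM := tsub (t15 b) (t22 b)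
noncomputable def v23 (x1 x2 : ℝ) : ℝ := v15 x1 x2 - v22 x1 x2
theorem h23 (h : In b E x1 x2) : Enc S E (t23 b) (v23 x1 x2) := enc_sub (h15 h) (h22 h)

def t24 (b : Bx) : TM := tinv S (t23 b)
noncomputable def v24 (x1 x2 : ℝ) : ℝ := (v23 x1 x2)⁻¹
theorem h24 (h : In b E x1 x2) : Enc S E (t24 b) (v24 x1 x2) := enc_inv hS (h23 h)

def t25 (b : Bx) : TM := tmul S (t21 b) (t24 b)
noncomputable def v25 (x1 x2 : ℝ) : ℝ := v21 x1 x2 * v24 x1 x2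
theorem h25 (h : In b E x1 x2) : Enc S E (t25 b) (v25 x1 x2) := enc_mul hS (h21 h) (h24 h)

def t26 (b : Bx) : TM := tneg (t25 b)
noncomputable def v26 (x1 x2 : ℝ) : ℝ := -(v25 x1 x2)
theorem h26 (h : In b E x1 x2) : Enc S E (t26 b) (v26 x1 x2) := enc_neg (h25 h)

def t27 (b : Bx) : TM := tmul S (t3 b) (t26 b)
noncomputable def v27 (x1 x2 : ℝ) : ℝ := v3 x1 x2 * v26 x1 x2
theorem h27 (h : In b E x1 x2) : Enc S E (t27 b) (v27 x1 x2) := enc_mul hS (h3 h) (h26 h)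

def t28 (b : Bx) : TM := tadd (t7 b) (t10 b)
noncomputable def v28 (x1 x2 : ℝ) : ℝ := v7 x1 x2 + v10 x1 x2
theorem h28 (h : In b E x1 x2) : Enc S E (t28 b) (v28 x1 x2) := enc_add (h7 h) (h10 h)

def t29 (b : Bx) : TM := tadd (t8 b) (t10 b)
noncomputable def v29 (x1 x2 : ℝ) : ℝ := v8 x1 x2 + v10 x1 x2
theorem h29 (h : In b E x1 x2) : Enc S E (t29 b) (v29 x1 x2) := enc_add (h8 h) (h10 h)

def t30 (b : Bx) : TM := tsq S (t29 b)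
noncomputable def v30 (x1 x2 : ℝ) : ℝ := (v29 x1 x2) ^ 2
theorem h30 (h : In b E x1 x2) : Enc S E (t30 b) (v30 x1 x2) := enc_sq hS (h29 h)

def t31 (b : Bx) : TM := tsub (t2 b) (t30 b)
noncomputable def v31 (x1 x2 : ℝ) : ℝ := v2 x1 x2 - v30 x1 x2
theorem h31 (h : In b E x1 x2) : Enc S E (t31 b) (v31 x1 x2) := enc_sub (h2 h) (h30 h)

def t32 (b : Bx) : TM := tsqrt S (t31 b)
noncomputable def v32 (x1 x2 : ℝ) : ℝ := Real.sqrt (v31 x1 x2)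
theorem h32 (h : In b E x1 x2) : Enc S E (t32 b) (v32 x1 x2) := enc_sqrt hS (h31 h)

def t33 (_b : Bx) : TM := tconst (Nat.div (Nat.mul 1 S) 2) 0 1
noncomputable def v33 (_x1 _x2 : ℝ) : ℝ := ((1 : ℕ) : ℝ) / ((2 : ℕ) : ℝ)
theorem h33 (_h : In b E x1 x2) : Enc S E (t33 b) (v33 x1 x2) := enc_rat E 1 (by norm_num)

def t34 (b : Bx) : TM := tadd (t32 b) (t33 b)
noncomputable def v34 (x1 x2 : ℝ) : ℝ := v32 x1 x2 + v33 x1 x2
theorem h34 (h : In b E x1 x2) : Enc S E (t34 b) (v34 x1 x2) := enc_add (h32 h) (h33 h)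

def t35 (b : Bx) : TM := tinv S (t34 b)
noncomputable def v35 (x1 x2 : ℝ) : ℝ := (v34 x1 x2)⁻¹
theorem h35 (h : In b E x1 x2) : Enc S E (t35 b) (v35 x1 x2) := enc_inv hS (h34 h)

def t36 (b : Bx) : TM := tmul S (t28 b) (t35 b)
noncomputable def v36 (x1 x2 : ℝ) : ℝ := v28 x1 x2 * v35 x1 x2
theorem h36 (h : In b E x1 x2) : Enc S E (t36 b) (v36 x1 x2) := enc_mul hS (h28 h) (h35 h)

def t37 (b : Bx) : TM := tneg (t36 b)
noncomputable def v37 (x1 x2 : ℝ) : ℝ := -(v36 x1 x2)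
theorem h37 (h : In b E x1 x2) : Enc S E (t37 b) (v37 x1 x2) := enc_neg (h36 h)

def t38 (b : Bx) : TM := tmul S (t6 b) (t37 b)
noncomputable def v38 (x1 x2 : ℝ) : ℝ := v6 x1 x2 * v37 x1 x2
theorem h38 (h : In b E x1 x2) : Enc S E (t38 b) (v38 x1 x2) := enc_mul hS (h6 h) (h37 h)

def t39 (b : Bx) : TM := tneg (t38 b)
noncomputable def v39 (x1 x2 : ℝ) : ℝ := -(v38 x1 x2)
theorem h39 (h : In b E x1 x2) : Enc S E (t39 b) (v39 x1 x2) := enc_neg (h38 h)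

def t40 (b : Bx) : TM := tnat 3 (t37 b)
noncomputable def v40 (x1 x2 : ℝ) : ℝ := ((3 : ℕ) : ℝ) * v37 x1 x2
theorem h40 (h : In b E x1 x2) : Enc S E (t40 b) (v40 x1 x2) := enc_nat 3 (h37 h)

def t41 (b : Bx) : TM := tmul S (t7 b) (t32 b)
noncomputable def v41 (x1 x2 : ℝ) : ℝ := v7 x1 x2 * v32 x1 x2
theorem h41 (h : In b E x1 x2) : Enc S E (t41 b) (v41 x1 x2) := enc_mul hS (h7 h) (h32 h)

def t42 (b : Bx) : TM := tnat 2 (t41 b)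
noncomputable def v42 (x1 x2 : ℝ) : ℝ := ((2 : ℕ) : ℝ) * v41 x1 x2
theorem h42 (h : In b E x1 x2) : Enc S E (t42 b) (v42 x1 x2) := enc_nat 2 (h41 h)

def t43 (b : Bx) : TM := tadd (t40 b) (t42 b)
noncomputable def v43 (x1 x2 : ℝ) : ℝ := v40 x1 x2 + v42 x1 x2
theorem h43 (h : In b E x1 x2) : Enc S E (t43 b) (v43 x1 x2) := enc_add (h40 h) (h42 h)

def t44 (b : Bx) : TM := tnat 2 (t7 b)
noncomputable def v44 (x1 x2 : ℝ) : ℝ := ((2 : ℕ) : ℝ) * v7 x1 x2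
theorem h44 (h : In b E x1 x2) : Enc S E (t44 b) (v44 x1 x2) := enc_nat 2 (h7 h)

def t45 (b : Bx) : TM := tadd (t43 b) (t44 b)
noncomputable def v45 (x1 x2 : ℝ) : ℝ := v43 x1 x2 + v44 x1 x2
theorem h45 (h : In b E x1 x2) : Enc S E (t45 b) (v45 x1 x2) := enc_add (h43 h) (h44 h)

def t46 (b : Bx) : TM := tnat 2 (t10 b)
noncomputable def v46 (x1 x2 : ℝ) : ℝ := ((2 : ℕ) : ℝ) * v10 x1 x2
theorem h46 (h : In b E x1 x2) : Enc S E (t46 b) (v46 x1 x2) := enc_nat 2 (h10 h)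

def t47 (b : Bx) : TM := tadd (t45 b) (t46 b)
noncomputable def v47 (x1 x2 : ℝ) : ℝ := v45 x1 x2 + v46 x1 x2
theorem h47 (h : In b E x1 x2) : Enc S E (t47 b) (v47 x1 x2) := enc_add (h45 h) (h46 h)

def t48 (b : Bx) : TM := tmul S (t7 b) (t29 b)
noncomputable def v48 (x1 x2 : ℝ) : ℝ := v7 x1 x2 * v29 x1 x2
theorem h48 (h : In b E x1 x2) : Enc S E (t48 b) (v48 x1 x2) := enc_mul hS (h7 h) (h29 h)

def t49 (b : Bx) : TM := tadd (t2 b) (t48 b)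
noncomputable def v49 (x1 x2 : ℝ) : ℝ := v2 x1 x2 + v48 x1 x2
theorem h49 (h : In b E x1 x2) : Enc S E (t49 b) (v49 x1 x2) := enc_add (h2 h) (h48 h)

def t50 (b : Bx) : TM := tsub (t49 b) (t32 b)
noncomputable def v50 (x1 x2 : ℝ) : ℝ := v49 x1 x2 - v32 x1 x2
theorem h50 (h : In b E x1 x2) : Enc S E (t50 b) (v50 x1 x2) := enc_sub (h49 h) (h32 h)

def t51 (b : Bx) : TM := tnat 2 (t50 b)
noncomputable def v51 (x1 x2 : ℝ) : ℝ := ((2 : ℕ) : ℝ) * v50 x1 x2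
theorem h51 (h : In b E x1 x2) : Enc S E (t51 b) (v51 x1 x2) := enc_nat 2 (h50 h)

def t52 (b : Bx) : TM := tinv S (t51 b)
noncomputable def v52 (x1 x2 : ℝ) : ℝ := (v51 x1 x2)⁻¹
theorem h52 (h : In b E x1 x2) : Enc S E (t52 b) (v52 x1 x2) := enc_inv hS (h51 h)

def t53 (b : Bx) : TM := tmul S (t47 b) (t52 b)
noncomputable def v53 (x1 x2 : ℝ) : ℝ := v47 x1 x2 * v52 x1 x2
theorem h53 (h : In b E x1 x2) : Enc S E (t53 b) (v53 x1 x2) := enc_mul hS (h47 h) (h52 h)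

def t54 (b : Bx) : TM := tmul S (t6 b) (t53 b)
noncomputable def v54 (x1 x2 : ℝ) : ℝ := v6 x1 x2 * v53 x1 x2
theorem h54 (h : In b E x1 x2) : Enc S E (t54 b) (v54 x1 x2) := enc_mul hS (h6 h) (h53 h)

def t55 (b : Bx) : TM := tneg (t54 b)
noncomputable def v55 (x1 x2 : ℝ) : ℝ := -(v54 x1 x2)
theorem h55 (h : In b E x1 x2) : Enc S E (t55 b) (v55 x1 x2) := enc_neg (h54 h)

def t56 (b : Bx) : TM := tadd (t19 b) (t39 b)
noncomputable def v56 (x1 x2 : ℝ) : ℝ := v19 x1 x2 + v39 x1 x2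
theorem h56 (h : In b E x1 x2) : Enc S E (t56 b) (v56 x1 x2) := enc_add (h19 h) (h39 h)

def t57 (b : Bx) : TM := tadd (t8 b) (t11 b)
noncomputable def v57 (x1 x2 : ℝ) : ℝ := v8 x1 x2 + v11 x1 x2
theorem h57 (h : In b E x1 x2) : Enc S E (t57 b) (v57 x1 x2) := enc_add (h8 h) (h11 h)

def t58 (b : Bx) : TM := tmul S (t19 b) (t57 b)
noncomputable def v58 (x1 x2 : ℝ) : ℝ := v19 x1 x2 * v57 x1 x2
theorem h58 (h : In b E x1 x2) : Enc S E (t58 b) (v58 x1 x2) := enc_mul hS (h19 h) (h57 h)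

def t59 (b : Bx) : TM := tnat 1 (t4 b)
noncomputable def v59 (x1 x2 : ℝ) : ℝ := ((1 : ℕ) : ℝ) * v4 x1 x2
theorem h59 (h : In b E x1 x2) : Enc S E (t59 b) (v59 x1 x2) := enc_nat 1 (h4 h)

def t60 (b : Bx) : TM := tadd (t58 b) (t59 b)
noncomputable def v60 (x1 x2 : ℝ) : ℝ := v58 x1 x2 + v59 x1 x2
theorem h60 (h : In b E x1 x2) : Enc S E (t60 b) (v60 x1 x2) := enc_add (h58 h) (h59 h)

def t61 (b : Bx) : TM := tmul S (t56 b) (t9 b)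
noncomputable def v61 (x1 x2 : ℝ) : ℝ := v56 x1 x2 * v9 x1 x2
theorem h61 (h : In b E x1 x2) : Enc S E (t61 b) (v61 x1 x2) := enc_mul hS (h56 h) (h9 h)

def t62 (b : Bx) : TM := tscale 1 2 (t3 b)
noncomputable def v62 (x1 x2 : ℝ) : ℝ := ((1 : ℕ) : ℝ) / ((2 : ℕ) : ℝ) * v3 x1 x2
theorem h62 (h : In b E x1 x2) : Enc S E (t62 b) (v62 x1 x2) := enc_scale 1 (by norm_num) (h3 h)

def t63 (b : Bx) : TM := tadd (t61 b) (t62 b)
noncomputable def v63 (x1 x2 : ℝ) : ℝ := v61 x1 x2 + v62 x1 x2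
theorem h63 (h : In b E x1 x2) : Enc S E (t63 b) (v63 x1 x2) := enc_add (h61 h) (h62 h)

def t64 (b : Bx) : TM := tsub (t60 b) (t63 b)
noncomputable def v64 (x1 x2 : ℝ) : ℝ := v60 x1 x2 - v63 x1 x2
theorem h64 (h : In b E x1 x2) : Enc S E (t64 b) (v64 x1 x2) := enc_sub (h60 h) (h63 h)

def t65 (b : Bx) : TM := tinv S (t7 b)
noncomputable def v65 (x1 x2 : ℝ) : ℝ := (v7 x1 x2)⁻¹
theorem h65 (h : In b E x1 x2) : Enc S E (t65 b) (v65 x1 x2) := enc_inv hS (h7 h)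

def t66 (b : Bx) : TM := tmul S (t64 b) (t65 b)
noncomputable def v66 (x1 x2 : ℝ) : ℝ := v64 x1 x2 * v65 x1 x2
theorem h66 (h : In b E x1 x2) : Enc S E (t66 b) (v66 x1 x2) := enc_mul hS (h64 h) (h65 h)

def t67 (b : Bx) : TM := tmul S (t0 b) (t56 b)
noncomputable def v67 (x1 x2 : ℝ) : ℝ := v0 x1 x2 * v56 x1 x2
theorem h67 (h : In b E x1 x2) : Enc S E (t67 b) (v67 x1 x2) := enc_mul hS (h0 h) (h56 h)

def t68 (b : Bx) : TM := tadd (t33 b) (t67 b)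
noncomputable def v68 (x1 x2 : ℝ) : ℝ := v33 x1 x2 + v67 x1 x2
theorem h68 (h : In b E x1 x2) : Enc S E (t68 b) (v68 x1 x2) := enc_add (h33 h) (h67 h)

def t69 (b : Bx) : TM := tsq S (t57 b)
noncomputable def v69 (x1 x2 : ℝ) : ℝ := (v57 x1 x2) ^ 2
theorem h69 (h : In b E x1 x2) : Enc S E (t69 b) (v69 x1 x2) := enc_sq hS (h57 h)

def t70 (b : Bx) : TM := tsub (t2 b) (t69 b)
noncomputable def v70 (x1 x2 : ℝ) : ℝ := v2 x1 x2 - v69 x1 x2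
theorem h70 (h : In b E x1 x2) : Enc S E (t70 b) (v70 x1 x2) := enc_sub (h2 h) (h69 h)

def t71 (b : Bx) : TM := tsqrt S (t70 b)
noncomputable def v71 (x1 x2 : ℝ) : ℝ := Real.sqrt (v70 x1 x2)
theorem h71 (h : In b E x1 x2) : Enc S E (t71 b) (v71 x1 x2) := enc_sqrt hS (h70 h)

def t72 (b : Bx) : TM := tsub (t57 b) (t8 b)
noncomputable def v72 (x1 x2 : ℝ) : ℝ := v57 x1 x2 - v8 x1 x2
theorem h72 (h : In b E x1 x2) : Enc S E (t72 b) (v72 x1 x2) := enc_sub (h57 h) (h8 h)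

def t73 (b : Bx) : TM := tsq S (t72 b)
noncomputable def v73 (x1 x2 : ℝ) : ℝ := (v72 x1 x2) ^ 2
theorem h73 (h : In b E x1 x2) : Enc S E (t73 b) (v73 x1 x2) := enc_sq hS (h72 h)

def t74 (b : Bx) : TM := tsub (t2 b) (t73 b)
noncomputable def v74 (x1 x2 : ℝ) : ℝ := v2 x1 x2 - v73 x1 x2
theorem h74 (h : In b E x1 x2) : Enc S E (t74 b) (v74 x1 x2) := enc_sub (h2 h) (h73 h)

def t75 (b : Bx) : TM := tsqrt S (t74 b)
noncomputable def v75 (x1 x2 : ℝ) : ℝ := Real.sqrt (v74 x1 x2)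
theorem h75 (h : In b E x1 x2) : Enc S E (t75 b) (v75 x1 x2) := enc_sqrt hS (h74 h)

def t76 (b : Bx) : TM := tadd (t75 b) (t33 b)
noncomputable def v76 (x1 x2 : ℝ) : ℝ := v75 x1 x2 + v33 x1 x2
theorem h76 (h : In b E x1 x2) : Enc S E (t76 b) (v76 x1 x2) := enc_add (h75 h) (h33 h)

def t77 (b : Bx) : TM := tadd (t71 b) (t76 b)
noncomputable def v77 (x1 x2 : ℝ) : ℝ := v71 x1 x2 + v76 x1 x2
theorem h77 (h : In b E x1 x2) : Enc S E (t77 b) (v77 x1 x2) := enc_add (h71 h) (h76 h)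

def t78 (b : Bx) : TM := tscale 1 2 (t77 b)
noncomputable def v78 (x1 x2 : ℝ) : ℝ := ((1 : ℕ) : ℝ) / ((2 : ℕ) : ℝ) * v77 x1 x2
theorem h78 (h : In b E x1 x2) : Enc S E (t78 b) (v78 x1 x2) := enc_scale 1 (by norm_num) (h77 h)

def t79 (b : Bx) : TM := tinv S (t8 b)
noncomputable def v79 (x1 x2 : ℝ) : ℝ := (v8 x1 x2)⁻¹
theorem h79 (h : In b E x1 x2) : Enc S E (t79 b) (v79 x1 x2) := enc_inv hS (h8 h)

def t80 (b : Bx) : TM := tmul S (t57 b) (t79 b)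
noncomputable def v80 (x1 x2 : ℝ) : ℝ := v57 x1 x2 * v79 x1 x2
theorem h80 (h : In b E x1 x2) : Enc S E (t80 b) (v80 x1 x2) := enc_mul hS (h57 h) (h79 h)

def t81 (b : Bx) : TM := tsub (t80 b) (t2 b)
noncomputable def v81 (x1 x2 : ℝ) : ℝ := v80 x1 x2 - v2 x1 x2
theorem h81 (h : In b E x1 x2) : Enc S E (t81 b) (v81 x1 x2) := enc_sub (h80 h) (h2 h)

def t82 (b : Bx) : TM := tscale 71 25 (t81 b)
noncomputable def v82 (x1 x2 : ℝ) : ℝ := ((71 : ℕ) : ℝ) / ((25 : ℕ) : ℝ) * v81 x1 x2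
theorem h82 (h : In b E x1 x2) : Enc S E (t82 b) (v82 x1 x2) := enc_scale 71 (by norm_num) (h81 h)

def t83 (_b : Bx) : TM := tconst (Nat.div (Nat.mul 173 S) 200) 0 1
noncomputable def v83 (_x1 _x2 : ℝ) : ℝ := ((173 : ℕ) : ℝ) / ((200 : ℕ) : ℝ)
theorem h83 (_h : In b E x1 x2) : Enc S E (t83 b) (v83 x1 x2) := enc_rat E 173 (by norm_num)

def t84 (b : Bx) : TM := tadd (t83 b) (t82 b)
noncomputable def v84 (x1 x2 : ℝ) : ℝ := v83 x1 x2 + v82 x1 x2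
theorem h84 (h : In b E x1 x2) : Enc S E (t84 b) (v84 x1 x2) := enc_add (h83 h) (h82 h)

def t85 (b : Bx) : TM := tmul S (t78 b) (t84 b)
noncomputable def v85 (x1 x2 : ℝ) : ℝ := v78 x1 x2 * v84 x1 x2
theorem h85 (h : In b E x1 x2) : Enc S E (t85 b) (v85 x1 x2) := enc_mul hS (h78 h) (h84 h)

def t86 (b : Bx) : TM := tnat 2 (t71 b)
noncomputable def v86 (x1 x2 : ℝ) : ℝ := ((2 : ℕ) : ℝ) * v71 x1 x2
theorem h86 (h : In b E x1 x2) : Enc S E (t86 b) (v86 x1 x2) := enc_nat 2 (h71 h)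

def t87 (b : Bx) : TM := tadd (t2 b) (t86 b)
noncomputable def v87 (x1 x2 : ℝ) : ℝ := v2 x1 x2 + v86 x1 x2
theorem h87 (h : In b E x1 x2) : Enc S E (t87 b) (v87 x1 x2) := enc_add (h2 h) (h86 h)

def t88 (b : Bx) : TM := tmul S (t7 b) (t57 b)
noncomputable def v88 (x1 x2 : ℝ) : ℝ := v7 x1 x2 * v57 x1 x2
theorem h88 (h : In b E x1 x2) : Enc S E (t88 b) (v88 x1 x2) := enc_mul hS (h7 h) (h57 h)

def t89 (b : Bx) : TM := tsub (t88 b) (t71 b)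
noncomputable def v89 (x1 x2 : ℝ) : ℝ := v88 x1 x2 - v71 x1 x2
theorem h89 (h : In b E x1 x2) : Enc S E (t89 b) (v89 x1 x2) := enc_sub (h88 h) (h71 h)

def t90 (b : Bx) : TM := tmul S (t87 b) (t89 b)
noncomputable def v90 (x1 x2 : ℝ) : ℝ := v87 x1 x2 * v89 x1 x2
theorem h90 (h : In b E x1 x2) : Enc S E (t90 b) (v90 x1 x2) := enc_mul hS (h87 h) (h89 h)

def t91 (b : Bx) : TM := tadd (t2 b) (t88 b)
noncomputable def v91 (x1 x2 : ℝ) : ℝ := v2 x1 x2 + v88 x1 x2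
theorem h91 (h : In b E x1 x2) : Enc S E (t91 b) (v91 x1 x2) := enc_add (h2 h) (h88 h)

def t92 (b : Bx) : TM := tsub (t91 b) (t71 b)
noncomputable def v92 (x1 x2 : ℝ) : ℝ := v91 x1 x2 - v71 x1 x2
theorem h92 (h : In b E x1 x2) : Enc S E (t92 b) (v92 x1 x2) := enc_sub (h91 h) (h71 h)

def t93 (b : Bx) : TM := tnat 2 (t92 b)
noncomputable def v93 (x1 x2 : ℝ) : ℝ := ((2 : ℕ) : ℝ) * v92 x1 x2
theorem h93 (h : In b E x1 x2) : Enc S E (t93 b) (v93 x1 x2) := enc_nat 2 (h92 h)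

def t94 (b : Bx) : TM := tinv S (t93 b)
noncomputable def v94 (x1 x2 : ℝ) : ℝ := (v93 x1 x2)⁻¹
theorem h94 (h : In b E x1 x2) : Enc S E (t94 b) (v94 x1 x2) := enc_inv hS (h93 h)

def t95 (b : Bx) : TM := tmul S (t90 b) (t94 b)
noncomputable def v95 (x1 x2 : ℝ) : ℝ := v90 x1 x2 * v94 x1 x2
theorem h95 (h : In b E x1 x2) : Enc S E (t95 b) (v95 x1 x2) := enc_mul hS (h90 h) (h94 h)

def t96 (b : Bx) : TM := tsub (t85 b) (t95 b)
noncomputable def v96 (x1 x2 : ℝ) : ℝ := v85 x1 x2 - v95 x1 x2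
theorem h96 (h : In b E x1 x2) : Enc S E (t96 b) (v96 x1 x2) := enc_sub (h85 h) (h95 h)

def t97 (b : Bx) : TM := tsub (t78 b) (t71 b)
noncomputable def v97 (x1 x2 : ℝ) : ℝ := v78 x1 x2 - v71 x1 x2
theorem h97 (h : In b E x1 x2) : Enc S E (t97 b) (v97 x1 x2) := enc_sub (h78 h) (h71 h)

def t98 (b : Bx) : TM := tinv S (t97 b)
noncomputable def v98 (x1 x2 : ℝ) : ℝ := (v97 x1 x2)⁻¹
theorem h98 (h : In b E x1 x2) : Enc S E (t98 b) (v98 x1 x2) := enc_inv hS (h97 h)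

def t99 (b : Bx) : TM := tmul S (t96 b) (t98 b)
noncomputable def v99 (x1 x2 : ℝ) : ℝ := v96 x1 x2 * v98 x1 x2
theorem h99 (h : In b E x1 x2) : Enc S E (t99 b) (v99 x1 x2) := enc_mul hS (h96 h) (h98 h)

def t100 (b : Bx) : TM := tadd (t7 b) (t11 b)
noncomputable def v100 (x1 x2 : ℝ) : ℝ := v7 x1 x2 + v11 x1 x2
theorem h100 (h : In b E x1 x2) : Enc S E (t100 b) (v100 x1 x2) := enc_add (h7 h) (h11 h)

def t101 (b : Bx) : TM := tadd (t71 b) (t33 b)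
noncomputable def v101 (x1 x2 : ℝ) : ℝ := v71 x1 x2 + v33 x1 x2
theorem h101 (h : In b E x1 x2) : Enc S E (t101 b) (v101 x1 x2) := enc_add (h71 h) (h33 h)

def t102 (b : Bx) : TM := tinv S (t101 b)
noncomputable def v102 (x1 x2 : ℝ) : ℝ := (v101 x1 x2)⁻¹
theorem h102 (h : In b E x1 x2) : Enc S E (t102 b) (v102 x1 x2) := enc_inv hS (h101 h)

def t103 (b : Bx) : TM := tmul S (t100 b) (t102 b)
noncomputable def v103 (x1 x2 : ℝ) : ℝ := v100 x1 x2 * v102 x1 x2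
theorem h103 (h : In b E x1 x2) : Enc S E (t103 b) (v103 x1 x2) := enc_mul hS (h100 h) (h102 h)

def t104 (b : Bx) : TM := tneg (t103 b)
noncomputable def v104 (x1 x2 : ℝ) : ℝ := -(v103 x1 x2)
theorem h104 (h : In b E x1 x2) : Enc S E (t104 b) (v104 x1 x2) := enc_neg (h103 h)

def t105 (b : Bx) : TM := tnat 3 (t104 b)
noncomputable def v105 (x1 x2 : ℝ) : ℝ := ((3 : ℕ) : ℝ) * v104 x1 x2
theorem h105 (h : In b E x1 x2) : Enc S E (t105 b) (v105 x1 x2) := enc_nat 3 (h104 h)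

def t106 (b : Bx) : TM := tmul S (t7 b) (t71 b)
noncomputable def v106 (x1 x2 : ℝ) : ℝ := v7 x1 x2 * v71 x1 x2
theorem h106 (h : In b E x1 x2) : Enc S E (t106 b) (v106 x1 x2) := enc_mul hS (h7 h) (h71 h)

def t107 (b : Bx) : TM := tnat 2 (t106 b)
noncomputable def v107 (x1 x2 : ℝ) : ℝ := ((2 : ℕ) : ℝ) * v106 x1 x2
theorem h107 (h : In b E x1 x2) : Enc S E (t107 b) (v107 x1 x2) := enc_nat 2 (h106 h)

def t108 (b : Bx) : TM := tadd (t105 b) (t107 b)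
noncomputable def v108 (x1 x2 : ℝ) : ℝ := v105 x1 x2 + v107 x1 x2
theorem h108 (h : In b E x1 x2) : Enc S E (t108 b) (v108 x1 x2) := enc_add (h105 h) (h107 h)

def t109 (b : Bx) : TM := tadd (t108 b) (t44 b)
noncomputable def v109 (x1 x2 : ℝ) : ℝ := v108 x1 x2 + v44 x1 x2
theorem h109 (h : In b E x1 x2) : Enc S E (t109 b) (v109 x1 x2) := enc_add (h108 h) (h44 h)

def t110 (b : Bx) : TM := tnat 2 (t11 b)
noncomputable def v110 (x1 x2 : ℝ) : ℝ := ((2 : ℕ) : ℝ) * v11 x1 x2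
theorem h110 (h : In b E x1 x2) : Enc S E (t110 b) (v110 x1 x2) := enc_nat 2 (h11 h)

def t111 (b : Bx) : TM := tadd (t109 b) (t110 b)
noncomputable def v111 (x1 x2 : ℝ) : ℝ := v109 x1 x2 + v110 x1 x2
theorem h111 (h : In b E x1 x2) : Enc S E (t111 b) (v111 x1 x2) := enc_add (h109 h) (h110 h)

def t112 (b : Bx) : TM := tmul S (t111 b) (t94 b)
noncomputable def v112 (x1 x2 : ℝ) : ℝ := v111 x1 x2 * v94 x1 x2
theorem h112 (h : In b E x1 x2) : Enc S E (t112 b) (v112 x1 x2) := enc_mul hS (h111 h) (h94 h)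

def t113 (b : Bx) : TM := tmul S (t4 b) (t112 b)
noncomputable def v113 (x1 x2 : ℝ) : ℝ := v4 x1 x2 * v112 x1 x2
theorem h113 (h : In b E x1 x2) : Enc S E (t113 b) (v113 x1 x2) := enc_mul hS (h4 h) (h112 h)

def t114 (b : Bx) : TM := tmul S (t4 b) (t104 b)
noncomputable def v114 (x1 x2 : ℝ) : ℝ := v4 x1 x2 * v104 x1 x2
theorem h114 (h : In b E x1 x2) : Enc S E (t114 b) (v114 x1 x2) := enc_mul hS (h4 h) (h104 h)

def t115 (b : Bx) : TM := tsub (t56 b) (t114 b)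
noncomputable def v115 (x1 x2 : ℝ) : ℝ := v56 x1 x2 - v114 x1 x2
theorem h115 (h : In b E x1 x2) : Enc S E (t115 b) (v115 x1 x2) := enc_sub (h56 h) (h114 h)

def t116 (b : Bx) : TM := tmul S (t99 b) (t115 b)
noncomputable def v116 (x1 x2 : ℝ) : ℝ := v99 x1 x2 * v115 x1 x2
theorem h116 (h : In b E x1 x2) : Enc S E (t116 b) (v116 x1 x2) := enc_mul hS (h99 h) (h115 h)

def t117 (b : Bx) : TM := tadd (t113 b) (t116 b)
noncomputable def v117 (x1 x2 : ℝ) : ℝ := v113 x1 x2 + v116 x1 x2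
theorem h117 (h : In b E x1 x2) : Enc S E (t117 b) (v117 x1 x2) := enc_add (h113 h) (h116 h)

def t118 (b : Bx) : TM := tmul S (t0 b) (t27 b)
noncomputable def v118 (x1 x2 : ℝ) : ℝ := v0 x1 x2 * v27 x1 x2
theorem h118 (h : In b E x1 x2) : Enc S E (t118 b) (v118 x1 x2) := enc_mul hS (h0 h) (h27 h)

def t119 (b : Bx) : TM := tadd (t2 b) (t118 b)
noncomputable def v119 (x1 x2 : ℝ) : ℝ := v2 x1 x2 + v118 x1 x2
theorem h119 (h : In b E x1 x2) : Enc S E (t119 b) (v119 x1 x2) := enc_add (h2 h) (h118 h)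

def t123 (b : Bx) : TM := tmul S (t0 b) (t117 b)
noncomputable def v123 (x1 x2 : ℝ) : ℝ := v0 x1 x2 * v117 x1 x2
theorem h123 (h : In b E x1 x2) : Enc S E (t123 b) (v123 x1 x2) := enc_mul hS (h0 h) (h117 h)

def t124 (b : Bx) : TM := tadd (t33 b) (t123 b)
noncomputable def v124 (x1 x2 : ℝ) : ℝ := v33 x1 x2 + v123 x1 x2
theorem h124 (h : In b E x1 x2) : Enc S E (t124 b) (v124 x1 x2) := enc_add (h33 h) (h123 h)

def t125 (b : Bx) : TM := tsub (t117 b) (t27 b)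
noncomputable def v125 (x1 x2 : ℝ) : ℝ := v117 x1 x2 - v27 x1 x2
theorem h125 (h : In b E x1 x2) : Enc S E (t125 b) (v125 x1 x2) := enc_sub (h117 h) (h27 h)

def t126 (b : Bx) : TM := tsub (t125 b) (t55 b)
noncomputable def v126 (x1 x2 : ℝ) : ℝ := v125 x1 x2 - v55 x1 x2
theorem h126 (h : In b E x1 x2) : Enc S E (t126 b) (v126 x1 x2) := enc_sub (h125 h) (h55 h)

def t127 (b : Bx) : TM := tneg (t119 b)
noncomputable def v127 (x1 x2 : ℝ) : ℝ := -(v119 x1 x2)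
theorem h127 (h : In b E x1 x2) : Enc S E (t127 b) (v127 x1 x2) := enc_neg (h119 h)

def t129 (b : Bx) : TM := tmul S (t8 b) (t126 b)
noncomputable def v129 (x1 x2 : ℝ) : ℝ := v8 x1 x2 * v126 x1 x2
theorem h129 (h : In b E x1 x2) : Enc S E (t129 b) (v129 x1 x2) := enc_mul hS (h8 h) (h126 h)

def t130 (b : Bx) : TM := tmul S (t0 b) (t126 b)
noncomputable def v130 (x1 x2 : ℝ) : ℝ := v0 x1 x2 * v126 x1 x2
theorem h130 (h : In b E x1 x2) : Enc S E (t130 b) (v130 x1 x2) := enc_mul hS (h0 h) (h126 h)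

def t131 (b : Bx) : TM := tadd (t130 b) (t127 b)
noncomputable def v131 (x1 x2 : ℝ) : ℝ := v130 x1 x2 + v127 x1 x2
theorem h131 (h : In b E x1 x2) : Enc S E (t131 b) (v131 x1 x2) := enc_add (h130 h) (h127 h)

def t132 (b : Bx) : TM := tmul S (t1 b) (t131 b)
noncomputable def v132 (x1 x2 : ℝ) : ℝ := v1 x1 x2 * v131 x1 x2
theorem h132 (h : In b E x1 x2) : Enc S E (t132 b) (v132 x1 x2) := enc_mul hS (h1 h) (h131 h)

def t133 (b : Bx) : TM := tsub (t129 b) (t132 b)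
noncomputable def v133 (x1 x2 : ℝ) : ℝ := v129 x1 x2 - v132 x1 x2
theorem h133 (h : In b E x1 x2) : Enc S E (t133 b) (v133 x1 x2) := enc_sub (h129 h) (h132 h)

def t134 (b : Bx) : TM := tsub (t130 b) (t124 b)
noncomputable def v134 (x1 x2 : ℝ) : ℝ := v130 x1 x2 - v124 x1 x2
theorem h134 (h : In b E x1 x2) : Enc S E (t134 b) (v134 x1 x2) := enc_sub (h130 h) (h124 h)

def t135 (b : Bx) : TM := tmul S (t3 b) (t134 b)
noncomputable def v135 (x1 x2 : ℝ) : ℝ := v3 x1 x2 * v134 x1 x2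
theorem h135 (h : In b E x1 x2) : Enc S E (t135 b) (v135 x1 x2) := enc_mul hS (h3 h) (h134 h)

def t136 (b : Bx) : TM := tsub (t133 b) (t135 b)
noncomputable def v136 (x1 x2 : ℝ) : ℝ := v133 x1 x2 - v135 x1 x2
theorem h136 (h : In b E x1 x2) : Enc S E (t136 b) (v136 x1 x2) := enc_sub (h133 h) (h135 h)

def t137 (b : Bx) : TM := tmul S (t136 b) (t65 b)
noncomputable def v137 (x1 x2 : ℝ) : ℝ := v136 x1 x2 * v65 x1 x2
theorem h137 (h : In b E x1 x2) : Enc S E (t137 b) (v137 x1 x2) := enc_mul hS (h136 h) (h65 h)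

def t138 (b : Bx) : TM := tnat 2 (t2 b)
noncomputable def v138 (x1 x2 : ℝ) : ℝ := ((2 : ℕ) : ℝ) * v2 x1 x2
theorem h138 (h : In b E x1 x2) : Enc S E (t138 b) (v138 x1 x2) := enc_nat 2 (h2 h)

def t139 (b : Bx) : TM := tinv S (t138 b)
noncomputable def v139 (x1 x2 : ℝ) : ℝ := (v138 x1 x2)⁻¹
theorem h139 (h : In b E x1 x2) : Enc S E (t139 b) (v139 x1 x2) := enc_inv hS (h138 h)

def t140 (b : Bx) : TM := tmul S (t66 b) (t139 b)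
noncomputable def v140 (x1 x2 : ℝ) : ℝ := v66 x1 x2 * v139 x1 x2
theorem h140 (h : In b E x1 x2) : Enc S E (t140 b) (v140 x1 x2) := enc_mul hS (h66 h) (h139 h)

def t141 (b : Bx) : TM := tadd (t137 b) (t140 b)
noncomputable def v141 (x1 x2 : ℝ) : ℝ := v137 x1 x2 + v140 x1 x2
theorem h141 (h : In b E x1 x2) : Enc S E (t141 b) (v141 x1 x2) := enc_add (h137 h) (h140 h)

def t142 (b : Bx) : TM := tsub (t130 b) (t127 b)
noncomputable def v142 (x1 x2 : ℝ) : ℝ := v130 x1 x2 - v127 x1 x2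
theorem h142 (h : In b E x1 x2) : Enc S E (t142 b) (v142 x1 x2) := enc_sub (h130 h) (h127 h)

def t143 (b : Bx) : TM := tmul S (t1 b) (t142 b)
noncomputable def v143 (x1 x2 : ℝ) : ℝ := v1 x1 x2 * v142 x1 x2
theorem h143 (h : In b E x1 x2) : Enc S E (t143 b) (v143 x1 x2) := enc_mul hS (h1 h) (h142 h)

def t144 (b : Bx) : TM := tadd (t130 b) (t124 b)
noncomputable def v144 (x1 x2 : ℝ) : ℝ := v130 x1 x2 + v124 x1 x2
theorem h144 (h : In b E x1 x2) : Enc S E (t144 b) (v144 x1 x2) := enc_add (h130 h) (h124 h)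

def t145 (b : Bx) : TM := tmul S (t3 b) (t144 b)
noncomputable def v145 (x1 x2 : ℝ) : ℝ := v3 x1 x2 * v144 x1 x2
theorem h145 (h : In b E x1 x2) : Enc S E (t145 b) (v145 x1 x2) := enc_mul hS (h3 h) (h144 h)

def t146 (b : Bx) : TM := tadd (t143 b) (t145 b)
noncomputable def v146 (x1 x2 : ℝ) : ℝ := v143 x1 x2 + v145 x1 x2
theorem h146 (h : In b E x1 x2) : Enc S E (t146 b) (v146 x1 x2) := enc_add (h143 h) (h145 h)

def t147 (b : Bx) : TM := tsub (t146 b) (t129 b)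
noncomputable def v147 (x1 x2 : ℝ) : ℝ := v146 x1 x2 - v129 x1 x2
theorem h147 (h : In b E x1 x2) : Enc S E (t147 b) (v147 x1 x2) := enc_sub (h146 h) (h129 h)

def t148 (b : Bx) : TM := tmul S (t147 b) (t65 b)
noncomputable def v148 (x1 x2 : ℝ) : ℝ := v147 x1 x2 * v65 x1 x2
theorem h148 (h : In b E x1 x2) : Enc S E (t148 b) (v148 x1 x2) := enc_mul hS (h147 h) (h65 h)

def t149 (b : Bx) : TM := tadd (t148 b) (t140 b)
noncomputable def v149 (x1 x2 : ℝ) : ℝ := v148 x1 x2 + v140 x1 x2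
theorem h149 (h : In b E x1 x2) : Enc S E (t149 b) (v149 x1 x2) := enc_add (h148 h) (h140 h)

def t150 (b : Bx) : TM := tsub (t8 b) (t9 b)
noncomputable def v150 (x1 x2 : ℝ) : ℝ := v8 x1 x2 - v9 x1 x2
theorem h150 (h : In b E x1 x2) : Enc S E (t150 b) (v150 x1 x2) := enc_sub (h8 h) (h9 h)

def t151 (b : Bx) : TM := tmul S (t127 b) (t150 b)
noncomputable def v151 (x1 x2 : ℝ) : ℝ := v127 x1 x2 * v150 x1 x2
theorem h151 (h : In b E x1 x2) : Enc S E (t151 b) (v151 x1 x2) := enc_mul hS (h127 h) (h150 h)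

def t152 (b : Bx) : TM := tmul S (t0 b) (t1 b)
noncomputable def v152 (x1 x2 : ℝ) : ℝ := v0 x1 x2 * v1 x1 x2
theorem h152 (h : In b E x1 x2) : Enc S E (t152 b) (v152 x1 x2) := enc_mul hS (h0 h) (h1 h)

def t153 (b : Bx) : TM := tsub (t8 b) (t152 b)
noncomputable def v153 (x1 x2 : ℝ) : ℝ := v8 x1 x2 - v152 x1 x2
theorem h153 (h : In b E x1 x2) : Enc S E (t153 b) (v153 x1 x2) := enc_sub (h8 h) (h152 h)

def t154 (b : Bx) : TM := tmul S (t124 b) (t153 b)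
noncomputable def v154 (x1 x2 : ℝ) : ℝ := v124 x1 x2 * v153 x1 x2
theorem h154 (h : In b E x1 x2) : Enc S E (t154 b) (v154 x1 x2) := enc_mul hS (h124 h) (h153 h)

def t155 (b : Bx) : TM := tsub (t151 b) (t154 b)
noncomputable def v155 (x1 x2 : ℝ) : ℝ := v151 x1 x2 - v154 x1 x2
theorem h155 (h : In b E x1 x2) : Enc S E (t155 b) (v155 x1 x2) := enc_sub (h151 h) (h154 h)

def t156 (b : Bx) : TM := tsub (t1 b) (t3 b)
noncomputable def v156 (x1 x2 : ℝ) : ℝ := v1 x1 x2 - v3 x1 x2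
theorem h156 (h : In b E x1 x2) : Enc S E (t156 b) (v156 x1 x2) := enc_sub (h1 h) (h3 h)

def t157 (b : Bx) : TM := tsub (t8 b) (t0 b)
noncomputable def v157 (x1 x2 : ℝ) : ℝ := v8 x1 x2 - v0 x1 x2
theorem h157 (h : In b E x1 x2) : Enc S E (t157 b) (v157 x1 x2) := enc_sub (h8 h) (h0 h)

def t158 (b : Bx) : TM := tmul S (t156 b) (t157 b)
noncomputable def v158 (x1 x2 : ℝ) : ℝ := v156 x1 x2 * v157 x1 x2
theorem h158 (h : In b E x1 x2) : Enc S E (t158 b) (v158 x1 x2) := enc_mul hS (h156 h) (h157 h)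

def t159 (b : Bx) : TM := tadd (t124 b) (t127 b)
noncomputable def v159 (x1 x2 : ℝ) : ℝ := v124 x1 x2 + v127 x1 x2
theorem h159 (h : In b E x1 x2) : Enc S E (t159 b) (v159 x1 x2) := enc_add (h124 h) (h127 h)

def t160 (b : Bx) : TM := tsub (t159 b) (t130 b)
noncomputable def v160 (x1 x2 : ℝ) : ℝ := v159 x1 x2 - v130 x1 x2
theorem h160 (h : In b E x1 x2) : Enc S E (t160 b) (v160 x1 x2) := enc_sub (h159 h) (h130 h)

def t161 (b : Bx) : TM := tmul S (t158 b) (t160 b)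
noncomputable def v161 (x1 x2 : ℝ) : ℝ := v158 x1 x2 * v160 x1 x2
theorem h161 (h : In b E x1 x2) : Enc S E (t161 b) (v161 x1 x2) := enc_mul hS (h158 h) (h160 h)

def t162 (b : Bx) : TM := tadd (t155 b) (t161 b)
noncomputable def v162 (x1 x2 : ℝ) : ℝ := v155 x1 x2 + v161 x1 x2
theorem h162 (h : In b E x1 x2) : Enc S E (t162 b) (v162 x1 x2) := enc_add (h155 h) (h161 h)

def t163 (b : Bx) : TM := tmul S (t162 b) (t65 b)
noncomputable def v163 (x1 x2 : ℝ) : ℝ := v162 x1 x2 * v65 x1 x2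
theorem h163 (h : In b E x1 x2) : Enc S E (t163 b) (v163 x1 x2) := enc_mul hS (h162 h) (h65 h)

def t164 (b : Bx) : TM := tmul S (t0 b) (t140 b)
noncomputable def v164 (x1 x2 : ℝ) : ℝ := v0 x1 x2 * v140 x1 x2
theorem h164 (h : In b E x1 x2) : Enc S E (t164 b) (v164 x1 x2) := enc_mul hS (h0 h) (h140 h)

def t165 (b : Bx) : TM := tadd (t163 b) (t164 b)
noncomputable def v165 (x1 x2 : ℝ) : ℝ := v163 x1 x2 + v164 x1 x2
theorem h165 (h : In b E x1 x2) : Enc S E (t165 b) (v165 x1 x2) := enc_add (h163 h) (h164 h)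

def t166 (_b : Bx) : TM := tconst (Nat.mul 2 S) 0 0
noncomputable def v166 (_x1 _x2 : ℝ) : ℝ := ((2 : ℕ) : ℝ)
theorem h166 (_h : In b E x1 x2) : Enc S E (t166 b) (v166 x1 x2) := enc_nc E 2

def t167 (b : Bx) : TM := tadd (t166 b) (t7 b)
noncomputable def v167 (x1 x2 : ℝ) : ℝ := v166 x1 x2 + v7 x1 x2
theorem h167 (h : In b E x1 x2) : Enc S E (t167 b) (v167 x1 x2) := enc_add (h166 h) (h7 h)

def t168 (b : Bx) : TM := tscale 1 4 (t167 b)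
noncomputable def v168 (x1 x2 : ℝ) : ℝ := ((1 : ℕ) : ℝ) / ((4 : ℕ) : ℝ) * v167 x1 x2
theorem h168 (h : In b E x1 x2) : Enc S E (t168 b) (v168 x1 x2) := enc_scale 1 (by norm_num) (h167 h)

def t169 (b : Bx) : TM := tmul S (t66 b) (t168 b)
noncomputable def v169 (x1 x2 : ℝ) : ℝ := v66 x1 x2 * v168 x1 x2
theorem h169 (h : In b E x1 x2) : Enc S E (t169 b) (v169 x1 x2) := enc_mul hS (h66 h) (h168 h)

def t170 (b : Bx) : TM := tmul S (t0 b) (t141 b)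
noncomputable def v170 (x1 x2 : ℝ) : ℝ := v0 x1 x2 * v141 x1 x2
theorem h170 (h : In b E x1 x2) : Enc S E (t170 b) (v170 x1 x2) := enc_mul hS (h0 h) (h141 h)

def t171 (b : Bx) : TM := tphi S (t170 b) (t165 b)
noncomputable def v171 (x1 x2 : ℝ) : ℝ := Pool.Agent.Strip051.LC.Line.phi (v170 x1 x2) (v165 x1 x2)
theorem h171 (h : In b E x1 x2) : Enc S E (t171 b) (v171 x1 x2) := enc_phi hS (h170 h) (h165 h)

def t172 (b : Bx) : TM := tmul S (t1 b) (t171 b)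
noncomputable def v172 (x1 x2 : ℝ) : ℝ := v1 x1 x2 * v171 x1 x2
theorem h172 (h : In b E x1 x2) : Enc S E (t172 b) (v172 x1 x2) := enc_mul hS (h1 h) (h171 h)

def t173 (b : Bx) : TM := tmul S (t0 b) (t149 b)
noncomputable def v173 (x1 x2 : ℝ) : ℝ := v0 x1 x2 * v149 x1 x2
theorem h173 (h : In b E x1 x2) : Enc S E (t173 b) (v173 x1 x2) := enc_mul hS (h0 h) (h149 h)

def t174 (b : Bx) : TM := tphi S (t165 b) (t173 b)
noncomputable def v174 (x1 x2 : ℝ) : ℝ := Pool.Agent.Strip051.LC.Line.phi (v165 x1 x2) (v173 x1 x2)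
theorem h174 (h : In b E x1 x2) : Enc S E (t174 b) (v174 x1 x2) := enc_phi hS (h165 h) (h173 h)

def t175 (b : Bx) : TM := tmul S (t3 b) (t174 b)
noncomputable def v175 (x1 x2 : ℝ) : ℝ := v3 x1 x2 * v174 x1 x2
theorem h175 (h : In b E x1 x2) : Enc S E (t175 b) (v175 x1 x2) := enc_mul hS (h3 h) (h174 h)

def t176 (b : Bx) : TM := tadd (t172 b) (t175 b)
noncomputable def v176 (x1 x2 : ℝ) : ℝ := v172 x1 x2 + v175 x1 x2
theorem h176 (h : In b E x1 x2) : Enc S E (t176 b) (v176 x1 x2) := enc_add (h172 h) (h175 h)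

def t177 (b : Bx) : TM := tphi S (t149 b) (t141 b)
noncomputable def v177 (x1 x2 : ℝ) : ℝ := Pool.Agent.Strip051.LC.Line.phi (v149 x1 x2) (v141 x1 x2)
theorem h177 (h : In b E x1 x2) : Enc S E (t177 b) (v177 x1 x2) := enc_phi hS (h149 h) (h141 h)

def t178 (b : Bx) : TM := tmul S (t157 b) (t177 b)
noncomputable def v178 (x1 x2 : ℝ) : ℝ := v157 x1 x2 * v177 x1 x2
theorem h178 (h : In b E x1 x2) : Enc S E (t178 b) (v178 x1 x2) := enc_mul hS (h157 h) (h177 h)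

def t179 (b : Bx) : TM := tadd (t176 b) (t178 b)
noncomputable def v179 (x1 x2 : ℝ) : ℝ := v176 x1 x2 + v178 x1 x2
theorem h179 (h : In b E x1 x2) : Enc S E (t179 b) (v179 x1 x2) := enc_add (h176 h) (h178 h)

def t180 (b : Bx) : TM := tmul S (t2 b) (t179 b)
noncomputable def v180 (x1 x2 : ℝ) : ℝ := v2 x1 x2 * v179 x1 x2
theorem h180 (h : In b E x1 x2) : Enc S E (t180 b) (v180 x1 x2) := enc_mul hS (h2 h) (h179 h)

def t181 (b : Bx) : TM := tsub (t169 b) (t180 b)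
noncomputable def v181 (x1 x2 : ℝ) : ℝ := v169 x1 x2 - v180 x1 x2
theorem h181 (h : In b E x1 x2) : Enc S E (t181 b) (v181 x1 x2) := enc_sub (h169 h) (h180 h)

def t182 (b : Bx) : TM := tneg (t115 b)
noncomputable def v182 (x1 x2 : ℝ) : ℝ := -(v115 x1 x2)
theorem h182 (h : In b E x1 x2) : Enc S E (t182 b) (v182 x1 x2) := enc_neg (h115 h)

def t183 (b : Bx) : TM := tsub (t78 b) (t68 b)
noncomputable def v183 (x1 x2 : ℝ) : ℝ := v78 x1 x2 - v68 x1 x2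
theorem h183 (h : In b E x1 x2) : Enc S E (t183 b) (v183 x1 x2) := enc_sub (h78 h) (h68 h)

def t184 (_b : Bx) : TM := tconst (Nat.mul 3 S) 0 0
noncomputable def v184 (_x1 _x2 : ℝ) : ℝ := ((3 : ℕ) : ℝ)
theorem h184 (_h : In b E x1 x2) : Enc S E (t184 b) (v184 x1 x2) := enc_nc E 3

def t185 (b : Bx) : TM := tsub (t184 b) (t69 b)
noncomputable def v185 (x1 x2 : ℝ) : ℝ := v184 x1 x2 - v69 x1 x2
theorem h185 (h : In b E x1 x2) : Enc S E (t185 b) (v185 x1 x2) := enc_sub (h184 h) (h69 h)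

def t186 (b : Bx) : TM := tsqrt S (t185 b)
noncomputable def v186 (x1 x2 : ℝ) : ℝ := Real.sqrt (v185 x1 x2)
theorem h186 (h : In b E x1 x2) : Enc S E (t186 b) (v186 x1 x2) := enc_sqrt hS (h185 h)

def t187 (b : Bx) : TM := tadd (t76 b) (t186 b)
noncomputable def v187 (x1 x2 : ℝ) : ℝ := v76 x1 x2 + v186 x1 x2
theorem h187 (h : In b E x1 x2) : Enc S E (t187 b) (v187 x1 x2) := enc_add (h76 h) (h186 h)

def t188 (b : Bx) : TM := tscale 1 2 (t187 b)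
noncomputable def v188 (x1 x2 : ℝ) : ℝ := ((1 : ℕ) : ℝ) / ((2 : ℕ) : ℝ) * v187 x1 x2
theorem h188 (h : In b E x1 x2) : Enc S E (t188 b) (v188 x1 x2) := enc_scale 1 (by norm_num) (h187 h)

def t189 (b : Bx) : TM := tsub (t68 b) (t188 b)
noncomputable def v189 (x1 x2 : ℝ) : ℝ := v68 x1 x2 - v188 x1 x2
theorem h189 (h : In b E x1 x2) : Enc S E (t189 b) (v189 x1 x2) := enc_sub (h68 h) (h188 h)

def t190 (b : Bx) : TM := tsub (t188 b) (t68 b)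
noncomputable def v190 (x1 x2 : ℝ) : ℝ := v188 x1 x2 - v68 x1 x2
theorem h190 (h : In b E x1 x2) : Enc S E (t190 b) (v190 x1 x2) := enc_sub (h188 h) (h68 h)

def t191 (b : Bx) : TM := tsub (t68 b) (t186 b)
noncomputable def v191 (x1 x2 : ℝ) : ℝ := v68 x1 x2 - v186 x1 x2
theorem h191 (h : In b E x1 x2) : Enc S E (t191 b) (v191 x1 x2) := enc_sub (h68 h) (h186 h)

def g0 (b : Bx) : Bool := pos (t68 b)

def Q0 (x1 x2 : ℝ) : Prop := 0 < v68 x1 x2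

theorem g0_sound (h : In b E x1 x2) (e : g0 b = true) : Q0 x1 x2 :=
  pos_sound hS (h68 h) e

def g1 (b : Bx) : Bool := or (pos (t182 b)) (pos (t181 b))

def Q1 (x1 x2 : ℝ) : Prop := 0 < v182 x1 x2 ∨ 0 < v181 x1 x2

theorem g1_sound (h : In b E x1 x2) (e : g1 b = true) : Q1 x1 x2 :=
  ((Bool.or_eq_true_iff.mp e).imp (fun a => pos_sound hS (h182 h) a) (fun a => pos_sound hS (h181 h) a))

def g2 (b : Bx) : Bool := or (pos (t183 b)) (pos (t189 b))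

def Q2 (x1 x2 : ℝ) : Prop := 0 < v183 x1 x2 ∨ 0 < v189 x1 x2

theorem g2_sound (h : In b E x1 x2) (e : g2 b = true) : Q2 x1 x2 :=
  ((Bool.or_eq_true_iff.mp e).imp (fun a => pos_sound hS (h183 h) a) (fun a => pos_sound hS (h189 h) a))

def g3 (b : Bx) : Bool := or (pos (t190 b)) (pos (t191 b))

def Q3 (x1 x2 : ℝ) : Prop := 0 < v190 x1 x2 ∨ 0 < v191 x1 x2

theorem g3_sound (h : In b E x1 x2) (e : g3 b = true) : Q3 x1 x2 :=
  ((Bool.or_eq_true_iff.mp e).imp (fun a => pos_sound hS (h190 h) a) (fun a => pos_sound hS (h191 h) a))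

def f (b : Bx) : Nat := cond (g0 b) (cond (g1 b) (cond (g2 b) (cond (g3 b) (0) (pickb 1 (t190 b) b)) (pickb 1 (t183 b) b)) (pickb 1 (t181 b) b)) (pickb 1 (t68 b) b)

/-- the statement -/
def Q (x1 x2 : ℝ) : Prop := Q0 x1 x2 ∧ Q1 x1 x2 ∧ Q2 x1 x2 ∧ Q3 x1 x2

theorem f_sound (b : Bx) (hb : f b = 0) (x1 x2 : ℝ) (hm : Mem S b x1 x2) : Q x1 x2 := by
  obtain ⟨E, h⟩ := pt_of_mem hm
  have h : In b E x1 x2 := h
  unfold f at hb
  have e0 : g0 b = true := by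
    rcases e : g0 b with _ | _
    · rw [e, cond_false] at hb; exact absurd hb (pickb_ne _ _ _)
    · rfl
  rw [e0, cond_true] at hb
  have e1 : g1 b = true := by
    rcases e : g1 b with _ | _
    · rw [e, cond_false] at hb; exact absurd hb (pickb_ne _ _ _)
    · rfl
  rw [e1, cond_true] at hb
  have e2 : g2 b = true := by
    rcases e : g2 b with _ | _
    · rw [e, cond_false] at hb; exact absurd hb (pickb_ne _ _ _)
    · rfl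
  rw [e2, cond_true] at hb
  have e3 : g3 b = true := by
    rcases e : g3 b with _ | _
    · rw [e, cond_false] at hb; exact absurd hb (pickb_ne _ _ _)
    · rfl
  rw [e3, cond_true] at hb
  exact ⟨g0_sound h e0, g1_sound h e1, g2_sound h e2, g3_sound h e3⟩

/-- the box -/
def b0 : Bx := ⟨53687091, 0, 53687093, 536870912, 0, 536870913⟩

theorem chk_all {n : ℕ} {b : Bx} (h : chk f n b = true) (x1 x2 : ℝ) (hm : Mem S b x1 x2) : Q x1 x2 :=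
  chk_sound (fun b hb x1 x2 hm => f_sound b hb x1 x2 hm) n b h x1 x2 hm

theorem c0 : chk f 60 b0 = true := by decide +kernel

theorem mem0 {x1 x2 : ℝ} (h0 : 0 ≤ x1) (h1 : x1 ≤ 1 / 10) (h2 : 0 ≤ x2) (h3 : x2 ≤ 1) :
    Mem S b0 x1 x2 := by
  refine ⟨?_, ?_⟩ <;> rw [abs_le] <;> constructor <;> norm_num [S, b0] <;> linarith

end Pool.Agent.Strip051.LC.Line.Corn.A00pm011

namespace Pool.Agent.Strip051.LC.Line.Corn.A00pm011

theorem box {ρ a : ℝ} (h0 : 0 ≤ ρ) (h1 : ρ ≤ 1 / 10) (h2 : 0 ≤ a) (h3 : a ≤ 1) :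
    (0 < ((((1 : ℕ) : ℝ) / ((2 : ℕ) : ℝ)) + (ρ * (((((1 : ℕ) : ℝ) - a) * (x1_0 (ρ * (((1 : ℕ) : ℝ) - a)))) + (-((-((1 : ℕ) : ℝ)) * (x1_1 (ρ * (-((1 : ℕ) : ℝ)))))))))) ∧
    (0 < (-((((((1 : ℕ) : ℝ) - a) * (x1_0 (ρ * (((1 : ℕ) : ℝ) - a)))) + (-((-((1 : ℕ) : ℝ)) * (x1_1 (ρ * (-((1 : ℕ) : ℝ))))))) - ((-a) * (x1_1 (ρ * (-a)))))) ∨ 0 < (coneQ ((1 : ℕ) : ℝ) ρ a (((1 : ℕ) : ℝ) - a) ((((1 : ℕ) : ℝ) / ((2 : ℕ) : ℝ)) + (ρ * (((-a) * (r1_1 (ρ * (-a)))) + ((g0_1 (ρ * (-a))) * ((((((1 : ℕ) : ℝ) - a) * (x1_0 (ρ * (((1 : ℕ) : ℝ) - a)))) + (-((-((1 : ℕ) : ℝ)) * (x1_1 (ρ * (-((1 : ℕ) : ℝ))))))) - ((-a) * (x1_1 (ρ * (-a))))))))) (-(((1 : ℕ) : ℝ) + (ρ * ((((1 : ℕ) : ℝ) - a) * (r1_0 (ρ * (((1 : ℕ) : ℝ) - a))))))) (((((-a) * (r1_1 (ρ * (-a)))) + ((g0_1 (ρ * (-a))) * ((((((1 : ℕ) : ℝ) - a) * (x1_0 (ρ * (((1 : ℕ) : ℝ) - a)))) + (-((-((1 : ℕ) : ℝ)) * (x1_1 (ρ * (-((1 : ℕ)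 : ℝ))))))) - ((-a) * (x1_1 (ρ * (-a))))))) - ((((1 : ℕ) : ℝ) - a) * (r1_0 (ρ * (((1 : ℕ) : ℝ) - a))))) - (-((-((1 : ℕ) : ℝ)) * (r1_1 (ρ * (-((1 : ℕ) : ℝ))))))) ((((((((1 : ℕ) : ℝ) - a) * (x1_0 (ρ * (((1 : ℕ) : ℝ) - a)))) * (gh + (ρ * (-a)))) + (((1 : ℕ) : ℝ) * (-a))) - (((((((1 : ℕ) : ℝ) - a) * (x1_0 (ρ * (((1 : ℕ) : ℝ) - a)))) + (-((-((1 : ℕ) : ℝ)) * (x1_1 (ρ * (-((1 : ℕ) : ℝ))))))) * (ρ * (((1 : ℕ) : ℝ) - a))) + (((1 : ℕ) : ℝ) / ((2 : ℕ) : ℝ) * (((1 : ℕ) : ℝ) - a)))) * ((Real.sqrt ((3 : ℕ) : ℝ))⁻¹)))) ∧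
    (0 < ((kf1m (gh + (ρ * (-a)))) - ((((1 : ℕ) : ℝ) / ((2 : ℕ) : ℝ)) + (ρ * (((((1 : ℕ) : ℝ) - a) * (x1_0 (ρ * (((1 : ℕ) : ℝ) - a)))) + (-((-((1 : ℕ) : ℝ)) * (x1_1 (ρ * (-((1 : ℕ) : ℝ)))))))))) ∨ 0 < (((((1 : ℕ) : ℝ) / ((2 : ℕ) : ℝ)) + (ρ * (((((1 : ℕ) : ℝ) - a) * (x1_0 (ρ * (((1 : ℕ) : ℝ) - a)))) + (-((-((1 : ℕ) : ℝ)) * (x1_1 (ρ * (-((1 : ℕ) : ℝ))))))))) - (kf2m (gh + (ρ * (-a)))))) ∧
    (0 < ((kf2m (gh + (ρ * (-a)))) - ((((1 : ℕ) : ℝ) / ((2 : ℕ) : ℝ)) + (ρ * (((((1 : ℕ) : ℝ) - a) * (x1_0 (ρ * (((1 : ℕ) : ℝ) - a)))) + (-((-((1 : ℕ) : ℝ)) * (x1_1 (ρ * (-((1 : ℕ) : ℝ)))))))))) ∨ 0 < (((((1 : ℕ) : ℝ) / ((2 : ℕ) : ℝ)) + (ρ * (((((1 : ℕ) : ℝ) - a) * (x1_0 (ρ * (((1 : ℕ) : ℝ) - a)))) + (-((-((1 : ℕ) : ℝ)) * (x1_1 (ρ * (-((1 : ℕ) : ℝ))))))))) - (kc3 (gh + (ρ * (-a)))))) :=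
  chk_all c0 ρ a (mem0 h0 h1 h2 h3)

end Pool.Agent.Strip051.LC.Line.Corn.A00pm011

namespace Pool.Agent.Strip051.LC.Line.Corn

open Pool.Agent.StripNear Pool.Agent.StripSquare Pool.Agent.Strip051.Sweep
  Pool.Agent.Strip051.LC

/-- **The chart.** -/
theorem main_A00pm011 {v : ℝ → Fin 5 → ℝ} (hv : CT v) {ρ a t t' : ℝ} (hρ : 0 < ρ) (hρ1 : ρ ≤ 1 / 10)
    (ha : 0 ≤ a) (ha1 : a ≤ 1) (ht : t = ρ * (1 - a)) (ht' : t' = h0 - ρ)
    (hs1 : t' < h0)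
    (hs2 : (t + t') < h0)
    {i : Fin 3} {ε : ℝ} (hε : ε = 1 ∨ ε = -1)
    (H : HypA 0 0 1 (-1) ε i t t') :
    NFV 1 (1 * cv 0 t) (1 * cv 0 t + (-1) * cv 0 t') t t' (valA 0 0 1 (-1) ε i t t' v) := by
  have hp := h0_gt
  have hl := h0_lt
  obtain ⟨b0, b1, b2, b3⟩ := A00pm011.box hρ.le hρ1 ha ha1
  obtain ⟨-, -, -, -, -, h1, h3, hlo, hhi⟩ := H
  have ea : 0 ≤ ρ * a := mul_nonneg hρ.le ha
  have eb : 0 ≤ ρ * (1 - a) := mul_nonneg hρ.le (by linarith)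
  have e0 : t = (ρ * (((1 : ℕ) : ℝ) - a)) := by
    rw [ht]
    try push_cast
    try ring
  have e1 : t' = h0 + (ρ * (-((1 : ℕ) : ℝ))) := by
    rw [ht']
    try push_cast
    try ring
  have e2 : (t + t') = h0 + (ρ * (-a)) := by
    rw [ht, ht']
    try push_cast
    try ring
  have z0 : (ρ * (((1 : ℕ) : ℝ) - a)) = t := by
    linarith [e0]
  have z1 : (ρ * (-((1 : ℕ) : ℝ))) = t' - h0 := by
    linarith [e1]
  have z2 : (ρ * (-a)) = (t + t') - h0 := by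
    linarith [e2]
  have za : ρ * a ≤ 1 / 10 := by nlinarith
  have zb : ρ * (1 - a) ≤ 1 / 10 := by nlinarith
  have g0 : cv 0 t = 1 + ρ * ((((1 : ℕ) : ℝ) - a) * x1_0 (ρ * (((1 : ℕ) : ℝ) - a))) := by
    change c1 t = _
    rw [e0, germ_x1_0 (s := (ρ * (((1 : ℕ) : ℝ) - a))) (by rw [z0]; linarith) (by rw [z0]; linarith)]
    ring
  have r0 : v t (tg 0) = 1 + ρ * ((((1 : ℕ) : ℝ) - a) * r1_0 (ρ * (((1 : ℕ) : ℝ) - a))) := by
    change v t 0 = _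
    rw [e0, germ_r1_0 (s := (ρ * (((1 : ℕ) : ℝ) - a))) (by rw [z0]; linarith) (by rw [z0]; linarith) hv]
    ring
  have g1 : cv 0 t' = 1 / 2 + ρ * ((-((1 : ℕ) : ℝ)) * x1_1 (ρ * (-((1 : ℕ) : ℝ)))) := by
    change c1 t' = _
    rw [e1, germ_x1_1 (s := (ρ * (-((1 : ℕ) : ℝ)))) (by rw [z1]; linarith) (by rw [z1]; linarith)]
    ring
  have r1 : v t' (tg 0) = 1 / 2 + ρ * ((-((1 : ℕ) : ℝ)) * r1_1 (ρ * (-((1 : ℕ) : ℝ)))) := by
    change v t' 0 = _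
    rw [e1, germ_r1_1 (s := (ρ * (-((1 : ℕ) : ℝ)))) (by rw [z1]; linarith) (by rw [z1]; linarith) hv]
    ring
  have hX : 1 * (1 * cv 0 t + (-1) * cv 0 t') = 1 / 2 + ρ * (((((1 : ℕ) : ℝ) - a) * (x1_0 (ρ * (((1 : ℕ) : ℝ) - a)))) + (-((-((1 : ℕ) : ℝ)) * (x1_1 (ρ * (-((1 : ℕ) : ℝ))))))) := by
    rw [g0, g1]
    push_cast
    ring
  have he : exc (1 * cv 0 t) (1 * cv 0 t + (-1) * cv 0 t') t t' = ρ * ((((((((1 : ℕ) : ℝ) - a) * (x1_0 (ρ * (((1 : ℕ) : ℝ) - a)))) * (gh + (ρ * (-a)))) + (((1 : ℕ) : ℝ) * (-a))) - (((((((1 : ℕ) : ℝ) - a) * (x1_0 (ρ * (((1 : ℕ) : ℝ) - a)))) + (-((-((1 : ℕ) : ℝ)) * (x1_1 (ρ * (-((1 : ℕ) : ℝ))))))) * (ρ * (((1 : ℕ) : ℝ) - a))) + (((1 : ℕ) : ℝ) / ((2 : ℕ) : ℝ) * (((1 : ℕ) : ℝ) - a)))) * ((Real.sqrt ((3 : ℕ) : ℝ))⁻¹)) := by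
    have hh : h0 ≠ 0 := by linarith
    unfold exc
    rw [g0, g1, e2, e0, r3_eq, gh_eq]
    push_cast
    field_simp
    try ring
  have hc : ∀ m : Fin 4, 0 ≤ cv m (t + t') := fun m => cv_nonneg m (by linarith) (by nlinarith [h0_sq'])
  rcases hε with rfl | rfl
  · rw [hX] at hlo hhi
    fin_cases i
    · have hlo' : c1 (t + t') ≤ 1 / 2 + ρ * (((((1 : ℕ) : ℝ) - a) * (x1_0 (ρ * (((1 : ℕ) : ℝ) - a)))) + (-((-((1 : ℕ) : ℝ)) * (x1_1 (ρ * (-((1 : ℕ) : ℝ))))))) := hlo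
      have hhi' : 1 / 2 + ρ * (((((1 : ℕ) : ℝ) - a) * (x1_0 (ρ * (((1 : ℕ) : ℝ) - a)))) + (-((-((1 : ℕ) : ℝ)) * (x1_1 (ρ * (-((1 : ℕ) : ℝ))))))) ≤ f1 (t + t') := hhi
      have gxlo : c1 (t + t') = 1 / 2 + ρ * ((-a) * x1_1 (ρ * (-a))) := by
        rw [e2, germ_x1_1 (s := (ρ * (-a))) (by rw [z2]; linarith) (by rw [z2]; linarith)]
        ring
      have gr : v (t + t') 0 = 1 / 2 + ρ * ((-a) * r1_1 (ρ * (-a))) := by
        rw [e2, germ_r1_1 (s := (ρ * (-a))) (by rw [z2]; linarith) (by rw [z2]; linarith) hv]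
        ring
      have gG : v (t + t') 1 - v (t + t') 0 = g0_1 (ρ * (-a)) * (f1 (t + t') - c1 (t + t')) := by
        rw [e2]
        exact germ_g0_1 (s := (ρ * (-a))) (by rw [z2]; linarith) (by rw [z2]; linarith) hv
      have hseg := seg_lo (v := v) (i := 0) (T := (t + t')) (G := g0_1 (ρ * (-a))) gxlo gr rfl gG hlo' hhi'
      rcases b1 with hb | hb
      · exfalso
        rw [gxlo] at hlo'
        have h7 := mul_pos hρ hb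
        push_cast at h7 hlo'
        nlinarith
      · refine cell_011 one_pos hρ hρ1 ha ha1 he (d := (((((-a) * (r1_1 (ρ * (-a)))) + ((g0_1 (ρ * (-a))) * ((((((1 : ℕ) : ℝ) - a) * (x1_0 (ρ * (((1 : ℕ) : ℝ) - a)))) + (-((-((1 : ℕ) : ℝ)) * (x1_1 (ρ * (-((1 : ℕ) : ℝ))))))) - ((-a) * (x1_1 (ρ * (-a))))))) - ((((1 : ℕ) : ℝ) - a) * (r1_0 (ρ * (((1 : ℕ) : ℝ) - a))))) - (-((-((1 : ℕ) : ℝ)) * (r1_1 (ρ * (-((1 : ℕ) : ℝ)))))))) ?_ ht ht' (A1 := ((((1 : ℕ) : ℝ) / ((2 : ℕ) : ℝ)) + (ρ * (((-a) * (r1_1 (ρ * (-a)))) + ((g0_1 (ρ * (-a))) * ((((((1 : ℕ) : ℝ) - a) * (x1_0 (ρ * (((1 : ℕ) : ℝ) - a)))) + (-((-((1 : ℕ) : ℝ)) * (x1_1 (ρ * (-((1 : ℕ) : ℝ))))))) - ((-a) * (x1_1 (ρ * (-a)))))))))) (A2 := (-(((1 : ℕ) : ℝ) + (ρ * ((((1 : ℕ) : ℝ) - a) * (r1_0 (ρ * (((1 : ℕ) : ℝ) - a)))))))) ?_ ?_ ?_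
        · change 1 * segW v 0 (1 * (1 * cv 0 t + (-1) * cv 0 t')) (t + t') - 1 * v t (tg 0) - (-1) * v t' (tg 0) = _
          rw [hX, hseg, r0, r1]
          push_cast
          ring
        · change ((((1 : ℕ) : ℝ) / ((2 : ℕ) : ℝ)) + (ρ * (((-a) * (r1_1 (ρ * (-a)))) + ((g0_1 (ρ * (-a))) * ((((((1 : ℕ) : ℝ) - a) * (x1_0 (ρ * (((1 : ℕ) : ℝ) - a)))) + (-((-((1 : ℕ) : ℝ)) * (x1_1 (ρ * (-((1 : ℕ) : ℝ))))))) - ((-a) * (x1_1 (ρ * (-a))))))))) = 1 * segW v 0 (1 * (1 * cv 0 t + (-1) * cv 0 t')) (t + t')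
          rw [hX, hseg]
          push_cast
          ring
        · change (-(((1 : ℕ) : ℝ) + (ρ * ((((1 : ℕ) : ℝ) - a) * (r1_0 (ρ * (((1 : ℕ) : ℝ) - a))))))) = -(1 * v t (tg 0))
          rw [r0]
          push_cast
          ring
        · have h8 := hb.le
          push_cast at h8 ⊢
          exact h8
    · exfalso
      have hlo' : f1 (t + t') ≤ 1 / 2 + ρ * (((((1 : ℕ) : ℝ) - a) * (x1_0 (ρ * (((1 : ℕ) : ℝ) - a)))) + (-((-((1 : ℕ) : ℝ)) * (x1_1 (ρ * (-((1 : ℕ) : ℝ))))))) := hlo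
      have hhi' : 1 / 2 + ρ * (((((1 : ℕ) : ℝ) - a) * (x1_0 (ρ * (((1 : ℕ) : ℝ) - a)))) + (-((-((1 : ℕ) : ℝ)) * (x1_1 (ρ * (-((1 : ℕ) : ℝ))))))) ≤ f2 (t + t') := hhi
      rw [e2] at hlo' hhi'
      rw [← kf1m_eq (T := h0 + (ρ * (-a))) (by linarith)] at hlo'
      rw [← kf2m_eq (T := h0 + (ρ * (-a))) (by linarith)] at hhi'
      have hb := b2
      rw [gh_eq] at hb
      push_cast at hb hlo' hhi'
      rcases hb with hb | hb <;> linarith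
    · exfalso
      have hlo' : f2 (t + t') ≤ 1 / 2 + ρ * (((((1 : ℕ) : ℝ) - a) * (x1_0 (ρ * (((1 : ℕ) : ℝ) - a)))) + (-((-((1 : ℕ) : ℝ)) * (x1_1 (ρ * (-((1 : ℕ) : ℝ))))))) := hlo
      have hhi' : 1 / 2 + ρ * (((((1 : ℕ) : ℝ) - a) * (x1_0 (ρ * (((1 : ℕ) : ℝ) - a)))) + (-((-((1 : ℕ) : ℝ)) * (x1_1 (ρ * (-((1 : ℕ) : ℝ))))))) ≤ c3 (t + t') := hhi
      rw [e2] at hlo' hhi'
      rw [← kf2m_eq (T := h0 + (ρ * (-a))) (by linarith)] at hlo'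
      rw [← kc3_eq (h0 + (ρ * (-a)))] at hhi'
      have hb := b3
      rw [gh_eq] at hb
      push_cast at hb hlo' hhi'
      rcases hb with hb | hb <;> linarith
  · exfalso
    have h5 := hc i.castSucc
    have h6 : 0 < 1 / 2 + ρ * (((((1 : ℕ) : ℝ) - a) * (x1_0 (ρ * (((1 : ℕ) : ℝ) - a)))) + (-((-((1 : ℕ) : ℝ)) * (x1_1 (ρ * (-((1 : ℕ) : ℝ))))))) := by
      have := b0
      push_cast at this ⊢
      linarith
    linarith

end Pool.Agent.Strip051.LC.Line.Corn
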