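import Pool.Agent.Strip051.Box.C2
import Pool.Agent.Strip051.LC.Line.Corn.Cell

/-! # Corner chart B11pm202 (generated) -/

namespace Pool.Agent.Strip051.LC.Line.Corn.B11pm202

open Pool.Agent.Strip051.Box Pool.Agent.Strip051.Box2

abbrev S : Nat := 1073741824

theorem hS : 0 < S := by decide

/-- coordinates of a point of the box -/
def In (b : Bx) (E : Pt) (x1 x2 : ℝ) : Prop :=
  (S : ℝ) * x1 = ((b.p1 : ℝ) - b.n1) + b.q1 * E.e1 ∧ (S : ℝ) * x2 = ((b.p2 : ℝ) - b.n2) + b.q2 * E.e2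

variable {b : Bx} {E : Pt} {x1 x2 : ℝ}

def t0 (b : Bx) : TM := X1 b
noncomputable def v0 (x1 _x2 : ℝ) : ℝ := x1
theorem h0 (h : In b E x1 x2) : Enc S E (t0 b) (v0 x1 x2) := enc_X1 h.1

def t1 (b : Bx) : TM := X2 b
noncomputable def v1 (_x1 x2 : ℝ) : ℝ := x2
theorem h1 (h : In b E x1 x2) : Enc S E (t1 b) (v1 x1 x2) := enc_X2 h.2

def t2 (_b : Bx) : TM := tconst (Nat.mul 1 S) 0 0
noncomputable def v2 (_x1 _x2 : ℝ) : ℝ := ((1 : ℕ) : ℝ)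
theorem h2 (_h : In b E x1 x2) : Enc S E (t2 b) (v2 x1 x2) := enc_nc E 1

def t3 (b : Bx) : TM := tsub (t2 b) (t1 b)
noncomputable def v3 (x1 x2 : ℝ) : ℝ := v2 x1 x2 - v1 x1 x2
theorem h3 (h : In b E x1 x2) : Enc S E (t3 b) (v3 x1 x2) := enc_sub (h2 h) (h1 h)

def t6 (b : Bx) : TM := tneg (t2 b)
noncomputable def v6 (x1 x2 : ℝ) : ℝ := -(v2 x1 x2)
theorem h6 (h : In b E x1 x2) : Enc S E (t6 b) (v6 x1 x2) := enc_neg (h2 h)

def t7 (_b : Bx) : TM := tconst 1859775393 0 1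
noncomputable def v7 (_x1 _x2 : ℝ) : ℝ := Real.sqrt ((3 : ℕ) : ℝ)
theorem h7 (_h : In b E x1 x2) : Enc S E (t7 b) (v7 x1 x2) := enc_sqrtn E (by decide) (by decide)

def t8 (b : Bx) : TM := tscale 1 2 (t7 b)
noncomputable def v8 (x1 x2 : ℝ) : ℝ := ((1 : ℕ) : ℝ) / ((2 : ℕ) : ℝ) * v7 x1 x2
theorem h8 (h : In b E x1 x2) : Enc S E (t8 b) (v8 x1 x2) := enc_scale 1 (by norm_num) (h7 h)

def t9 (b : Bx) : TM := tmul S (t0 b) (t1 b)
noncomputable def v9 (x1 x2 : ℝ) : ℝ := v0 x1 x2 * v1 x1 x2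
theorem h9 (h : In b E x1 x2) : Enc S E (t9 b) (v9 x1 x2) := enc_mul hS (h0 h) (h1 h)

def t10 (b : Bx) : TM := tmul S (t0 b) (t3 b)
noncomputable def v10 (x1 x2 : ℝ) : ℝ := v0 x1 x2 * v3 x1 x2
theorem h10 (h : In b E x1 x2) : Enc S E (t10 b) (v10 x1 x2) := enc_mul hS (h0 h) (h3 h)

def t11 (b : Bx) : TM := tmul S (t0 b) (t2 b)
noncomputable def v11 (x1 x2 : ℝ) : ℝ := v0 x1 x2 * v2 x1 x2
theorem h11 (h : In b E x1 x2) : Enc S E (t11 b) (v11 x1 x2) := enc_mul hS (h0 h) (h2 h)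

def t12 (b : Bx) : TM := tadd (t7 b) (t9 b)
noncomputable def v12 (x1 x2 : ℝ) : ℝ := v7 x1 x2 + v9 x1 x2
theorem h12 (h : In b E x1 x2) : Enc S E (t12 b) (v12 x1 x2) := enc_add (h7 h) (h9 h)

def t13 (b : Bx) : TM := tadd (t8 b) (t9 b)
noncomputable def v13 (x1 x2 : ℝ) : ℝ := v8 x1 x2 + v9 x1 x2
theorem h13 (h : In b E x1 x2) : Enc S E (t13 b) (v13 x1 x2) := enc_add (h8 h) (h9 h)

def t14 (b : Bx) : TM := tsq S (t13 b)
noncomputable def v14 (x1 x2 : ℝ) : ℝ := (v13 x1 x2) ^ 2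
theorem h14 (h : In b E x1 x2) : Enc S E (t14 b) (v14 x1 x2) := enc_sq hS (h13 h)

def t15 (b : Bx) : TM := tsub (t2 b) (t14 b)
noncomputable def v15 (x1 x2 : ℝ) : ℝ := v2 x1 x2 - v14 x1 x2
theorem h15 (h : In b E x1 x2) : Enc S E (t15 b) (v15 x1 x2) := enc_sub (h2 h) (h14 h)

def t16 (b : Bx) : TM := tsqrt S (t15 b)
noncomputable def v16 (x1 x2 : ℝ) : ℝ := Real.sqrt (v15 x1 x2)
theorem h16 (h : In b E x1 x2) : Enc S E (t16 b) (v16 x1 x2) := enc_sqrt hS (h15 h)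

def t17 (_b : Bx) : TM := tconst (Nat.div (Nat.mul 1 S) 2) 0 1
noncomputable def v17 (_x1 _x2 : ℝ) : ℝ := ((1 : ℕ) : ℝ) / ((2 : ℕ) : ℝ)
theorem h17 (_h : In b E x1 x2) : Enc S E (t17 b) (v17 x1 x2) := enc_rat E 1 (by norm_num)

def t18 (b : Bx) : TM := tadd (t16 b) (t17 b)
noncomputable def v18 (x1 x2 : ℝ) : ℝ := v16 x1 x2 + v17 x1 x2
theorem h18 (h : In b E x1 x2) : Enc S E (t18 b) (v18 x1 x2) := enc_add (h16 h) (h17 h)

def t19 (b : Bx) : TM := tinv S (t18 b)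
noncomputable def v19 (x1 x2 : ℝ) : ℝ := (v18 x1 x2)⁻¹
theorem h19 (h : In b E x1 x2) : Enc S E (t19 b) (v19 x1 x2) := enc_inv hS (h18 h)

def t20 (b : Bx) : TM := tmul S (t12 b) (t19 b)
noncomputable def v20 (x1 x2 : ℝ) : ℝ := v12 x1 x2 * v19 x1 x2
theorem h20 (h : In b E x1 x2) : Enc S E (t20 b) (v20 x1 x2) := enc_mul hS (h12 h) (h19 h)

def t21 (b : Bx) : TM := tsq S (t9 b)
noncomputable def v21 (x1 x2 : ℝ) : ℝ := (v9 x1 x2) ^ 2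
theorem h21 (h : In b E x1 x2) : Enc S E (t21 b) (v21 x1 x2) := enc_sq hS (h9 h)

def t22 (b : Bx) : TM := tsub (t2 b) (t21 b)
noncomputable def v22 (x1 x2 : ℝ) : ℝ := v2 x1 x2 - v21 x1 x2
theorem h22 (h : In b E x1 x2) : Enc S E (t22 b) (v22 x1 x2) := enc_sub (h2 h) (h21 h)

def t23 (b : Bx) : TM := tsqrt S (t22 b)
noncomputable def v23 (x1 x2 : ℝ) : ℝ := Real.sqrt (v22 x1 x2)
theorem h23 (h : In b E x1 x2) : Enc S E (t23 b) (v23 x1 x2) := enc_sqrt hS (h22 h)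

def t24 (b : Bx) : TM := tadd (t2 b) (t23 b)
noncomputable def v24 (x1 x2 : ℝ) : ℝ := v2 x1 x2 + v23 x1 x2
theorem h24 (h : In b E x1 x2) : Enc S E (t24 b) (v24 x1 x2) := enc_add (h2 h) (h23 h)

def t25 (b : Bx) : TM := tinv S (t24 b)
noncomputable def v25 (x1 x2 : ℝ) : ℝ := (v24 x1 x2)⁻¹
theorem h25 (h : In b E x1 x2) : Enc S E (t25 b) (v25 x1 x2) := enc_inv hS (h24 h)

def t26 (b : Bx) : TM := tmul S (t9 b) (t25 b)
noncomputable def v26 (x1 x2 : ℝ) : ℝ := v9 x1 x2 * v25 x1 x2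
theorem h26 (h : In b E x1 x2) : Enc S E (t26 b) (v26 x1 x2) := enc_mul hS (h9 h) (h25 h)

def t27 (b : Bx) : TM := tadd (t20 b) (t26 b)
noncomputable def v27 (x1 x2 : ℝ) : ℝ := v20 x1 x2 + v26 x1 x2
theorem h27 (h : In b E x1 x2) : Enc S E (t27 b) (v27 x1 x2) := enc_add (h20 h) (h26 h)

def t28 (b : Bx) : TM := tscale 1 2 (t27 b)
noncomputable def v28 (x1 x2 : ℝ) : ℝ := ((1 : ℕ) : ℝ) / ((2 : ℕ) : ℝ) * v27 x1 x2
theorem h28 (h : In b E x1 x2) : Enc S E (t28 b) (v28 x1 x2) := enc_scale 1 (by norm_num) (h27 h)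

def t29 (b : Bx) : TM := tneg (t28 b)
noncomputable def v29 (x1 x2 : ℝ) : ℝ := -(v28 x1 x2)
theorem h29 (h : In b E x1 x2) : Enc S E (t29 b) (v29 x1 x2) := enc_neg (h28 h)

def t30 (b : Bx) : TM := tmul S (t1 b) (t29 b)
noncomputable def v30 (x1 x2 : ℝ) : ℝ := v1 x1 x2 * v29 x1 x2
theorem h30 (h : In b E x1 x2) : Enc S E (t30 b) (v30 x1 x2) := enc_mul hS (h1 h) (h29 h)

def t31 (_b : Bx) : TM := tconst (Nat.div (Nat.mul 49 S) 125) 0 1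
noncomputable def v31 (_x1 _x2 : ℝ) : ℝ := ((49 : ℕ) : ℝ) / ((125 : ℕ) : ℝ)
theorem h31 (_h : In b E x1 x2) : Enc S E (t31 b) (v31 x1 x2) := enc_rat E 49 (by norm_num)

def t32 (b : Bx) : TM := tinv S (t8 b)
noncomputable def v32 (x1 x2 : ℝ) : ℝ := (v8 x1 x2)⁻¹
theorem h32 (h : In b E x1 x2) : Enc S E (t32 b) (v32 x1 x2) := enc_inv hS (h8 h)

def t33 (b : Bx) : TM := tmul S (t31 b) (t32 b)
noncomputable def v33 (x1 x2 : ℝ) : ℝ := v31 x1 x2 * v32 x1 x2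
theorem h33 (h : In b E x1 x2) : Enc S E (t33 b) (v33 x1 x2) := enc_mul hS (h31 h) (h32 h)

def t34 (b : Bx) : TM := tmul S (t33 b) (t9 b)
noncomputable def v34 (x1 x2 : ℝ) : ℝ := v33 x1 x2 * v9 x1 x2
theorem h34 (h : In b E x1 x2) : Enc S E (t34 b) (v34 x1 x2) := enc_mul hS (h33 h) (h9 h)

def t35 (b : Bx) : TM := tsub (t2 b) (t34 b)
noncomputable def v35 (x1 x2 : ℝ) : ℝ := v2 x1 x2 - v34 x1 x2
theorem h35 (h : In b E x1 x2) : Enc S E (t35 b) (v35 x1 x2) := enc_sub (h2 h) (h34 h)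

def t36 (b : Bx) : TM := tmul S (t29 b) (t35 b)
noncomputable def v36 (x1 x2 : ℝ) : ℝ := v29 x1 x2 * v35 x1 x2
theorem h36 (h : In b E x1 x2) : Enc S E (t36 b) (v36 x1 x2) := enc_mul hS (h29 h) (h35 h)

def t37 (b : Bx) : TM := tscale 1 2 (t33 b)
noncomputable def v37 (x1 x2 : ℝ) : ℝ := ((1 : ℕ) : ℝ) / ((2 : ℕ) : ℝ) * v33 x1 x2
theorem h37 (h : In b E x1 x2) : Enc S E (t37 b) (v37 x1 x2) := enc_scale 1 (by norm_num) (h33 h)

def t38 (b : Bx) : TM := tsub (t36 b) (t37 b)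
noncomputable def v38 (x1 x2 : ℝ) : ℝ := v36 x1 x2 - v37 x1 x2
theorem h38 (h : In b E x1 x2) : Enc S E (t38 b) (v38 x1 x2) := enc_sub (h36 h) (h37 h)

def t39 (b : Bx) : TM := tmul S (t1 b) (t38 b)
noncomputable def v39 (x1 x2 : ℝ) : ℝ := v1 x1 x2 * v38 x1 x2
theorem h39 (h : In b E x1 x2) : Enc S E (t39 b) (v39 x1 x2) := enc_mul hS (h1 h) (h38 h)

def t40 (b : Bx) : TM := tadd (t7 b) (t11 b)
noncomputable def v40 (x1 x2 : ℝ) : ℝ := v7 x1 x2 + v11 x1 x2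
theorem h40 (h : In b E x1 x2) : Enc S E (t40 b) (v40 x1 x2) := enc_add (h7 h) (h11 h)

def t41 (b : Bx) : TM := tadd (t8 b) (t11 b)
noncomputable def v41 (x1 x2 : ℝ) : ℝ := v8 x1 x2 + v11 x1 x2
theorem h41 (h : In b E x1 x2) : Enc S E (t41 b) (v41 x1 x2) := enc_add (h8 h) (h11 h)

def t42 (b : Bx) : TM := tsq S (t41 b)
noncomputable def v42 (x1 x2 : ℝ) : ℝ := (v41 x1 x2) ^ 2
theorem h42 (h : In b E x1 x2) : Enc S E (t42 b) (v42 x1 x2) := enc_sq hS (h41 h)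

def t43 (b : Bx) : TM := tsub (t2 b) (t42 b)
noncomputable def v43 (x1 x2 : ℝ) : ℝ := v2 x1 x2 - v42 x1 x2
theorem h43 (h : In b E x1 x2) : Enc S E (t43 b) (v43 x1 x2) := enc_sub (h2 h) (h42 h)

def t44 (b : Bx) : TM := tsqrt S (t43 b)
noncomputable def v44 (x1 x2 : ℝ) : ℝ := Real.sqrt (v43 x1 x2)
theorem h44 (h : In b E x1 x2) : Enc S E (t44 b) (v44 x1 x2) := enc_sqrt hS (h43 h)

def t45 (b : Bx) : TM := tadd (t44 b) (t17 b)
noncomputable def v45 (x1 x2 : ℝ) : ℝ := v44 x1 x2 + v17 x1 x2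
theorem h45 (h : In b E x1 x2) : Enc S E (t45 b) (v45 x1 x2) := enc_add (h44 h) (h17 h)

def t46 (b : Bx) : TM := tinv S (t45 b)
noncomputable def v46 (x1 x2 : ℝ) : ℝ := (v45 x1 x2)⁻¹
theorem h46 (h : In b E x1 x2) : Enc S E (t46 b) (v46 x1 x2) := enc_inv hS (h45 h)

def t47 (b : Bx) : TM := tmul S (t40 b) (t46 b)
noncomputable def v47 (x1 x2 : ℝ) : ℝ := v40 x1 x2 * v46 x1 x2
theorem h47 (h : In b E x1 x2) : Enc S E (t47 b) (v47 x1 x2) := enc_mul hS (h40 h) (h46 h)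

def t48 (b : Bx) : TM := tsq S (t11 b)
noncomputable def v48 (x1 x2 : ℝ) : ℝ := (v11 x1 x2) ^ 2
theorem h48 (h : In b E x1 x2) : Enc S E (t48 b) (v48 x1 x2) := enc_sq hS (h11 h)

def t49 (b : Bx) : TM := tsub (t2 b) (t48 b)
noncomputable def v49 (x1 x2 : ℝ) : ℝ := v2 x1 x2 - v48 x1 x2
theorem h49 (h : In b E x1 x2) : Enc S E (t49 b) (v49 x1 x2) := enc_sub (h2 h) (h48 h)

def t50 (b : Bx) : TM := tsqrt S (t49 b)
noncomputable def v50 (x1 x2 : ℝ) : ℝ := Real.sqrt (v49 x1 x2)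
theorem h50 (h : In b E x1 x2) : Enc S E (t50 b) (v50 x1 x2) := enc_sqrt hS (h49 h)

def t51 (b : Bx) : TM := tadd (t2 b) (t50 b)
noncomputable def v51 (x1 x2 : ℝ) : ℝ := v2 x1 x2 + v50 x1 x2
theorem h51 (h : In b E x1 x2) : Enc S E (t51 b) (v51 x1 x2) := enc_add (h2 h) (h50 h)

def t52 (b : Bx) : TM := tinv S (t51 b)
noncomputable def v52 (x1 x2 : ℝ) : ℝ := (v51 x1 x2)⁻¹
theorem h52 (h : In b E x1 x2) : Enc S E (t52 b) (v52 x1 x2) := enc_inv hS (h51 h)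

def t53 (b : Bx) : TM := tmul S (t11 b) (t52 b)
noncomputable def v53 (x1 x2 : ℝ) : ℝ := v11 x1 x2 * v52 x1 x2
theorem h53 (h : In b E x1 x2) : Enc S E (t53 b) (v53 x1 x2) := enc_mul hS (h11 h) (h52 h)

def t54 (b : Bx) : TM := tadd (t47 b) (t53 b)
noncomputable def v54 (x1 x2 : ℝ) : ℝ := v47 x1 x2 + v53 x1 x2
theorem h54 (h : In b E x1 x2) : Enc S E (t54 b) (v54 x1 x2) := enc_add (h47 h) (h53 h)

def t55 (b : Bx) : TM := tscale 1 2 (t54 b)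
noncomputable def v55 (x1 x2 : ℝ) : ℝ := ((1 : ℕ) : ℝ) / ((2 : ℕ) : ℝ) * v54 x1 x2
theorem h55 (h : In b E x1 x2) : Enc S E (t55 b) (v55 x1 x2) := enc_scale 1 (by norm_num) (h54 h)

def t56 (b : Bx) : TM := tneg (t55 b)
noncomputable def v56 (x1 x2 : ℝ) : ℝ := -(v55 x1 x2)
theorem h56 (h : In b E x1 x2) : Enc S E (t56 b) (v56 x1 x2) := enc_neg (h55 h)

def t57 (b : Bx) : TM := tmul S (t2 b) (t56 b)
noncomputable def v57 (x1 x2 : ℝ) : ℝ := v2 x1 x2 * v56 x1 x2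
theorem h57 (h : In b E x1 x2) : Enc S E (t57 b) (v57 x1 x2) := enc_mul hS (h2 h) (h56 h)

def t58 (b : Bx) : TM := tneg (t57 b)
noncomputable def v58 (x1 x2 : ℝ) : ℝ := -(v57 x1 x2)
theorem h58 (h : In b E x1 x2) : Enc S E (t58 b) (v58 x1 x2) := enc_neg (h57 h)

def t59 (b : Bx) : TM := tmul S (t33 b) (t11 b)
noncomputable def v59 (x1 x2 : ℝ) : ℝ := v33 x1 x2 * v11 x1 x2
theorem h59 (h : In b E x1 x2) : Enc S E (t59 b) (v59 x1 x2) := enc_mul hS (h33 h) (h11 h)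

def t60 (b : Bx) : TM := tsub (t2 b) (t59 b)
noncomputable def v60 (x1 x2 : ℝ) : ℝ := v2 x1 x2 - v59 x1 x2
theorem h60 (h : In b E x1 x2) : Enc S E (t60 b) (v60 x1 x2) := enc_sub (h2 h) (h59 h)

def t61 (b : Bx) : TM := tmul S (t56 b) (t60 b)
noncomputable def v61 (x1 x2 : ℝ) : ℝ := v56 x1 x2 * v60 x1 x2
theorem h61 (h : In b E x1 x2) : Enc S E (t61 b) (v61 x1 x2) := enc_mul hS (h56 h) (h60 h)

def t62 (b : Bx) : TM := tsub (t61 b) (t37 b)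
noncomputable def v62 (x1 x2 : ℝ) : ℝ := v61 x1 x2 - v37 x1 x2
theorem h62 (h : In b E x1 x2) : Enc S E (t62 b) (v62 x1 x2) := enc_sub (h61 h) (h37 h)

def t63 (b : Bx) : TM := tmul S (t2 b) (t62 b)
noncomputable def v63 (x1 x2 : ℝ) : ℝ := v2 x1 x2 * v62 x1 x2
theorem h63 (h : In b E x1 x2) : Enc S E (t63 b) (v63 x1 x2) := enc_mul hS (h2 h) (h62 h)

def t64 (b : Bx) : TM := tneg (t63 b)
noncomputable def v64 (x1 x2 : ℝ) : ℝ := -(v63 x1 x2)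
theorem h64 (h : In b E x1 x2) : Enc S E (t64 b) (v64 x1 x2) := enc_neg (h63 h)

def t65 (b : Bx) : TM := tsub (t58 b) (t30 b)
noncomputable def v65 (x1 x2 : ℝ) : ℝ := v58 x1 x2 - v30 x1 x2
theorem h65 (h : In b E x1 x2) : Enc S E (t65 b) (v65 x1 x2) := enc_sub (h58 h) (h30 h)

def t66 (b : Bx) : TM := tneg (t65 b)
noncomputable def v66 (x1 x2 : ℝ) : ℝ := -(v65 x1 x2)
theorem h66 (h : In b E x1 x2) : Enc S E (t66 b) (v66 x1 x2) := enc_neg (h65 h)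

def t67 (b : Bx) : TM := tmul S (t30 b) (t41 b)
noncomputable def v67 (x1 x2 : ℝ) : ℝ := v30 x1 x2 * v41 x1 x2
theorem h67 (h : In b E x1 x2) : Enc S E (t67 b) (v67 x1 x2) := enc_mul hS (h30 h) (h41 h)

def t68 (b : Bx) : TM := tscale 1 2 (t2 b)
noncomputable def v68 (x1 x2 : ℝ) : ℝ := ((1 : ℕ) : ℝ) / ((2 : ℕ) : ℝ) * v2 x1 x2
theorem h68 (h : In b E x1 x2) : Enc S E (t68 b) (v68 x1 x2) := enc_scale 1 (by norm_num) (h2 h)

def t69 (b : Bx) : TM := tadd (t67 b) (t68 b)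
noncomputable def v69 (x1 x2 : ℝ) : ℝ := v67 x1 x2 + v68 x1 x2
theorem h69 (h : In b E x1 x2) : Enc S E (t69 b) (v69 x1 x2) := enc_add (h67 h) (h68 h)

def t70 (b : Bx) : TM := tmul S (t58 b) (t13 b)
noncomputable def v70 (x1 x2 : ℝ) : ℝ := v58 x1 x2 * v13 x1 x2
theorem h70 (h : In b E x1 x2) : Enc S E (t70 b) (v70 x1 x2) := enc_mul hS (h58 h) (h13 h)

def t71 (b : Bx) : TM := tscale 1 2 (t1 b)
noncomputable def v71 (x1 x2 : ℝ) : ℝ := ((1 : ℕ) : ℝ) / ((2 : ℕ) : ℝ) * v1 x1 x2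
theorem h71 (h : In b E x1 x2) : Enc S E (t71 b) (v71 x1 x2) := enc_scale 1 (by norm_num) (h1 h)

def t72 (b : Bx) : TM := tneg (t71 b)
noncomputable def v72 (x1 x2 : ℝ) : ℝ := -(v71 x1 x2)
theorem h72 (h : In b E x1 x2) : Enc S E (t72 b) (v72 x1 x2) := enc_neg (h71 h)

def t73 (b : Bx) : TM := tadd (t70 b) (t72 b)
noncomputable def v73 (x1 x2 : ℝ) : ℝ := v70 x1 x2 + v72 x1 x2
theorem h73 (h : In b E x1 x2) : Enc S E (t73 b) (v73 x1 x2) := enc_add (h70 h) (h72 h)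

def t74 (b : Bx) : TM := tsub (t69 b) (t73 b)
noncomputable def v74 (x1 x2 : ℝ) : ℝ := v69 x1 x2 - v73 x1 x2
theorem h74 (h : In b E x1 x2) : Enc S E (t74 b) (v74 x1 x2) := enc_sub (h69 h) (h73 h)

def t75 (b : Bx) : TM := tinv S (t7 b)
noncomputable def v75 (x1 x2 : ℝ) : ℝ := (v7 x1 x2)⁻¹
theorem h75 (h : In b E x1 x2) : Enc S E (t75 b) (v75 x1 x2) := enc_inv hS (h7 h)

def t76 (b : Bx) : TM := tmul S (t74 b) (t75 b)
noncomputable def v76 (x1 x2 : ℝ) : ℝ := v74 x1 x2 * v75 x1 x2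
theorem h76 (h : In b E x1 x2) : Enc S E (t76 b) (v76 x1 x2) := enc_mul hS (h74 h) (h75 h)

def t77 (b : Bx) : TM := tmul S (t0 b) (t66 b)
noncomputable def v77 (x1 x2 : ℝ) : ℝ := v0 x1 x2 * v66 x1 x2
theorem h77 (h : In b E x1 x2) : Enc S E (t77 b) (v77 x1 x2) := enc_mul hS (h0 h) (h66 h)

def t78 (b : Bx) : TM := tadd (t2 b) (t77 b)
noncomputable def v78 (x1 x2 : ℝ) : ℝ := v2 x1 x2 + v77 x1 x2
theorem h78 (h : In b E x1 x2) : Enc S E (t78 b) (v78 x1 x2) := enc_add (h2 h) (h77 h)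

def t79 (_b : Bx) : TM := tconst (Nat.div (Nat.mul 149 S) 125) 0 1
noncomputable def v79 (_x1 _x2 : ℝ) : ℝ := ((149 : ℕ) : ℝ) / ((125 : ℕ) : ℝ)
theorem h79 (_h : In b E x1 x2) : Enc S E (t79 b) (v79 x1 x2) := enc_rat E 149 (by norm_num)

def t80 (b : Bx) : TM := tmul S (t79 b) (t32 b)
noncomputable def v80 (x1 x2 : ℝ) : ℝ := v79 x1 x2 * v32 x1 x2
theorem h80 (h : In b E x1 x2) : Enc S E (t80 b) (v80 x1 x2) := enc_mul hS (h79 h) (h32 h)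

def t81 (b : Bx) : TM := tsub (t7 b) (t10 b)
noncomputable def v81 (x1 x2 : ℝ) : ℝ := v7 x1 x2 - v10 x1 x2
theorem h81 (h : In b E x1 x2) : Enc S E (t81 b) (v81 x1 x2) := enc_sub (h7 h) (h10 h)

def t82 (b : Bx) : TM := tsub (t10 b) (t8 b)
noncomputable def v82 (x1 x2 : ℝ) : ℝ := v10 x1 x2 - v8 x1 x2
theorem h82 (h : In b E x1 x2) : Enc S E (t82 b) (v82 x1 x2) := enc_sub (h10 h) (h8 h)

def t83 (b : Bx) : TM := tsq S (t82 b)
noncomputable def v83 (x1 x2 : ℝ) : ℝ := (v82 x1 x2) ^ 2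
theorem h83 (h : In b E x1 x2) : Enc S E (t83 b) (v83 x1 x2) := enc_sq hS (h82 h)

def t84 (b : Bx) : TM := tsub (t2 b) (t83 b)
noncomputable def v84 (x1 x2 : ℝ) : ℝ := v2 x1 x2 - v83 x1 x2
theorem h84 (h : In b E x1 x2) : Enc S E (t84 b) (v84 x1 x2) := enc_sub (h2 h) (h83 h)

def t85 (b : Bx) : TM := tsqrt S (t84 b)
noncomputable def v85 (x1 x2 : ℝ) : ℝ := Real.sqrt (v84 x1 x2)
theorem h85 (h : In b E x1 x2) : Enc S E (t85 b) (v85 x1 x2) := enc_sqrt hS (h84 h)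

def t86 (b : Bx) : TM := tadd (t85 b) (t17 b)
noncomputable def v86 (x1 x2 : ℝ) : ℝ := v85 x1 x2 + v17 x1 x2
theorem h86 (h : In b E x1 x2) : Enc S E (t86 b) (v86 x1 x2) := enc_add (h85 h) (h17 h)

def t87 (b : Bx) : TM := tinv S (t86 b)
noncomputable def v87 (x1 x2 : ℝ) : ℝ := (v86 x1 x2)⁻¹
theorem h87 (h : In b E x1 x2) : Enc S E (t87 b) (v87 x1 x2) := enc_inv hS (h86 h)

def t88 (b : Bx) : TM := tmul S (t81 b) (t87 b)
noncomputable def v88 (x1 x2 : ℝ) : ℝ := v81 x1 x2 * v87 x1 x2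
theorem h88 (h : In b E x1 x2) : Enc S E (t88 b) (v88 x1 x2) := enc_mul hS (h81 h) (h87 h)

def t89 (b : Bx) : TM := tsq S (t10 b)
noncomputable def v89 (x1 x2 : ℝ) : ℝ := (v10 x1 x2) ^ 2
theorem h89 (h : In b E x1 x2) : Enc S E (t89 b) (v89 x1 x2) := enc_sq hS (h10 h)

def t90 (b : Bx) : TM := tsub (t2 b) (t89 b)
noncomputable def v90 (x1 x2 : ℝ) : ℝ := v2 x1 x2 - v89 x1 x2
theorem h90 (h : In b E x1 x2) : Enc S E (t90 b) (v90 x1 x2) := enc_sub (h2 h) (h89 h)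

def t91 (b : Bx) : TM := tsqrt S (t90 b)
noncomputable def v91 (x1 x2 : ℝ) : ℝ := Real.sqrt (v90 x1 x2)
theorem h91 (h : In b E x1 x2) : Enc S E (t91 b) (v91 x1 x2) := enc_sqrt hS (h90 h)

def t92 (b : Bx) : TM := tadd (t2 b) (t91 b)
noncomputable def v92 (x1 x2 : ℝ) : ℝ := v2 x1 x2 + v91 x1 x2
theorem h92 (h : In b E x1 x2) : Enc S E (t92 b) (v92 x1 x2) := enc_add (h2 h) (h91 h)

def t93 (b : Bx) : TM := tinv S (t92 b)
noncomputable def v93 (x1 x2 : ℝ) : ℝ := (v92 x1 x2)⁻¹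
theorem h93 (h : In b E x1 x2) : Enc S E (t93 b) (v93 x1 x2) := enc_inv hS (h92 h)

def t94 (b : Bx) : TM := tmul S (t10 b) (t93 b)
noncomputable def v94 (x1 x2 : ℝ) : ℝ := v10 x1 x2 * v93 x1 x2
theorem h94 (h : In b E x1 x2) : Enc S E (t94 b) (v94 x1 x2) := enc_mul hS (h10 h) (h93 h)

def t95 (b : Bx) : TM := tsub (t88 b) (t94 b)
noncomputable def v95 (x1 x2 : ℝ) : ℝ := v88 x1 x2 - v94 x1 x2
theorem h95 (h : In b E x1 x2) : Enc S E (t95 b) (v95 x1 x2) := enc_sub (h88 h) (h94 h)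

def t96 (b : Bx) : TM := tscale 1 2 (t95 b)
noncomputable def v96 (x1 x2 : ℝ) : ℝ := ((1 : ℕ) : ℝ) / ((2 : ℕ) : ℝ) * v95 x1 x2
theorem h96 (h : In b E x1 x2) : Enc S E (t96 b) (v96 x1 x2) := enc_scale 1 (by norm_num) (h95 h)

def t97 (b : Bx) : TM := tmul S (t80 b) (t10 b)
noncomputable def v97 (x1 x2 : ℝ) : ℝ := v80 x1 x2 * v10 x1 x2
theorem h97 (h : In b E x1 x2) : Enc S E (t97 b) (v97 x1 x2) := enc_mul hS (h80 h) (h10 h)

def t98 (b : Bx) : TM := tsub (t2 b) (t97 b)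
noncomputable def v98 (x1 x2 : ℝ) : ℝ := v2 x1 x2 - v97 x1 x2
theorem h98 (h : In b E x1 x2) : Enc S E (t98 b) (v98 x1 x2) := enc_sub (h2 h) (h97 h)

def t99 (b : Bx) : TM := tmul S (t96 b) (t98 b)
noncomputable def v99 (x1 x2 : ℝ) : ℝ := v96 x1 x2 * v98 x1 x2
theorem h99 (h : In b E x1 x2) : Enc S E (t99 b) (v99 x1 x2) := enc_mul hS (h96 h) (h98 h)

def t100 (b : Bx) : TM := tsub (t99 b) (t80 b)
noncomputable def v100 (x1 x2 : ℝ) : ℝ := v99 x1 x2 - v80 x1 x2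
theorem h100 (h : In b E x1 x2) : Enc S E (t100 b) (v100 x1 x2) := enc_sub (h99 h) (h80 h)

def t101 (b : Bx) : TM := tmul S (t7 b) (t91 b)
noncomputable def v101 (x1 x2 : ℝ) : ℝ := v7 x1 x2 * v91 x1 x2
theorem h101 (h : In b E x1 x2) : Enc S E (t101 b) (v101 x1 x2) := enc_mul hS (h7 h) (h91 h)

def t102 (b : Bx) : TM := tadd (t10 b) (t101 b)
noncomputable def v102 (x1 x2 : ℝ) : ℝ := v10 x1 x2 + v101 x1 x2
theorem h102 (h : In b E x1 x2) : Enc S E (t102 b) (v102 x1 x2) := enc_add (h10 h) (h101 h)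

def t103 (b : Bx) : TM := tmul S (t7 b) (t10 b)
noncomputable def v103 (x1 x2 : ℝ) : ℝ := v7 x1 x2 * v10 x1 x2
theorem h103 (h : In b E x1 x2) : Enc S E (t103 b) (v103 x1 x2) := enc_mul hS (h7 h) (h10 h)

def t104 (b : Bx) : TM := tsub (t92 b) (t103 b)
noncomputable def v104 (x1 x2 : ℝ) : ℝ := v92 x1 x2 - v103 x1 x2
theorem h104 (h : In b E x1 x2) : Enc S E (t104 b) (v104 x1 x2) := enc_sub (h92 h) (h103 h)

def t105 (b : Bx) : TM := tinv S (t104 b)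
noncomputable def v105 (x1 x2 : ℝ) : ℝ := (v104 x1 x2)⁻¹
theorem h105 (h : In b E x1 x2) : Enc S E (t105 b) (v105 x1 x2) := enc_inv hS (h104 h)

def t106 (b : Bx) : TM := tmul S (t102 b) (t105 b)
noncomputable def v106 (x1 x2 : ℝ) : ℝ := v102 x1 x2 * v105 x1 x2
theorem h106 (h : In b E x1 x2) : Enc S E (t106 b) (v106 x1 x2) := enc_mul hS (h102 h) (h105 h)

def t107 (b : Bx) : TM := tneg (t106 b)
noncomputable def v107 (x1 x2 : ℝ) : ℝ := -(v106 x1 x2)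
theorem h107 (h : In b E x1 x2) : Enc S E (t107 b) (v107 x1 x2) := enc_neg (h106 h)

def t108 (b : Bx) : TM := tsub (t100 b) (t107 b)
noncomputable def v108 (x1 x2 : ℝ) : ℝ := v100 x1 x2 - v107 x1 x2
theorem h108 (h : In b E x1 x2) : Enc S E (t108 b) (v108 x1 x2) := enc_sub (h100 h) (h107 h)

def t109 (b : Bx) : TM := tneg (t94 b)
noncomputable def v109 (x1 x2 : ℝ) : ℝ := -(v94 x1 x2)
theorem h109 (h : In b E x1 x2) : Enc S E (t109 b) (v109 x1 x2) := enc_neg (h94 h)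

def t110 (b : Bx) : TM := tsub (t96 b) (t109 b)
noncomputable def v110 (x1 x2 : ℝ) : ℝ := v96 x1 x2 - v109 x1 x2
theorem h110 (h : In b E x1 x2) : Enc S E (t110 b) (v110 x1 x2) := enc_sub (h96 h) (h109 h)

def t111 (b : Bx) : TM := tinv S (t110 b)
noncomputable def v111 (x1 x2 : ℝ) : ℝ := (v110 x1 x2)⁻¹
theorem h111 (h : In b E x1 x2) : Enc S E (t111 b) (v111 x1 x2) := enc_inv hS (h110 h)

def t112 (b : Bx) : TM := tmul S (t108 b) (t111 b)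
noncomputable def v112 (x1 x2 : ℝ) : ℝ := v108 x1 x2 * v111 x1 x2
theorem h112 (h : In b E x1 x2) : Enc S E (t112 b) (v112 x1 x2) := enc_mul hS (h108 h) (h111 h)

def t113 (b : Bx) : TM := tmul S (t3 b) (t107 b)
noncomputable def v113 (x1 x2 : ℝ) : ℝ := v3 x1 x2 * v107 x1 x2
theorem h113 (h : In b E x1 x2) : Enc S E (t113 b) (v113 x1 x2) := enc_mul hS (h3 h) (h107 h)

def t114 (b : Bx) : TM := tmul S (t3 b) (t109 b)
noncomputable def v114 (x1 x2 : ℝ) : ℝ := v3 x1 x2 * v109 x1 x2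
theorem h114 (h : In b E x1 x2) : Enc S E (t114 b) (v114 x1 x2) := enc_mul hS (h3 h) (h109 h)

def t115 (b : Bx) : TM := tsub (t66 b) (t114 b)
noncomputable def v115 (x1 x2 : ℝ) : ℝ := v66 x1 x2 - v114 x1 x2
theorem h115 (h : In b E x1 x2) : Enc S E (t115 b) (v115 x1 x2) := enc_sub (h66 h) (h114 h)

def t116 (b : Bx) : TM := tmul S (t112 b) (t115 b)
noncomputable def v116 (x1 x2 : ℝ) : ℝ := v112 x1 x2 * v115 x1 x2
theorem h116 (h : In b E x1 x2) : Enc S E (t116 b) (v116 x1 x2) := enc_mul hS (h112 h) (h115 h)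

def t117 (b : Bx) : TM := tadd (t113 b) (t116 b)
noncomputable def v117 (x1 x2 : ℝ) : ℝ := v113 x1 x2 + v116 x1 x2
theorem h117 (h : In b E x1 x2) : Enc S E (t117 b) (v117 x1 x2) := enc_add (h113 h) (h116 h)

def t118 (b : Bx) : TM := tneg (t117 b)
noncomputable def v118 (x1 x2 : ℝ) : ℝ := -(v117 x1 x2)
theorem h118 (h : In b E x1 x2) : Enc S E (t118 b) (v118 x1 x2) := enc_neg (h117 h)

def t119 (b : Bx) : TM := tmul S (t0 b) (t39 b)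
noncomputable def v119 (x1 x2 : ℝ) : ℝ := v0 x1 x2 * v39 x1 x2
theorem h119 (h : In b E x1 x2) : Enc S E (t119 b) (v119 x1 x2) := enc_mul hS (h0 h) (h39 h)

def t120 (b : Bx) : TM := tadd (t17 b) (t119 b)
noncomputable def v120 (x1 x2 : ℝ) : ℝ := v17 x1 x2 + v119 x1 x2
theorem h120 (h : In b E x1 x2) : Enc S E (t120 b) (v120 x1 x2) := enc_add (h17 h) (h119 h)

def t121 (b : Bx) : TM := tmul S (t0 b) (t118 b)
noncomputable def v121 (x1 x2 : ℝ) : ℝ := v0 x1 x2 * v118 x1 x2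
theorem h121 (h : In b E x1 x2) : Enc S E (t121 b) (v121 x1 x2) := enc_mul hS (h0 h) (h118 h)

def t122 (b : Bx) : TM := tadd (t6 b) (t121 b)
noncomputable def v122 (x1 x2 : ℝ) : ℝ := v6 x1 x2 + v121 x1 x2
theorem h122 (h : In b E x1 x2) : Enc S E (t122 b) (v122 x1 x2) := enc_add (h6 h) (h121 h)

def t126 (b : Bx) : TM := tsub (t64 b) (t39 b)
noncomputable def v126 (x1 x2 : ℝ) : ℝ := v64 x1 x2 - v39 x1 x2
theorem h126 (h : In b E x1 x2) : Enc S E (t126 b) (v126 x1 x2) := enc_sub (h64 h) (h39 h)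

def t127 (b : Bx) : TM := tsub (t126 b) (t118 b)
noncomputable def v127 (x1 x2 : ℝ) : ℝ := v126 x1 x2 - v118 x1 x2
theorem h127 (h : In b E x1 x2) : Enc S E (t127 b) (v127 x1 x2) := enc_sub (h126 h) (h118 h)

def t128 (b : Bx) : TM := tneg (t120 b)
noncomputable def v128 (x1 x2 : ℝ) : ℝ := -(v120 x1 x2)
theorem h128 (h : In b E x1 x2) : Enc S E (t128 b) (v128 x1 x2) := enc_neg (h120 h)

def t129 (b : Bx) : TM := tneg (t122 b)
noncomputable def v129 (x1 x2 : ℝ) : ℝ := -(v122 x1 x2)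
theorem h129 (h : In b E x1 x2) : Enc S E (t129 b) (v129 x1 x2) := enc_neg (h122 h)

def t130 (b : Bx) : TM := tmul S (t8 b) (t127 b)
noncomputable def v130 (x1 x2 : ℝ) : ℝ := v8 x1 x2 * v127 x1 x2
theorem h130 (h : In b E x1 x2) : Enc S E (t130 b) (v130 x1 x2) := enc_mul hS (h8 h) (h127 h)

def t131 (b : Bx) : TM := tmul S (t0 b) (t127 b)
noncomputable def v131 (x1 x2 : ℝ) : ℝ := v0 x1 x2 * v127 x1 x2
theorem h131 (h : In b E x1 x2) : Enc S E (t131 b) (v131 x1 x2) := enc_mul hS (h0 h) (h127 h)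

def t132 (b : Bx) : TM := tadd (t131 b) (t129 b)
noncomputable def v132 (x1 x2 : ℝ) : ℝ := v131 x1 x2 + v129 x1 x2
theorem h132 (h : In b E x1 x2) : Enc S E (t132 b) (v132 x1 x2) := enc_add (h131 h) (h129 h)

def t133 (b : Bx) : TM := tmul S (t1 b) (t132 b)
noncomputable def v133 (x1 x2 : ℝ) : ℝ := v1 x1 x2 * v132 x1 x2
theorem h133 (h : In b E x1 x2) : Enc S E (t133 b) (v133 x1 x2) := enc_mul hS (h1 h) (h132 h)

def t134 (b : Bx) : TM := tsub (t130 b) (t133 b)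
noncomputable def v134 (x1 x2 : ℝ) : ℝ := v130 x1 x2 - v133 x1 x2
theorem h134 (h : In b E x1 x2) : Enc S E (t134 b) (v134 x1 x2) := enc_sub (h130 h) (h133 h)

def t135 (b : Bx) : TM := tsub (t131 b) (t128 b)
noncomputable def v135 (x1 x2 : ℝ) : ℝ := v131 x1 x2 - v128 x1 x2
theorem h135 (h : In b E x1 x2) : Enc S E (t135 b) (v135 x1 x2) := enc_sub (h131 h) (h128 h)

def t136 (b : Bx) : TM := tmul S (t3 b) (t135 b)
noncomputable def v136 (x1 x2 : ℝ) : ℝ := v3 x1 x2 * v135 x1 x2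
theorem h136 (h : In b E x1 x2) : Enc S E (t136 b) (v136 x1 x2) := enc_mul hS (h3 h) (h135 h)

def t137 (b : Bx) : TM := tsub (t134 b) (t136 b)
noncomputable def v137 (x1 x2 : ℝ) : ℝ := v134 x1 x2 - v136 x1 x2
theorem h137 (h : In b E x1 x2) : Enc S E (t137 b) (v137 x1 x2) := enc_sub (h134 h) (h136 h)

def t138 (b : Bx) : TM := tmul S (t137 b) (t75 b)
noncomputable def v138 (x1 x2 : ℝ) : ℝ := v137 x1 x2 * v75 x1 x2
theorem h138 (h : In b E x1 x2) : Enc S E (t138 b) (v138 x1 x2) := enc_mul hS (h137 h) (h75 h)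

def t139 (b : Bx) : TM := tnat 2 (t2 b)
noncomputable def v139 (x1 x2 : ℝ) : ℝ := ((2 : ℕ) : ℝ) * v2 x1 x2
theorem h139 (h : In b E x1 x2) : Enc S E (t139 b) (v139 x1 x2) := enc_nat 2 (h2 h)

def t140 (b : Bx) : TM := tinv S (t139 b)
noncomputable def v140 (x1 x2 : ℝ) : ℝ := (v139 x1 x2)⁻¹
theorem h140 (h : In b E x1 x2) : Enc S E (t140 b) (v140 x1 x2) := enc_inv hS (h139 h)

def t141 (b : Bx) : TM := tmul S (t76 b) (t140 b)
noncomputable def v141 (x1 x2 : ℝ) : ℝ := v76 x1 x2 * v140 x1 x2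
theorem h141 (h : In b E x1 x2) : Enc S E (t141 b) (v141 x1 x2) := enc_mul hS (h76 h) (h140 h)

def t142 (b : Bx) : TM := tadd (t138 b) (t141 b)
noncomputable def v142 (x1 x2 : ℝ) : ℝ := v138 x1 x2 + v141 x1 x2
theorem h142 (h : In b E x1 x2) : Enc S E (t142 b) (v142 x1 x2) := enc_add (h138 h) (h141 h)

def t143 (b : Bx) : TM := tsub (t131 b) (t129 b)
noncomputable def v143 (x1 x2 : ℝ) : ℝ := v131 x1 x2 - v129 x1 x2
theorem h143 (h : In b E x1 x2) : Enc S E (t143 b) (v143 x1 x2) := enc_sub (h131 h) (h129 h)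

def t144 (b : Bx) : TM := tmul S (t1 b) (t143 b)
noncomputable def v144 (x1 x2 : ℝ) : ℝ := v1 x1 x2 * v143 x1 x2
theorem h144 (h : In b E x1 x2) : Enc S E (t144 b) (v144 x1 x2) := enc_mul hS (h1 h) (h143 h)

def t145 (b : Bx) : TM := tadd (t131 b) (t128 b)
noncomputable def v145 (x1 x2 : ℝ) : ℝ := v131 x1 x2 + v128 x1 x2
theorem h145 (h : In b E x1 x2) : Enc S E (t145 b) (v145 x1 x2) := enc_add (h131 h) (h128 h)

def t146 (b : Bx) : TM := tmul S (t3 b) (t145 b)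
noncomputable def v146 (x1 x2 : ℝ) : ℝ := v3 x1 x2 * v145 x1 x2
theorem h146 (h : In b E x1 x2) : Enc S E (t146 b) (v146 x1 x2) := enc_mul hS (h3 h) (h145 h)

def t147 (b : Bx) : TM := tadd (t144 b) (t146 b)
noncomputable def v147 (x1 x2 : ℝ) : ℝ := v144 x1 x2 + v146 x1 x2
theorem h147 (h : In b E x1 x2) : Enc S E (t147 b) (v147 x1 x2) := enc_add (h144 h) (h146 h)

def t148 (b : Bx) : TM := tsub (t147 b) (t130 b)
noncomputable def v148 (x1 x2 : ℝ) : ℝ := v147 x1 x2 - v130 x1 x2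
theorem h148 (h : In b E x1 x2) : Enc S E (t148 b) (v148 x1 x2) := enc_sub (h147 h) (h130 h)

def t149 (b : Bx) : TM := tmul S (t148 b) (t75 b)
noncomputable def v149 (x1 x2 : ℝ) : ℝ := v148 x1 x2 * v75 x1 x2
theorem h149 (h : In b E x1 x2) : Enc S E (t149 b) (v149 x1 x2) := enc_mul hS (h148 h) (h75 h)

def t150 (b : Bx) : TM := tadd (t149 b) (t141 b)
noncomputable def v150 (x1 x2 : ℝ) : ℝ := v149 x1 x2 + v141 x1 x2
theorem h150 (h : In b E x1 x2) : Enc S E (t150 b) (v150 x1 x2) := enc_add (h149 h) (h141 h)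

def t151 (b : Bx) : TM := tsub (t8 b) (t10 b)
noncomputable def v151 (x1 x2 : ℝ) : ℝ := v8 x1 x2 - v10 x1 x2
theorem h151 (h : In b E x1 x2) : Enc S E (t151 b) (v151 x1 x2) := enc_sub (h8 h) (h10 h)

def t152 (b : Bx) : TM := tmul S (t129 b) (t151 b)
noncomputable def v152 (x1 x2 : ℝ) : ℝ := v129 x1 x2 * v151 x1 x2
theorem h152 (h : In b E x1 x2) : Enc S E (t152 b) (v152 x1 x2) := enc_mul hS (h129 h) (h151 h)

def t153 (b : Bx) : TM := tsub (t8 b) (t9 b)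
noncomputable def v153 (x1 x2 : ℝ) : ℝ := v8 x1 x2 - v9 x1 x2
theorem h153 (h : In b E x1 x2) : Enc S E (t153 b) (v153 x1 x2) := enc_sub (h8 h) (h9 h)

def t154 (b : Bx) : TM := tmul S (t128 b) (t153 b)
noncomputable def v154 (x1 x2 : ℝ) : ℝ := v128 x1 x2 * v153 x1 x2
theorem h154 (h : In b E x1 x2) : Enc S E (t154 b) (v154 x1 x2) := enc_mul hS (h128 h) (h153 h)

def t155 (b : Bx) : TM := tsub (t152 b) (t154 b)
noncomputable def v155 (x1 x2 : ℝ) : ℝ := v152 x1 x2 - v154 x1 x2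
theorem h155 (h : In b E x1 x2) : Enc S E (t155 b) (v155 x1 x2) := enc_sub (h152 h) (h154 h)

def t156 (b : Bx) : TM := tsub (t1 b) (t3 b)
noncomputable def v156 (x1 x2 : ℝ) : ℝ := v1 x1 x2 - v3 x1 x2
theorem h156 (h : In b E x1 x2) : Enc S E (t156 b) (v156 x1 x2) := enc_sub (h1 h) (h3 h)

def t157 (b : Bx) : TM := tsub (t8 b) (t0 b)
noncomputable def v157 (x1 x2 : ℝ) : ℝ := v8 x1 x2 - v0 x1 x2
theorem h157 (h : In b E x1 x2) : Enc S E (t157 b) (v157 x1 x2) := enc_sub (h8 h) (h0 h)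

def t158 (b : Bx) : TM := tmul S (t156 b) (t157 b)
noncomputable def v158 (x1 x2 : ℝ) : ℝ := v156 x1 x2 * v157 x1 x2
theorem h158 (h : In b E x1 x2) : Enc S E (t158 b) (v158 x1 x2) := enc_mul hS (h156 h) (h157 h)

def t159 (b : Bx) : TM := tadd (t128 b) (t129 b)
noncomputable def v159 (x1 x2 : ℝ) : ℝ := v128 x1 x2 + v129 x1 x2
theorem h159 (h : In b E x1 x2) : Enc S E (t159 b) (v159 x1 x2) := enc_add (h128 h) (h129 h)

def t160 (b : Bx) : TM := tsub (t159 b) (t131 b)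
noncomputable def v160 (x1 x2 : ℝ) : ℝ := v159 x1 x2 - v131 x1 x2
theorem h160 (h : In b E x1 x2) : Enc S E (t160 b) (v160 x1 x2) := enc_sub (h159 h) (h131 h)

def t161 (b : Bx) : TM := tmul S (t158 b) (t160 b)
noncomputable def v161 (x1 x2 : ℝ) : ℝ := v158 x1 x2 * v160 x1 x2
theorem h161 (h : In b E x1 x2) : Enc S E (t161 b) (v161 x1 x2) := enc_mul hS (h158 h) (h160 h)

def t162 (b : Bx) : TM := tadd (t155 b) (t161 b)
noncomputable def v162 (x1 x2 : ℝ) : ℝ := v155 x1 x2 + v161 x1 x2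
theorem h162 (h : In b E x1 x2) : Enc S E (t162 b) (v162 x1 x2) := enc_add (h155 h) (h161 h)

def t163 (b : Bx) : TM := tmul S (t162 b) (t75 b)
noncomputable def v163 (x1 x2 : ℝ) : ℝ := v162 x1 x2 * v75 x1 x2
theorem h163 (h : In b E x1 x2) : Enc S E (t163 b) (v163 x1 x2) := enc_mul hS (h162 h) (h75 h)

def t164 (b : Bx) : TM := tmul S (t0 b) (t141 b)
noncomputable def v164 (x1 x2 : ℝ) : ℝ := v0 x1 x2 * v141 x1 x2
theorem h164 (h : In b E x1 x2) : Enc S E (t164 b) (v164 x1 x2) := enc_mul hS (h0 h) (h141 h)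

def t165 (b : Bx) : TM := tadd (t163 b) (t164 b)
noncomputable def v165 (x1 x2 : ℝ) : ℝ := v163 x1 x2 + v164 x1 x2
theorem h165 (h : In b E x1 x2) : Enc S E (t165 b) (v165 x1 x2) := enc_add (h163 h) (h164 h)

def t166 (_b : Bx) : TM := tconst (Nat.mul 2 S) 0 0
noncomputable def v166 (_x1 _x2 : ℝ) : ℝ := ((2 : ℕ) : ℝ)
theorem h166 (_h : In b E x1 x2) : Enc S E (t166 b) (v166 x1 x2) := enc_nc E 2

def t167 (b : Bx) : TM := tadd (t166 b) (t7 b)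
noncomputable def v167 (x1 x2 : ℝ) : ℝ := v166 x1 x2 + v7 x1 x2
theorem h167 (h : In b E x1 x2) : Enc S E (t167 b) (v167 x1 x2) := enc_add (h166 h) (h7 h)

def t168 (b : Bx) : TM := tscale 1 4 (t167 b)
noncomputable def v168 (x1 x2 : ℝ) : ℝ := ((1 : ℕ) : ℝ) / ((4 : ℕ) : ℝ) * v167 x1 x2
theorem h168 (h : In b E x1 x2) : Enc S E (t168 b) (v168 x1 x2) := enc_scale 1 (by norm_num) (h167 h)

def t169 (b : Bx) : TM := tmul S (t76 b) (t168 b)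
noncomputable def v169 (x1 x2 : ℝ) : ℝ := v76 x1 x2 * v168 x1 x2
theorem h169 (h : In b E x1 x2) : Enc S E (t169 b) (v169 x1 x2) := enc_mul hS (h76 h) (h168 h)

def t170 (b : Bx) : TM := tmul S (t0 b) (t142 b)
noncomputable def v170 (x1 x2 : ℝ) : ℝ := v0 x1 x2 * v142 x1 x2
theorem h170 (h : In b E x1 x2) : Enc S E (t170 b) (v170 x1 x2) := enc_mul hS (h0 h) (h142 h)

def t171 (b : Bx) : TM := tphi S (t170 b) (t165 b)
noncomputable def v171 (x1 x2 : ℝ) : ℝ := Pool.Agent.Strip051.LC.Line.phi (v170 x1 x2) (v165 x1 x2)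
theorem h171 (h : In b E x1 x2) : Enc S E (t171 b) (v171 x1 x2) := enc_phi hS (h170 h) (h165 h)

def t172 (b : Bx) : TM := tmul S (t1 b) (t171 b)
noncomputable def v172 (x1 x2 : ℝ) : ℝ := v1 x1 x2 * v171 x1 x2
theorem h172 (h : In b E x1 x2) : Enc S E (t172 b) (v172 x1 x2) := enc_mul hS (h1 h) (h171 h)

def t173 (b : Bx) : TM := tmul S (t0 b) (t150 b)
noncomputable def v173 (x1 x2 : ℝ) : ℝ := v0 x1 x2 * v150 x1 x2
theorem h173 (h : In b E x1 x2) : Enc S E (t173 b) (v173 x1 x2) := enc_mul hS (h0 h) (h150 h)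

def t174 (b : Bx) : TM := tphi S (t165 b) (t173 b)
noncomputable def v174 (x1 x2 : ℝ) : ℝ := Pool.Agent.Strip051.LC.Line.phi (v165 x1 x2) (v173 x1 x2)
theorem h174 (h : In b E x1 x2) : Enc S E (t174 b) (v174 x1 x2) := enc_phi hS (h165 h) (h173 h)

def t175 (b : Bx) : TM := tmul S (t3 b) (t174 b)
noncomputable def v175 (x1 x2 : ℝ) : ℝ := v3 x1 x2 * v174 x1 x2
theorem h175 (h : In b E x1 x2) : Enc S E (t175 b) (v175 x1 x2) := enc_mul hS (h3 h) (h174 h)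

def t176 (b : Bx) : TM := tadd (t172 b) (t175 b)
noncomputable def v176 (x1 x2 : ℝ) : ℝ := v172 x1 x2 + v175 x1 x2
theorem h176 (h : In b E x1 x2) : Enc S E (t176 b) (v176 x1 x2) := enc_add (h172 h) (h175 h)

def t177 (b : Bx) : TM := tphi S (t150 b) (t142 b)
noncomputable def v177 (x1 x2 : ℝ) : ℝ := Pool.Agent.Strip051.LC.Line.phi (v150 x1 x2) (v142 x1 x2)
theorem h177 (h : In b E x1 x2) : Enc S E (t177 b) (v177 x1 x2) := enc_phi hS (h150 h) (h142 h)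

def t178 (b : Bx) : TM := tmul S (t157 b) (t177 b)
noncomputable def v178 (x1 x2 : ℝ) : ℝ := v157 x1 x2 * v177 x1 x2
theorem h178 (h : In b E x1 x2) : Enc S E (t178 b) (v178 x1 x2) := enc_mul hS (h157 h) (h177 h)

def t179 (b : Bx) : TM := tadd (t176 b) (t178 b)
noncomputable def v179 (x1 x2 : ℝ) : ℝ := v176 x1 x2 + v178 x1 x2
theorem h179 (h : In b E x1 x2) : Enc S E (t179 b) (v179 x1 x2) := enc_add (h176 h) (h178 h)

def t180 (b : Bx) : TM := tmul S (t2 b) (t179 b)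
noncomputable def v180 (x1 x2 : ℝ) : ℝ := v2 x1 x2 * v179 x1 x2
theorem h180 (h : In b E x1 x2) : Enc S E (t180 b) (v180 x1 x2) := enc_mul hS (h2 h) (h179 h)

def t181 (b : Bx) : TM := tsub (t169 b) (t180 b)
noncomputable def v181 (x1 x2 : ℝ) : ℝ := v169 x1 x2 - v180 x1 x2
theorem h181 (h : In b E x1 x2) : Enc S E (t181 b) (v181 x1 x2) := enc_sub (h169 h) (h180 h)

def t182 (b : Bx) : TM := tneg (t115 b)
noncomputable def v182 (x1 x2 : ℝ) : ℝ := -(v115 x1 x2)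
theorem h182 (h : In b E x1 x2) : Enc S E (t182 b) (v182 x1 x2) := enc_neg (h115 h)

def t183 (b : Bx) : TM := tmul S (t3 b) (t96 b)
noncomputable def v183 (x1 x2 : ℝ) : ℝ := v3 x1 x2 * v96 x1 x2
theorem h183 (h : In b E x1 x2) : Enc S E (t183 b) (v183 x1 x2) := enc_mul hS (h3 h) (h96 h)

def t184 (b : Bx) : TM := tsub (t183 b) (t66 b)
noncomputable def v184 (x1 x2 : ℝ) : ℝ := v183 x1 x2 - v66 x1 x2
theorem h184 (h : In b E x1 x2) : Enc S E (t184 b) (v184 x1 x2) := enc_sub (h183 h) (h66 h)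

def t185 (b : Bx) : TM := tneg (t184 b)
noncomputable def v185 (x1 x2 : ℝ) : ℝ := -(v184 x1 x2)
theorem h185 (h : In b E x1 x2) : Enc S E (t185 b) (v185 x1 x2) := enc_neg (h184 h)

def t186 (_b : Bx) : TM := tconst (Nat.mul 3 S) 0 0
noncomputable def v186 (_x1 _x2 : ℝ) : ℝ := ((3 : ℕ) : ℝ)
theorem h186 (_h : In b E x1 x2) : Enc S E (t186 b) (v186 x1 x2) := enc_nc E 3

def t187 (b : Bx) : TM := tsub (t186 b) (t89 b)
noncomputable def v187 (x1 x2 : ℝ) : ℝ := v186 x1 x2 - v89 x1 x2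
theorem h187 (h : In b E x1 x2) : Enc S E (t187 b) (v187 x1 x2) := enc_sub (h186 h) (h89 h)

def t188 (b : Bx) : TM := tsqrt S (t187 b)
noncomputable def v188 (x1 x2 : ℝ) : ℝ := Real.sqrt (v187 x1 x2)
theorem h188 (h : In b E x1 x2) : Enc S E (t188 b) (v188 x1 x2) := enc_sqrt hS (h187 h)

def t189 (b : Bx) : TM := tadd (t86 b) (t188 b)
noncomputable def v189 (x1 x2 : ℝ) : ℝ := v86 x1 x2 + v188 x1 x2
theorem h189 (h : In b E x1 x2) : Enc S E (t189 b) (v189 x1 x2) := enc_add (h86 h) (h188 h)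

def t190 (b : Bx) : TM := tscale 1 2 (t189 b)
noncomputable def v190 (x1 x2 : ℝ) : ℝ := ((1 : ℕ) : ℝ) / ((2 : ℕ) : ℝ) * v189 x1 x2
theorem h190 (h : In b E x1 x2) : Enc S E (t190 b) (v190 x1 x2) := enc_scale 1 (by norm_num) (h189 h)

def t191 (b : Bx) : TM := tmul S (t10 b) (t32 b)
noncomputable def v191 (x1 x2 : ℝ) : ℝ := v10 x1 x2 * v32 x1 x2
theorem h191 (h : In b E x1 x2) : Enc S E (t191 b) (v191 x1 x2) := enc_mul hS (h10 h) (h32 h)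

def t192 (b : Bx) : TM := tscale 144 125 (t191 b)
noncomputable def v192 (x1 x2 : ℝ) : ℝ := ((144 : ℕ) : ℝ) / ((125 : ℕ) : ℝ) * v191 x1 x2
theorem h192 (h : In b E x1 x2) : Enc S E (t192 b) (v192 x1 x2) := enc_scale 144 (by norm_num) (h191 h)

def t193 (_b : Bx) : TM := tconst (Nat.div (Nat.mul 51 S) 100) 0 1
noncomputable def v193 (_x1 _x2 : ℝ) : ℝ := ((51 : ℕ) : ℝ) / ((100 : ℕ) : ℝ)
theorem h193 (_h : In b E x1 x2) : Enc S E (t193 b) (v193 x1 x2) := enc_rat E 51 (by norm_num)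

def t194 (b : Bx) : TM := tsub (t193 b) (t192 b)
noncomputable def v194 (x1 x2 : ℝ) : ℝ := v193 x1 x2 - v192 x1 x2
theorem h194 (h : In b E x1 x2) : Enc S E (t194 b) (v194 x1 x2) := enc_sub (h193 h) (h192 h)

def t195 (b : Bx) : TM := tmul S (t190 b) (t194 b)
noncomputable def v195 (x1 x2 : ℝ) : ℝ := v190 x1 x2 * v194 x1 x2
theorem h195 (h : In b E x1 x2) : Enc S E (t195 b) (v195 x1 x2) := enc_mul hS (h190 h) (h194 h)

def t196 (b : Bx) : TM := tadd (t91 b) (t86 b)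
noncomputable def v196 (x1 x2 : ℝ) : ℝ := v91 x1 x2 + v86 x1 x2
theorem h196 (h : In b E x1 x2) : Enc S E (t196 b) (v196 x1 x2) := enc_add (h91 h) (h86 h)

def t197 (b : Bx) : TM := tscale 1 2 (t196 b)
noncomputable def v197 (x1 x2 : ℝ) : ℝ := ((1 : ℕ) : ℝ) / ((2 : ℕ) : ℝ) * v196 x1 x2
theorem h197 (h : In b E x1 x2) : Enc S E (t197 b) (v197 x1 x2) := enc_scale 1 (by norm_num) (h196 h)

def t198 (b : Bx) : TM := tscale 149 125 (t191 b)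
noncomputable def v198 (x1 x2 : ℝ) : ℝ := ((149 : ℕ) : ℝ) / ((125 : ℕ) : ℝ) * v191 x1 x2
theorem h198 (h : In b E x1 x2) : Enc S E (t198 b) (v198 x1 x2) := enc_scale 149 (by norm_num) (h191 h)

def t199 (b : Bx) : TM := tsub (t2 b) (t198 b)
noncomputable def v199 (x1 x2 : ℝ) : ℝ := v2 x1 x2 - v198 x1 x2
theorem h199 (h : In b E x1 x2) : Enc S E (t199 b) (v199 x1 x2) := enc_sub (h2 h) (h198 h)

def t200 (b : Bx) : TM := tmul S (t197 b) (t199 b)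
noncomputable def v200 (x1 x2 : ℝ) : ℝ := v197 x1 x2 * v199 x1 x2
theorem h200 (h : In b E x1 x2) : Enc S E (t200 b) (v200 x1 x2) := enc_mul hS (h197 h) (h199 h)

def t201 (b : Bx) : TM := tsub (t195 b) (t200 b)
noncomputable def v201 (x1 x2 : ℝ) : ℝ := v195 x1 x2 - v200 x1 x2
theorem h201 (h : In b E x1 x2) : Enc S E (t201 b) (v201 x1 x2) := enc_sub (h195 h) (h200 h)

def t202 (b : Bx) : TM := tsub (t190 b) (t197 b)
noncomputable def v202 (x1 x2 : ℝ) : ℝ := v190 x1 x2 - v197 x1 x2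
theorem h202 (h : In b E x1 x2) : Enc S E (t202 b) (v202 x1 x2) := enc_sub (h190 h) (h197 h)

def t203 (b : Bx) : TM := tinv S (t202 b)
noncomputable def v203 (x1 x2 : ℝ) : ℝ := (v202 x1 x2)⁻¹
theorem h203 (h : In b E x1 x2) : Enc S E (t203 b) (v203 x1 x2) := enc_inv hS (h202 h)

def t204 (b : Bx) : TM := tmul S (t201 b) (t203 b)
noncomputable def v204 (x1 x2 : ℝ) : ℝ := v201 x1 x2 * v203 x1 x2
theorem h204 (h : In b E x1 x2) : Enc S E (t204 b) (v204 x1 x2) := enc_mul hS (h201 h) (h203 h)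

def t205 (b : Bx) : TM := tmul S (t3 b) (t100 b)
noncomputable def v205 (x1 x2 : ℝ) : ℝ := v3 x1 x2 * v100 x1 x2
theorem h205 (h : In b E x1 x2) : Enc S E (t205 b) (v205 x1 x2) := enc_mul hS (h3 h) (h100 h)

def t206 (b : Bx) : TM := tsub (t66 b) (t183 b)
noncomputable def v206 (x1 x2 : ℝ) : ℝ := v66 x1 x2 - v183 x1 x2
theorem h206 (h : In b E x1 x2) : Enc S E (t206 b) (v206 x1 x2) := enc_sub (h66 h) (h183 h)

def t207 (b : Bx) : TM := tmul S (t204 b) (t206 b)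
noncomputable def v207 (x1 x2 : ℝ) : ℝ := v204 x1 x2 * v206 x1 x2
theorem h207 (h : In b E x1 x2) : Enc S E (t207 b) (v207 x1 x2) := enc_mul hS (h204 h) (h206 h)

def t208 (b : Bx) : TM := tadd (t205 b) (t207 b)
noncomputable def v208 (x1 x2 : ℝ) : ℝ := v205 x1 x2 + v207 x1 x2
theorem h208 (h : In b E x1 x2) : Enc S E (t208 b) (v208 x1 x2) := enc_add (h205 h) (h207 h)

def t209 (b : Bx) : TM := tneg (t208 b)
noncomputable def v209 (x1 x2 : ℝ) : ℝ := -(v208 x1 x2)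
theorem h209 (h : In b E x1 x2) : Enc S E (t209 b) (v209 x1 x2) := enc_neg (h208 h)

def t210 (b : Bx) : TM := tmul S (t0 b) (t209 b)
noncomputable def v210 (x1 x2 : ℝ) : ℝ := v0 x1 x2 * v209 x1 x2
theorem h210 (h : In b E x1 x2) : Enc S E (t210 b) (v210 x1 x2) := enc_mul hS (h0 h) (h209 h)

def t211 (b : Bx) : TM := tadd (t6 b) (t210 b)
noncomputable def v211 (x1 x2 : ℝ) : ℝ := v6 x1 x2 + v210 x1 x2
theorem h211 (h : In b E x1 x2) : Enc S E (t211 b) (v211 x1 x2) := enc_add (h6 h) (h210 h)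

def t212 (b : Bx) : TM := tsub (t126 b) (t209 b)
noncomputable def v212 (x1 x2 : ℝ) : ℝ := v126 x1 x2 - v209 x1 x2
theorem h212 (h : In b E x1 x2) : Enc S E (t212 b) (v212 x1 x2) := enc_sub (h126 h) (h209 h)

def t213 (b : Bx) : TM := tneg (t211 b)
noncomputable def v213 (x1 x2 : ℝ) : ℝ := -(v211 x1 x2)
theorem h213 (h : In b E x1 x2) : Enc S E (t213 b) (v213 x1 x2) := enc_neg (h211 h)

def t214 (b : Bx) : TM := tmul S (t8 b) (t212 b)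
noncomputable def v214 (x1 x2 : ℝ) : ℝ := v8 x1 x2 * v212 x1 x2
theorem h214 (h : In b E x1 x2) : Enc S E (t214 b) (v214 x1 x2) := enc_mul hS (h8 h) (h212 h)

def t215 (b : Bx) : TM := tmul S (t0 b) (t212 b)
noncomputable def v215 (x1 x2 : ℝ) : ℝ := v0 x1 x2 * v212 x1 x2
theorem h215 (h : In b E x1 x2) : Enc S E (t215 b) (v215 x1 x2) := enc_mul hS (h0 h) (h212 h)

def t216 (b : Bx) : TM := tadd (t215 b) (t213 b)
noncomputable def v216 (x1 x2 : ℝ) : ℝ := v215 x1 x2 + v213 x1 x2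
theorem h216 (h : In b E x1 x2) : Enc S E (t216 b) (v216 x1 x2) := enc_add (h215 h) (h213 h)

def t217 (b : Bx) : TM := tmul S (t1 b) (t216 b)
noncomputable def v217 (x1 x2 : ℝ) : ℝ := v1 x1 x2 * v216 x1 x2
theorem h217 (h : In b E x1 x2) : Enc S E (t217 b) (v217 x1 x2) := enc_mul hS (h1 h) (h216 h)

def t218 (b : Bx) : TM := tsub (t214 b) (t217 b)
noncomputable def v218 (x1 x2 : ℝ) : ℝ := v214 x1 x2 - v217 x1 x2
theorem h218 (h : In b E x1 x2) : Enc S E (t218 b) (v218 x1 x2) := enc_sub (h214 h) (h217 h)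

def t219 (b : Bx) : TM := tsub (t215 b) (t128 b)
noncomputable def v219 (x1 x2 : ℝ) : ℝ := v215 x1 x2 - v128 x1 x2
theorem h219 (h : In b E x1 x2) : Enc S E (t219 b) (v219 x1 x2) := enc_sub (h215 h) (h128 h)

def t220 (b : Bx) : TM := tmul S (t3 b) (t219 b)
noncomputable def v220 (x1 x2 : ℝ) : ℝ := v3 x1 x2 * v219 x1 x2
theorem h220 (h : In b E x1 x2) : Enc S E (t220 b) (v220 x1 x2) := enc_mul hS (h3 h) (h219 h)

def t221 (b : Bx) : TM := tsub (t218 b) (t220 b)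
noncomputable def v221 (x1 x2 : ℝ) : ℝ := v218 x1 x2 - v220 x1 x2
theorem h221 (h : In b E x1 x2) : Enc S E (t221 b) (v221 x1 x2) := enc_sub (h218 h) (h220 h)

def t222 (b : Bx) : TM := tmul S (t221 b) (t75 b)
noncomputable def v222 (x1 x2 : ℝ) : ℝ := v221 x1 x2 * v75 x1 x2
theorem h222 (h : In b E x1 x2) : Enc S E (t222 b) (v222 x1 x2) := enc_mul hS (h221 h) (h75 h)

def t223 (b : Bx) : TM := tadd (t222 b) (t141 b)
noncomputable def v223 (x1 x2 : ℝ) : ℝ := v222 x1 x2 + v141 x1 x2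
theorem h223 (h : In b E x1 x2) : Enc S E (t223 b) (v223 x1 x2) := enc_add (h222 h) (h141 h)

def t224 (b : Bx) : TM := tsub (t215 b) (t213 b)
noncomputable def v224 (x1 x2 : ℝ) : ℝ := v215 x1 x2 - v213 x1 x2
theorem h224 (h : In b E x1 x2) : Enc S E (t224 b) (v224 x1 x2) := enc_sub (h215 h) (h213 h)

def t225 (b : Bx) : TM := tmul S (t1 b) (t224 b)
noncomputable def v225 (x1 x2 : ℝ) : ℝ := v1 x1 x2 * v224 x1 x2
theorem h225 (h : In b E x1 x2) : Enc S E (t225 b) (v225 x1 x2) := enc_mul hS (h1 h) (h224 h)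

def t226 (b : Bx) : TM := tadd (t215 b) (t128 b)
noncomputable def v226 (x1 x2 : ℝ) : ℝ := v215 x1 x2 + v128 x1 x2
theorem h226 (h : In b E x1 x2) : Enc S E (t226 b) (v226 x1 x2) := enc_add (h215 h) (h128 h)

def t227 (b : Bx) : TM := tmul S (t3 b) (t226 b)
noncomputable def v227 (x1 x2 : ℝ) : ℝ := v3 x1 x2 * v226 x1 x2
theorem h227 (h : In b E x1 x2) : Enc S E (t227 b) (v227 x1 x2) := enc_mul hS (h3 h) (h226 h)

def t228 (b : Bx) : TM := tadd (t225 b) (t227 b)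
noncomputable def v228 (x1 x2 : ℝ) : ℝ := v225 x1 x2 + v227 x1 x2
theorem h228 (h : In b E x1 x2) : Enc S E (t228 b) (v228 x1 x2) := enc_add (h225 h) (h227 h)

def t229 (b : Bx) : TM := tsub (t228 b) (t214 b)
noncomputable def v229 (x1 x2 : ℝ) : ℝ := v228 x1 x2 - v214 x1 x2
theorem h229 (h : In b E x1 x2) : Enc S E (t229 b) (v229 x1 x2) := enc_sub (h228 h) (h214 h)

def t230 (b : Bx) : TM := tmul S (t229 b) (t75 b)
noncomputable def v230 (x1 x2 : ℝ) : ℝ := v229 x1 x2 * v75 x1 x2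
theorem h230 (h : In b E x1 x2) : Enc S E (t230 b) (v230 x1 x2) := enc_mul hS (h229 h) (h75 h)

def t231 (b : Bx) : TM := tadd (t230 b) (t141 b)
noncomputable def v231 (x1 x2 : ℝ) : ℝ := v230 x1 x2 + v141 x1 x2
theorem h231 (h : In b E x1 x2) : Enc S E (t231 b) (v231 x1 x2) := enc_add (h230 h) (h141 h)

def t232 (b : Bx) : TM := tmul S (t213 b) (t151 b)
noncomputable def v232 (x1 x2 : ℝ) : ℝ := v213 x1 x2 * v151 x1 x2
theorem h232 (h : In b E x1 x2) : Enc S E (t232 b) (v232 x1 x2) := enc_mul hS (h213 h) (h151 h)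

def t233 (b : Bx) : TM := tsub (t232 b) (t154 b)
noncomputable def v233 (x1 x2 : ℝ) : ℝ := v232 x1 x2 - v154 x1 x2
theorem h233 (h : In b E x1 x2) : Enc S E (t233 b) (v233 x1 x2) := enc_sub (h232 h) (h154 h)

def t234 (b : Bx) : TM := tadd (t128 b) (t213 b)
noncomputable def v234 (x1 x2 : ℝ) : ℝ := v128 x1 x2 + v213 x1 x2
theorem h234 (h : In b E x1 x2) : Enc S E (t234 b) (v234 x1 x2) := enc_add (h128 h) (h213 h)

def t235 (b : Bx) : TM := tsub (t234 b) (t215 b)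
noncomputable def v235 (x1 x2 : ℝ) : ℝ := v234 x1 x2 - v215 x1 x2
theorem h235 (h : In b E x1 x2) : Enc S E (t235 b) (v235 x1 x2) := enc_sub (h234 h) (h215 h)

def t236 (b : Bx) : TM := tmul S (t158 b) (t235 b)
noncomputable def v236 (x1 x2 : ℝ) : ℝ := v158 x1 x2 * v235 x1 x2
theorem h236 (h : In b E x1 x2) : Enc S E (t236 b) (v236 x1 x2) := enc_mul hS (h158 h) (h235 h)

def t237 (b : Bx) : TM := tadd (t233 b) (t236 b)
noncomputable def v237 (x1 x2 : ℝ) : ℝ := v233 x1 x2 + v236 x1 x2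
theorem h237 (h : In b E x1 x2) : Enc S E (t237 b) (v237 x1 x2) := enc_add (h233 h) (h236 h)

def t238 (b : Bx) : TM := tmul S (t237 b) (t75 b)
noncomputable def v238 (x1 x2 : ℝ) : ℝ := v237 x1 x2 * v75 x1 x2
theorem h238 (h : In b E x1 x2) : Enc S E (t238 b) (v238 x1 x2) := enc_mul hS (h237 h) (h75 h)

def t239 (b : Bx) : TM := tadd (t238 b) (t164 b)
noncomputable def v239 (x1 x2 : ℝ) : ℝ := v238 x1 x2 + v164 x1 x2
theorem h239 (h : In b E x1 x2) : Enc S E (t239 b) (v239 x1 x2) := enc_add (h238 h) (h164 h)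

def t240 (b : Bx) : TM := tmul S (t0 b) (t223 b)
noncomputable def v240 (x1 x2 : ℝ) : ℝ := v0 x1 x2 * v223 x1 x2
theorem h240 (h : In b E x1 x2) : Enc S E (t240 b) (v240 x1 x2) := enc_mul hS (h0 h) (h223 h)

def t241 (b : Bx) : TM := tphi S (t240 b) (t239 b)
noncomputable def v241 (x1 x2 : ℝ) : ℝ := Pool.Agent.Strip051.LC.Line.phi (v240 x1 x2) (v239 x1 x2)
theorem h241 (h : In b E x1 x2) : Enc S E (t241 b) (v241 x1 x2) := enc_phi hS (h240 h) (h239 h)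

def t242 (b : Bx) : TM := tmul S (t1 b) (t241 b)
noncomputable def v242 (x1 x2 : ℝ) : ℝ := v1 x1 x2 * v241 x1 x2
theorem h242 (h : In b E x1 x2) : Enc S E (t242 b) (v242 x1 x2) := enc_mul hS (h1 h) (h241 h)

def t243 (b : Bx) : TM := tmul S (t0 b) (t231 b)
noncomputable def v243 (x1 x2 : ℝ) : ℝ := v0 x1 x2 * v231 x1 x2
theorem h243 (h : In b E x1 x2) : Enc S E (t243 b) (v243 x1 x2) := enc_mul hS (h0 h) (h231 h)

def t244 (b : Bx) : TM := tphi S (t239 b) (t243 b)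
noncomputable def v244 (x1 x2 : ℝ) : ℝ := Pool.Agent.Strip051.LC.Line.phi (v239 x1 x2) (v243 x1 x2)
theorem h244 (h : In b E x1 x2) : Enc S E (t244 b) (v244 x1 x2) := enc_phi hS (h239 h) (h243 h)

def t245 (b : Bx) : TM := tmul S (t3 b) (t244 b)
noncomputable def v245 (x1 x2 : ℝ) : ℝ := v3 x1 x2 * v244 x1 x2
theorem h245 (h : In b E x1 x2) : Enc S E (t245 b) (v245 x1 x2) := enc_mul hS (h3 h) (h244 h)

def t246 (b : Bx) : TM := tadd (t242 b) (t245 b)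
noncomputable def v246 (x1 x2 : ℝ) : ℝ := v242 x1 x2 + v245 x1 x2
theorem h246 (h : In b E x1 x2) : Enc S E (t246 b) (v246 x1 x2) := enc_add (h242 h) (h245 h)

def t247 (b : Bx) : TM := tphi S (t231 b) (t223 b)
noncomputable def v247 (x1 x2 : ℝ) : ℝ := Pool.Agent.Strip051.LC.Line.phi (v231 x1 x2) (v223 x1 x2)
theorem h247 (h : In b E x1 x2) : Enc S E (t247 b) (v247 x1 x2) := enc_phi hS (h231 h) (h223 h)

def t248 (b : Bx) : TM := tmul S (t157 b) (t247 b)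
noncomputable def v248 (x1 x2 : ℝ) : ℝ := v157 x1 x2 * v247 x1 x2
theorem h248 (h : In b E x1 x2) : Enc S E (t248 b) (v248 x1 x2) := enc_mul hS (h157 h) (h247 h)

def t249 (b : Bx) : TM := tadd (t246 b) (t248 b)
noncomputable def v249 (x1 x2 : ℝ) : ℝ := v246 x1 x2 + v248 x1 x2
theorem h249 (h : In b E x1 x2) : Enc S E (t249 b) (v249 x1 x2) := enc_add (h246 h) (h248 h)

def t250 (b : Bx) : TM := tmul S (t2 b) (t249 b)
noncomputable def v250 (x1 x2 : ℝ) : ℝ := v2 x1 x2 * v249 x1 x2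
theorem h250 (h : In b E x1 x2) : Enc S E (t250 b) (v250 x1 x2) := enc_mul hS (h2 h) (h249 h)

def t251 (b : Bx) : TM := tsub (t169 b) (t250 b)
noncomputable def v251 (x1 x2 : ℝ) : ℝ := v169 x1 x2 - v250 x1 x2
theorem h251 (h : In b E x1 x2) : Enc S E (t251 b) (v251 x1 x2) := enc_sub (h169 h) (h250 h)

def t252 (b : Bx) : TM := tneg (t206 b)
noncomputable def v252 (x1 x2 : ℝ) : ℝ := -(v206 x1 x2)
theorem h252 (h : In b E x1 x2) : Enc S E (t252 b) (v252 x1 x2) := enc_neg (h206 h)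

def t253 (b : Bx) : TM := tsub (t190 b) (t78 b)
noncomputable def v253 (x1 x2 : ℝ) : ℝ := v190 x1 x2 - v78 x1 x2
theorem h253 (h : In b E x1 x2) : Enc S E (t253 b) (v253 x1 x2) := enc_sub (h190 h) (h78 h)

def t254 (b : Bx) : TM := tsub (t78 b) (t188 b)
noncomputable def v254 (x1 x2 : ℝ) : ℝ := v78 x1 x2 - v188 x1 x2
theorem h254 (h : In b E x1 x2) : Enc S E (t254 b) (v254 x1 x2) := enc_sub (h78 h) (h188 h)

def g0 (b : Bx) : Bool := pos (t78 b)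

def Q0 (x1 x2 : ℝ) : Prop := 0 < v78 x1 x2

theorem g0_sound (h : In b E x1 x2) (e : g0 b = true) : Q0 x1 x2 :=
  pos_sound hS (h78 h) e

def g1 (b : Bx) : Bool := or (pos (t182 b)) (or (pos (t185 b)) (pos (t181 b)))

def Q1 (x1 x2 : ℝ) : Prop := 0 < v182 x1 x2 ∨ 0 < v185 x1 x2 ∨ 0 < v181 x1 x2

theorem g1_sound (h : In b E x1 x2) (e : g1 b = true) : Q1 x1 x2 :=
  ((Bool.or_eq_true_iff.mp e).imp (fun a => pos_sound hS (h182 h) a) (fun a => ((Bool.or_eq_true_iff.mp a).imp (fun a => pos_sound hS (h185 h) a) (fun a => pos_sound hS (h181 h) a))))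

def g2 (b : Bx) : Bool := or (pos (t252 b)) (pos (t251 b))

def Q2 (x1 x2 : ℝ) : Prop := 0 < v252 x1 x2 ∨ 0 < v251 x1 x2

theorem g2_sound (h : In b E x1 x2) (e : g2 b = true) : Q2 x1 x2 :=
  ((Bool.or_eq_true_iff.mp e).imp (fun a => pos_sound hS (h252 h) a) (fun a => pos_sound hS (h251 h) a))

def g3 (b : Bx) : Bool := or (pos (t253 b)) (pos (t254 b))

def Q3 (x1 x2 : ℝ) : Prop := 0 < v253 x1 x2 ∨ 0 < v254 x1 x2

theorem g3_sound (h : In b E x1 x2) (e : g3 b = true) : Q3 x1 x2 :=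
  ((Bool.or_eq_true_iff.mp e).imp (fun a => pos_sound hS (h253 h) a) (fun a => pos_sound hS (h254 h) a))

def f (b : Bx) : Nat := cond (g0 b) (cond (g1 b) (cond (g2 b) (cond (g3 b) (0) (pickb 1 (t253 b) b)) (pickb 1 (t251 b) b)) (pickb 1 (t181 b) b)) (pickb 1 (t78 b) b)

/-- the statement -/
def Q (x1 x2 : ℝ) : Prop := Q0 x1 x2 ∧ Q1 x1 x2 ∧ Q2 x1 x2 ∧ Q3 x1 x2

theorem f_sound (b : Bx) (hb : f b = 0) (x1 x2 : ℝ) (hm : Mem S b x1 x2) : Q x1 x2 := by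
  obtain ⟨E, h⟩ := pt_of_mem hm
  have h : In b E x1 x2 := h
  unfold f at hb
  have e0 : g0 b = true := by
    rcases e : g0 b with _ | _
    · rw [e, cond_false] at hb; exact absurd hb (pickb_ne _ _ _)
    · rfl
  rw [e0, cond_true] at hb
  have e1 : g1 b = true := by
    rcases e : g1 b with _ | _
    · rw [e, cond_false] at hb; exact absurd hb (pickb_ne _ _ _)
    · rfl
  rw [e1, cond_true] at hb
  have e2 : g2 b = true := by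
    rcases e : g2 b with _ | _
    · rw [e, cond_false] at hb; exact absurd hb (pickb_ne _ _ _)
    · rfl
  rw [e2, cond_true] at hb
  have e3 : g3 b = true := by
    rcases e : g3 b with _ | _
    · rw [e, cond_false] at hb; exact absurd hb (pickb_ne _ _ _)
    · rfl
  rw [e3, cond_true] at hb
  exact ⟨g0_sound h e0, g1_sound h e1, g2_sound h e2, g3_sound h e3⟩

/-- the box -/
def b0 : Bx := ⟨53687091, 0, 53687093, 536870912, 0, 536870913⟩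

theorem chk_all {n : ℕ} {b : Bx} (h : chk f n b = true) (x1 x2 : ℝ) (hm : Mem S b x1 x2) : Q x1 x2 :=
  chk_sound (fun b hb x1 x2 hm => f_sound b hb x1 x2 hm) n b h x1 x2 hm

theorem c0 : chk f 60 b0 = true := by decide +kernel

theorem mem0 {x1 x2 : ℝ} (h0 : 0 ≤ x1) (h1 : x1 ≤ 1 / 10) (h2 : 0 ≤ x2) (h3 : x2 ≤ 1) :
    Mem S b0 x1 x2 := by
  refine ⟨?_, ?_⟩ <;> rw [abs_le] <;> constructor <;> norm_num [S, b0] <;> linarith

end Pool.Agent.Strip051.LC.Line.Corn.B11pm202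

namespace Pool.Agent.Strip051.LC.Line.Corn.B11pm202

theorem box {ρ a : ℝ} (h0 : 0 ≤ ρ) (h1 : ρ ≤ 1 / 10) (h2 : 0 ≤ a) (h3 : a ≤ 1) :
    (0 < (((1 : ℕ) : ℝ) + (ρ * (-((-(((1 : ℕ) : ℝ) * (y1_2 (ρ * ((1 : ℕ) : ℝ))))) - (a * (y1_2 (ρ * a)))))))) ∧
    (0 < (-((-((-(((1 : ℕ) : ℝ) * (y1_2 (ρ * ((1 : ℕ) : ℝ))))) - (a * (y1_2 (ρ * a))))) - ((((1 : ℕ) : ℝ) - a) * (x1_0 (ρ * (((1 : ℕ) : ℝ) - a)))))) ∨ 0 < (-(((((1 : ℕ) : ℝ) - a) * (y1_0 (ρ * (((1 : ℕ) : ℝ) - a)))) - (-((-(((1 : ℕ) : ℝ) * (y1_2 (ρ * ((1 : ℕ) : ℝ))))) - (a * (y1_2 (ρ * a))))))) ∨ 0 < (coneQ ((1 : ℕ) : ℝ) ρ a (((1 : ℕ) : ℝ) - a) (-((((1 : ℕ) : ℝ) / ((2 : ℕ) : ℝ)) + (ρ * (a * (q1_2 (ρ * a)))))) (-((-((1 : ℕ) : ℝ)) + (ρ * (-(((((1 : ℕ) : ℝ) - a) * (r1_0 (ρ * (((1 : ℕ) : ℝ) - a)))) + ((g0_0 (ρ * (((1 : ℕ) : ℝ) - a))) * ((-((-(((1 : ℕ) : ℝ) * (y1_2 (ρ * ((1 : ℕ) : ℝ))))) - (a * (y1_2 (ρ * a))))) - ((((1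 : ℕ) : ℝ) - a) * (x1_0 (ρ * (((1 : ℕ) : ℝ) - a))))))))))) (((-(((1 : ℕ) : ℝ) * (q1_2 (ρ * ((1 : ℕ) : ℝ))))) - (a * (q1_2 (ρ * a)))) - (-(((((1 : ℕ) : ℝ) - a) * (r1_0 (ρ * (((1 : ℕ) : ℝ) - a)))) + ((g0_0 (ρ * (((1 : ℕ) : ℝ) - a))) * ((-((-(((1 : ℕ) : ℝ) * (y1_2 (ρ * ((1 : ℕ) : ℝ))))) - (a * (y1_2 (ρ * a))))) - ((((1 : ℕ) : ℝ) - a) * (x1_0 (ρ * (((1 : ℕ) : ℝ) - a))))))))) (((((a * (y1_2 (ρ * a))) * (gh + (ρ * ((1 : ℕ) : ℝ)))) + (((1 : ℕ) : ℝ) / ((2 : ℕ) : ℝ) * ((1 : ℕ) : ℝ))) - (((-(((1 : ℕ) : ℝ) * (y1_2 (ρ * ((1 : ℕ) : ℝ))))) * (gh + (ρ * a))) + (-(((1 : ℕ) : ℝ) / ((2 : ℕ) : ℝ) * a)))) * ((Real.sqrt ((3 : ℕ) : ℝ))⁻¹)))) ∧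
    (0 < (-((-((-(((1 : ℕ) : ℝ) * (y1_2 (ρ * ((1 : ℕ) : ℝ))))) - (a * (y1_2 (ρ * a))))) - ((((1 : ℕ) : ℝ) - a) * (y1_0 (ρ * (((1 : ℕ) : ℝ) - a)))))) ∨ 0 < (coneQ ((1 : ℕ) : ℝ) ρ a (((1 : ℕ) : ℝ) - a) (-((((1 : ℕ) : ℝ) / ((2 : ℕ) : ℝ)) + (ρ * (a * (q1_2 (ρ * a)))))) (-((-((1 : ℕ) : ℝ)) + (ρ * (-(((((1 : ℕ) : ℝ) - a) * (q1_0 (ρ * (((1 : ℕ) : ℝ) - a)))) + ((g1_0 (ρ * (((1 : ℕ) : ℝ) - a))) * ((-((-(((1 : ℕ) : ℝ) * (y1_2 (ρ * ((1 : ℕ) : ℝ))))) - (a * (y1_2 (ρ * a))))) - ((((1 : ℕ) : ℝ) - a) * (y1_0 (ρ * (((1 : ℕ) : ℝ) - a))))))))))) (((-(((1 : ℕ) : ℝ) * (q1_2 (ρ * ((1 : ℕ) : ℝ))))) - (a * (q1_2 (ρ * a)))) - (-(((((1 : ℕ) : ℝ) - a) * (q1_0 (ρ * (((1 : ℕ) : ℝ) - a)))) + ((g1_0 (ρ * (((1 : ℕ) : ℝ) - a))) * ((-((-(((1 : ℕ) : ℝ) * (y1_2 (ρ * ((1 : ℕ) : ℝ))))) - (a * (y1_2 (ρ * a))))) - ((((1 : ℕ) : ℝ) - a) * (y1_0 (ρ * (((1 : ℕ) : ℝ) - a))))))))) (((((a * (y1_2 (ρ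 * a))) * (gh + (ρ * ((1 : ℕ) : ℝ)))) + (((1 : ℕ) : ℝ) / ((2 : ℕ) : ℝ) * ((1 : ℕ) : ℝ))) - (((-(((1 : ℕ) : ℝ) * (y1_2 (ρ * ((1 : ℕ) : ℝ))))) * (gh + (ρ * a))) + (-(((1 : ℕ) : ℝ) / ((2 : ℕ) : ℝ) * a)))) * ((Real.sqrt ((3 : ℕ) : ℝ))⁻¹)))) ∧
    (0 < ((kf2m (ρ * (((1 : ℕ) : ℝ) - a))) - (((1 : ℕ) : ℝ) + (ρ * (-((-(((1 : ℕ) : ℝ) * (y1_2 (ρ * ((1 : ℕ) : ℝ))))) - (a * (y1_2 (ρ * a)))))))) ∨ 0 < ((((1 : ℕ) : ℝ) + (ρ * (-((-(((1 : ℕ) : ℝ) * (y1_2 (ρ * ((1 : ℕ) : ℝ))))) - (a * (y1_2 (ρ * a))))))) - (kc3 (ρ * (((1 : ℕ) : ℝ) - a))))) :=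
  chk_all c0 ρ a (mem0 h0 h1 h2 h3)

end Pool.Agent.Strip051.LC.Line.Corn.B11pm202

namespace Pool.Agent.Strip051.LC.Line.Corn

open Pool.Agent.StripNear Pool.Agent.StripSquare Pool.Agent.Strip051.Sweep
  Pool.Agent.Strip051.LC

/-- **The chart.** -/
theorem main_B11pm202 {v : ℝ → Fin 5 → ℝ} (hv : CT v) {ρ a t t' : ℝ} (hρ : 0 < ρ) (hρ1 : ρ ≤ 1 / 10)
    (ha : 0 ≤ a) (ha1 : a ≤ 1) (ht : t = h0 + ρ * a) (ht' : t' = ρ * (1 - a))
    {i : Fin 3} {ε : ℝ} (hε : ε = 1 ∨ ε = -1)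
    (H : HypB 1 1 1 (-1) ε i t t') :
    NFV 1 (1 * cv 1 t) ((-1) * cv 1 (t + t')) t t' (valB 1 1 1 (-1) ε i t t' v) := by
  have hp := h0_gt
  have hl := h0_lt
  obtain ⟨b0, b1, b2, b3⟩ := B11pm202.box hρ.le hρ1 ha ha1
  obtain ⟨-, -, -, -, -, h1, h3, hlo, hhi⟩ := H
  have ea : 0 ≤ ρ * a := mul_nonneg hρ.le ha
  have eb : 0 ≤ ρ * (1 - a) := mul_nonneg hρ.le (by linarith)
  have e0 : t = h0 + (ρ * a) := by
    rw [ht]
    try push_cast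
    try ring
  have e1 : t' = (ρ * (((1 : ℕ) : ℝ) - a)) := by
    rw [ht']
    try push_cast
    try ring
  have e2 : (t + t') = h0 + (ρ * ((1 : ℕ) : ℝ)) := by
    rw [ht, ht']
    try push_cast
    try ring
  have z0 : (ρ * a) = t - h0 := by
    linarith [e0]
  have z1 : (ρ * (((1 : ℕ) : ℝ) - a)) = t' := by
    linarith [e1]
  have z2 : (ρ * ((1 : ℕ) : ℝ)) = (t + t') - h0 := by
    linarith [e2]
  have za : ρ * a ≤ 1 / 10 := by nlinarith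
  have zb : ρ * (1 - a) ≤ 1 / 10 := by nlinarith
  have g0 : cv 1 t = 1 / 2 + ρ * (a * y1_2 (ρ * a)) := by
    change f1 t = _
    rw [e0, germ_y1_2 (s := (ρ * a)) (by rw [z0]; linarith) (by rw [z0]; linarith)]
    ring
  have r0 : v t (tg 1) = 1 / 2 + ρ * (a * q1_2 (ρ * a)) := by
    change v t 1 = _
    rw [e0, germ_q1_2 (s := (ρ * a)) (by rw [z0]; linarith) (by rw [z0]; linarith) hv]
    ring
  have g2 : cv 1 (t + t') = 1 / 2 + ρ * (((1 : ℕ) : ℝ) * y1_2 (ρ * ((1 : ℕ) : ℝ))) := by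
    change f1 (t + t') = _
    rw [e2, germ_y1_2 (s := (ρ * ((1 : ℕ) : ℝ))) (by rw [z2]; linarith) (by rw [z2]; linarith)]
    ring
  have r2 : v (t + t') (tg 1) = 1 / 2 + ρ * (((1 : ℕ) : ℝ) * q1_2 (ρ * ((1 : ℕ) : ℝ))) := by
    change v (t + t') 1 = _
    rw [e2, germ_q1_2 (s := (ρ * ((1 : ℕ) : ℝ))) (by rw [z2]; linarith) (by rw [z2]; linarith) hv]
    ring
  have hX : (-1) * ((-1) * cv 1 (t + t') - 1 * cv 1 t) = 1 + ρ * (-((-(((1 : ℕ) : ℝ) * (y1_2 (ρ * ((1 : ℕ) : ℝ))))) - (a * (y1_2 (ρ * a))))) := by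
    rw [g0, g2]
    push_cast
    ring
  have he : exc (1 * cv 1 t) ((-1) * cv 1 (t + t')) t t' = ρ * (((((a * (y1_2 (ρ * a))) * (gh + (ρ * ((1 : ℕ) : ℝ)))) + (((1 : ℕ) : ℝ) / ((2 : ℕ) : ℝ) * ((1 : ℕ) : ℝ))) - (((-(((1 : ℕ) : ℝ) * (y1_2 (ρ * ((1 : ℕ) : ℝ))))) * (gh + (ρ * a))) + (-(((1 : ℕ) : ℝ) / ((2 : ℕ) : ℝ) * a)))) * ((Real.sqrt ((3 : ℕ) : ℝ))⁻¹)) := by
    have hh : h0 ≠ 0 := by linarith
    unfold exc
    rw [g0, g2, e2, e0, r3_eq, gh_eq]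
    push_cast
    field_simp
    try ring
  have hc : ∀ m : Fin 4, 0 ≤ cv m t' := fun m => cv_nonneg m (by linarith) (by nlinarith [h0_sq'])
  rcases hε with rfl | rfl
  · exfalso
    have h5 := hc i.castSucc
    have h6 : 0 < 1 + ρ * (-((-(((1 : ℕ) : ℝ) * (y1_2 (ρ * ((1 : ℕ) : ℝ))))) - (a * (y1_2 (ρ * a))))) := by
      have := b0
      push_cast at this ⊢
      linarith
    linarith
  · rw [hX] at hlo hhi
    fin_cases i
    · have hlo' : c1 t' ≤ 1 + ρ * (-((-(((1 : ℕ) : ℝ) * (y1_2 (ρ * ((1 : ℕ) : ℝ))))) - (a * (y1_2 (ρ * a))))) := hlo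
      have hhi' : 1 + ρ * (-((-(((1 : ℕ) : ℝ) * (y1_2 (ρ * ((1 : ℕ) : ℝ))))) - (a * (y1_2 (ρ * a))))) ≤ f1 t' := hhi
      have gxlo : c1 t' = 1 + ρ * ((((1 : ℕ) : ℝ) - a) * x1_0 (ρ * (((1 : ℕ) : ℝ) - a))) := by
        rw [e1, germ_x1_0 (s := (ρ * (((1 : ℕ) : ℝ) - a))) (by rw [z1]; linarith) (by rw [z1]; linarith)]
        ring
      have gxhi : f1 t' = 1 + ρ * ((((1 : ℕ) : ℝ) - a) * y1_0 (ρ * (((1 : ℕ) : ℝ) - a))) := by
        rw [e1, germ_y1_0 (s := (ρ * (((1 : ℕ) : ℝ) - a))) (by rw [z1]; linarith) (by rw [z1]; linarith)]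
        ring
      have gr : v t' 0 = 1 + ρ * ((((1 : ℕ) : ℝ) - a) * r1_0 (ρ * (((1 : ℕ) : ℝ) - a))) := by
        rw [e1, germ_r1_0 (s := (ρ * (((1 : ℕ) : ℝ) - a))) (by rw [z1]; linarith) (by rw [z1]; linarith) hv]
        ring
      have gG : v t' 1 - v t' 0 = g0_0 (ρ * (((1 : ℕ) : ℝ) - a)) * (f1 t' - c1 t') := by
        rw [e1]
        exact germ_g0_0 (s := (ρ * (((1 : ℕ) : ℝ) - a))) (by rw [z1]; linarith) (by rw [z1]; linarith) hv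
      have hseg := seg_lo (v := v) (i := 0) (T := t') (G := g0_0 (ρ * (((1 : ℕ) : ℝ) - a))) gxlo gr rfl gG hlo' hhi'
      rcases b1 with hb | hb | hb
      · exfalso
        rw [gxlo] at hlo'
        have h7 := mul_pos hρ hb
        push_cast at h7 hlo'
        nlinarith
      · exfalso
        rw [gxhi] at hhi'
        have h7 := mul_pos hρ hb
        push_cast at h7 hhi'
        nlinarith
      · refine cell_202 one_pos hρ hρ1 ha ha1 he (d := (((-(((1 : ℕ) : ℝ) * (q1_2 (ρ * ((1 : ℕ) : ℝ))))) - (a * (q1_2 (ρ * a)))) - (-(((((1 : ℕ) : ℝ) - a) * (r1_0 (ρ * (((1 : ℕ) : ℝ) - a)))) + ((g0_0 (ρ * (((1 : ℕ) : ℝ) - a))) * ((-((-(((1 : ℕ) : ℝ) * (y1_2 (ρ * ((1 : ℕ) : ℝ))))) - (a * (y1_2 (ρ * a))))) - ((((1 : ℕ) : ℝ) - a) * (x1_0 (ρ * (((1 : ℕ) : ℝ) - a)))))))))) ?_ ht ht' (A1 := (-((((1 : ℕ) : ℝ) / ((2 : ℕ) : ℝ)) + (ρ * (a * (q1_2 (ρ * a))))))) (A2 := (-((-((1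 : ℕ) : ℝ)) + (ρ * (-(((((1 : ℕ) : ℝ) - a) * (r1_0 (ρ * (((1 : ℕ) : ℝ) - a)))) + ((g0_0 (ρ * (((1 : ℕ) : ℝ) - a))) * ((-((-(((1 : ℕ) : ℝ) * (y1_2 (ρ * ((1 : ℕ) : ℝ))))) - (a * (y1_2 (ρ * a))))) - ((((1 : ℕ) : ℝ) - a) * (x1_0 (ρ * (((1 : ℕ) : ℝ) - a)))))))))))) ?_ ?_ ?_
        · change (-1) * v (t + t') (tg 1) - 1 * v t (tg 1) - (-1) * segW v 0 ((-1) * ((-1) * cv 1 (t + t') - 1 * cv 1 t)) t' = _
          rw [hX, hseg, r0, r2]
          push_cast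
          ring
        · change (-((((1 : ℕ) : ℝ) / ((2 : ℕ) : ℝ)) + (ρ * (a * (q1_2 (ρ * a)))))) = -(1 * v t (tg 1))
          rw [r0]
          push_cast
          ring
        · change (-((-((1 : ℕ) : ℝ)) + (ρ * (-(((((1 : ℕ) : ℝ) - a) * (r1_0 (ρ * (((1 : ℕ) : ℝ) - a)))) + ((g0_0 (ρ * (((1 : ℕ) : ℝ) - a))) * ((-((-(((1 : ℕ) : ℝ) * (y1_2 (ρ * ((1 : ℕ) : ℝ))))) - (a * (y1_2 (ρ * a))))) - ((((1 : ℕ) : ℝ) - a) * (x1_0 (ρ * (((1 : ℕ) : ℝ) - a))))))))))) = -((-1) * segW v 0 ((-1) * ((-1) * cv 1 (t + t') - 1 * cv 1 t)) t')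
          rw [hX, hseg]
          push_cast
          ring
        · have h8 := hb.le
          push_cast at h8 ⊢
          exact h8
    · have hlo' : f1 t' ≤ 1 + ρ * (-((-(((1 : ℕ) : ℝ) * (y1_2 (ρ * ((1 : ℕ) : ℝ))))) - (a * (y1_2 (ρ * a))))) := hlo
      have hhi' : 1 + ρ * (-((-(((1 : ℕ) : ℝ) * (y1_2 (ρ * ((1 : ℕ) : ℝ))))) - (a * (y1_2 (ρ * a))))) ≤ f2 t' := hhi
      have gxlo : f1 t' = 1 + ρ * ((((1 : ℕ) : ℝ) - a) * y1_0 (ρ * (((1 : ℕ) : ℝ) - a))) := by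
        rw [e1, germ_y1_0 (s := (ρ * (((1 : ℕ) : ℝ) - a))) (by rw [z1]; linarith) (by rw [z1]; linarith)]
        ring
      have gr : v t' 1 = 1 + ρ * ((((1 : ℕ) : ℝ) - a) * q1_0 (ρ * (((1 : ℕ) : ℝ) - a))) := by
        rw [e1, germ_q1_0 (s := (ρ * (((1 : ℕ) : ℝ) - a))) (by rw [z1]; linarith) (by rw [z1]; linarith) hv]
        ring
      have gG : v t' 3 - v t' 1 = g1_0 (ρ * (((1 : ℕ) : ℝ) - a)) * (f2 t' - f1 t') := by
        rw [e1]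
        exact germ_g1_0 (s := (ρ * (((1 : ℕ) : ℝ) - a))) (by rw [z1]; linarith) (by rw [z1]; linarith) hv
      have hseg := seg_lo (v := v) (i := 1) (T := t') (G := g1_0 (ρ * (((1 : ℕ) : ℝ) - a))) gxlo gr rfl gG hlo' hhi'
      rcases b2 with hb | hb
      · exfalso
        rw [gxlo] at hlo'
        have h7 := mul_pos hρ hb
        push_cast at h7 hlo'
        nlinarith
      · refine cell_202 one_pos hρ hρ1 ha ha1 he (d := (((-(((1 : ℕ) : ℝ) * (q1_2 (ρ * ((1 : ℕ) : ℝ))))) - (a * (q1_2 (ρ * a)))) - (-(((((1 : ℕ) : ℝ) - a) * (q1_0 (ρ * (((1 : ℕ) : ℝ) - a)))) + ((g1_0 (ρ * (((1 : ℕ) : ℝ) - a))) * ((-((-(((1 : ℕ) : ℝ) * (y1_2 (ρ * ((1 : ℕ) : ℝ))))) - (a * (y1_2 (ρ * a))))) - ((((1 : ℕ) : ℝ) - a) * (y1_0 (ρ * (((1 : ℕ) : ℝ) - a)))))))))) ?_ ht ht' (A1 := (-((((1 : ℕ) : ℝ) / ((2 : ℕ) : ℝ)) + (ρ * (a * (q1_2 (ρ * a))))))) (A2 := (-((-((1 : ℕ) : ℝ)) + (ρ * (-(((((1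 : ℕ) : ℝ) - a) * (q1_0 (ρ * (((1 : ℕ) : ℝ) - a)))) + ((g1_0 (ρ * (((1 : ℕ) : ℝ) - a))) * ((-((-(((1 : ℕ) : ℝ) * (y1_2 (ρ * ((1 : ℕ) : ℝ))))) - (a * (y1_2 (ρ * a))))) - ((((1 : ℕ) : ℝ) - a) * (y1_0 (ρ * (((1 : ℕ) : ℝ) - a)))))))))))) ?_ ?_ ?_
        · change (-1) * v (t + t') (tg 1) - 1 * v t (tg 1) - (-1) * segW v 1 ((-1) * ((-1) * cv 1 (t + t') - 1 * cv 1 t)) t' = _
          rw [hX, hseg, r0, r2]
          push_cast
          ring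
        · change (-((((1 : ℕ) : ℝ) / ((2 : ℕ) : ℝ)) + (ρ * (a * (q1_2 (ρ * a)))))) = -(1 * v t (tg 1))
          rw [r0]
          push_cast
          ring
        · change (-((-((1 : ℕ) : ℝ)) + (ρ * (-(((((1 : ℕ) : ℝ) - a) * (q1_0 (ρ * (((1 : ℕ) : ℝ) - a)))) + ((g1_0 (ρ * (((1 : ℕ) : ℝ) - a))) * ((-((-(((1 : ℕ) : ℝ) * (y1_2 (ρ * ((1 : ℕ) : ℝ))))) - (a * (y1_2 (ρ * a))))) - ((((1 : ℕ) : ℝ) - a) * (y1_0 (ρ * (((1 : ℕ) : ℝ) - a))))))))))) = -((-1) * segW v 1 ((-1) * ((-1) * cv 1 (t + t') - 1 * cv 1 t)) t')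
          rw [hX, hseg]
          push_cast
          ring
        · have h8 := hb.le
          push_cast at h8 ⊢
          exact h8
    · exfalso
      have hlo' : f2 t' ≤ 1 + ρ * (-((-(((1 : ℕ) : ℝ) * (y1_2 (ρ * ((1 : ℕ) : ℝ))))) - (a * (y1_2 (ρ * a))))) := hlo
      have hhi' : 1 + ρ * (-((-(((1 : ℕ) : ℝ) * (y1_2 (ρ * ((1 : ℕ) : ℝ))))) - (a * (y1_2 (ρ * a))))) ≤ c3 t' := hhi
      rw [e1] at hlo' hhi'
      rw [← kf2m_eq (T := (ρ * (((1 : ℕ) : ℝ) - a))) (by linarith)] at hlo'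
      rw [← kc3_eq ((ρ * (((1 : ℕ) : ℝ) - a)))] at hhi'
      have hb := b3
      push_cast at hb hlo' hhi'
      rcases hb with hb | hb <;> linarith

end Pool.Agent.Strip051.LC.Line.Corn
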