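import Pool.Agent.Strip051.LC.Line.Modulus

/-! # Real functions for the charts at the aligned corners (generated)

Every function is the slope of a node curve or of a table value at an aligned corner, or an
interpolation slope, or a part of the cone form of the star inequality. -/

namespace Pool.Agent.Strip051.LC.Line.Corn

/-- half the square root of three -/
noncomputable def gh : ℝ :=
  (((1 : ℕ) : ℝ) / ((2 : ℕ) : ℝ) * (Real.sqrt ((3 : ℕ) : ℝ)))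

/-- the unit circle -/
noncomputable def kc1 (s : ℝ) : ℝ :=
  (Real.sqrt (((1 : ℕ) : ℝ) - (s ^ 2)))

/-- the circle of radius sqrt 3 -/
noncomputable def kc3 (s : ℝ) : ℝ :=
  (Real.sqrt (((3 : ℕ) : ℝ) - (s ^ 2)))

/-- the shifted circle -/
noncomputable def kw (s : ℝ) : ℝ :=
  (Real.sqrt (((1 : ℕ) : ℝ) - ((s - gh) ^ 2)))

/-- the first middle curve below the height h -/
noncomputable def kf1m (s : ℝ) : ℝ :=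
  (((1 : ℕ) : ℝ) / ((2 : ℕ) : ℝ) * ((kc1 s) + ((kw s) + (((1 : ℕ) : ℝ) / ((2 : ℕ) : ℝ)))))

/-- the first middle curve above the height h -/
noncomputable def kf1p (s : ℝ) : ℝ :=
  (((1 : ℕ) : ℝ) / ((2 : ℕ) : ℝ) * ((kc1 s) + ((kw s) - (((1 : ℕ) : ℝ) / ((2 : ℕ) : ℝ)))))

/-- the second middle curve below the height h -/
noncomputable def kf2m (s : ℝ) : ℝ :=
  (((1 : ℕ) : ℝ) / ((2 : ℕ) : ℝ) * (((kw s) + (((1 : ℕ) : ℝ) / ((2 : ℕ) : ℝ))) + (kc3 s)))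

/-- the second middle curve above the height h -/
noncomputable def kf2p (s : ℝ) : ℝ :=
  (((1 : ℕ) : ℝ) / ((2 : ℕ) : ℝ) * (((kw s) - (((1 : ℕ) : ℝ) / ((2 : ℕ) : ℝ))) + (kc3 s)))

/-- table of f1, quarter 0 -/
noncomputable def b1_0 (s : ℝ) : ℝ :=
  (((1 : ℕ) : ℝ) - (((149 : ℕ) : ℝ) / ((125 : ℕ) : ℝ) * (s * (gh⁻¹))))

/-- table of f1, quarter 1 -/
noncomputable def b1_1 (s : ℝ) : ℝ :=
  ((((173 : ℕ) : ℝ) / ((200 : ℕ) : ℝ)) + (((71 : ℕ) : ℝ) / ((25 : ℕ) : ℝ) * ((s * (gh⁻¹)) - ((1 : ℕ) : ℝ))))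

/-- table of f1, quarter 2 -/
noncomputable def b1_2 (s : ℝ) : ℝ :=
  (((1 : ℕ) : ℝ) - (((49 : ℕ) : ℝ) / ((125 : ℕ) : ℝ) * ((s * (gh⁻¹)) - ((1 : ℕ) : ℝ))))

/-- table of f1 at 2h -/
noncomputable def b1_3 (s : ℝ) : ℝ :=
  ((((1469 : ℕ) : ℝ) / ((1000 : ℕ) : ℝ)) + (((s * (gh⁻¹)) - ((2 : ℕ) : ℝ)) * (((101 : ℕ) : ℝ) / ((50 : ℕ) : ℝ))))

/-- table of f2, quarter 0 -/
noncomputable def b2_0 (s : ℝ) : ℝ :=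
  ((((51 : ℕ) : ℝ) / ((100 : ℕ) : ℝ)) - (((144 : ℕ) : ℝ) / ((125 : ℕ) : ℝ) * (s * (gh⁻¹))))

/-- table of f2, quarter 1 -/
noncomputable def b2_1 (s : ℝ) : ℝ :=
  (((1 : ℕ) : ℝ) + (((167 : ℕ) : ℝ) / ((250 : ℕ) : ℝ) * ((s * (gh⁻¹)) - ((1 : ℕ) : ℝ))))

/-- table of f2, quarter 2 -/
noncomputable def b2_2 (s : ℝ) : ℝ :=
  ((((879 : ℕ) : ℝ) / ((1000 : ℕ) : ℝ)) - (((13 : ℕ) : ℝ) / ((25 : ℕ) : ℝ) * ((s * (gh⁻¹)) - ((1 : ℕ) : ℝ))))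

/-- value on the unit circle, quarter 0 -/
noncomputable def a1_0 (s : ℝ) : ℝ :=
  ((((kc1 s) - ((Real.sqrt ((3 : ℕ) : ℝ)) * s)) * (((1 : ℕ) : ℝ) + (kc1 s))) * (((((1 : ℕ) : ℝ) + (kc1 s)) - ((Real.sqrt ((3 : ℕ) : ℝ)) * s))⁻¹))

/-- value on the unit circle, quarter 1 -/
noncomputable def a1_1 (s : ℝ) : ℝ :=
  (((((1 : ℕ) : ℝ) + (((2 : ℕ) : ℝ) * (kc1 s))) * (((Real.sqrt ((3 : ℕ) : ℝ)) * s) - (kc1 s))) * ((((2 : ℕ) : ℝ) * ((((1 : ℕ) : ℝ) + ((Real.sqrt ((3 : ℕ) : ℝ)) * s)) - (kc1 s)))⁻¹))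

/-- value on the circle of radius sqrt 3, quarter 2 -/
noncomputable def a3_2 (s : ℝ) : ℝ :=
  ((((kc3 s) - (s * ((Real.sqrt ((3 : ℕ) : ℝ))⁻¹))) * ((kc3 s) + (((3 : ℕ) : ℝ) / ((2 : ℕ) : ℝ)))) * ((((kc3 s) - (s * ((Real.sqrt ((3 : ℕ) : ℝ))⁻¹))) + ((1 : ℕ) : ℝ))⁻¹))

/-- slope of c1 at 0 -/
noncomputable def x1_0 (s : ℝ) : ℝ :=
  (-(s * ((((1 : ℕ) : ℝ) + (kc1 s))⁻¹)))

/-- slope of the value on c1 at 0 -/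
noncomputable def r1_0 (s : ℝ) : ℝ :=
  (-((s + ((Real.sqrt ((3 : ℕ) : ℝ)) * (kc1 s))) * (((((1 : ℕ) : ℝ) + (kc1 s)) - ((Real.sqrt ((3 : ℕ) : ℝ)) * s))⁻¹)))

/-- slope of f1 at 0 -/
noncomputable def y1_0 (s : ℝ) : ℝ :=
  (((1 : ℕ) : ℝ) / ((2 : ℕ) : ℝ) * ((((Real.sqrt ((3 : ℕ) : ℝ)) - s) * (((kw s) + (((1 : ℕ) : ℝ) / ((2 : ℕ) : ℝ)))⁻¹)) - (s * ((((1 : ℕ) : ℝ) + (kc1 s))⁻¹))))

/-- slope of the value on f1 at 0 -/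
noncomputable def q1_0 (s : ℝ) : ℝ :=
  (((y1_0 s) * (((1 : ℕ) : ℝ) - (((((149 : ℕ) : ℝ) / ((125 : ℕ) : ℝ)) * (gh⁻¹)) * s))) - ((((149 : ℕ) : ℝ) / ((125 : ℕ) : ℝ)) * (gh⁻¹)))

/-- slope of c1 below h -/
noncomputable def x1_1 (s : ℝ) : ℝ :=
  (-(((Real.sqrt ((3 : ℕ) : ℝ)) + s) * (((kc1 (gh + s)) + (((1 : ℕ) : ℝ) / ((2 : ℕ) : ℝ)))⁻¹)))

/-- slope of the value on c1 below h -/
noncomputable def r1_1 (s : ℝ) : ℝ :=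
  (((((((3 : ℕ) : ℝ) * (x1_1 s)) + (((2 : ℕ) : ℝ) * ((Real.sqrt ((3 : ℕ) : ℝ)) * (kc1 (gh + s))))) + (((2 : ℕ) : ℝ) * (Real.sqrt ((3 : ℕ) : ℝ)))) + (((2 : ℕ) : ℝ) * s)) * ((((2 : ℕ) : ℝ) * ((((1 : ℕ) : ℝ) + ((Real.sqrt ((3 : ℕ) : ℝ)) * (gh + s))) - (kc1 (gh + s))))⁻¹))

/-- slope of f2 below h -/
noncomputable def y2_1 (s : ℝ) : ℝ :=
  (-(((1 : ℕ) : ℝ) / ((2 : ℕ) : ℝ) * ((((Real.sqrt ((3 : ℕ) : ℝ)) + s) * (((kc3 (gh + s)) + (((3 : ℕ) : ℝ) / ((2 : ℕ) : ℝ)))⁻¹)) + (s * ((((1 : ℕ) : ℝ) + (Real.sqrt (((1 : ℕ) : ℝ) - (s ^ 2))))⁻¹)))))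

/-- slope of the value on f2 below h -/
noncomputable def q2_1 (s : ℝ) : ℝ :=
  (((y2_1 s) * (((1 : ℕ) : ℝ) + (((((167 : ℕ) : ℝ) / ((250 : ℕ) : ℝ)) * (gh⁻¹)) * s))) + (((3 : ℕ) : ℝ) / ((2 : ℕ) : ℝ) * ((((167 : ℕ) : ℝ) / ((250 : ℕ) : ℝ)) * (gh⁻¹))))

/-- slope of c3 at h -/
noncomputable def x3_1 (s : ℝ) : ℝ :=
  (-(((Real.sqrt ((3 : ℕ) : ℝ)) + s) * (((kc3 (gh + s)) + (((3 : ℕ) : ℝ) / ((2 : ℕ) : ℝ)))⁻¹)))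

/-- slope of the value on c3 below h -/
noncomputable def r3_1 (s : ℝ) : ℝ :=
  (((gh * (x3_1 s)) + (kc3 (gh + s))) * (((Real.sqrt ((3 : ℕ) : ℝ)) + s)⁻¹))

/-- slope of c1 above h -/
noncomputable def x1_2 (s : ℝ) : ℝ :=
  (-(((Real.sqrt ((3 : ℕ) : ℝ)) + s) * (((kc1 (gh + s)) + (((1 : ℕ) : ℝ) / ((2 : ℕ) : ℝ)))⁻¹)))

/-- slope of f1 above h -/
noncomputable def y1_2 (s : ℝ) : ℝ :=
  (-(((1 : ℕ) : ℝ) / ((2 : ℕ) : ℝ) * ((((Real.sqrt ((3 : ℕ) : ℝ)) + s) * (((kc1 (gh + s)) + (((1 : ℕ) : ℝ) / ((2 : ℕ) : ℝ)))⁻¹)) + (s * ((((1 : ℕ) : ℝ) + (Real.sqrt (((1 : ℕ) : ℝ) - (s ^ 2))))⁻¹)))))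

/-- slope of the value on f1 above h -/
noncomputable def q1_2 (s : ℝ) : ℝ :=
  (((y1_2 s) * (((1 : ℕ) : ℝ) - (((((49 : ℕ) : ℝ) / ((125 : ℕ) : ℝ)) * (gh⁻¹)) * s))) - (((1 : ℕ) : ℝ) / ((2 : ℕ) : ℝ) * ((((49 : ℕ) : ℝ) / ((125 : ℕ) : ℝ)) * (gh⁻¹))))

/-- slope of the value on c3 above h -/
noncomputable def r3_2 (s : ℝ) : ℝ :=
  (-((((Real.sqrt ((3 : ℕ) : ℝ)) + s) + (((((1 : ℕ) : ℝ) / ((2 : ℕ) : ℝ) * (x3_1 s)) + gh) + ((s * (x3_1 s)) * ((Real.sqrt ((3 : ℕ) : ℝ))⁻¹)))) * ((((kc3 (gh + s)) - ((gh + s) * ((Real.sqrt ((3 : ℕ) : ℝ))⁻¹))) + ((1 : ℕ) : ℝ))⁻¹)))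

/-- slope of f1 at 2h -/
noncomputable def y1_3 (s : ℝ) : ℝ :=
  (-(((1 : ℕ) : ℝ) / ((2 : ℕ) : ℝ) * (((Real.sqrt ((3 : ℕ) : ℝ)) + s) * (((Real.sqrt (((1 : ℕ) : ℝ) - ((gh + s) ^ 2))) + (((1 : ℕ) : ℝ) / ((2 : ℕ) : ℝ)))⁻¹))))

/-- slope of the value on f1 at 2h -/
noncomputable def q1_3 (s : ℝ) : ℝ :=
  ((y1_3 s) * ((((1469 : ℕ) : ℝ) / ((1000 : ℕ) : ℝ)) + ((s * (gh⁻¹)) * (((101 : ℕ) : ℝ) / ((50 : ℕ) : ℝ)))))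

/-- interpolation slope between c1 and f1, quarter 0 -/
noncomputable def g0_0 (s : ℝ) : ℝ :=
  (((q1_0 s) - (r1_0 s)) * (((y1_0 s) - (x1_0 s))⁻¹))

/-- interpolation slope between c1 and f1, quarter 1 -/
noncomputable def g0_1 (s : ℝ) : ℝ :=
  ((((kf1m (gh + s)) * (b1_1 (gh + s))) - (a1_1 (gh + s))) * (((kf1m (gh + s)) - (kc1 (gh + s)))⁻¹))

/-- interpolation slope between c1 and f1, quarter 2 -/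
noncomputable def g0_2 (s : ℝ) : ℝ :=
  (((q1_2 s) - (x1_2 s)) * (((y1_2 s) - (x1_2 s))⁻¹))

/-- interpolation slope between f1 and f2, quarter 0 -/
noncomputable def g1_0 (s : ℝ) : ℝ :=
  ((((kf2m s) * (b2_0 s)) - ((kf1m s) * (b1_0 s))) * (((kf2m s) - (kf1m s))⁻¹))

/-- interpolation slope between f1 and f2, quarter 1 -/
noncomputable def g1_1 (s : ℝ) : ℝ :=
  ((((kf2m (gh + s)) * (b2_1 (gh + s))) - ((kf1m (gh + s)) * (b1_1 (gh + s)))) * (((kf2m (gh + s)) - (kf1m (gh + s)))⁻¹))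

/-- interpolation slope between f1 and f2, quarter 2 -/
noncomputable def g1_2 (s : ℝ) : ℝ :=
  ((((kf2p (gh + s)) * (b2_2 (gh + s))) - ((kf1p (gh + s)) * (b1_2 (gh + s)))) * (((kf2p (gh + s)) - (kf1p (gh + s)))⁻¹))

/-- interpolation slope between f2 and c3, quarter 1 -/
noncomputable def g2_1 (s : ℝ) : ℝ :=
  (((q2_1 s) - (r3_1 s)) * (((y2_1 s) - (x3_1 s))⁻¹))

/-- interpolation slope between f2 and c3, quarter 2 -/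
noncomputable def g2_2 (s : ℝ) : ℝ :=
  (((a3_2 (gh + s)) - ((kf2p (gh + s)) * (b2_2 (gh + s)))) * (((kc3 (gh + s)) - (kf2p (gh + s)))⁻¹))

/-- first node -/
noncomputable def cw1 (x1 x2 x3 x4 x5 x6 x7 x8 : ℝ) : ℝ :=
  (((((gh * x7) - (x3 * ((x2 * x7) + x6))) - (x4 * ((x2 * x7) - x5))) * ((Real.sqrt ((3 : ℕ) : ℝ))⁻¹)) + (x8 * ((((2 : ℕ) : ℝ) * x1)⁻¹)))

/-- third node -/
noncomputable def cw3 (x1 x2 x3 x4 x5 x6 x7 x8 : ℝ) : ℝ :=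
  (((((x3 * ((x2 * x7) - x6)) + (x4 * ((x2 * x7) + x5))) - (gh * x7)) * ((Real.sqrt ((3 : ℕ) : ℝ))⁻¹)) + (x8 * ((((2 : ℕ) : ℝ) * x1)⁻¹)))

/-- second node -/
noncomputable def cw2 (x1 x2 x3 x4 x5 x6 x7 x8 : ℝ) : ℝ :=
  (((((x6 * (gh - (x2 * x4))) - (x5 * (gh - (x2 * x3)))) + (((x3 - x4) * (gh - x2)) * ((x5 + x6) - (x2 * x7)))) * ((Real.sqrt ((3 : ℕ) : ℝ))⁻¹)) + (x2 * (x8 * ((((2 : ℕ) : ℝ) * x1)⁻¹))))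

/-- slack of the star inequality in cone form -/
noncomputable def coneQ (x1 x2 x3 x4 x5 x6 x7 x8 : ℝ) : ℝ :=
  ((x8 * (((1 : ℕ) : ℝ) / ((4 : ℕ) : ℝ) * (((2 : ℕ) : ℝ) + (Real.sqrt ((3 : ℕ) : ℝ))))) - (x1 * (((x3 * (Pool.Agent.Strip051.LC.Line.phi (x2 * (cw1 x1 x2 x3 x4 x5 x6 x7 x8)) (cw2 x1 x2 x3 x4 x5 x6 x7 x8))) + (x4 * (Pool.Agent.Strip051.LC.Line.phi (cw2 x1 x2 x3 x4 x5 x6 x7 x8) (x2 * (cw3 x1 x2 x3 x4 x5 x6 x7 x8))))) + ((gh - x2) * (Pool.Agent.Strip051.LC.Line.phi (cw3 x1 x2 x3 x4 x5 x6 x7 x8) (cw1 x1 x2 x3 x4 x5 x6 x7 x8))))))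

end Pool.Agent.Strip051.LC.Line.Corn
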