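import Pool.Agent.Strip051.LC.Line.Wire
import Pool.Agent.Strip051.LC.Line.Corn.Fn

/-! # The star inequality near an aligned corner

`ρ` is the largest of the three distances of the heights to the lattice; the lengths of the two
short arcs, the excess and the defect `A1 + A2 - A3` are multiples of `ρ`, and so is the slack. -/

namespace Pool.Agent.Strip051.LC.Line.Corn

open Pool.Agent.StripNear Pool.Agent.StripSquare Pool.Agent.Strip051.Sweep

theorem gh_eq : gh = h0 := by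
  unfold gh h0
  push_cast
  ring

theorem r3_eq : Real.sqrt ((3 : ℕ) : ℝ) = 2 * h0 := by
  unfold h0
  push_cast
  ring

/-- **The star inequality in cone form.** -/
theorem starN_cone {θ ρ a b e d A1 A2 A3 ex l1 l2 : ℝ} (hθ : 0 < θ) (hρ : 0 < ρ)
    (hab : a + b = 1) (hl1 : l1 = ρ * a) (hl2 : l2 = ρ * b) (he : ex = ρ * e)
    (hd : A1 + A2 - A3 = ρ * d) (hQ : 0 ≤ coneQ θ ρ a b A1 A2 d e) :
    StarN θ ex l1 l2 A1 A2 A3 := by
  have hp := h0_pos
  have hA3 : A3 = A1 + A2 - ρ * d := by linarith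
  have hb : b = 1 - a := by linarith
  have hl : l1 + l2 = ρ := by
    rw [hl1, hl2, ← mul_add, hab, mul_one]
  unfold StarN Star
  have w1 : (A1 * (h0 - l1) + A2 * (h0 - 2 * l1 - l2) - A3 * (h0 - l1 - l2)) / (2 * h0) +
      ex / (2 * θ) = ρ * cw1 θ ρ a b A1 A2 d e := by
    unfold cw1
    rw [gh_eq, r3_eq, hA3, hl1, hl2, he, hb]
    push_cast
    field_simp
    ring
  have w2 : (-A1 * (h0 - l1) + A2 * (h0 - l2) + A3 * (l1 - l2) / (l1 + l2) * (h0 - l1 - l2)) /
      (2 * h0) + ex / (2 * θ) = cw2 θ ρ a b A1 A2 d e := by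
    have hq : A3 * (l1 - l2) / (l1 + l2) = A3 * (a - b) := by
      rw [hl, hl1, hl2]
      field_simp
    unfold cw2
    rw [hq, gh_eq, r3_eq, hA3, hl1, hl2, he, hb]
    push_cast
    field_simp
    ring
  have w3 : (-A1 * (h0 - l1 - 2 * l2) - A2 * (h0 - l2) + A3 * (h0 - l1 - l2)) / (2 * h0) +
      ex / (2 * θ) = ρ * cw3 θ ρ a b A1 A2 d e := by
    unfold cw3
    rw [gh_eq, r3_eq, hA3, hl1, hl2, he, hb]
    push_cast
    field_simp
    ring
  rw [w1, w2, w3, phi_smul hρ.le, hl1, hl2, he]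
  unfold coneQ at hQ
  rw [gh_eq] at hQ
  have hL : (((1 : ℕ) : ℝ) / ((4 : ℕ) : ℝ) * (((2 : ℕ) : ℝ) + (Real.sqrt ((3 : ℕ) : ℝ)))) = L0 := by
    unfold L0
    push_cast
    ring
  rw [hL] at hQ
  have h3 : h0 - ρ * a - ρ * b = h0 - ρ := by
    rw [hb]
    ring
  rw [h3]
  have := mul_nonneg hρ.le hQ
  nlinarith

end Pool.Agent.Strip051.LC.Line.Corn
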