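import Pool.Agent.Strip051.LC.Exact.FamV
import Pool.Agent.Strip051.LC.Line.TableF
import Pool.Agent.Strip051.LC.Line.Corn.Cone

/-! # The node curves and the table near the aligned corners -/

namespace Pool.Agent.Strip051.LC.Line.Corn

open Pool.Agent.StripNear Pool.Agent.StripSquare Pool.Agent.Strip051.Sweep
  Pool.Agent.Strip051.LC

/-- What is used about a table near the aligned corners. -/
structure CT (v : ℝ → Fin 5 → ℝ) : Prop where
  v0 : ∀ T, 0 ≤ T → T < 1 → v T 0 = A1u T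
  v4 : ∀ T, 0 ≤ T → v T 4 = A3 T
  v1_0 : ∀ T, 0 ≤ T → T ≤ 1 / 10 → v T 1 = f1 T * b1_0 T
  v1_1 : ∀ T, h0 - 1 / 10 ≤ T → T < h0 → v T 1 = f1 T * b1_1 T
  v1_2 : ∀ T, h0 ≤ T → T ≤ h0 + 1 / 10 → v T 1 = f1 T * b1_2 T
  v1_3 : ∀ T, 2 * h0 - 1 / 10 ≤ T → T ≤ 2 * h0 → v T 1 = f1 T * b1_3 T
  v3_0 : ∀ T, 0 ≤ T → T ≤ 1 / 10 → v T 3 = f2 T * b2_0 T
  v3_1 : ∀ T, h0 - 1 / 10 ≤ T → T < h0 → v T 3 = f2 T * b2_1 T
  v3_2 : ∀ T, h0 ≤ T → T ≤ h0 + 1 / 10 → v T 3 = f2 T * b2_2 T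

variable {v : ℝ → Fin 5 → ℝ}

theorem h0_gt : 86 / 100 < h0 := by nlinarith [h0_sq', h0_pos]

theorem h0_lt : h0 < 867 / 1000 := by nlinarith [h0_sq', h0_pos]

/-! ### The curves -/

theorem kc1_eq (T : ℝ) : kc1 T = c1 T := by
  unfold kc1 c1
  push_cast
  rfl

theorem kc3_eq (T : ℝ) : kc3 T = c3 T := by
  unfold kc3 c3
  push_cast
  rfl

theorem kw_eq (T : ℝ) : kw T = √(1 - (T - h0) ^ 2) := by
  unfold kw
  rw [gh_eq]
  push_cast
  rfl

theorem kf1m_eq {T : ℝ} (h : T < h0) : kf1m T = f1 T := by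
  unfold kf1m f1 Wc
  rw [if_pos h, kc1_eq, kw_eq]
  push_cast
  ring

theorem kf1p_eq {T : ℝ} (h : h0 ≤ T) : kf1p T = f1 T := by
  unfold kf1p f1 Wc
  rw [if_neg h.not_gt, kc1_eq, kw_eq]
  push_cast
  ring

theorem kf2m_eq {T : ℝ} (h : T < h0) : kf2m T = f2 T := by
  unfold kf2m f2 Wc
  rw [if_pos h, kc3_eq, kw_eq]
  push_cast
  ring

theorem kf2p_eq {T : ℝ} (h : h0 ≤ T) : kf2p T = f2 T := by
  unfold kf2p f2 Wc
  rw [if_neg h.not_gt, kc3_eq, kw_eq]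
  push_cast
  ring

/-! ### Bounds -/

theorem c1_bd {T : ℝ} (h : 0 ≤ T) (h1 : T < 1) : 0 < c1 T ∧ c1 T ^ 2 = 1 - T ^ 2 :=
  ⟨c1_pos h h1, by linarith [c1_sq h h1.le]⟩

theorem w_bd {s : ℝ} (h : s ^ 2 ≤ 3 / 4) : 1 / 2 ≤ √(1 - s ^ 2) ∧ √(1 - s ^ 2) ^ 2 = 1 - s ^ 2 :=
  ⟨Real.le_sqrt_of_sq_le (by linarith), Real.sq_sqrt (by linarith)⟩

theorem c3_bd {T : ℝ} (h : T ^ 2 < 3) : 0 < c3 T ∧ c3 T ^ 2 = 3 - T ^ 2 :=
  ⟨Real.sqrt_pos.2 (by linarith), by linarith [c3_sq h.le]⟩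

/-! ### Quarter 0 -/

section

variable {s : ℝ} (h0s : 0 ≤ s) (hs : s ≤ 1 / 10)

include h0s hs

theorem germ_x1_0 : c1 s = 1 + s * x1_0 s := by
  obtain ⟨h1, h2⟩ := c1_bd h0s (by linarith)
  unfold x1_0
  rw [kc1_eq]
  push_cast
  field_simp
  nlinarith

theorem den0 : 0 < 1 + c1 s - 2 * h0 * s := by
  obtain ⟨h1, h2⟩ := c1_bd h0s (by linarith)
  nlinarith [h0_pos, h0_lt]

theorem germ_r1_0 (hv : CT v) : v s 0 = 1 + s * r1_0 s := by
  obtain ⟨h1, h2⟩ := c1_bd h0s (by linarith)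
  have hd := den0 h0s hs
  have hp := h0_gt
  rw [hv.v0 s h0s (by linarith)]
  unfold A1u r1_0
  rw [if_pos (by linarith), r3_eq, kc1_eq]
  have e : √(1 - s ^ 2) = c1 s := rfl
  have e3 : √3 = 2 * h0 := by
    unfold h0
    ring
  rw [e, e3]
  push_cast
  field_simp
  nlinarith

theorem w0_bd : 1 / 2 ≤ √(1 - (s - h0) ^ 2) ∧ √(1 - (s - h0) ^ 2) ^ 2 = 1 - (s - h0) ^ 2 := by
  apply w_bd
  nlinarith [h0_sq', h0_gt]

theorem germ_y1_0 : f1 s = 1 + s * y1_0 s := by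
  obtain ⟨h1, h2⟩ := c1_bd h0s (by linarith)
  obtain ⟨w1, w2⟩ := w0_bd h0s hs
  have hq := h0_sq'
  have e1 : c1 s = 1 - s * (s / (1 + c1 s)) := by
    field_simp
    nlinarith
  have e2 : √(1 - (s - h0) ^ 2) = 1 / 2 + s * ((2 * h0 - s) / (√(1 - (s - h0) ^ 2) + 1 / 2)) := by
    have : √(1 - (s - h0) ^ 2) + 1 / 2 ≠ 0 := by linarith
    field_simp
    nlinarith
  unfold y1_0 f1 Wc
  rw [if_pos (by linarith [h0_gt]), r3_eq, kc1_eq, kw_eq]
  push_cast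
  calc (c1 s + (√(1 - (s - h0) ^ 2) + 1 / 2)) / 2
      = (1 - s * (s / (1 + c1 s)) +
        (1 / 2 + s * ((2 * h0 - s) / (√(1 - (s - h0) ^ 2) + 1 / 2)) + 1 / 2)) / 2 := by
        rw [← e1, ← e2]
    _ = _ := by ring

theorem germ_q1_0 (hv : CT v) : v s 1 = 1 + s * q1_0 s := by
  have hp := h0_pos
  rw [hv.v1_0 s h0s hs, germ_y1_0 h0s hs]
  unfold q1_0 b1_0
  rw [gh_eq]
  push_cast
  field_simp
  ring

end

/-! ### The interpolation slopes in quarter 0 -/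

section

variable {s : ℝ} (h0s : 0 ≤ s) (hs : s ≤ 1 / 10)

include h0s hs

theorem germ_g0_0 (hv : CT v) : v s 1 - v s 0 = g0_0 s * (f1 s - c1 s) := by
  obtain ⟨h1, h2⟩ := c1_bd h0s (by linarith)
  obtain ⟨w1, w2⟩ := w0_bd h0s hs
  have hp := h0_gt
  have hl := h0_lt
  have hden : 0 < y1_0 s - x1_0 s := by
    unfold y1_0 x1_0
    rw [r3_eq, kc1_eq, kw_eq]
    push_cast
    have e1 : 0 ≤ s * (1 + c1 s)⁻¹ := by positivity
    have e2 : 0 < (2 * h0 - s) * (√(1 - (s - h0) ^ 2) + 1 / 2)⁻¹ := by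
      apply mul_pos (by linarith)
      positivity
    linarith
  unfold g0_0
  rw [germ_q1_0 h0s hs hv, germ_r1_0 h0s hs hv, germ_y1_0 h0s hs, germ_x1_0 h0s hs]
  field_simp
  ring

theorem germ_g1_0 (hv : CT v) : v s 3 - v s 1 = g1_0 s * (f2 s - f1 s) := by
  obtain ⟨h1, h2⟩ := c1_bd h0s (by linarith)
  obtain ⟨h3, h4⟩ := c3_bd (T := s) (by nlinarith)
  have hp := h0_gt
  have e : f2 s - f1 s = (c3 s - c1 s) / 2 := by
    unfold f2 f1
    ring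
  have hden : 0 < f2 s - f1 s := by
    rw [e]
    nlinarith
  unfold g1_0
  rw [hv.v3_0 s h0s hs, hv.v1_0 s h0s hs, kf2m_eq (by linarith), kf1m_eq (by linarith)]
  field_simp

end

/-! ### Quarter 1 -/

section

variable {s : ℝ} (hs : -(1 / 10) ≤ s) (hs0 : s < 0)

include hs hs0

theorem germ_x1_1 : c1 (h0 + s) = 1 / 2 + s * x1_1 s := by
  have hq := h0_sq'
  have hp := h0_gt
  have hl := h0_lt
  obtain ⟨h1, h2⟩ := c1_bd (T := h0 + s) (by linarith) (by linarith)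
  unfold x1_1
  rw [r3_eq, gh_eq, kc1_eq]
  push_cast
  field_simp
  nlinarith

theorem germ_r1_1 (hv : CT v) : v (h0 + s) 0 = 1 / 2 + s * r1_1 s := by
  have hq := h0_sq'
  have hp := h0_gt
  have hl := h0_lt
  obtain ⟨h1, h2⟩ := c1_bd (T := h0 + s) (by linarith) (by linarith)
  have hx := germ_x1_1 hs hs0
  have hd : 0 < 1 + 2 * h0 * (h0 + s) - c1 (h0 + s) := by
    have e1 : c1 (h0 + s) < 1 := by nlinarith
    have e2 : 0 < h0 * (h0 + s) := mul_pos (by linarith) (by linarith)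
    linarith
  rw [hv.v0 (h0 + s) (by linarith) (by linarith)]
  unfold A1u r1_1
  rw [if_neg (by linarith), if_pos (by linarith), r3_eq, gh_eq, kc1_eq]
  have e : √(1 - (h0 + s) ^ 2) = c1 (h0 + s) := rfl
  have e3 : √3 = 2 * h0 := by
    unfold h0
    ring
  rw [e, e3]
  push_cast
  set c := c1 (h0 + s) with hc
  set x := x1_1 s with hxx
  have hd' : 1 + 2 * h0 * (h0 + s) - c ≠ 0 := hd.ne'
  have hd'' : 2 * (1 + 2 * h0 * (h0 + s) - c) ≠ 0 := by positivity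
  rw [div_eq_iff hd'']
  have key : s * (3 * x + 2 * (2 * h0 * c) + 2 * (2 * h0) + 2 * s) =
      2 * ((1 + 2 * c) * (2 * h0 * (h0 + s) - c) / 2 - (1 + 2 * h0 * (h0 + s) - c) / 2) := by
    have h5 : s * x = c - 1 / 2 := by linarith
    nlinarith
  have e4 : (1 / 2 + s * ((3 * x + 2 * (2 * h0 * c) + 2 * (2 * h0) + 2 * s) *
      (2 * (1 + 2 * h0 * (h0 + s) - c))⁻¹)) * (2 * (1 + 2 * h0 * (h0 + s) - c)) =
      (1 + 2 * h0 * (h0 + s) - c) + s * (3 * x + 2 * (2 * h0 * c) + 2 * (2 * h0) + 2 * s) := by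
    field_simp
  rw [e4, key]
  ring

theorem w1_bd : 1 / 2 ≤ √(1 - s ^ 2) ∧ √(1 - s ^ 2) ^ 2 = 1 - s ^ 2 := by
  apply w_bd
  nlinarith

theorem germ_x3_1 : c3 (h0 + s) = 3 / 2 + s * x3_1 s := by
  have hq := h0_sq'
  have hp := h0_gt
  have hl := h0_lt
  obtain ⟨h1, h2⟩ := c3_bd (T := h0 + s) (by nlinarith)
  unfold x3_1
  rw [r3_eq, gh_eq, kc3_eq]
  push_cast
  field_simp
  nlinarith

theorem germ_y2_1 : f2 (h0 + s) = 3 / 2 + s * y2_1 s := by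
  have hq := h0_sq'
  have hp := h0_gt
  have hl := h0_lt
  obtain ⟨h1, h2⟩ := c3_bd (T := h0 + s) (by nlinarith)
  obtain ⟨w1, w2⟩ := w1_bd hs hs0
  have e1 := germ_x3_1 hs hs0
  have e2 : √(1 - s ^ 2) = 1 - s * (s / (1 + √(1 - s ^ 2))) := by
    have : 1 + √(1 - s ^ 2) ≠ 0 := by linarith
    field_simp
    nlinarith
  unfold x3_1 at e1
  unfold y2_1 f2 Wc
  rw [if_pos (by linarith), add_sub_cancel_left]
  rw [r3_eq, gh_eq, kc3_eq] at e1
  rw [r3_eq, gh_eq, kc3_eq]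
  push_cast at e1 ⊢
  calc (√(1 - s ^ 2) + 1 / 2 + c3 (h0 + s)) / 2
      = (1 - s * (s / (1 + √(1 - s ^ 2))) + 1 / 2 +
        (3 / 2 + s * -((2 * h0 + s) * (c3 (h0 + s) + 3 / 2)⁻¹))) / 2 := by
        rw [← e1, ← e2]
    _ = _ := by ring

theorem germ_q2_1 (hv : CT v) : v (h0 + s) 3 = 3 / 2 + s * q2_1 s := by
  have hp := h0_pos
  rw [hv.v3_1 (h0 + s) (by linarith) (by linarith), germ_y2_1 hs hs0]
  unfold q2_1 b2_1
  rw [gh_eq]
  push_cast
  field_simp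
  ring

theorem germ_r3_1 (hv : CT v) : v (h0 + s) 4 = 3 / 2 + s * r3_1 s := by
  have hq := h0_sq'
  have hp := h0_gt
  have hl := h0_lt
  obtain ⟨h1, h2⟩ := c3_bd (T := h0 + s) (by nlinarith)
  have hx := germ_x3_1 hs hs0
  rw [hv.v4 (h0 + s) (by linarith)]
  unfold A3 r3_1
  rw [if_neg (by linarith), if_pos (by linarith), r3_eq, gh_eq, kc3_eq]
  set c := c3 (h0 + s) with hc
  set x := x3_1 s with hxx
  have h5 : s * x = c - 3 / 2 := by linarith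
  have hd : h0 + s + h0 ≠ 0 := by linarith
  have hd' : 2 * h0 + s ≠ 0 := by linarith
  rw [div_eq_iff hd]
  have e4 : (3 / 2 + s * ((h0 * x + c) * (2 * h0 + s)⁻¹)) * (h0 + s + h0) =
      3 / 2 * (2 * h0 + s) + (h0 * (s * x) + s * c) := by
    field_simp
    ring
  rw [e4, h5]
  ring

theorem germ_g0_1 (hv : CT v) :
    v (h0 + s) 1 - v (h0 + s) 0 = g0_1 s * (f1 (h0 + s) - c1 (h0 + s)) := by
  have hq := h0_sq'
  have hp := h0_gt
  have hl := h0_lt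
  obtain ⟨h1, h2⟩ := c1_bd (T := h0 + s) (by linarith) (by linarith)
  obtain ⟨w1, w2⟩ := w1_bd hs hs0
  have e1 : c1 (h0 + s) ≤ 3 / 4 := by nlinarith
  have hden : 0 < f1 (h0 + s) - c1 (h0 + s) := by
    unfold f1 Wc
    rw [if_pos (by linarith), add_sub_cancel_left]
    linarith
  have ea : a1_1 (h0 + s) = v (h0 + s) 0 := by
    rw [hv.v0 (h0 + s) (by linarith) (by linarith)]
    unfold A1u a1_1
    rw [if_neg (by linarith), if_pos (by linarith), kc1_eq]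
    push_cast
    rfl
  unfold g0_1
  rw [gh_eq, kf1m_eq (by linarith), ea, kc1_eq, hv.v1_1 (h0 + s) (by linarith) (by linarith)]
  field_simp

theorem germ_g1_1 (hv : CT v) :
    v (h0 + s) 3 - v (h0 + s) 1 = g1_1 s * (f2 (h0 + s) - f1 (h0 + s)) := by
  have hq := h0_sq'
  have hp := h0_gt
  have hl := h0_lt
  obtain ⟨h1, h2⟩ := c1_bd (T := h0 + s) (by linarith) (by linarith)
  obtain ⟨h3, h4⟩ := c3_bd (T := h0 + s) (by nlinarith)
  have e : f2 (h0 + s) - f1 (h0 + s) = (c3 (h0 + s) - c1 (h0 + s)) / 2 := by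
    unfold f2 f1
    ring
  have hden : 0 < f2 (h0 + s) - f1 (h0 + s) := by
    rw [e]
    nlinarith
  unfold g1_1
  rw [gh_eq, kf2m_eq (by linarith), kf1m_eq (by linarith),
    hv.v3_1 (h0 + s) (by linarith) (by linarith), hv.v1_1 (h0 + s) (by linarith) (by linarith)]
  field_simp

theorem germ_g2_1 (hv : CT v) :
    v (h0 + s) 4 - v (h0 + s) 3 = g2_1 s * (c3 (h0 + s) - f2 (h0 + s)) := by
  have hq := h0_sq'
  have hp := h0_gt
  have hl := h0_lt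
  obtain ⟨h1, h2⟩ := c3_bd (T := h0 + s) (by nlinarith)
  obtain ⟨w1, w2⟩ := w1_bd hs hs0
  have hden : 0 < y2_1 s - x3_1 s := by
    unfold y2_1 x3_1
    rw [r3_eq, gh_eq, kc3_eq]
    push_cast
    have e1 : 0 < (2 * h0 + s) * (c3 (h0 + s) + 3 / 2)⁻¹ := by
      apply mul_pos (by linarith)
      positivity
    have e2 : 0 < -s * (1 + √(1 - s ^ 2))⁻¹ := by
      apply mul_pos (by linarith)
      positivity
    linarith
  unfold g2_1
  rw [germ_q2_1 hs hs0 hv, germ_r3_1 hs hs0 hv, germ_y2_1 hs hs0, germ_x3_1 hs hs0]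
  field_simp
  ring

end

/-! ### Quarter 2 -/

section

variable {s : ℝ} (h0s : 0 ≤ s) (hs : s ≤ 1 / 10)

include h0s hs

theorem germ_x1_2 : c1 (h0 + s) = 1 / 2 + s * x1_2 s := by
  have hq := h0_sq'
  have hp := h0_gt
  have hl := h0_lt
  obtain ⟨h1, h2⟩ := c1_bd (T := h0 + s) (by linarith) (by linarith)
  unfold x1_2
  rw [r3_eq, gh_eq, kc1_eq]
  push_cast
  field_simp
  nlinarith

theorem germ_r1_2 (hv : CT v) : v (h0 + s) 0 = 1 / 2 + s * x1_2 s := by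
  have hq := h0_sq'
  have hp := h0_gt
  have hl := h0_lt
  rw [hv.v0 (h0 + s) (by linarith) (by linarith), ← germ_x1_2 h0s hs]
  rcases h0s.eq_or_lt with rfl | h
  · rw [add_zero]
    unfold A1u
    have e : √(1 - h0 ^ 2) = 1 / 2 := by
      rw [h0_sq', show (1 : ℝ) - 3 / 4 = (1 / 2) ^ 2 by norm_num, Real.sqrt_sq (by norm_num)]
    have e3 : √3 = 2 * h0 := by
      unfold h0
      ring
    rw [if_neg (by linarith), if_pos le_rfl]
    unfold c1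
    rw [e, e3]
    have : 2 * (1 + 2 * h0 * h0 - 1 / 2) ≠ 0 := by nlinarith
    rw [div_eq_iff this]
    nlinarith
  · unfold A1u
    rw [if_neg (by linarith), if_neg (by linarith)]
    rfl

theorem w2_bd : 1 / 2 ≤ √(1 - s ^ 2) ∧ √(1 - s ^ 2) ^ 2 = 1 - s ^ 2 := by
  apply w_bd
  nlinarith

theorem germ_y1_2 : f1 (h0 + s) = 1 / 2 + s * y1_2 s := by
  have hq := h0_sq'
  have hp := h0_gt
  have hl := h0_lt
  obtain ⟨h1, h2⟩ := c1_bd (T := h0 + s) (by linarith) (by linarith)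
  obtain ⟨w1, w2⟩ := w2_bd h0s hs
  have e1 := germ_x1_2 h0s hs
  have e2 : √(1 - s ^ 2) = 1 - s * (s / (1 + √(1 - s ^ 2))) := by
    have : 1 + √(1 - s ^ 2) ≠ 0 := by linarith
    field_simp
    nlinarith
  unfold x1_2 at e1
  unfold y1_2 f1 Wc
  rw [if_neg (by linarith), add_sub_cancel_left]
  rw [r3_eq, gh_eq, kc1_eq] at e1
  rw [r3_eq, gh_eq, kc1_eq]
  push_cast at e1 ⊢
  calc (c1 (h0 + s) + (√(1 - s ^ 2) - 1 / 2)) / 2
      = ((1 / 2 + s * -((2 * h0 + s) * (c1 (h0 + s) + 1 / 2)⁻¹)) +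
        (1 - s * (s / (1 + √(1 - s ^ 2))) - 1 / 2)) / 2 := by
        rw [← e1, ← e2]
    _ = _ := by ring

theorem germ_q1_2 (hv : CT v) : v (h0 + s) 1 = 1 / 2 + s * q1_2 s := by
  have hp := h0_pos
  rw [hv.v1_2 (h0 + s) (by linarith) (by linarith), germ_y1_2 h0s hs]
  unfold q1_2 b1_2
  rw [gh_eq]
  push_cast
  field_simp
  ring

theorem germ_x3_2 : c3 (h0 + s) = 3 / 2 + s * x3_1 s := by
  have hq := h0_sq'
  have hp := h0_gt
  have hl := h0_lt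
  obtain ⟨h1, h2⟩ := c3_bd (T := h0 + s) (by nlinarith)
  unfold x3_1
  rw [r3_eq, gh_eq, kc3_eq]
  push_cast
  field_simp
  nlinarith

theorem den2 : 0 < c3 (h0 + s) - (h0 + s) / (2 * h0) + 1 := by
  have hq := h0_sq'
  have hp := h0_gt
  have hl := h0_lt
  obtain ⟨h1, h2⟩ := c3_bd (T := h0 + s) (by nlinarith)
  have e : (h0 + s) / (2 * h0) ≤ 1 := by
    rw [div_le_one (by linarith)]
    linarith
  linarith

theorem germ_r3_2 (hv : CT v) : v (h0 + s) 4 = 3 / 2 + s * r3_2 s := by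
  have hq := h0_sq'
  have hp := h0_gt
  have hl := h0_lt
  obtain ⟨h1, h2⟩ := c3_bd (T := h0 + s) (by nlinarith)
  have hx := germ_x3_2 h0s hs
  have hd := den2 h0s hs
  rw [hv.v4 (h0 + s) (by linarith)]
  unfold A3 r3_2
  have e3 : √3 = 2 * h0 := by
    unfold h0
    ring
  rw [if_neg (by linarith), if_neg (by linarith), if_pos (by linarith), r3_eq, gh_eq, kc3_eq, e3]
  push_cast
  set c := c3 (h0 + s) with hc
  set x := x3_1 s with hxx
  have h5 : s * x = c - 3 / 2 := by linarith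
  rw [div_eq_iff hd.ne', ← div_eq_mul_inv (h0 + s)]
  set K := c - (h0 + s) / (2 * h0) + 1 with hK
  have e4 : ∀ B : ℝ, (3 / 2 + s * -(B * K⁻¹)) * K = 3 / 2 * K - s * B := by
    intro B
    field_simp
    ring
  rw [e4]
  have e5 : ∀ y : ℝ, s * (2 * h0 + s + (1 / 2 * x + y + s * x * (2 * h0)⁻¹)) =
      s * (2 * h0 + s) + 1 / 2 * (s * x) + s * y + s * (s * x) / (2 * h0) := by
    intro y
    ring
  rw [e5, h5, hK]
  have h6 : c ^ 2 = 3 - (h0 + s) ^ 2 := h2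
  field_simp
  nlinarith

theorem germ_g0_2 (hv : CT v) :
    v (h0 + s) 1 - v (h0 + s) 0 = g0_2 s * (f1 (h0 + s) - c1 (h0 + s)) := by
  have hq := h0_sq'
  have hp := h0_gt
  have hl := h0_lt
  obtain ⟨h1, h2⟩ := c1_bd (T := h0 + s) (by linarith) (by linarith)
  obtain ⟨w1, w2⟩ := w2_bd h0s hs
  have hden : 0 < y1_2 s - x1_2 s := by
    unfold y1_2 x1_2
    rw [r3_eq, gh_eq, kc1_eq]
    push_cast
    have e1 : 11 / 10 ≤ (2 * h0 + s) * (c1 (h0 + s) + 1 / 2)⁻¹ := by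
      rw [← div_eq_mul_inv, le_div_iff₀ (by linarith)]
      nlinarith
    have e2 : s * (1 + √(1 - s ^ 2))⁻¹ ≤ 1 := by
      rw [← div_eq_mul_inv, div_le_one (by linarith)]
      linarith
    linarith
  unfold g0_2
  rw [germ_q1_2 h0s hs hv, germ_r1_2 h0s hs hv, germ_y1_2 h0s hs, germ_x1_2 h0s hs]
  field_simp
  ring

theorem germ_g1_2 (hv : CT v) :
    v (h0 + s) 3 - v (h0 + s) 1 = g1_2 s * (f2 (h0 + s) - f1 (h0 + s)) := by
  have hq := h0_sq'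
  have hp := h0_gt
  have hl := h0_lt
  obtain ⟨h1, h2⟩ := c1_bd (T := h0 + s) (by linarith) (by linarith)
  obtain ⟨h3, h4⟩ := c3_bd (T := h0 + s) (by nlinarith)
  have e : f2 (h0 + s) - f1 (h0 + s) = (c3 (h0 + s) - c1 (h0 + s)) / 2 := by
    unfold f2 f1
    ring
  have hden : 0 < f2 (h0 + s) - f1 (h0 + s) := by
    rw [e]
    nlinarith
  unfold g1_2
  rw [gh_eq, kf2p_eq (by linarith), kf1p_eq (by linarith),
    hv.v3_2 (h0 + s) (by linarith) (by linarith), hv.v1_2 (h0 + s) (by linarith) (by linarith)]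
  field_simp

theorem germ_g2_2 (hv : CT v) :
    v (h0 + s) 4 - v (h0 + s) 3 = g2_2 s * (c3 (h0 + s) - f2 (h0 + s)) := by
  have hq := h0_sq'
  have hp := h0_gt
  have hl := h0_lt
  obtain ⟨h1, h2⟩ := c3_bd (T := h0 + s) (by nlinarith)
  obtain ⟨w1, w2⟩ := w2_bd h0s hs
  have hd := den2 h0s hs
  have e1 : 5 / 4 ≤ c3 (h0 + s) := by nlinarith
  have e2 : √(1 - s ^ 2) ≤ 1 := by nlinarith
  have hden : 0 < c3 (h0 + s) - f2 (h0 + s) := by
    unfold f2 Wc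
    rw [if_neg (by linarith), add_sub_cancel_left]
    linarith
  have e3 : √3 = 2 * h0 := by
    unfold h0
    ring
  have ea : a3_2 (h0 + s) = v (h0 + s) 4 := by
    rw [hv.v4 (h0 + s) (by linarith)]
    unfold A3 a3_2
    rw [if_neg (by linarith), if_neg (by linarith), if_pos (by linarith), kc3_eq, r3_eq, e3]
    push_cast
    rfl
  unfold g2_2
  rw [gh_eq, kf2p_eq (by linarith), ea, kc3_eq, hv.v3_2 (h0 + s) (by linarith) (by linarith)]
  field_simp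

end

/-! ### Quarter 3 -/

section

variable {s : ℝ} (hs : -(1 / 10) ≤ s) (hs0 : s ≤ 0)

include hs hs0

theorem germ_y1_3 : f1 (2 * h0 + s) = s * y1_3 s := by
  have hq := h0_sq'
  have hp := h0_gt
  have hl := h0_lt
  obtain ⟨w1, w2⟩ := w_bd (s := h0 + s) (by nlinarith)
  have ec : c1 (2 * h0 + s) = 0 := c1_zero (by linarith)
  unfold y1_3 f1 Wc
  rw [if_neg (by linarith), ec, r3_eq, gh_eq, show 2 * h0 + s - h0 = h0 + s by ring]
  push_cast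
  field_simp
  nlinarith

theorem germ_q1_3 (hv : CT v) : v (2 * h0 + s) 1 = s * q1_3 s := by
  have hp := h0_pos
  rw [hv.v1_3 (2 * h0 + s) (by linarith) (by linarith), germ_y1_3 hs hs0]
  unfold q1_3 b1_3
  rw [gh_eq]
  push_cast
  field_simp
  ring

end

end Pool.Agent.Strip051.LC.Line.Corn
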