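import Pool.Agent.Strip051.LC.Line.TableF
import Pool.Agent.Strip051.LC.Line.Corn.Germ

/-! # The table near the aligned corners -/

namespace Pool.Agent.Strip051.LC.Line.Corn

open Pool.Agent.StripNear Pool.Agent.StripSquare Pool.Agent.Strip051.Sweep
  Pool.Agent.Strip051.LC

theorem ct_vF : CT vF where
  v0 T h h' := vF_0 h h'
  v4 T h := vF_4 h
  v1_0 T h h' := by
    have hp := h0_gt
    rw [vF_1 h]
    unfold tB1 lin b1_0
    rw [if_pos (by linarith), gh_eq]
    push_cast
    ring
  v1_1 T h h' := by
    have hp := h0_gt
    have hl := h0_lt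
    rw [vF_1 (by linarith)]
    unfold tB1 lin b1_1
    rw [if_neg (by linarith), if_neg (by linarith), if_pos h', gh_eq]
    push_cast
    ring
  v1_2 T h h' := by
    have hp := h0_gt
    have hl := h0_lt
    rw [vF_1 (by linarith)]
    unfold tB1 lin b1_2
    rw [if_neg (by linarith), if_neg (by linarith), if_neg (by linarith), if_pos (by linarith),
      gh_eq]
    push_cast
    ring
  v1_3 T h h' := by
    have hp := h0_gt
    have hl := h0_lt
    rw [vF_1 (by linarith)]
    unfold tB1 lin b1_3
    rw [if_neg (by linarith), if_neg (by linarith), if_neg (by linarith), if_neg (by linarith),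
      if_neg (by linarith), if_neg (by linarith), gh_eq]
    push_cast
    ring
  v3_0 T h h' := by
    have hp := h0_gt
    rw [vF_3 h]
    unfold tB2 lin b2_0
    rw [if_pos (by linarith), gh_eq]
    push_cast
    ring
  v3_1 T h h' := by
    have hp := h0_gt
    have hl := h0_lt
    rw [vF_3 (by linarith)]
    unfold tB2 lin b2_1
    rw [if_neg (by linarith), if_neg (by linarith), if_pos h', gh_eq]
    push_cast
    ring
  v3_2 T h h' := by
    have hp := h0_gt
    have hl := h0_lt
    rw [vF_3 (by linarith)]
    unfold tB2 lin b2_2
    rw [if_neg (by linarith), if_neg (by linarith), if_neg (by linarith), if_pos (by linarith),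
      gh_eq]
    push_cast
    ring

end Pool.Agent.Strip051.LC.Line.Corn
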