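import Pool.Agent.Strip051.LC.Line.Corn.Fn

/-! # Real functions for the charts at the vertical corner (generated)

`z` is the value of the circle of radius `sqrt 3`; the height is `kc3 z`. -/

namespace Pool.Agent.Strip051.LC.Line.Corn

/-- (2 h - T) / z^2 at T = sqrt (3 - z^2) -/
noncomputable def gqz (s : ℝ) : ℝ :=
  (((Real.sqrt ((3 : ℕ) : ℝ)) + (kc3 s))⁻¹)

/-- W(T) / (2 h - T) -/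
noncomputable def wqz (s : ℝ) : ℝ :=
  (((Real.sqrt ((3 : ℕ) : ℝ)) - ((s ^ 2) * (gqz s))) * (((kw (kc3 s)) + (((1 : ℕ) : ℝ) / ((2 : ℕ) : ℝ)))⁻¹))

/-- f2(T) / z -/
noncomputable def x2z (s : ℝ) : ℝ :=
  (((1 : ℕ) : ℝ) / ((2 : ℕ) : ℝ) * (((1 : ℕ) : ℝ) + (s * ((gqz s) * (wqz s)))))

/-- A3(T) / z -/
noncomputable def k3z (s : ℝ) : ℝ :=
  ((((kc3 s) * ((Real.sqrt ((3 : ℕ) : ℝ))⁻¹)) - s) * (((((1 : ℕ) : ℝ) + ((kc3 s) * ((Real.sqrt ((3 : ℕ) : ℝ))⁻¹))) - s)⁻¹))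

/-- slope of the table of f2 at 2h -/
noncomputable def m2z : ℝ :=
  ((((489 : ℕ) : ℝ) / ((250 : ℕ) : ℝ)) * (gh⁻¹))

/-- table of f2 at T -/
noncomputable def b2z (s : ℝ) : ℝ :=
  ((((1 : ℕ) : ℝ) / ((2 : ℕ) : ℝ)) - ((s ^ 2) * ((gqz s) * m2z)))

/-- second node, general scale -/
noncomputable def sw2 (x1 x2 x3 x4 x5 x6 x7 x8 x9 : ℝ) : ℝ :=
  (((((x6 * (gh - (x2 * x4))) - (x5 * (gh - (x2 * x3)))) + (x9 * (((gh - (x2 * x3)) - (x2 * x4)) * ((x5 + x6) - (x2 * x7))))) * ((Real.sqrt ((3 : ℕ) : ℝ))⁻¹)) + (x2 * (x8 * ((((2 : ℕ) : ℝ) * x1)⁻¹))))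

/-- slack of the star inequality in scaled form -/
noncomputable def scaleQ (x1 x2 x3 x4 x5 x6 x7 x8 x9 : ℝ) : ℝ :=
  ((x8 * (((1 : ℕ) : ℝ) / ((4 : ℕ) : ℝ) * (((2 : ℕ) : ℝ) + (Real.sqrt ((3 : ℕ) : ℝ))))) - (x1 * (((x3 * (Pool.Agent.Strip051.LC.Line.phi (x2 * (cw1 x1 x2 x3 x4 x5 x6 x7 x8)) (sw2 x1 x2 x3 x4 x5 x6 x7 x8 x9))) + (x4 * (Pool.Agent.Strip051.LC.Line.phi (sw2 x1 x2 x3 x4 x5 x6 x7 x8 x9) (x2 * (cw3 x1 x2 x3 x4 x5 x6 x7 x8))))) + (((gh - (x2 * x3)) - (x2 * x4)) * (Pool.Agent.Strip051.LC.Line.phi (cw3 x1 x2 x3 x4 x5 x6 x7 x8) (cw1 x1 x2 x3 x4 x5 x6 x7 x8))))))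

/-- quotient (x C + h) / s -/
noncomputable def K1q (s : ℝ) : ℝ :=
  (-(((gh * (x1_1 s)) + (kc1 (gh + s))) * (((kc1 (gh + s)) + (((1 : ℕ) : ℝ) / ((2 : ℕ) : ℝ)))⁻¹)))

/-- second order slope of the value on c1 below h -/
noncomputable def r1q (s : ℝ) : ℝ :=
  ((((((3 : ℕ) : ℝ) * ((((Real.sqrt ((3 : ℕ) : ℝ)) * (x1_1 s)) - ((1 : ℕ) : ℝ)) * (((kc1 (gh + s)) + (((1 : ℕ) : ℝ) / ((2 : ℕ) : ℝ)))⁻¹))) + ((2 : ℕ) : ℝ)) + (((2 : ℕ) : ℝ) * ((Real.sqrt ((3 : ℕ) : ℝ)) * (x1_1 s)))) * ((((2 : ℕ) : ℝ) * ((((1 : ℕ) : ℝ) + ((Real.sqrt ((3 : ℕ) : ℝ)) * (gh + s))) - (kc1 (gh + s))))⁻¹))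

/-- W(T) / (2 h - T) at T = 2 h - s -/
noncomputable def wqg (s : ℝ) : ℝ :=
  (((Real.sqrt ((3 : ℕ) : ℝ)) - s) * (((kw ((((2 : ℕ) : ℝ) * gh) - s)) + (((1 : ℕ) : ℝ) / ((2 : ℕ) : ℝ)))⁻¹))

/-- table of f2 at 2h -/
noncomputable def b2_3 (s : ℝ) : ℝ :=
  ((((1 : ℕ) : ℝ) / ((2 : ℕ) : ℝ)) + (((489 : ℕ) : ℝ) / ((250 : ℕ) : ℝ) * ((s * (gh⁻¹)) - ((2 : ℕ) : ℝ))))

/-- W / c3 at T = 2 h - s -/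
noncomputable def wz (s : ℝ) : ℝ :=
  (((Real.sqrt (s * ((((4 : ℕ) : ℝ) * gh) - s))) * (wqg s)) * (((((4 : ℕ) : ℝ) * gh) - s)⁻¹))

/-- interpolation slope between f1 and f2 at 2 h - s -/
noncomputable def G1g (s : ℝ) : ℝ :=
  ((b2_3 ((((2 : ℕ) : ℝ) * gh) - s)) + ((wz s) * ((b2_3 ((((2 : ℕ) : ℝ) * gh) - s)) - (b1_3 ((((2 : ℕ) : ℝ) * gh) - s)))))

/-- interpolation slope between f2 and c3 at T = c3 z -/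
noncomputable def G2z (s : ℝ) : ℝ :=
  (((((2 : ℕ) : ℝ) * (k3z s)) - ((((1 : ℕ) : ℝ) + (s * ((gqz s) * (wqz s)))) * (b2z s))) * ((((1 : ℕ) : ℝ) - (s * ((gqz s) * (wqz s))))⁻¹))

/-- slack of a part of the star inequality near a degenerate point -/
noncomputable def degQ (x1 x2 x3 x4 x5 x6 x7 : ℝ) : ℝ :=
  ((x7 * (((1 : ℕ) : ℝ) / ((4 : ℕ) : ℝ) * (((2 : ℕ) : ℝ) + (Real.sqrt ((3 : ℕ) : ℝ))))) - (x1 * (((gh - (x2 * (x3 + x4))) * (Pool.Agent.Strip051.LC.Line.phi (((x6 * ((((2 : ℕ) : ℝ) * gh)⁻¹)) + (x7 * ((((2 : ℕ) : ℝ) * x1)⁻¹))) - (((gh - (x2 * (x3 + x4))) * x5) * ((((2 : ℕ) : ℝ) * gh)⁻¹))) (((x6 * ((((2 : ℕ) : ℝ) * gh)⁻¹)) + (x7 * ((((2 : ℕ) : ℝ) * x1)⁻¹))) + (((gh - (x2 * (x3 + x4))) * x5) * ((((2 : ℕ) : ℝ) * gh)⁻¹))))) + (x2 * (((1 : ℕ) : ℝ) / ((2 : ℕ) : ℝ)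 * ((x3 * (max (((x6 * ((((2 : ℕ) : ℝ) * gh)⁻¹)) + (x7 * ((((2 : ℕ) : ℝ) * x1)⁻¹))) + (((gh - (x2 * (x3 + x4))) * x5) * ((((2 : ℕ) : ℝ) * gh)⁻¹))) 0)) + (x4 * (max (((x6 * ((((2 : ℕ) : ℝ) * gh)⁻¹)) + (x7 * ((((2 : ℕ) : ℝ) * x1)⁻¹))) - (((gh - (x2 * (x3 + x4))) * x5) * ((((2 : ℕ) : ℝ) * gh)⁻¹))) 0))))))))

end Pool.Agent.Strip051.LC.Line.Corn
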