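import Pool.Agent.Strip051.LC.Line.Corn.Cone
import Pool.Agent.Strip051.LC.Line.Corn.Fn2

/-! # The star inequality in scaled form

`starN_scale` is the general form (the ratio of the short arcs is a free parameter), `starN_deg`
the form near a point where the excess vanishes to first order. -/

namespace Pool.Agent.Strip051.LC.Line.Corn

open Pool.Agent.StripNear Pool.Agent.StripSquare Pool.Agent.Strip051.Sweep

/-! ### The mean of the positive part is sublinear -/

theorem phi_ge {p q b : ℝ} (hb : 0 ≤ b) (hb1 : b ≤ 1) : p * b + (q - p) * b ^ 2 / 2 ≤ phi p q := by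
  rcases le_total 0 p with h1 | h1 <;> rcases le_total 0 q with h2 | h2
  · rw [phi_nonneg_nonneg h1 h2]
    nlinarith [mul_nonneg h1 (sq_nonneg (1 - b)), mul_nonneg h2 (mul_nonneg (sub_nonneg.2 hb1)
      (by linarith : 0 ≤ 1 + b))]
  · rcases (sub_nonneg.2 (h2.trans h1)).eq_or_lt with h0 | h0
    · have e1 : p = 0 := by linarith
      have e2 : q = 0 := by linarith
      subst e1
      subst e2
      rw [phi_nonneg_nonneg le_rfl le_rfl]
      linarith
    · rw [phi_pos_neg h1 h2, le_div_iff₀ (by linarith)]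
      nlinarith [sq_nonneg (p - (p - q) * b)]
  · rcases (sub_nonneg.2 (h1.trans h2)).eq_or_lt with h0 | h0
    · have e1 : p = 0 := by linarith
      have e2 : q = 0 := by linarith
      subst e1
      subst e2
      rw [phi_nonneg_nonneg le_rfl le_rfl]
      linarith
    · rw [phi_neg_pos h1 h2]
      have hA : p * b + (q - p) * b ^ 2 / 2 ≤ b * ((p + q) / 2) := by
        have := mul_nonneg (mul_nonneg h0.le hb) (sub_nonneg.2 hb1)
        nlinarith
      have hB : (p + q) / 2 ≤ q ^ 2 / (2 * (q - p)) := by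
        rw [div_le_div_iff₀ (by norm_num) (by linarith)]
        nlinarith [sq_nonneg p]
      have hC : 0 ≤ q ^ 2 / (2 * (q - p)) := div_nonneg (sq_nonneg _) (by linarith)
      have hD : b * ((p + q) / 2) ≤ b * (q ^ 2 / (2 * (q - p))) := mul_le_mul_of_nonneg_left hB hb
      have hE : b * (q ^ 2 / (2 * (q - p))) ≤ 1 * (q ^ 2 / (2 * (q - p))) :=
        mul_le_mul_of_nonneg_right hb1 hC
      linarith
  · rw [phi_nonpos_nonpos h1 h2]
    nlinarith [mul_nonneg (neg_nonneg.2 h1) (mul_nonneg hb (by linarith : 0 ≤ 2 - b)),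
      mul_nonneg (neg_nonneg.2 h2) (sq_nonneg b)]

theorem phi_ge' {p q b : ℝ} (hb : 0 ≤ b) (hb1 : b ≤ 1) :
    q * b + (p - q) * b ^ 2 / 2 ≤ phi p q := by
  rw [phi_comm]
  exact phi_ge hb hb1

theorem phi_at (p q : ℝ) : ∃ b : ℝ, 0 ≤ b ∧ b ≤ 1 ∧
    (phi p q = p * b + (q - p) * b ^ 2 / 2 ∨ phi p q = q * b + (p - q) * b ^ 2 / 2) := by
  have key : ∀ p q : ℝ, 0 ≤ p → q ≤ 0 → ∃ b : ℝ, 0 ≤ b ∧ b ≤ 1 ∧
      phi p q = p * b + (q - p) * b ^ 2 / 2 := by
    intro p q h1 h2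
    rcases (sub_nonneg.2 (h2.trans h1)).eq_or_lt with h0 | h0
    · have e1 : p = 0 := by linarith
      have e2 : q = 0 := by linarith
      subst e1
      subst e2
      exact ⟨0, le_rfl, by norm_num, by rw [phi_nonneg_nonneg le_rfl le_rfl]; norm_num⟩
    · refine ⟨p / (p - q), div_nonneg h1 h0.le, ?_, ?_⟩
      · rw [div_le_one h0]
        linarith
      · rw [phi_pos_neg h1 h2]
        field_simp
        ring
  rcases le_total 0 p with h1 | h1 <;> rcases le_total 0 q with h2 | h2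
  · exact ⟨1, by norm_num, le_rfl, Or.inl (by rw [phi_nonneg_nonneg h1 h2]; ring)⟩
  · obtain ⟨b, hb, hb1, h⟩ := key p q h1 h2
    exact ⟨b, hb, hb1, Or.inl h⟩
  · obtain ⟨b, hb, hb1, h⟩ := key q p h2 h1
    exact ⟨b, hb, hb1, Or.inr (by rw [phi_comm, h])⟩
  · exact ⟨0, le_rfl, by norm_num, Or.inl (by rw [phi_nonpos_nonpos h1 h2]; norm_num)⟩

theorem phi_add_le (p q p' q' : ℝ) : phi (p + p') (q + q') ≤ phi p q + phi p' q' := by
  obtain ⟨b, hb, hb1, h | h⟩ := phi_at (p + p') (q + q')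
  · have h1 := phi_ge (p := p) (q := q) hb hb1
    have h2 := phi_ge (p := p') (q := q') hb hb1
    rw [h]
    linarith
  · have h1 := phi_ge' (p := p) (q := q) hb hb1
    have h2 := phi_ge' (p := p') (q := q') hb hb1
    rw [h]
    linarith

/-- **The star inequality in scaled form.** -/
theorem starN_scale {θ r a b e d A1 A2 A3 ex l1 l2 q : ℝ} (hθ : 0 < θ) (hr : 0 ≤ r)
    (ha : 0 ≤ a) (hb : 0 ≤ b) (hl1 : l1 = r * a) (hl2 : l2 = r * b) (hs : l1 + l2 ≤ h0)
    (he : ex = r * e) (hd : A1 + A2 - A3 = r * d)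
    (hq : A3 * (l1 - l2) / (l1 + l2) ≤ q * A3)
    (hQ : 0 ≤ scaleQ θ r a b A1 A2 d e q) :
    StarN θ ex l1 l2 A1 A2 A3 := by
  have hp := h0_pos
  have hA3 : A3 = A1 + A2 - r * d := by linarith
  unfold StarN Star
  have w1 : (A1 * (h0 - l1) + A2 * (h0 - 2 * l1 - l2) - A3 * (h0 - l1 - l2)) / (2 * h0) +
      ex / (2 * θ) = r * cw1 θ r a b A1 A2 d e := by
    unfold cw1
    rw [gh_eq, r3_eq, hA3, hl1, hl2, he]
    push_cast
    field_simp
    ring
  have w2 : (-A1 * (h0 - l1) + A2 * (h0 - l2) + A3 * (l1 - l2) / (l1 + l2) * (h0 - l1 - l2)) /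
      (2 * h0) + ex / (2 * θ) ≤ sw2 θ r a b A1 A2 d e q := by
    have hm : A3 * (l1 - l2) / (l1 + l2) * (h0 - l1 - l2) ≤ q * A3 * (h0 - l1 - l2) :=
      mul_le_mul_of_nonneg_right hq (by linarith)
    have e2 : sw2 θ r a b A1 A2 d e q = (-A1 * (h0 - l1) + A2 * (h0 - l2) +
        q * A3 * (h0 - l1 - l2)) / (2 * h0) + ex / (2 * θ) := by
      unfold sw2
      rw [gh_eq, r3_eq, hA3, hl1, hl2, he]
      push_cast
      field_simp
      ring
    rw [e2]
    gcongr
  have w3 : (-A1 * (h0 - l1 - 2 * l2) - A2 * (h0 - l2) + A3 * (h0 - l1 - l2)) / (2 * h0) +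
      ex / (2 * θ) = r * cw3 θ r a b A1 A2 d e := by
    unfold cw3
    rw [gh_eq, r3_eq, hA3, hl1, hl2, he]
    push_cast
    field_simp
    ring
  rw [w1, w3, phi_smul hr]
  have f1 := phi_mono (le_refl (r * cw1 θ r a b A1 A2 d e)) w2
  have f2 := phi_mono w2 (le_refl (r * cw3 θ r a b A1 A2 d e))
  have g1 := mul_le_mul_of_nonneg_left f1 (mul_nonneg hr ha)
  have g2 := mul_le_mul_of_nonneg_left f2 (mul_nonneg hr hb)
  unfold scaleQ at hQ
  rw [gh_eq] at hQ
  have hL : (((1 : ℕ) : ℝ) / ((4 : ℕ) : ℝ) * (((2 : ℕ) : ℝ) + (Real.sqrt ((3 : ℕ) : ℝ)))) = L0 := by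
    unfold L0
    push_cast
    ring
  rw [hL] at hQ
  have hQ' := mul_nonneg hr hQ
  have hF := mul_le_mul_of_nonneg_left (add_le_add g1 g2) hθ.le
  rw [hl1, hl2, he] at *
  nlinarith

/-- **The star inequality near a point where the excess vanishes to first order.** -/
theorem starN_deg {θ z ω a b e1 e2 d1 d2 g1 A1 A2 A3 ex l1 l2 : ℝ} (hθ : 0 < θ) (hz : 0 ≤ z)
    (hω : 0 ≤ ω) (ha : 0 ≤ a) (hb : 0 ≤ b) (hl1 : l1 = z * a) (hl2 : l2 = z * b)
    (hs : l1 + l2 ≤ h0) (he : ex = z * (e1 * ω + z * e2))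
    (hd : A1 + A2 - A3 = z * (d1 * ω + z * d2)) (hg : b * A1 - a * A2 = z * g1)
    (hW : (-A1 * (h0 - l1) + A2 * (h0 - l2) + A3 * (l1 - l2) / (l1 + l2) * (h0 - l1 - l2)) /
      (2 * h0) + ex / (2 * θ) ≤ 0)
    (hQ1 : 0 ≤ e1 * L0 - θ * ((h0 - z * (a + b)) *
        phi (e1 / (2 * θ) - (h0 - z * (a + b)) * d1 / (2 * h0))
          ((h0 - z * (a + b)) * d1 / (2 * h0) + e1 / (2 * θ)) +
        z * ((a * max ((h0 - z * (a + b)) * d1 / (2 * h0) + e1 / (2 * θ)) 0 +
          b * max (e1 / (2 * θ) - (h0 - z * (a + b)) * d1 / (2 * h0)) 0) / 2)))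
    (hQ2 : 0 ≤ e2 * L0 - θ * ((h0 - z * (a + b)) *
        phi (g1 / (2 * h0) + e2 / (2 * θ) - (h0 - z * (a + b)) * d2 / (2 * h0))
          (g1 / (2 * h0) + e2 / (2 * θ) + (h0 - z * (a + b)) * d2 / (2 * h0)) +
        z * ((a * max (g1 / (2 * h0) + e2 / (2 * θ) + (h0 - z * (a + b)) * d2 / (2 * h0)) 0 +
          b * max (g1 / (2 * h0) + e2 / (2 * θ) - (h0 - z * (a + b)) * d2 / (2 * h0)) 0) / 2))) :
    StarN θ ex l1 l2 A1 A2 A3 := by
  have hp := h0_pos
  have hA3 : A3 = A1 + A2 - z * (d1 * ω + z * d2) := by linarith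
  set p1 := (h0 - z * (a + b)) * d1 / (2 * h0) + e1 / (2 * θ) with hp1
  set p3 := e1 / (2 * θ) - (h0 - z * (a + b)) * d1 / (2 * h0) with hp3
  set q1 := g1 / (2 * h0) + e2 / (2 * θ) + (h0 - z * (a + b)) * d2 / (2 * h0) with hq1
  set q3 := g1 / (2 * h0) + e2 / (2 * θ) - (h0 - z * (a + b)) * d2 / (2 * h0) with hq3
  have w1 : (A1 * (h0 - l1) + A2 * (h0 - 2 * l1 - l2) - A3 * (h0 - l1 - l2)) / (2 * h0) +
      ex / (2 * θ) = z * (ω * p1 + z * q1) := by
    have h1 : A1 * (h0 - l1) + A2 * (h0 - 2 * l1 - l2) - A3 * (h0 - l1 - l2) =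
        z * (h0 - z * (a + b)) * (d1 * ω + z * d2) + z * (z * g1) := by
      rw [← hg, hA3, hl1, hl2]
      ring
    rw [h1, he, hp1, hq1]
    field_simp
    ring
  have w3 : (-A1 * (h0 - l1 - 2 * l2) - A2 * (h0 - l2) + A3 * (h0 - l1 - l2)) / (2 * h0) +
      ex / (2 * θ) = z * (ω * p3 + z * q3) := by
    have h1 : -A1 * (h0 - l1 - 2 * l2) - A2 * (h0 - l2) + A3 * (h0 - l1 - l2) =
        -(z * (h0 - z * (a + b)) * (d1 * ω + z * d2)) + z * (z * g1) := by
      rw [← hg, hA3, hl1, hl2]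
      ring
    rw [h1, he, hp3, hq3]
    field_simp
    ring
  unfold StarN Star
  rw [w1, w3]
  set W2 := (-A1 * (h0 - l1) + A2 * (h0 - l2) + A3 * (l1 - l2) / (l1 + l2) * (h0 - l1 - l2)) /
      (2 * h0) + ex / (2 * θ) with hW2
  have half1 : phi (z * (ω * p1 + z * q1)) W2 ≤ z * (ω * max p1 0 + z * max q1 0) / 2 := by
    refine (phi_le_half _ _).trans ?_
    rw [max_eq_right hW, add_zero]
    have : max (z * (ω * p1 + z * q1)) 0 ≤ z * (ω * max p1 0 + z * max q1 0) := by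
      apply max_le
      · exact mul_le_mul_of_nonneg_left (add_le_add (mul_le_mul_of_nonneg_left (le_max_left _ _) hω)
          (mul_le_mul_of_nonneg_left (le_max_left _ _) hz)) hz
      · have := le_max_right p1 0
        have := le_max_right q1 0
        positivity
    linarith
  have half3 : phi W2 (z * (ω * p3 + z * q3)) ≤ z * (ω * max p3 0 + z * max q3 0) / 2 := by
    refine (phi_le_half _ _).trans ?_
    rw [max_eq_right hW, zero_add]
    have : max (z * (ω * p3 + z * q3)) 0 ≤ z * (ω * max p3 0 + z * max q3 0) := by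
      apply max_le
      · exact mul_le_mul_of_nonneg_left (add_le_add (mul_le_mul_of_nonneg_left (le_max_left _ _) hω)
          (mul_le_mul_of_nonneg_left (le_max_left _ _) hz)) hz
      · have := le_max_right p3 0
        have := le_max_right q3 0
        positivity
    linarith
  have full : phi (z * (ω * p3 + z * q3)) (z * (ω * p1 + z * q1)) ≤
      z * (ω * phi p3 p1 + z * phi q3 q1) := by
    rw [phi_smul hz]
    refine mul_le_mul_of_nonneg_left ((phi_add_le _ _ _ _).trans ?_) hz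
    rw [phi_smul hω, phi_smul hz]
  have hl3 : 0 ≤ h0 - l1 - l2 := by linarith
  have g1' := mul_le_mul_of_nonneg_left half1 (mul_nonneg hz ha)
  have g2' := mul_le_mul_of_nonneg_left half3 (mul_nonneg hz hb)
  have g3' := mul_le_mul_of_nonneg_left full hl3
  have e3 : h0 - l1 - l2 = h0 - z * (a + b) := by rw [hl1, hl2]; ring
  rw [← hl1] at g1'
  rw [← hl2] at g2'
  have hF := mul_le_mul_of_nonneg_left (add_le_add (add_le_add g1' g2') g3') hθ.le
  refine hF.trans ?_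
  rw [e3, hl1, hl2, he]
  have k1 := mul_nonneg (mul_nonneg hz hω) hQ1
  have k2 := mul_nonneg (mul_nonneg hz hz) hQ2
  nlinarith

end Pool.Agent.Strip051.LC.Line.Corn
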