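import Pool.Agent.Strip051.LC.Line.Corn.Cell
import Pool.Agent.Strip051.LC.Line.Corn.Scale

/-! # Germs at the vertical corner

`z` is the abscissa on the circle of radius `√3` at the height `T = kc3 z` near `2 h0`. -/

namespace Pool.Agent.Strip051.LC.Line.Corn

open Pool.Agent.StripNear Pool.Agent.StripSquare Pool.Agent.Strip051.Sweep
  Pool.Agent.Strip051.LC

/-- The table near the aligned corners, with the vertical one. -/
structure CTV (v : ℝ → Fin 5 → ℝ) : Prop extends CT v where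
  v0' : ∀ T, 1 ≤ T → v T 0 = 0
  v3_3 : ∀ T, 2 * h0 - 1 / 10 ≤ T → T ≤ 2 * h0 → v T 3 = f2 T * b2_3 T

section

variable {z : ℝ} (hz : 0 ≤ z) (hz1 : z ≤ 6 / 10)

include hz hz1

theorem kz_sq : kc3 z ^ 2 = 3 - z ^ 2 := by
  rw [kc3_eq]
  linarith [c3_sq (t := z) (by nlinarith)]

theorem kz_bd : 16 / 10 < kc3 z ∧ kc3 z ≤ 2 * h0 := by
  have h := kz_sq hz hz1
  have h1 : 0 ≤ kc3 z := by
    rw [kc3_eq]
    exact c3_nonneg z
  have hq := h0_sq'
  have hp := h0_pos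
  constructor
  · nlinarith
  · nlinarith

theorem kz_gap : z ^ 2 * gqz z = 2 * h0 - kc3 z := by
  obtain ⟨h1, h2⟩ := kz_bd hz hz1
  have h := kz_sq hz hz1
  have hq := h0_sq'
  have hp := h0_pos
  unfold gqz
  rw [r3_eq, ← div_eq_mul_inv, div_eq_iff (by linarith)]
  nlinarith

theorem kz_g : 0 < gqz z ∧ gqz z ≤ 1 / 3 := by
  obtain ⟨h1, h2⟩ := kz_bd hz hz1
  have hp := h0_gt
  unfold gqz
  rw [r3_eq]
  refine ⟨by positivity, ?_⟩
  rw [inv_le_comm₀ (by linarith) (by norm_num)]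
  linarith

theorem kz_c3 : c3 (kc3 z) = z := by
  have h := kz_sq hz hz1
  have h3 := c3_sq (t := kc3 z) (by rw [h]; nlinarith)
  have := c3_nonneg (kc3 z)
  nlinarith

theorem kz_w : 1 / 2 ≤ kw (kc3 z) ∧ kw (kc3 z) ^ 2 = 1 - (kc3 z - h0) ^ 2 := by
  obtain ⟨h1, h2⟩ := kz_bd hz hz1
  have hp := h0_gt
  have hl := h0_lt
  rw [kw_eq]
  apply w_bd
  nlinarith [h0_sq']

theorem kz_W : Wc (kc3 z) = z ^ 2 * (gqz z * wqz z) := by
  obtain ⟨h1, h2⟩ := kz_bd hz hz1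
  obtain ⟨w1, w2⟩ := kz_w hz hz1
  have hg := kz_gap hz hz1
  have hp := h0_gt
  have hl := h0_lt
  have hq := h0_sq'
  unfold wqz
  rw [← mul_assoc, hg, r3_eq]
  unfold Wc
  rw [if_neg (by linarith), ← kw_eq]
  push_cast
  rw [← div_eq_mul_inv, ← mul_div_assoc, eq_div_iff (by linarith)]
  nlinarith

theorem kz_W0 : 0 ≤ z * (gqz z * wqz z) ∧ z * (gqz z * wqz z) < 1 / 2 := by
  obtain ⟨h1, h2⟩ := kz_bd hz hz1
  obtain ⟨w1, w2⟩ := kz_w hz hz1
  obtain ⟨g1, g2⟩ := kz_g hz hz1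
  have hg := kz_gap hz hz1
  have hp := h0_gt
  have hl := h0_lt
  have hw : wqz z = kc3 z / (kw (kc3 z) + 1 / 2) := by
    unfold wqz
    rw [hg, r3_eq]
    push_cast
    rw [← div_eq_mul_inv]
    congr 1
    ring
  have hw0 : 0 ≤ wqz z := by
    rw [hw]
    exact div_nonneg (by linarith) (by linarith)
  have hw1 : wqz z ≤ 2 * h0 := by
    rw [hw, div_le_iff₀ (by linarith)]
    nlinarith
  refine ⟨mul_nonneg hz (mul_nonneg g1.le hw0), ?_⟩
  have a1 : gqz z * wqz z ≤ 1 / 3 * (2 * h0) := mul_le_mul g2 hw1 hw0 (by norm_num)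
  have a2 : z * (gqz z * wqz z) ≤ 6 / 10 * (1 / 3 * (2 * h0)) :=
    mul_le_mul hz1 a1 (mul_nonneg g1.le hw0) (by norm_num)
  linarith

theorem kz_f2 : f2 (kc3 z) = z * x2z z := by
  unfold f2 x2z
  rw [kz_W hz hz1, kz_c3 hz hz1]
  push_cast
  ring

theorem kz_f1 : f1 (kc3 z) = z ^ 2 * (gqz z * wqz z) / 2 := by
  obtain ⟨h1, h2⟩ := kz_bd hz hz1
  unfold f1
  rw [kz_W hz hz1, c1_zero (by linarith)]
  ring

theorem kz_b2 : b2_3 (kc3 z) = b2z z := by
  have hg := kz_gap hz hz1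
  have hp := h0_pos
  have e : kc3 z = 2 * h0 - z ^ 2 * gqz z := by linarith
  unfold b2_3 b2z m2z
  rw [gh_eq]
  push_cast
  rw [e]
  field_simp
  ring

variable {v : ℝ → Fin 5 → ℝ} (hv : CTV v) (hT : 2 * h0 - 1 / 10 ≤ kc3 z)

include hv hT

theorem kz_v3 : v (kc3 z) 3 = z * (x2z z * b2z z) := by
  rw [hv.v3_3 _ hT (kz_bd hz hz1).2, kz_f2 hz hz1, kz_b2 hz hz1]
  ring

theorem kz_v4 : v (kc3 z) 4 = z * k3z z := by
  obtain ⟨h1, h2⟩ := kz_bd hz hz1
  have hp := h0_gt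
  have hl := h0_lt
  have e3 : √3 = 2 * h0 := by
    unfold h0
    ring
  rw [hv.v4 _ (by linarith)]
  unfold A3 k3z
  rw [if_neg (by linarith), if_neg (by linarith), if_neg (by linarith), kz_c3 hz hz1, e3, r3_eq]
  push_cast
  have d1 : 0 < 1 + kc3 z / (2 * h0) - z := by
    have : 0 < kc3 z / (2 * h0) := by positivity
    linarith
  rw [← div_eq_mul_inv (kc3 z)]
  field_simp
  ring

theorem kz_G2 : v (kc3 z) 4 - v (kc3 z) 3 = G2z z * (c3 (kc3 z) - f2 (kc3 z)) := by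
  obtain ⟨w1, w2⟩ := kz_W0 hz hz1
  rw [kz_v3 hz hz1 hv hT, kz_v4 hz hz1 hv hT, kz_c3 hz hz1, kz_f2 hz hz1]
  unfold G2z x2z
  push_cast
  generalize z * (gqz z * wqz z) = w at *
  have e : (1 - w)⁻¹ * (1 - w) = 1 := inv_mul_cancel₀ (by linarith)
  linear_combination (-(z / 2 * (2 * k3z z - (1 + w) * b2z z))) * e

end

/-! ### The height `2 h0 - s` -/

section

variable {s : ℝ} (h0s : 0 ≤ s) (hs : s ≤ 1 / 10)

include h0s hs

theorem vg_w : 1 / 2 ≤ kw (2 * gh - s) ∧ kw (2 * gh - s) ^ 2 = 1 - (2 * h0 - s - h0) ^ 2 := by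
  have hp := h0_gt
  have hl := h0_lt
  rw [gh_eq, kw_eq]
  apply w_bd
  nlinarith [h0_sq']

theorem vg_W : Wc (2 * h0 - s) = s * wqg s := by
  obtain ⟨w1, w2⟩ := vg_w h0s hs
  have hp := h0_gt
  have hl := h0_lt
  have hq := h0_sq'
  have e : kw (2 * gh - s) = √(1 - (2 * h0 - s - h0) ^ 2) := by rw [gh_eq, kw_eq]
  unfold wqg
  rw [r3_eq]
  push_cast
  unfold Wc
  rw [if_neg (by linarith), ← e, ← div_eq_mul_inv, ← mul_div_assoc,
    eq_div_iff (by linarith)]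
  nlinarith

theorem vg_wq : 0 < wqg s ∧ wqg s ≤ 2 * h0 := by
  obtain ⟨w1, w2⟩ := vg_w h0s hs
  have hp := h0_gt
  have hl := h0_lt
  unfold wqg
  rw [r3_eq]
  push_cast
  rw [← div_eq_mul_inv]
  refine ⟨div_pos (by linarith) (by linarith), ?_⟩
  rw [div_le_iff₀ (by linarith)]
  nlinarith

theorem vg_f1 : f1 (2 * h0 - s) = s * wqg s / 2 := by
  have hp := h0_gt
  unfold f1
  rw [vg_W h0s hs, c1_zero (by linarith)]
  ring

theorem vg_c3 : c3 (2 * h0 - s) ^ 2 = s * (4 * h0 - s) := by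
  have hp := h0_gt
  have hq := h0_sq'
  have := c3_sq (t := 2 * h0 - s) (by nlinarith)
  nlinarith

theorem vg_c3' : c3 (2 * h0 - s) = √(s * (4 * gh - s)) := by
  rw [gh_eq, ← vg_c3 h0s hs, Real.sqrt_sq (c3_nonneg _)]

theorem vg_Wz : c3 (2 * h0 - s) * wz s = s * wqg s := by
  have hp := h0_gt
  have h := vg_c3 h0s hs
  unfold wz
  push_cast
  rw [← vg_c3' h0s hs, gh_eq, ← div_eq_mul_inv, ← mul_div_assoc, div_eq_iff (by linarith),
    ← mul_assoc, ← pow_two, h]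
  ring

variable {v : ℝ → Fin 5 → ℝ} (hv : CTV v)

include hv

theorem vg_v1 : v (2 * h0 - s) 1 = s * wqg s / 2 * b1_3 (2 * h0 - s) := by
  rw [hv.v1_3 _ (by linarith) (by linarith), vg_f1 h0s hs]

theorem vg_v0 : v (2 * h0 - s) 0 = 0 := by
  have hp := h0_gt
  exact hv.v0' _ (by linarith)

theorem vg_G1 : v (2 * h0 - s) 3 - v (2 * h0 - s) 1 =
    G1g s * (f2 (2 * h0 - s) - f1 (2 * h0 - s)) := by
  have e2 : f2 (2 * h0 - s) = (s * wqg s + c3 (2 * h0 - s)) / 2 := by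
    unfold f2
    rw [vg_W h0s hs]
  have h := vg_Wz h0s hs
  have hk : G1g s = b2_3 (2 * h0 - s) + wz s * (b2_3 (2 * h0 - s) - b1_3 (2 * h0 - s)) := by
    unfold G1g
    rw [gh_eq]
    push_cast
    rfl
  rw [hv.v3_3 _ (by linarith) (by linarith), vg_v1 h0s hs hv, vg_f1 h0s hs, e2, hk, ← h]
  ring

end

/-! ### The three cells -/

section

variable {θ t t' X12 X13 R12 R23 R13 : ℝ} (h5 : 2 * h0 - 1 / 10 ≤ t + t') (h6 : t + t' ≤ 2 * h0)

include h5 h6

theorem nfv_113 (h1 : t < h0) (h3 : t' < h0)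
    (h : StarN θ (exc X12 X13 t t') (h0 - t') (h0 - t) (-R23) (-R12) (-R13)) :
    NFV θ X12 X13 t t' (R12, R23, R13) := by
  have hp := h0_gt
  have hl := h0_lt
  have a1 := tau_1 (T := t) (by linarith) (by linarith)
  have a2 := tau_1 (T := t') (by linarith) (by linarith)
  refine .nn ?_ (by rw [a1]; linarith) (by rw [a2]; linarith) ?_
  · rw [jn_1 (T := t) (by linarith) (by linarith), jn_1 (T := t') (by linarith) (by linarith),
      jn_2 (T := t + t') (by linarith)]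
  · rw [a1, a2]
    dsimp only
    convert h using 1 <;> ring

theorem nfv_213 (h1 : h0 ≤ t) (h2 : t ≤ h0 + 1 / 10) (h3 : t' < h0)
    (h : StarN θ (exc X12 X13 t t') (2 * h0 - (t + t')) (t - h0) R13 (-R12) R23) :
    NFV θ X12 X13 t t' (R12, R23, R13) := by
  have hp := h0_gt
  have hl := h0_lt
  have a1 := tau_1 (T := t) (by linarith) (by linarith)
  have a2 := tau_1 (T := t') (by linarith) (by linarith)
  have a3 := tau_2 (T := t + t') (by linarith)
  refine .pnn ?_ (by rw [a1]; linarith) (by rw [a2]; linarith) (by rw [a3]; linarith) ?_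
  · rw [jn_1 (T := t) (by linarith) (by linarith), jn_1 (T := t') (by linarith) (by linarith),
      jn_2 (T := t + t') (by linarith)]
  · rw [a1, a3]
    dsimp only
    convert h using 1
    ring

theorem nfv_123 (h1 : t < h0) (h2 : t' ≤ h0 + 1 / 10) (h3 : h0 ≤ t')
    (h : StarN θ (exc X12 X13 t t') (t' - h0) (2 * h0 - (t + t')) (-R23) R13 R12) :
    NFV θ X12 X13 t t' (R12, R23, R13) := by
  have hp := h0_gt
  have hl := h0_lt
  have a1 := tau_1 (T := t) (by linarith) (by linarith)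
  have a2 := tau_1 (T := t') (by linarith) (by linarith)
  have a3 := tau_2 (T := t + t') (by linarith)
  refine .npn ?_ (by rw [a1]; linarith) (by rw [a2]; linarith) (by rw [a3]; linarith) ?_
  · rw [jn_1 (T := t) (by linarith) (by linarith), jn_1 (T := t') (by linarith) (by linarith),
      jn_2 (T := t + t') (by linarith)]
  · rw [a2, a3]
    dsimp only
    convert h using 1
    ring

end

/-! ### The ratio of the arcs -/

theorem ratio_neg {A l1 l2 : ℝ} (h1 : 0 ≤ l1) (h2 : 0 ≤ l2) (hA : A ≤ 0) :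
    A * (l1 - l2) / (l1 + l2) ≤ -1 * A := by
  rcases (add_nonneg h1 h2).eq_or_lt with h | h
  · rw [← h, div_zero]
    linarith
  · rw [div_le_iff₀ h]
    nlinarith

theorem ratio_pos {A l1 l2 : ℝ} (h1 : 0 ≤ l1) (h2 : 0 ≤ l2) (hA : 0 ≤ A) :
    A * (l1 - l2) / (l1 + l2) ≤ 1 * A := by
  rcases (add_nonneg h1 h2).eq_or_lt with h | h
  · rw [← h, div_zero]
    linarith
  · rw [div_le_iff₀ h]
    nlinarith

/-! ### The third side -/

/-- The value on a piece, from the lower curve. -/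
theorem seg_low {v : ℝ → Fin 5 → ℝ} {i : Fin 3} {X T G : ℝ}
    (hG : v T (tg i.succ) - v T (tg i.castSucc) = G * (cv i.succ T - cv i.castSucc T))
    (h1 : cv i.castSucc T ≤ X) (h2 : X ≤ cv i.succ T) :
    segW v i X T = v T (tg i.castSucc) + G * (X - cv i.castSucc T) := by
  unfold segW
  rw [hG]
  rcases eq_or_ne (cv i.succ T - cv i.castSucc T) 0 with h | h
  · have h3 : X = cv i.castSucc T := by linarith
    rw [h, h3]
    ring
  · rw [mul_assoc, mul_div_cancel₀ _ h]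

end Pool.Agent.Strip051.LC.Line.Corn
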