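import Pool.Agent.Strip051.LC.Line.GlueC
import Pool.Agent.Strip051.LC.Line.Theta
import Pool.Agent.Strip051.LC.Line.Corn.CtF
import Pool.Agent.Strip051.LC.Line.Corn.Cell

/-! # From the corner charts to the cubes -/

namespace Pool.Agent.Strip051.LC.Line.Corn

open Pool.Agent.StripNear Pool.Agent.StripSquare Pool.Agent.Strip051.Sweep
  Pool.Agent.Strip051.LC Pool.Agent.Strip051.LC.Line.Glue

theorem cubeA_of {a b c : ℕ} {j k : Fin 4} {σ σ' : ℝ} (hσ : σ = 1 ∨ σ = -1)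
    (hσ' : σ' = 1 ∨ σ' = -1)
    (h : ∀ (ε : ℝ), (ε = 1 ∨ ε = -1) → ∀ (i : Fin 3) (t t' : ℝ), InA a b c j k σ σ' t t' →
      Glue.Near a b c t t' → HypA j k σ σ' ε i t t' →
      NFV 1 (σ * cv j t) (σ * cv j t + σ' * cv k t') t t' (valA j k σ σ' ε i t t' vF)) :
    CubeA a b c j k σ σ' := by
  intro t t' hI hN
  show NFV (19 / 20) _ _ t t' (valK _ _ t t' vF)
  have hT : 0 ≤ t + t' := add_nonneg hI.t0 hI.t0'
  have fin : ∀ ε : ℝ, (ε = 1 ∨ ε = -1) → (∃ i : Fin 3,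
      cv i.castSucc (t + t') ≤ ε * (σ * cv j t + σ' * cv k t') ∧
      ε * (σ * cv j t + σ' * cv k t') ≤ cv i.succ (t + t')) →
      NFV (19 / 20) (σ * cv j t) (σ * cv j t + σ' * cv k t') t t'
        (valK (σ * cv j t) (σ * cv j t + σ' * cv k t') t t' vF) := by
    intro ε hε ⟨i, g1, g2⟩
    have H : HypA j k σ σ' ε i t t' := ⟨hI.t0, hI.t0', hI.d1, hI.d2, hI.ho, hI.h1, hI.h3, g1, g2⟩
    rw [valK_A tabW_vF hσ hσ' hε H]
    exact NFV.mono (by norm_num) (by norm_num) hI.t0 hI.t0' (sum_le_top hT hI.h3)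
      (h ε hε i t t' hI hN H)
  rcases le_total 0 (σ * cv j t + σ' * cv k t') with hX | hX
  · exact fin 1 (Or.inl rfl) (seg_pos hT hX hI.h1 hI.h3)
  · exact fin (-1) (Or.inr rfl) (seg_neg hT hX hI.h1 hI.h3)

theorem cubeB_of {a b c : ℕ} {j k : Fin 4} {σ σ' : ℝ} (hσ : σ = 1 ∨ σ = -1)
    (hσ' : σ' = 1 ∨ σ' = -1)
    (h : ∀ (ε : ℝ), (ε = 1 ∨ ε = -1) → ∀ (i : Fin 3) (t t' : ℝ), InB a b c j k σ σ' t t' →
      Glue.Near a b c t t' → HypB j k σ σ' ε i t t' →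
      NFV 1 (σ * cv j t) (σ' * cv k (t + t')) t t' (valB j k σ σ' ε i t t' vF)) :
    CubeB a b c j k σ σ' := by
  intro t t' hI hN
  show NFV (19 / 20) _ _ t t' (valK _ _ t t' vF)
  have hT : 0 ≤ t + t' := add_nonneg hI.t0 hI.t0'
  have hTT : t + t' ≤ 2 * h0 := by
    have hp := h0_pos
    have hq := h0_sq'
    have h3 := dm_sq hT hI.d3
    nlinarith
  have fin : ∀ ε : ℝ, (ε = 1 ∨ ε = -1) → (∃ i : Fin 3,
      cv i.castSucc t' ≤ ε * (σ' * cv k (t + t') - σ * cv j t) ∧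
      ε * (σ' * cv k (t + t') - σ * cv j t) ≤ cv i.succ t') →
      NFV (19 / 20) (σ * cv j t) (σ' * cv k (t + t')) t t'
        (valK (σ * cv j t) (σ' * cv k (t + t')) t t' vF) := by
    intro ε hε ⟨i, g1, g2⟩
    have H : HypB j k σ σ' ε i t t' := ⟨hI.t0, hI.t0', hI.d1, hI.d3, hI.ho, hI.h1, hI.h3, g1, g2⟩
    rw [valK_B tabW_vF hσ hσ' hε H]
    exact NFV.mono (by norm_num) (by norm_num) hI.t0 hI.t0' hTT (h ε hε i t t' hI hN H)
  rcases le_total 0 (σ' * cv k (t + t') - σ * cv j t) with hX | hX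
  · exact fin 1 (Or.inl rfl) (seg_pos hI.t0' hX hI.h1 hI.h3)
  · exact fin (-1) (Or.inr rfl) (seg_neg hI.t0' hX hI.h1 hI.h3)

/-! ### The parameters -/

theorem par {ρ x y : ℝ} (hρ : 0 < ρ) (hx : 0 ≤ x) (hy : 0 ≤ y) (hs : x + y = ρ) :
    0 ≤ x / ρ ∧ x / ρ ≤ 1 ∧ x = ρ * (x / ρ) ∧ y = ρ * (1 - x / ρ) := by
  have e : x = ρ * (x / ρ) := by field_simp
  refine ⟨div_nonneg hx hρ.le, ?_, e, ?_⟩
  · rw [div_le_one hρ]
    linarith
  · rw [mul_sub, ← e]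
    linarith

theorem near_le {a b c : ℕ} {t t' : ℝ} (h : Glue.Near a b c t t') :
    t - co a * h0 < 1 / 10 ∧ co a * h0 - t < 1 / 10 ∧ t' - co b * h0 < 1 / 10 ∧
      co b * h0 - t' < 1 / 10 ∧ (t + t') - co c * h0 < 1 / 10 ∧ co c * h0 - (t + t') < 1 / 10 := by
  obtain ⟨h1, h2, h3⟩ := h
  rw [abs_lt] at h1 h2 h3
  refine ⟨?_, ?_, ?_, ?_, ?_, ?_⟩ <;> linarith

theorem co0 : co 0 = 0 := rfl
theorem co1 : co 1 = 1 := rfl
theorem co2 : co 2 = 1 := rfl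
theorem co3 : co 3 = 2 := rfl

section

variable {t t' : ℝ}

theorem par_011 (q1 : Q 0 t) (q2 : Q 1 t') (q3 : Q 1 (t + t')) (hN : Glue.Near 0 1 1 t t') :
    ∃ ρ a : ℝ, 0 < ρ ∧ ρ ≤ 1 / 10 ∧ 0 ≤ a ∧ a ≤ 1 ∧ t = ρ * (1 - a) ∧ t' = h0 - ρ := by
  obtain ⟨n1, n2, n3, n4, n5, n6⟩ := near_le hN
  rw [co0] at n1 n2
  rw [co1] at n3 n4 n5 n6
  obtain ⟨a1, a2⟩ := Q0.1 q1
  obtain ⟨b1, b2⟩ := Q1.1 q2
  obtain ⟨d1, d2⟩ := Q1.1 q3
  obtain ⟨p1, p2, p3, p4⟩ := par (ρ := h0 - t') (x := h0 - (t + t')) (y := t) (by linarith)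
    (by linarith) (by linarith) (by ring)
  exact ⟨h0 - t', _, by linarith, by linarith, p1, p2, p4, by ring⟩

theorem par_012 (q1 : Q 0 t) (q2 : Q 1 t') (q3 : Q 2 (t + t')) (hN : Glue.Near 0 1 2 t t') :
    ∃ ρ a : ℝ, 0 < ρ ∧ ρ ≤ 1 / 10 ∧ 0 ≤ a ∧ a ≤ 1 ∧ t = ρ ∧ t' = h0 - ρ * (1 - a) := by
  obtain ⟨n1, n2, n3, n4, n5, n6⟩ := near_le hN
  rw [co0] at n1 n2
  rw [co1] at n3 n4
  rw [co2] at n5 n6
  obtain ⟨a1, a2⟩ := Q0.1 q1
  obtain ⟨b1, b2⟩ := Q1.1 q2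
  obtain ⟨d1, d2⟩ := Q2.1 q3
  obtain ⟨p1, p2, p3, p4⟩ := par (ρ := t) (x := t + t' - h0) (y := h0 - t') (by linarith)
    (by linarith) (by linarith) (by ring)
  exact ⟨t, _, by linarith, by linarith, p1, p2, rfl, by rw [← p4]; ring⟩

theorem par_022 (q1 : Q 0 t) (q2 : Q 2 t') (q3 : Q 2 (t + t')) (hN : Glue.Near 0 2 2 t t') :
    (t = 0 ∧ t' = h0) ∨
    ∃ ρ a : ℝ, 0 < ρ ∧ ρ ≤ 1 / 10 ∧ 0 ≤ a ∧ a ≤ 1 ∧ t = ρ * a ∧ t' = h0 + ρ * (1 - a) := by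
  obtain ⟨n1, n2, n3, n4, n5, n6⟩ := near_le hN
  rw [co0] at n1 n2
  rw [co2] at n3 n4 n5 n6
  obtain ⟨a1, a2⟩ := Q0.1 q1
  obtain ⟨b1, b2⟩ := Q2.1 q2
  obtain ⟨d1, d2⟩ := Q2.1 q3
  rcases (by linarith : h0 ≤ t + t').eq_or_lt with h | h
  · exact Or.inl ⟨by linarith, by linarith⟩
  · right
    obtain ⟨p1, p2, p3, p4⟩ := par (ρ := t + t' - h0) (x := t) (y := t' - h0) (by linarith)
      (by linarith) (by linarith) (by ring)
    exact ⟨t + t' - h0, _, by linarith, by linarith, p1, p2, p3, by rw [← p4]; ring⟩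

theorem par_101 (q1 : Q 1 t) (q2 : Q 0 t') (q3 : Q 1 (t + t')) (hN : Glue.Near 1 0 1 t t') :
    ∃ ρ a : ℝ, 0 < ρ ∧ ρ ≤ 1 / 10 ∧ 0 ≤ a ∧ a ≤ 1 ∧ t = h0 - ρ ∧ t' = ρ * a := by
  obtain ⟨n1, n2, n3, n4, n5, n6⟩ := near_le hN
  rw [co0] at n3 n4
  rw [co1] at n1 n2 n5 n6
  obtain ⟨a1, a2⟩ := Q1.1 q1
  obtain ⟨b1, b2⟩ := Q0.1 q2
  obtain ⟨d1, d2⟩ := Q1.1 q3
  obtain ⟨p1, p2, p3, p4⟩ := par (ρ := h0 - t) (x := t') (y := h0 - (t + t')) (by linarith)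
    (by linarith) (by linarith) (by ring)
  exact ⟨h0 - t, _, by linarith, by linarith, p1, p2, by ring, p3⟩

theorem par_102 (q1 : Q 1 t) (q2 : Q 0 t') (q3 : Q 2 (t + t')) (hN : Glue.Near 1 0 2 t t') :
    ∃ ρ a : ℝ, 0 < ρ ∧ ρ ≤ 1 / 10 ∧ 0 ≤ a ∧ a ≤ 1 ∧ t = h0 - ρ * a ∧ t' = ρ := by
  obtain ⟨n1, n2, n3, n4, n5, n6⟩ := near_le hN
  rw [co0] at n3 n4
  rw [co1] at n1 n2
  rw [co2] at n5 n6
  obtain ⟨a1, a2⟩ := Q1.1 q1
  obtain ⟨b1, b2⟩ := Q0.1 q2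
  obtain ⟨d1, d2⟩ := Q2.1 q3
  obtain ⟨p1, p2, p3, p4⟩ := par (ρ := t') (x := h0 - t) (y := t + t' - h0) (by linarith)
    (by linarith) (by linarith) (by ring)
  exact ⟨t', _, by linarith, by linarith, p1, p2, by rw [← p3]; ring, rfl⟩

theorem par_202 (q1 : Q 2 t) (q2 : Q 0 t') (q3 : Q 2 (t + t')) (hN : Glue.Near 2 0 2 t t') :
    (t = h0 ∧ t' = 0) ∨
    ∃ ρ a : ℝ, 0 < ρ ∧ ρ ≤ 1 / 10 ∧ 0 ≤ a ∧ a ≤ 1 ∧ t = h0 + ρ * a ∧ t' = ρ * (1 - a) := by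
  obtain ⟨n1, n2, n3, n4, n5, n6⟩ := near_le hN
  rw [co0] at n3 n4
  rw [co2] at n1 n2 n5 n6
  obtain ⟨a1, a2⟩ := Q2.1 q1
  obtain ⟨b1, b2⟩ := Q0.1 q2
  obtain ⟨d1, d2⟩ := Q2.1 q3
  rcases (by linarith : h0 ≤ t + t').eq_or_lt with h | h
  · exact Or.inl ⟨by linarith, by linarith⟩
  · right
    obtain ⟨p1, p2, p3, p4⟩ := par (ρ := t + t' - h0) (x := t - h0) (y := t') (by linarith)
      (by linarith) (by linarith) (by ring)
    exact ⟨t + t' - h0, _, by linarith, by linarith, p1, p2, by rw [← p3]; ring, p4⟩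

theorem par_113 (q1 : Q 1 t) (q2 : Q 1 t') (_q3 : Q 3 (t + t')) (hN : Glue.Near 1 1 3 t t') :
    ∃ ρ a : ℝ, 0 < ρ ∧ ρ ≤ 1 / 10 ∧ 0 ≤ a ∧ a ≤ 1 ∧ t = h0 - ρ * (1 - a) ∧ t' = h0 - ρ * a := by
  obtain ⟨n1, n2, n3, n4, n5, n6⟩ := near_le hN
  rw [co1] at n1 n2 n3 n4
  rw [co3] at n5 n6
  obtain ⟨a1, a2⟩ := Q1.1 q1
  obtain ⟨b1, b2⟩ := Q1.1 q2
  obtain ⟨p1, p2, p3, p4⟩ := par (ρ := 2 * h0 - (t + t')) (x := h0 - t') (y := h0 - t)
    (by linarith) (by linarith) (by linarith) (by ring)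
  exact ⟨2 * h0 - (t + t'), _, by linarith, by linarith, p1, p2, by rw [← p4]; ring,
    by rw [← p3]; ring⟩

theorem par_123 (q1 : Q 1 t) (q2 : Q 2 t') (q3 : Q 3 (t + t')) (hN : Glue.Near 1 2 3 t t') :
    ∃ ρ a : ℝ, 0 < ρ ∧ ρ ≤ 1 / 10 ∧ 0 ≤ a ∧ a ≤ 1 ∧ t = h0 - ρ ∧ t' = h0 + ρ * a := by
  obtain ⟨n1, n2, n3, n4, n5, n6⟩ := near_le hN
  rw [co1] at n1 n2
  rw [co2] at n3 n4
  rw [co3] at n5 n6
  obtain ⟨a1, a2⟩ := Q1.1 q1
  obtain ⟨b1, b2⟩ := Q2.1 q2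
  obtain ⟨d1, d2⟩ := Glue.Q3.1 q3
  obtain ⟨p1, p2, p3, p4⟩ := par (ρ := h0 - t) (x := t' - h0) (y := 2 * h0 - (t + t'))
    (by linarith) (by linarith) (by linarith) (by ring)
  exact ⟨h0 - t, _, by linarith, by linarith, p1, p2, by ring, by rw [← p3]; ring⟩

theorem par_213 (q1 : Q 2 t) (q2 : Q 1 t') (q3 : Q 3 (t + t')) (hN : Glue.Near 2 1 3 t t') :
    ∃ ρ a : ℝ, 0 < ρ ∧ ρ ≤ 1 / 10 ∧ 0 ≤ a ∧ a ≤ 1 ∧ t = h0 + ρ * (1 - a) ∧ t' = h0 - ρ := by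
  obtain ⟨n1, n2, n3, n4, n5, n6⟩ := near_le hN
  rw [co1] at n3 n4
  rw [co2] at n1 n2
  rw [co3] at n5 n6
  obtain ⟨a1, a2⟩ := Q2.1 q1
  obtain ⟨b1, b2⟩ := Q1.1 q2
  obtain ⟨d1, d2⟩ := Glue.Q3.1 q3
  obtain ⟨p1, p2, p3, p4⟩ := par (ρ := h0 - t') (x := 2 * h0 - (t + t')) (y := t - h0)
    (by linarith) (by linarith) (by linarith) (by ring)
  exact ⟨h0 - t', _, by linarith, by linarith, p1, p2, by rw [← p4]; ring, by ring⟩

end

/-! ### The corner itself -/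

theorem starN_zero {θ A1 A2 A3 : ℝ} (h : A3 = A1 + A2) : StarN θ 0 0 0 A1 A2 A3 := by
  have hp := h0_pos
  unfold StarN Star
  rw [h]
  have e1 : (A1 * (h0 - 0) + A2 * (h0 - 2 * 0 - 0) - (A1 + A2) * (h0 - 0 - 0)) / (2 * h0) +
      0 / (2 * θ) = 0 := by
    rw [zero_div, add_zero]
    have : A1 * (h0 - 0) + A2 * (h0 - 2 * 0 - 0) - (A1 + A2) * (h0 - 0 - 0) = 0 := by ring
    rw [this, zero_div]
  have e3 : (-A1 * (h0 - 0 - 2 * 0) - A2 * (h0 - 0) + (A1 + A2) * (h0 - 0 - 0)) / (2 * h0) +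
      0 / (2 * θ) = 0 := by
    rw [zero_div, add_zero]
    have : -A1 * (h0 - 0 - 2 * 0) - A2 * (h0 - 0) + (A1 + A2) * (h0 - 0 - 0) = 0 := by ring
    rw [this, zero_div]
  rw [e1, e3, phi_nonneg_nonneg le_rfl le_rfl]
  simp

theorem nfv_zero_022 {X12 X13 R12 R23 R13 : ℝ} (hX : X12 = 1) (hR : R13 = R12 + R23) :
    NFV 1 X12 X13 0 h0 (R12, R23, R13) := by
  have hp := h0_pos
  have a0 : tau 0 = 0 := tau_0 (T := 0) (by linarith)
  have a1 : tau h0 = 0 := by rw [tau_1 (T := h0) (by linarith) (by linarith), sub_self]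
  have he : exc X12 X13 0 h0 = 0 := by
    unfold exc
    rw [hX]
    field_simp
    ring
  refine .pp ?_ (by rw [a0]) (by rw [a1]) ?_
  · rw [zero_add, jn_0 (T := 0) (by linarith)]
    ring
  · rw [he, a0, a1]
    dsimp only
    exact starN_zero (by rw [hR]; ring)

theorem nfv_zero_202 {X12 X13 R12 R23 R13 : ℝ} (hX : X12 - X13 = 1) (hR : R13 = R12 + R23) :
    NFV 1 X12 X13 h0 0 (R12, R23, R13) := by
  have hp := h0_pos
  have a0 : tau 0 = 0 := tau_0 (T := 0) (by linarith)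
  have a1 : tau h0 = 0 := by rw [tau_1 (T := h0) (by linarith) (by linarith), sub_self]
  have he : exc X12 X13 h0 0 = 0 := by
    unfold exc
    rw [show X12 * (h0 + 0) - X13 * h0 = (X12 - X13) * h0 by ring, hX]
    field_simp
    ring
  refine .pp ?_ (by rw [a1]) (by rw [a0]) ?_
  · rw [add_zero, jn_0 (T := 0) (by linarith)]
    ring
  · rw [he, a0, a1]
    dsimp only
    exact starN_zero (by rw [hR]; ring)

theorem cv_h : cv 0 h0 = 1 / 2 ∧ cv 1 h0 = 1 / 2 ∧ cv 2 h0 = 1 ∧ cv 3 h0 = 3 / 2 := by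
  have hp := h0_gt
  have hl := h0_lt
  have hq := h0_sq'
  have w1 : Wc h0 = 1 / 2 := by
    unfold Wc
    rw [if_neg (lt_irrefl _), sub_self]
    norm_num
  have e0 : c1 h0 = 1 / 2 := by
    obtain ⟨h1, h2⟩ := c1_bd (T := h0) (by linarith) (by linarith)
    nlinarith
  have e3 : c3 h0 = 3 / 2 := by
    obtain ⟨h1, h2⟩ := c3_bd (T := h0) (by nlinarith)
    nlinarith
  refine ⟨e0, ?_, ?_, e3⟩
  · change f1 h0 = 1 / 2
    unfold f1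
    rw [w1, e0]
    norm_num
  · change f2 h0 = 1
    unfold f2
    rw [w1, e3]
    norm_num

theorem cv_z : cv 0 0 = 1 ∧ cv 1 0 = 1 ∧ 1 < cv 2 0 := by
  have hp := h0_gt
  have hq := h0_sq'
  have w1 : Wc 0 = 1 := by
    unfold Wc
    rw [if_pos h0_pos, zero_sub, neg_sq, hq, show (1 : ℝ) - 3 / 4 = (1 / 2) ^ 2 by norm_num,
      Real.sqrt_sq (by norm_num)]
    norm_num
  have e0 : c1 0 = 1 := by
    obtain ⟨h1, h2⟩ := c1_bd (T := 0) le_rfl (by norm_num)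
    nlinarith
  have e3 : 1 < c3 0 := by
    obtain ⟨h1, h2⟩ := c3_bd (T := 0) (by norm_num)
    nlinarith
  refine ⟨e0, ?_, ?_⟩
  · change f1 0 = 1
    unfold f1
    rw [w1, e0]
    norm_num
  · change 1 < f2 0
    unfold f2
    rw [w1]
    linarith

theorem vF_h : vF h0 (tg 0) = 1 / 2 ∧ vF h0 (tg 1) = 1 / 2 ∧ vF h0 (tg 3) = 3 / 2 := by
  have hp := h0_gt
  have hl := h0_lt
  have hv := ct_vF
  obtain ⟨e0, e1, e2, e3⟩ := cv_h
  refine ⟨?_, ?_, ?_⟩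
  · have := germ_r1_2 (s := 0) le_rfl (by norm_num) hv
    rw [add_zero, zero_mul, add_zero] at this
    exact this
  · have := germ_q1_2 (s := 0) le_rfl (by norm_num) hv
    rw [add_zero, zero_mul, add_zero] at this
    exact this
  · have := germ_r3_2 (s := 0) le_rfl (by norm_num) hv
    rw [add_zero, zero_mul, add_zero] at this
    exact this

theorem vF_z : vF 0 (tg 0) = 1 ∧ vF 0 (tg 1) = 1 := by
  have hv := ct_vF
  refine ⟨?_, ?_⟩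
  · have := germ_r1_0 (s := 0) le_rfl (by norm_num) hv
    rw [zero_mul, add_zero] at this
    exact this
  · have := germ_q1_0 (s := 0) le_rfl (by norm_num) hv
    rw [zero_mul, add_zero] at this
    exact this

/-- The value of the third side at the height `h0`. -/
theorem seg_h {ε X : ℝ} {i : Fin 3} (hε : ε = 1 ∨ ε = -1)
    (hX : X = 1 / 2 ∨ X = -1 / 2 ∨ X = 3 / 2 ∨ X = -3 / 2) (h1 : cv i.castSucc h0 ≤ ε * X)
    (h2 : ε * X ≤ cv i.succ h0) : ε * segW vF i (ε * X) h0 = X := by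
  obtain ⟨e0, e1, e2, e3⟩ := cv_h
  obtain ⟨v0, v1, v3⟩ := vF_h
  have key : ∀ Y : ℝ, (Y = 1 / 2 ∨ Y = 3 / 2) → cv i.castSucc h0 ≤ Y → Y ≤ cv i.succ h0 →
      segW vF i Y h0 = Y := by
    intro Y hY g1 g2
    unfold segW
    fin_cases i
    · have f1' : cv 0 h0 ≤ Y := g1
      have f2' : Y ≤ cv 1 h0 := g2
      change vF h0 (tg 0) + (vF h0 (tg 1) - vF h0 (tg 0)) * ((Y - cv 0 h0) / (cv 1 h0 - cv 0 h0)) = Y
      rw [v0, v1, sub_self, zero_mul, add_zero]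
      rw [e0] at f1'
      rw [e1] at f2'
      linarith
    · have f1' : cv 1 h0 ≤ Y := g1
      have f2' : Y ≤ cv 2 h0 := g2
      rw [e1] at f1'
      rw [e2] at f2'
      have hY' : Y = 1 / 2 := by
        rcases hY with h | h
        · exact h
        · linarith
      change vF h0 (tg 1) + (vF h0 (tg 2) - vF h0 (tg 1)) * ((Y - cv 1 h0) / (cv 2 h0 - cv 1 h0)) = Y
      rw [v1, e1, hY', sub_self, zero_div, mul_zero, add_zero]
    · have f1' : cv 2 h0 ≤ Y := g1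
      rw [e2] at f1'
      have hY' : Y = 3 / 2 := by
        rcases hY with h | h
        · linarith
        · exact h
      change vF h0 (tg 2) + (vF h0 (tg 3) - vF h0 (tg 2)) * ((Y - cv 2 h0) / (cv 3 h0 - cv 2 h0)) = Y
      rw [v3, e2, e3, hY']
      norm_num
  have hpos : 0 ≤ ε * X := by
    refine le_trans ?_ h1
    exact cv_nonneg _ h0_pos.le (by nlinarith [h0_sq'])
  rcases hε with rfl | rfl
  · simp only [one_mul] at h1 h2 hpos ⊢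
    rw [key X ?_ h1 h2]
    rcases hX with h | h | h | h
    · exact Or.inl h
    · linarith
    · exact Or.inr h
    · linarith
  · rw [key (-1 * X) ?_ h1 h2]
    · ring
    · rcases hX with h | h | h | h
      · linarith
      · left
        linarith
      · linarith
      · right
        linarith

/-- The value of the third side at the height `0`. -/
theorem seg_z {ε : ℝ} {i : Fin 3} (hε : ε = 1 ∨ ε = -1) (h1 : cv i.castSucc 0 ≤ ε * -1)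
    (h2 : ε * -1 ≤ cv i.succ 0) : ε * segW vF i (ε * -1) 0 = -1 := by
  obtain ⟨e0, e1, e2⟩ := cv_z
  obtain ⟨v0, v1⟩ := vF_z
  have hpos : 0 ≤ ε * -1 := by
    refine le_trans ?_ h1
    exact cv_nonneg _ le_rfl (by norm_num)
  rcases hε with rfl | rfl
  · linarith
  · have e : (-1 : ℝ) * -1 = 1 := by norm_num
    rw [e] at h1 h2 ⊢
    have key : segW vF i 1 0 = 1 := by
      unfold segW
      fin_cases i
      · change vF 0 (tg 0) + (vF 0 (tg 1) - vF 0 (tg 0)) * ((1 - cv 0 0) / (cv 1 0 - cv 0 0)) = 1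
        rw [v0, v1, sub_self, zero_mul, add_zero]
      · change vF 0 (tg 1) + (vF 0 (tg 2) - vF 0 (tg 1)) * ((1 - cv 1 0) / (cv 2 0 - cv 1 0)) = 1
        rw [v1, e1, sub_self, zero_div, mul_zero, add_zero]
      · have f1' : cv 2 0 ≤ 1 := h1
        linarith
    rw [key]
    norm_num

end Pool.Agent.Strip051.LC.Line.Corn
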