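import Pool.Agent.Strip051.LC.Line.Corn.Use
import Pool.Agent.Strip051.LC.Line.Corn.CellV

/-! # From the charts at the vertical corner to the cubes -/

namespace Pool.Agent.Strip051.LC.Line.Corn

open Pool.Agent.StripNear Pool.Agent.StripSquare Pool.Agent.Strip051.Sweep
  Pool.Agent.Strip051.LC Pool.Agent.Strip051.LC.Line.Glue

theorem ctv_vF : CTV vF where
  toCT := ct_vF
  v0' T h := vF_0' h
  v3_3 T h h' := by
    have hp := h0_gt
    have hl := h0_lt
    rw [vF_3 (by linarith)]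
    unfold tB2 lin b2_3
    rw [if_neg (by linarith), if_neg (by linarith), if_neg (by linarith), if_neg (by linarith),
      if_neg (by linarith), if_neg (by linarith), gh_eq]
    push_cast
    ring

theorem kc3_inv {T : ℝ} (h : 0 ≤ T) (h2 : T ≤ 2 * h0) : kc3 (c3 T) = T := by
  have hq := h0_sq'
  have h3 : T ^ 2 ≤ 3 := by nlinarith
  have hs := c3_sq (t := T) h3
  rw [kc3_eq]
  change √(3 - c3 T ^ 2) = T
  rw [show (3 : ℝ) - c3 T ^ 2 = T ^ 2 by linarith, Real.sqrt_sq h]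

section

variable {t t' : ℝ}

/-- The bounds in the cube of the triple `2 1 3`. -/
theorem bd_213 (q2 : Q 1 t') (hN : Glue.Near 2 1 3 t t') :
    t ≤ h0 + 1 / 10 ∧ t' < h0 ∧ h0 - 1 / 10 ≤ t' ∧ 2 * h0 - 1 / 10 ≤ t + t' := by
  obtain ⟨n1, n2, n3, n4, n5, n6⟩ := near_le hN
  rw [co2] at n1 n2
  rw [co1] at n3 n4
  rw [co3] at n5 n6
  exact ⟨by linarith, (Q1.1 q2).2, by linarith, by linarith⟩

theorem bd_123 (q1 : Q 1 t) (hN : Glue.Near 1 2 3 t t') :
    t' ≤ h0 + 1 / 10 ∧ t < h0 ∧ h0 - 1 / 10 ≤ t ∧ 2 * h0 - 1 / 10 ≤ t + t' := by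
  obtain ⟨n1, n2, n3, n4, n5, n6⟩ := near_le hN
  rw [co1] at n1 n2
  rw [co2] at n3 n4
  rw [co3] at n5 n6
  exact ⟨by linarith, (Q1.1 q1).2, by linarith, by linarith⟩

theorem bd_113 (hN : Glue.Near 1 1 3 t t') : 2 * h0 - 1 / 10 ≤ t + t' := by
  obtain ⟨n1, n2, n3, n4, n5, n6⟩ := near_le hN
  rw [co3] at n5 n6
  linarith

theorem par_v213 (q1 : Q 2 t) (q2 : Q 1 t') (q3 : Q 3 (t + t')) (hN : Glue.Near 2 1 3 t t') :
    ∃ x y : ℝ, 0 < x ∧ 0 ≤ y ∧ y ≤ 1 ∧ ((t = h0 + x * y ∧ t + t' = kc3 x) ∨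
      (x ≤ 1 / 10 ∧ t = h0 + x ∧ t + t' = kc3 (x * y))) := by
  obtain ⟨k2, k3, k4, k5⟩ := bd_213 q2 hN
  obtain ⟨a1, a2⟩ := Q2.1 q1
  obtain ⟨d1, d2⟩ := Glue.Q3.1 q3
  have hp := h0_gt
  have hz := c3_nonneg (t + t')
  have hk := kc3_inv (T := t + t') (by linarith) d2
  rcases le_or_gt (t - h0) (c3 (t + t')) with h | h
  · have hz0 : 0 < c3 (t + t') := by
      rcases hz.eq_or_lt with h0' | h0'
      · exfalso
        have h7 : t = h0 := by linarith
        rw [← h0'] at hk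
        have h8 : kc3 0 = 2 * h0 := by
          have := kz_gap (z := 0) le_rfl (by norm_num)
          linarith
        linarith
      · exact h0'
    refine ⟨c3 (t + t'), (t - h0) / c3 (t + t'), hz0, div_nonneg (by linarith) hz, ?_,
      Or.inl ⟨?_, hk.symm⟩⟩
    · rw [div_le_one hz0]
      exact h
    · rw [mul_div_cancel₀ _ hz0.ne']
      ring
  · have hx : 0 < t - h0 := by linarith
    refine ⟨t - h0, c3 (t + t') / (t - h0), hx, div_nonneg hz hx.le, ?_,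
      Or.inr ⟨by linarith, by ring, ?_⟩⟩
    · rw [div_le_one hx]
      exact h.le
    · rw [mul_div_cancel₀ _ hx.ne']
      exact hk.symm

theorem par_v123 (q1 : Q 1 t) (q2 : Q 2 t') (q3 : Q 3 (t + t')) (hN : Glue.Near 1 2 3 t t') :
    ∃ x y : ℝ, 0 < x ∧ 0 ≤ y ∧ y ≤ 1 ∧ ((t' = h0 + x * y ∧ t + t' = kc3 x) ∨
      (x ≤ 1 / 10 ∧ t' = h0 + x ∧ t + t' = kc3 (x * y))) := by
  obtain ⟨k2, k3, k4, k5⟩ := bd_123 q1 hN
  obtain ⟨a1, a2⟩ := Q2.1 q2
  obtain ⟨d1, d2⟩ := Glue.Q3.1 q3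
  have hp := h0_gt
  have hz := c3_nonneg (t + t')
  have hk := kc3_inv (T := t + t') (by linarith) d2
  rcases le_or_gt (t' - h0) (c3 (t + t')) with h | h
  · have hz0 : 0 < c3 (t + t') := by
      rcases hz.eq_or_lt with h0' | h0'
      · exfalso
        have h7 : t' = h0 := by linarith
        rw [← h0'] at hk
        have h8 : kc3 0 = 2 * h0 := by
          have := kz_gap (z := 0) le_rfl (by norm_num)
          linarith
        linarith
      · exact h0'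
    refine ⟨c3 (t + t'), (t' - h0) / c3 (t + t'), hz0, div_nonneg (by linarith) hz, ?_,
      Or.inl ⟨?_, hk.symm⟩⟩
    · rw [div_le_one hz0]
      exact h
    · rw [mul_div_cancel₀ _ hz0.ne']
      ring
  · have hx : 0 < t' - h0 := by linarith
    refine ⟨t' - h0, c3 (t + t') / (t' - h0), hx, div_nonneg hz hx.le, ?_,
      Or.inr ⟨by linarith, by ring, ?_⟩⟩
    · rw [div_le_one hx]
      exact h.le
    · rw [mul_div_cancel₀ _ hx.ne']
      exact hk.symm

theorem par_v113 (q1 : Q 1 t) (q2 : Q 1 t') (q3 : Q 3 (t + t')) :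
    ∃ x y : ℝ, 0 < x ∧ 0 ≤ y ∧ y ≤ 1 ∧ t = h0 - (2 * h0 - (t + t')) * (1 - y) ∧
      t + t' = kc3 x := by
  obtain ⟨a1, a2⟩ := Q1.1 q1
  obtain ⟨b1, b2⟩ := Q1.1 q2
  obtain ⟨d1, d2⟩ := Glue.Q3.1 q3
  have hp := h0_gt
  have hk := kc3_inv (T := t + t') (by linarith) d2
  have hz := c3_nonneg (t + t')
  have hz0 : 0 < c3 (t + t') := by
    rcases hz.eq_or_lt with h0' | h0'
    · exfalso
      rw [← h0'] at hk
      have h8 : kc3 0 = 2 * h0 := by
        have := kz_gap (z := 0) le_rfl (by norm_num)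
        linarith
      linarith
    · exact h0'
  obtain ⟨p1, p2, p3, p4⟩ := par (ρ := 2 * h0 - (t + t')) (x := h0 - t') (y := h0 - t)
    (by linarith) (by linarith) (by linarith) (by ring)
  exact ⟨c3 (t + t'), _, hz0, p1, p2, by rw [← p4]; ring, hk.symm⟩

end

end Pool.Agent.Strip051.LC.Line.Corn
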