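import Pool.Agent.Strip051.Box.C2
import Pool.Agent.Strip051.LC.Line.Corn.CellV

/-! # Vertical corner chart A01pm123 (generated) -/

namespace Pool.Agent.Strip051.LC.Line.Corn.VA01pm123

open Pool.Agent.Strip051.Box Pool.Agent.Strip051.Box2

abbrev S : Nat := 1073741824

theorem hS : 0 < S := by decide

/-- coordinates of a point of the box -/
def In (b : Bx) (E : Pt) (x1 x2 : ℝ) : Prop :=
  (S : ℝ) * x1 = ((b.p1 : ℝ) - b.n1) + b.q1 * E.e1 ∧ (S : ℝ) * x2 = ((b.p2 : ℝ) - b.n2) + b.q2 * E.e2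

variable {b : Bx} {E : Pt} {x1 x2 : ℝ}

def t0 (b : Bx) : TM := X1 b
noncomputable def v0 (x1 _x2 : ℝ) : ℝ := x1
theorem h0 (h : In b E x1 x2) : Enc S E (t0 b) (v0 x1 x2) := enc_X1 h.1

def t1 (b : Bx) : TM := X2 b
noncomputable def v1 (_x1 x2 : ℝ) : ℝ := x2
theorem h1 (h : In b E x1 x2) : Enc S E (t1 b) (v1 x1 x2) := enc_X2 h.2

def t2 (_b : Bx) : TM := tconst (Nat.mul 1 S) 0 0
noncomputable def v2 (_x1 _x2 : ℝ) : ℝ := ((1 : ℕ) : ℝ)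
theorem h2 (_h : In b E x1 x2) : Enc S E (t2 b) (v2 x1 x2) := enc_nc E 1

def t3 (b : Bx) : TM := tsub (t2 b) (t1 b)
noncomputable def v3 (x1 x2 : ℝ) : ℝ := v2 x1 x2 - v1 x1 x2
theorem h3 (h : In b E x1 x2) : Enc S E (t3 b) (v3 x1 x2) := enc_sub (h2 h) (h1 h)

def t4 (_b : Bx) : TM := tconst 1859775393 0 1
noncomputable def v4 (_x1 _x2 : ℝ) : ℝ := Real.sqrt ((3 : ℕ) : ℝ)
theorem h4 (_h : In b E x1 x2) : Enc S E (t4 b) (v4 x1 x2) := enc_sqrtn E (by decide) (by decide)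

def t5 (b : Bx) : TM := tscale 1 2 (t4 b)
noncomputable def v5 (x1 x2 : ℝ) : ℝ := ((1 : ℕ) : ℝ) / ((2 : ℕ) : ℝ) * v4 x1 x2
theorem h5 (h : In b E x1 x2) : Enc S E (t5 b) (v5 x1 x2) := enc_scale 1 (by norm_num) (h4 h)

def t6 (b : Bx) : TM := tneg (t0 b)
noncomputable def v6 (x1 x2 : ℝ) : ℝ := -(v0 x1 x2)
theorem h6 (h : In b E x1 x2) : Enc S E (t6 b) (v6 x1 x2) := enc_neg (h0 h)

def t7 (b : Bx) : TM := tmul S (t0 b) (t1 b)
noncomputable def v7 (x1 x2 : ℝ) : ℝ := v0 x1 x2 * v1 x1 x2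
theorem h7 (h : In b E x1 x2) : Enc S E (t7 b) (v7 x1 x2) := enc_mul hS (h0 h) (h1 h)

def t8 (b : Bx) : TM := tmul S (t0 b) (t3 b)
noncomputable def v8 (x1 x2 : ℝ) : ℝ := v0 x1 x2 * v3 x1 x2
theorem h8 (h : In b E x1 x2) : Enc S E (t8 b) (v8 x1 x2) := enc_mul hS (h0 h) (h3 h)

def t9 (b : Bx) : TM := tnat 2 (t5 b)
noncomputable def v9 (x1 x2 : ℝ) : ℝ := ((2 : ℕ) : ℝ) * v5 x1 x2
theorem h9 (h : In b E x1 x2) : Enc S E (t9 b) (v9 x1 x2) := enc_nat 2 (h5 h)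

def t10 (b : Bx) : TM := tsub (t9 b) (t8 b)
noncomputable def v10 (x1 x2 : ℝ) : ℝ := v9 x1 x2 - v8 x1 x2
theorem h10 (h : In b E x1 x2) : Enc S E (t10 b) (v10 x1 x2) := enc_sub (h9 h) (h8 h)

def t11 (b : Bx) : TM := tadd (t4 b) (t6 b)
noncomputable def v11 (x1 x2 : ℝ) : ℝ := v4 x1 x2 + v6 x1 x2
theorem h11 (h : In b E x1 x2) : Enc S E (t11 b) (v11 x1 x2) := enc_add (h4 h) (h6 h)

def t12 (b : Bx) : TM := tadd (t5 b) (t6 b)
noncomputable def v12 (x1 x2 : ℝ) : ℝ := v5 x1 x2 + v6 x1 x2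
theorem h12 (h : In b E x1 x2) : Enc S E (t12 b) (v12 x1 x2) := enc_add (h5 h) (h6 h)

def t13 (b : Bx) : TM := tsq S (t12 b)
noncomputable def v13 (x1 x2 : ℝ) : ℝ := (v12 x1 x2) ^ 2
theorem h13 (h : In b E x1 x2) : Enc S E (t13 b) (v13 x1 x2) := enc_sq hS (h12 h)

def t14 (b : Bx) : TM := tsub (t2 b) (t13 b)
noncomputable def v14 (x1 x2 : ℝ) : ℝ := v2 x1 x2 - v13 x1 x2
theorem h14 (h : In b E x1 x2) : Enc S E (t14 b) (v14 x1 x2) := enc_sub (h2 h) (h13 h)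

def t15 (b : Bx) : TM := tsqrt S (t14 b)
noncomputable def v15 (x1 x2 : ℝ) : ℝ := Real.sqrt (v14 x1 x2)
theorem h15 (h : In b E x1 x2) : Enc S E (t15 b) (v15 x1 x2) := enc_sqrt hS (h14 h)

def t16 (_b : Bx) : TM := tconst (Nat.div (Nat.mul 1 S) 2) 0 1
noncomputable def v16 (_x1 _x2 : ℝ) : ℝ := ((1 : ℕ) : ℝ) / ((2 : ℕ) : ℝ)
theorem h16 (_h : In b E x1 x2) : Enc S E (t16 b) (v16 x1 x2) := enc_rat E 1 (by norm_num)

def t17 (b : Bx) : TM := tadd (t15 b) (t16 b)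
noncomputable def v17 (x1 x2 : ℝ) : ℝ := v15 x1 x2 + v16 x1 x2
theorem h17 (h : In b E x1 x2) : Enc S E (t17 b) (v17 x1 x2) := enc_add (h15 h) (h16 h)

def t18 (b : Bx) : TM := tinv S (t17 b)
noncomputable def v18 (x1 x2 : ℝ) : ℝ := (v17 x1 x2)⁻¹
theorem h18 (h : In b E x1 x2) : Enc S E (t18 b) (v18 x1 x2) := enc_inv hS (h17 h)

def t19 (b : Bx) : TM := tmul S (t11 b) (t18 b)
noncomputable def v19 (x1 x2 : ℝ) : ℝ := v11 x1 x2 * v18 x1 x2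
theorem h19 (h : In b E x1 x2) : Enc S E (t19 b) (v19 x1 x2) := enc_mul hS (h11 h) (h18 h)

def t20 (b : Bx) : TM := tneg (t19 b)
noncomputable def v20 (x1 x2 : ℝ) : ℝ := -(v19 x1 x2)
theorem h20 (h : In b E x1 x2) : Enc S E (t20 b) (v20 x1 x2) := enc_neg (h19 h)

def t21 (b : Bx) : TM := tneg (t20 b)
noncomputable def v21 (x1 x2 : ℝ) : ℝ := -(v20 x1 x2)
theorem h21 (h : In b E x1 x2) : Enc S E (t21 b) (v21 x1 x2) := enc_neg (h20 h)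

def t22 (b : Bx) : TM := tadd (t4 b) (t7 b)
noncomputable def v22 (x1 x2 : ℝ) : ℝ := v4 x1 x2 + v7 x1 x2
theorem h22 (h : In b E x1 x2) : Enc S E (t22 b) (v22 x1 x2) := enc_add (h4 h) (h7 h)

def t23 (b : Bx) : TM := tadd (t5 b) (t7 b)
noncomputable def v23 (x1 x2 : ℝ) : ℝ := v5 x1 x2 + v7 x1 x2
theorem h23 (h : In b E x1 x2) : Enc S E (t23 b) (v23 x1 x2) := enc_add (h5 h) (h7 h)

def t24 (b : Bx) : TM := tsq S (t23 b)
noncomputable def v24 (x1 x2 : ℝ) : ℝ := (v23 x1 x2) ^ 2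
theorem h24 (h : In b E x1 x2) : Enc S E (t24 b) (v24 x1 x2) := enc_sq hS (h23 h)

def t25 (b : Bx) : TM := tsub (t2 b) (t24 b)
noncomputable def v25 (x1 x2 : ℝ) : ℝ := v2 x1 x2 - v24 x1 x2
theorem h25 (h : In b E x1 x2) : Enc S E (t25 b) (v25 x1 x2) := enc_sub (h2 h) (h24 h)

def t26 (b : Bx) : TM := tsqrt S (t25 b)
noncomputable def v26 (x1 x2 : ℝ) : ℝ := Real.sqrt (v25 x1 x2)
theorem h26 (h : In b E x1 x2) : Enc S E (t26 b) (v26 x1 x2) := enc_sqrt hS (h25 h)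

def t27 (b : Bx) : TM := tadd (t26 b) (t16 b)
noncomputable def v27 (x1 x2 : ℝ) : ℝ := v26 x1 x2 + v16 x1 x2
theorem h27 (h : In b E x1 x2) : Enc S E (t27 b) (v27 x1 x2) := enc_add (h26 h) (h16 h)

def t28 (b : Bx) : TM := tinv S (t27 b)
noncomputable def v28 (x1 x2 : ℝ) : ℝ := (v27 x1 x2)⁻¹
theorem h28 (h : In b E x1 x2) : Enc S E (t28 b) (v28 x1 x2) := enc_inv hS (h27 h)

def t29 (b : Bx) : TM := tmul S (t22 b) (t28 b)
noncomputable def v29 (x1 x2 : ℝ) : ℝ := v22 x1 x2 * v28 x1 x2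
theorem h29 (h : In b E x1 x2) : Enc S E (t29 b) (v29 x1 x2) := enc_mul hS (h22 h) (h28 h)

def t30 (b : Bx) : TM := tsq S (t7 b)
noncomputable def v30 (x1 x2 : ℝ) : ℝ := (v7 x1 x2) ^ 2
theorem h30 (h : In b E x1 x2) : Enc S E (t30 b) (v30 x1 x2) := enc_sq hS (h7 h)

def t31 (b : Bx) : TM := tsub (t2 b) (t30 b)
noncomputable def v31 (x1 x2 : ℝ) : ℝ := v2 x1 x2 - v30 x1 x2
theorem h31 (h : In b E x1 x2) : Enc S E (t31 b) (v31 x1 x2) := enc_sub (h2 h) (h30 h)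

def t32 (b : Bx) : TM := tsqrt S (t31 b)
noncomputable def v32 (x1 x2 : ℝ) : ℝ := Real.sqrt (v31 x1 x2)
theorem h32 (h : In b E x1 x2) : Enc S E (t32 b) (v32 x1 x2) := enc_sqrt hS (h31 h)

def t33 (b : Bx) : TM := tadd (t2 b) (t32 b)
noncomputable def v33 (x1 x2 : ℝ) : ℝ := v2 x1 x2 + v32 x1 x2
theorem h33 (h : In b E x1 x2) : Enc S E (t33 b) (v33 x1 x2) := enc_add (h2 h) (h32 h)

def t34 (b : Bx) : TM := tinv S (t33 b)
noncomputable def v34 (x1 x2 : ℝ) : ℝ := (v33 x1 x2)⁻¹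
theorem h34 (h : In b E x1 x2) : Enc S E (t34 b) (v34 x1 x2) := enc_inv hS (h33 h)

def t35 (b : Bx) : TM := tmul S (t7 b) (t34 b)
noncomputable def v35 (x1 x2 : ℝ) : ℝ := v7 x1 x2 * v34 x1 x2
theorem h35 (h : In b E x1 x2) : Enc S E (t35 b) (v35 x1 x2) := enc_mul hS (h7 h) (h34 h)

def t36 (b : Bx) : TM := tadd (t29 b) (t35 b)
noncomputable def v36 (x1 x2 : ℝ) : ℝ := v29 x1 x2 + v35 x1 x2
theorem h36 (h : In b E x1 x2) : Enc S E (t36 b) (v36 x1 x2) := enc_add (h29 h) (h35 h)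

def t37 (b : Bx) : TM := tscale 1 2 (t36 b)
noncomputable def v37 (x1 x2 : ℝ) : ℝ := ((1 : ℕ) : ℝ) / ((2 : ℕ) : ℝ) * v36 x1 x2
theorem h37 (h : In b E x1 x2) : Enc S E (t37 b) (v37 x1 x2) := enc_scale 1 (by norm_num) (h36 h)

def t38 (b : Bx) : TM := tneg (t37 b)
noncomputable def v38 (x1 x2 : ℝ) : ℝ := -(v37 x1 x2)
theorem h38 (h : In b E x1 x2) : Enc S E (t38 b) (v38 x1 x2) := enc_neg (h37 h)

def t39 (b : Bx) : TM := tmul S (t1 b) (t38 b)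
noncomputable def v39 (x1 x2 : ℝ) : ℝ := v1 x1 x2 * v38 x1 x2
theorem h39 (h : In b E x1 x2) : Enc S E (t39 b) (v39 x1 x2) := enc_mul hS (h1 h) (h38 h)

def t40 (b : Bx) : TM := tneg (t39 b)
noncomputable def v40 (x1 x2 : ℝ) : ℝ := -(v39 x1 x2)
theorem h40 (h : In b E x1 x2) : Enc S E (t40 b) (v40 x1 x2) := enc_neg (h39 h)

def t41 (b : Bx) : TM := tadd (t21 b) (t40 b)
noncomputable def v41 (x1 x2 : ℝ) : ℝ := v21 x1 x2 + v40 x1 x2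
theorem h41 (h : In b E x1 x2) : Enc S E (t41 b) (v41 x1 x2) := enc_add (h21 h) (h40 h)

def t42 (b : Bx) : TM := tnat 3 (t20 b)
noncomputable def v42 (x1 x2 : ℝ) : ℝ := ((3 : ℕ) : ℝ) * v20 x1 x2
theorem h42 (h : In b E x1 x2) : Enc S E (t42 b) (v42 x1 x2) := enc_nat 3 (h20 h)

def t43 (b : Bx) : TM := tmul S (t4 b) (t15 b)
noncomputable def v43 (x1 x2 : ℝ) : ℝ := v4 x1 x2 * v15 x1 x2
theorem h43 (h : In b E x1 x2) : Enc S E (t43 b) (v43 x1 x2) := enc_mul hS (h4 h) (h15 h)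

def t44 (b : Bx) : TM := tnat 2 (t43 b)
noncomputable def v44 (x1 x2 : ℝ) : ℝ := ((2 : ℕ) : ℝ) * v43 x1 x2
theorem h44 (h : In b E x1 x2) : Enc S E (t44 b) (v44 x1 x2) := enc_nat 2 (h43 h)

def t45 (b : Bx) : TM := tadd (t42 b) (t44 b)
noncomputable def v45 (x1 x2 : ℝ) : ℝ := v42 x1 x2 + v44 x1 x2
theorem h45 (h : In b E x1 x2) : Enc S E (t45 b) (v45 x1 x2) := enc_add (h42 h) (h44 h)

def t46 (b : Bx) : TM := tnat 2 (t4 b)
noncomputable def v46 (x1 x2 : ℝ) : ℝ := ((2 : ℕ) : ℝ) * v4 x1 x2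
theorem h46 (h : In b E x1 x2) : Enc S E (t46 b) (v46 x1 x2) := enc_nat 2 (h4 h)

def t47 (b : Bx) : TM := tadd (t45 b) (t46 b)
noncomputable def v47 (x1 x2 : ℝ) : ℝ := v45 x1 x2 + v46 x1 x2
theorem h47 (h : In b E x1 x2) : Enc S E (t47 b) (v47 x1 x2) := enc_add (h45 h) (h46 h)

def t48 (b : Bx) : TM := tnat 2 (t6 b)
noncomputable def v48 (x1 x2 : ℝ) : ℝ := ((2 : ℕ) : ℝ) * v6 x1 x2
theorem h48 (h : In b E x1 x2) : Enc S E (t48 b) (v48 x1 x2) := enc_nat 2 (h6 h)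

def t49 (b : Bx) : TM := tadd (t47 b) (t48 b)
noncomputable def v49 (x1 x2 : ℝ) : ℝ := v47 x1 x2 + v48 x1 x2
theorem h49 (h : In b E x1 x2) : Enc S E (t49 b) (v49 x1 x2) := enc_add (h47 h) (h48 h)

def t50 (b : Bx) : TM := tmul S (t4 b) (t12 b)
noncomputable def v50 (x1 x2 : ℝ) : ℝ := v4 x1 x2 * v12 x1 x2
theorem h50 (h : In b E x1 x2) : Enc S E (t50 b) (v50 x1 x2) := enc_mul hS (h4 h) (h12 h)

def t51 (b : Bx) : TM := tadd (t2 b) (t50 b)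
noncomputable def v51 (x1 x2 : ℝ) : ℝ := v2 x1 x2 + v50 x1 x2
theorem h51 (h : In b E x1 x2) : Enc S E (t51 b) (v51 x1 x2) := enc_add (h2 h) (h50 h)

def t52 (b : Bx) : TM := tsub (t51 b) (t15 b)
noncomputable def v52 (x1 x2 : ℝ) : ℝ := v51 x1 x2 - v15 x1 x2
theorem h52 (h : In b E x1 x2) : Enc S E (t52 b) (v52 x1 x2) := enc_sub (h51 h) (h15 h)

def t53 (b : Bx) : TM := tnat 2 (t52 b)
noncomputable def v53 (x1 x2 : ℝ) : ℝ := ((2 : ℕ) : ℝ) * v52 x1 x2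
theorem h53 (h : In b E x1 x2) : Enc S E (t53 b) (v53 x1 x2) := enc_nat 2 (h52 h)

def t54 (b : Bx) : TM := tinv S (t53 b)
noncomputable def v54 (x1 x2 : ℝ) : ℝ := (v53 x1 x2)⁻¹
theorem h54 (h : In b E x1 x2) : Enc S E (t54 b) (v54 x1 x2) := enc_inv hS (h53 h)

def t55 (b : Bx) : TM := tmul S (t49 b) (t54 b)
noncomputable def v55 (x1 x2 : ℝ) : ℝ := v49 x1 x2 * v54 x1 x2
theorem h55 (h : In b E x1 x2) : Enc S E (t55 b) (v55 x1 x2) := enc_mul hS (h49 h) (h54 h)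

def t56 (b : Bx) : TM := tneg (t55 b)
noncomputable def v56 (x1 x2 : ℝ) : ℝ := -(v55 x1 x2)
theorem h56 (h : In b E x1 x2) : Enc S E (t56 b) (v56 x1 x2) := enc_neg (h55 h)

def t57 (_b : Bx) : TM := tconst (Nat.div (Nat.mul 49 S) 125) 0 1
noncomputable def v57 (_x1 _x2 : ℝ) : ℝ := ((49 : ℕ) : ℝ) / ((125 : ℕ) : ℝ)
theorem h57 (_h : In b E x1 x2) : Enc S E (t57 b) (v57 x1 x2) := enc_rat E 49 (by norm_num)

def t58 (b : Bx) : TM := tinv S (t5 b)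
noncomputable def v58 (x1 x2 : ℝ) : ℝ := (v5 x1 x2)⁻¹
theorem h58 (h : In b E x1 x2) : Enc S E (t58 b) (v58 x1 x2) := enc_inv hS (h5 h)

def t59 (b : Bx) : TM := tmul S (t57 b) (t58 b)
noncomputable def v59 (x1 x2 : ℝ) : ℝ := v57 x1 x2 * v58 x1 x2
theorem h59 (h : In b E x1 x2) : Enc S E (t59 b) (v59 x1 x2) := enc_mul hS (h57 h) (h58 h)

def t60 (b : Bx) : TM := tmul S (t59 b) (t7 b)
noncomputable def v60 (x1 x2 : ℝ) : ℝ := v59 x1 x2 * v7 x1 x2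
theorem h60 (h : In b E x1 x2) : Enc S E (t60 b) (v60 x1 x2) := enc_mul hS (h59 h) (h7 h)

def t61 (b : Bx) : TM := tsub (t2 b) (t60 b)
noncomputable def v61 (x1 x2 : ℝ) : ℝ := v2 x1 x2 - v60 x1 x2
theorem h61 (h : In b E x1 x2) : Enc S E (t61 b) (v61 x1 x2) := enc_sub (h2 h) (h60 h)

def t62 (b : Bx) : TM := tmul S (t38 b) (t61 b)
noncomputable def v62 (x1 x2 : ℝ) : ℝ := v38 x1 x2 * v61 x1 x2
theorem h62 (h : In b E x1 x2) : Enc S E (t62 b) (v62 x1 x2) := enc_mul hS (h38 h) (h61 h)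

def t63 (b : Bx) : TM := tscale 1 2 (t59 b)
noncomputable def v63 (x1 x2 : ℝ) : ℝ := ((1 : ℕ) : ℝ) / ((2 : ℕ) : ℝ) * v59 x1 x2
theorem h63 (h : In b E x1 x2) : Enc S E (t63 b) (v63 x1 x2) := enc_scale 1 (by norm_num) (h59 h)

def t64 (b : Bx) : TM := tsub (t62 b) (t63 b)
noncomputable def v64 (x1 x2 : ℝ) : ℝ := v62 x1 x2 - v63 x1 x2
theorem h64 (h : In b E x1 x2) : Enc S E (t64 b) (v64 x1 x2) := enc_sub (h62 h) (h63 h)

def t65 (b : Bx) : TM := tmul S (t1 b) (t64 b)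
noncomputable def v65 (x1 x2 : ℝ) : ℝ := v1 x1 x2 * v64 x1 x2
theorem h65 (h : In b E x1 x2) : Enc S E (t65 b) (v65 x1 x2) := enc_mul hS (h1 h) (h64 h)

def t66 (b : Bx) : TM := tneg (t65 b)
noncomputable def v66 (x1 x2 : ℝ) : ℝ := -(v65 x1 x2)
theorem h66 (h : In b E x1 x2) : Enc S E (t66 b) (v66 x1 x2) := enc_neg (h65 h)

def t67 (b : Bx) : TM := tsub (t4 b) (t8 b)
noncomputable def v67 (x1 x2 : ℝ) : ℝ := v4 x1 x2 - v8 x1 x2
theorem h67 (h : In b E x1 x2) : Enc S E (t67 b) (v67 x1 x2) := enc_sub (h4 h) (h8 h)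

def t68 (b : Bx) : TM := tsub (t10 b) (t5 b)
noncomputable def v68 (x1 x2 : ℝ) : ℝ := v10 x1 x2 - v5 x1 x2
theorem h68 (h : In b E x1 x2) : Enc S E (t68 b) (v68 x1 x2) := enc_sub (h10 h) (h5 h)

def t69 (b : Bx) : TM := tsq S (t68 b)
noncomputable def v69 (x1 x2 : ℝ) : ℝ := (v68 x1 x2) ^ 2
theorem h69 (h : In b E x1 x2) : Enc S E (t69 b) (v69 x1 x2) := enc_sq hS (h68 h)

def t70 (b : Bx) : TM := tsub (t2 b) (t69 b)
noncomputable def v70 (x1 x2 : ℝ) : ℝ := v2 x1 x2 - v69 x1 x2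
theorem h70 (h : In b E x1 x2) : Enc S E (t70 b) (v70 x1 x2) := enc_sub (h2 h) (h69 h)

def t71 (b : Bx) : TM := tsqrt S (t70 b)
noncomputable def v71 (x1 x2 : ℝ) : ℝ := Real.sqrt (v70 x1 x2)
theorem h71 (h : In b E x1 x2) : Enc S E (t71 b) (v71 x1 x2) := enc_sqrt hS (h70 h)

def t72 (b : Bx) : TM := tadd (t71 b) (t16 b)
noncomputable def v72 (x1 x2 : ℝ) : ℝ := v71 x1 x2 + v16 x1 x2
theorem h72 (h : In b E x1 x2) : Enc S E (t72 b) (v72 x1 x2) := enc_add (h71 h) (h16 h)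

def t73 (b : Bx) : TM := tinv S (t72 b)
noncomputable def v73 (x1 x2 : ℝ) : ℝ := (v72 x1 x2)⁻¹
theorem h73 (h : In b E x1 x2) : Enc S E (t73 b) (v73 x1 x2) := enc_inv hS (h72 h)

def t74 (b : Bx) : TM := tmul S (t67 b) (t73 b)
noncomputable def v74 (x1 x2 : ℝ) : ℝ := v67 x1 x2 * v73 x1 x2
theorem h74 (h : In b E x1 x2) : Enc S E (t74 b) (v74 x1 x2) := enc_mul hS (h67 h) (h73 h)

def t75 (b : Bx) : TM := tmul S (t10 b) (t58 b)
noncomputable def v75 (x1 x2 : ℝ) : ℝ := v10 x1 x2 * v58 x1 x2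
theorem h75 (h : In b E x1 x2) : Enc S E (t75 b) (v75 x1 x2) := enc_mul hS (h10 h) (h58 h)

def t76 (_b : Bx) : TM := tconst (Nat.mul 2 S) 0 0
noncomputable def v76 (_x1 _x2 : ℝ) : ℝ := ((2 : ℕ) : ℝ)
theorem h76 (_h : In b E x1 x2) : Enc S E (t76 b) (v76 x1 x2) := enc_nc E 2

def t77 (b : Bx) : TM := tsub (t75 b) (t76 b)
noncomputable def v77 (x1 x2 : ℝ) : ℝ := v75 x1 x2 - v76 x1 x2
theorem h77 (h : In b E x1 x2) : Enc S E (t77 b) (v77 x1 x2) := enc_sub (h75 h) (h76 h)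

def t78 (_b : Bx) : TM := tconst (Nat.div (Nat.mul 101 S) 50) 0 1
noncomputable def v78 (_x1 _x2 : ℝ) : ℝ := ((101 : ℕ) : ℝ) / ((50 : ℕ) : ℝ)
theorem h78 (_h : In b E x1 x2) : Enc S E (t78 b) (v78 x1 x2) := enc_rat E 101 (by norm_num)

def t79 (b : Bx) : TM := tmul S (t77 b) (t78 b)
noncomputable def v79 (x1 x2 : ℝ) : ℝ := v77 x1 x2 * v78 x1 x2
theorem h79 (h : In b E x1 x2) : Enc S E (t79 b) (v79 x1 x2) := enc_mul hS (h77 h) (h78 h)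

def t80 (_b : Bx) : TM := tconst (Nat.div (Nat.mul 1469 S) 1000) 0 1
noncomputable def v80 (_x1 _x2 : ℝ) : ℝ := ((1469 : ℕ) : ℝ) / ((1000 : ℕ) : ℝ)
theorem h80 (_h : In b E x1 x2) : Enc S E (t80 b) (v80 x1 x2) := enc_rat E 1469 (by norm_num)

def t81 (b : Bx) : TM := tadd (t80 b) (t79 b)
noncomputable def v81 (x1 x2 : ℝ) : ℝ := v80 x1 x2 + v79 x1 x2
theorem h81 (h : In b E x1 x2) : Enc S E (t81 b) (v81 x1 x2) := enc_add (h80 h) (h79 h)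

def t82 (b : Bx) : TM := tscale 489 250 (t77 b)
noncomputable def v82 (x1 x2 : ℝ) : ℝ := ((489 : ℕ) : ℝ) / ((250 : ℕ) : ℝ) * v77 x1 x2
theorem h82 (h : In b E x1 x2) : Enc S E (t82 b) (v82 x1 x2) := enc_scale 489 (by norm_num) (h77 h)

def t83 (b : Bx) : TM := tadd (t16 b) (t82 b)
noncomputable def v83 (x1 x2 : ℝ) : ℝ := v16 x1 x2 + v82 x1 x2
theorem h83 (h : In b E x1 x2) : Enc S E (t83 b) (v83 x1 x2) := enc_add (h16 h) (h82 h)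

def t84 (b : Bx) : TM := tnat 4 (t5 b)
noncomputable def v84 (x1 x2 : ℝ) : ℝ := ((4 : ℕ) : ℝ) * v5 x1 x2
theorem h84 (h : In b E x1 x2) : Enc S E (t84 b) (v84 x1 x2) := enc_nat 4 (h5 h)

def t85 (b : Bx) : TM := tsub (t84 b) (t8 b)
noncomputable def v85 (x1 x2 : ℝ) : ℝ := v84 x1 x2 - v8 x1 x2
theorem h85 (h : In b E x1 x2) : Enc S E (t85 b) (v85 x1 x2) := enc_sub (h84 h) (h8 h)

def t86 (b : Bx) : TM := tmul S (t8 b) (t85 b)
noncomputable def v86 (x1 x2 : ℝ) : ℝ := v8 x1 x2 * v85 x1 x2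
theorem h86 (h : In b E x1 x2) : Enc S E (t86 b) (v86 x1 x2) := enc_mul hS (h8 h) (h85 h)

def t87 (b : Bx) : TM := tsqrtg S (t86 b)
noncomputable def v87 (x1 x2 : ℝ) : ℝ := Real.sqrt (v86 x1 x2)
theorem h87 (h : In b E x1 x2) : Enc S E (t87 b) (v87 x1 x2) := enc_sqrtg hS (h86 h)

def t88 (b : Bx) : TM := tmul S (t87 b) (t74 b)
noncomputable def v88 (x1 x2 : ℝ) : ℝ := v87 x1 x2 * v74 x1 x2
theorem h88 (h : In b E x1 x2) : Enc S E (t88 b) (v88 x1 x2) := enc_mul hS (h87 h) (h74 h)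

def t89 (b : Bx) : TM := tinv S (t85 b)
noncomputable def v89 (x1 x2 : ℝ) : ℝ := (v85 x1 x2)⁻¹
theorem h89 (h : In b E x1 x2) : Enc S E (t89 b) (v89 x1 x2) := enc_inv hS (h85 h)

def t90 (b : Bx) : TM := tmul S (t88 b) (t89 b)
noncomputable def v90 (x1 x2 : ℝ) : ℝ := v88 x1 x2 * v89 x1 x2
theorem h90 (h : In b E x1 x2) : Enc S E (t90 b) (v90 x1 x2) := enc_mul hS (h88 h) (h89 h)

def t91 (b : Bx) : TM := tsub (t83 b) (t81 b)
noncomputable def v91 (x1 x2 : ℝ) : ℝ := v83 x1 x2 - v81 x1 x2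
theorem h91 (h : In b E x1 x2) : Enc S E (t91 b) (v91 x1 x2) := enc_sub (h83 h) (h81 h)

def t92 (b : Bx) : TM := tmul S (t90 b) (t91 b)
noncomputable def v92 (x1 x2 : ℝ) : ℝ := v90 x1 x2 * v91 x1 x2
theorem h92 (h : In b E x1 x2) : Enc S E (t92 b) (v92 x1 x2) := enc_mul hS (h90 h) (h91 h)

def t93 (b : Bx) : TM := tadd (t83 b) (t92 b)
noncomputable def v93 (x1 x2 : ℝ) : ℝ := v83 x1 x2 + v92 x1 x2
theorem h93 (h : In b E x1 x2) : Enc S E (t93 b) (v93 x1 x2) := enc_add (h83 h) (h92 h)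

def t94 (b : Bx) : TM := tmul S (t21 b) (t10 b)
noncomputable def v94 (x1 x2 : ℝ) : ℝ := v21 x1 x2 * v10 x1 x2
theorem h94 (h : In b E x1 x2) : Enc S E (t94 b) (v94 x1 x2) := enc_mul hS (h21 h) (h10 h)

def t95 (b : Bx) : TM := tscale 1 2 (t3 b)
noncomputable def v95 (x1 x2 : ℝ) : ℝ := ((1 : ℕ) : ℝ) / ((2 : ℕ) : ℝ) * v3 x1 x2
theorem h95 (h : In b E x1 x2) : Enc S E (t95 b) (v95 x1 x2) := enc_scale 1 (by norm_num) (h3 h)

def t96 (b : Bx) : TM := tsub (t94 b) (t95 b)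
noncomputable def v96 (x1 x2 : ℝ) : ℝ := v94 x1 x2 - v95 x1 x2
theorem h96 (h : In b E x1 x2) : Enc S E (t96 b) (v96 x1 x2) := enc_sub (h94 h) (h95 h)

def t97 (b : Bx) : TM := tmul S (t41 b) (t12 b)
noncomputable def v97 (x1 x2 : ℝ) : ℝ := v41 x1 x2 * v12 x1 x2
theorem h97 (h : In b E x1 x2) : Enc S E (t97 b) (v97 x1 x2) := enc_mul hS (h41 h) (h12 h)

def t98 (b : Bx) : TM := tsub (t96 b) (t97 b)
noncomputable def v98 (x1 x2 : ℝ) : ℝ := v96 x1 x2 - v97 x1 x2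
theorem h98 (h : In b E x1 x2) : Enc S E (t98 b) (v98 x1 x2) := enc_sub (h96 h) (h97 h)

def t99 (b : Bx) : TM := tinv S (t4 b)
noncomputable def v99 (x1 x2 : ℝ) : ℝ := (v4 x1 x2)⁻¹
theorem h99 (h : In b E x1 x2) : Enc S E (t99 b) (v99 x1 x2) := enc_inv hS (h4 h)

def t100 (b : Bx) : TM := tmul S (t98 b) (t99 b)
noncomputable def v100 (x1 x2 : ℝ) : ℝ := v98 x1 x2 * v99 x1 x2
theorem h100 (h : In b E x1 x2) : Enc S E (t100 b) (v100 x1 x2) := enc_mul hS (h98 h) (h99 h)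

def t103 (b : Bx) : TM := tmul S (t0 b) (t66 b)
noncomputable def v103 (x1 x2 : ℝ) : ℝ := v0 x1 x2 * v66 x1 x2
theorem h103 (h : In b E x1 x2) : Enc S E (t103 b) (v103 x1 x2) := enc_mul hS (h0 h) (h66 h)

def t104 (b : Bx) : TM := tsub (t16 b) (t103 b)
noncomputable def v104 (x1 x2 : ℝ) : ℝ := v16 x1 x2 - v103 x1 x2
theorem h104 (h : In b E x1 x2) : Enc S E (t104 b) (v104 x1 x2) := enc_sub (h16 h) (h103 h)

def t105 (b : Bx) : TM := tneg (t104 b)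
noncomputable def v105 (x1 x2 : ℝ) : ℝ := -(v104 x1 x2)
theorem h105 (h : In b E x1 x2) : Enc S E (t105 b) (v105 x1 x2) := enc_neg (h104 h)

def t106 (b : Bx) : TM := tscale 1 2 (t74 b)
noncomputable def v106 (x1 x2 : ℝ) : ℝ := ((1 : ℕ) : ℝ) / ((2 : ℕ) : ℝ) * v74 x1 x2
theorem h106 (h : In b E x1 x2) : Enc S E (t106 b) (v106 x1 x2) := enc_scale 1 (by norm_num) (h74 h)

def t107 (b : Bx) : TM := tmul S (t3 b) (t106 b)
noncomputable def v107 (x1 x2 : ℝ) : ℝ := v3 x1 x2 * v106 x1 x2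
theorem h107 (h : In b E x1 x2) : Enc S E (t107 b) (v107 x1 x2) := enc_mul hS (h3 h) (h106 h)

def t108 (b : Bx) : TM := tmul S (t81 b) (t107 b)
noncomputable def v108 (x1 x2 : ℝ) : ℝ := v81 x1 x2 * v107 x1 x2
theorem h108 (h : In b E x1 x2) : Enc S E (t108 b) (v108 x1 x2) := enc_mul hS (h81 h) (h107 h)

def t109 (b : Bx) : TM := tsub (t41 b) (t107 b)
noncomputable def v109 (x1 x2 : ℝ) : ℝ := v41 x1 x2 - v107 x1 x2
theorem h109 (h : In b E x1 x2) : Enc S E (t109 b) (v109 x1 x2) := enc_sub (h41 h) (h107 h)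

def t110 (b : Bx) : TM := tmul S (t93 b) (t109 b)
noncomputable def v110 (x1 x2 : ℝ) : ℝ := v93 x1 x2 * v109 x1 x2
theorem h110 (h : In b E x1 x2) : Enc S E (t110 b) (v110 x1 x2) := enc_mul hS (h93 h) (h109 h)

def t111 (b : Bx) : TM := tadd (t108 b) (t110 b)
noncomputable def v111 (x1 x2 : ℝ) : ℝ := v108 x1 x2 + v110 x1 x2
theorem h111 (h : In b E x1 x2) : Enc S E (t111 b) (v111 x1 x2) := enc_add (h108 h) (h110 h)

def t112 (b : Bx) : TM := tsub (t111 b) (t56 b)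
noncomputable def v112 (x1 x2 : ℝ) : ℝ := v111 x1 x2 - v56 x1 x2
theorem h112 (h : In b E x1 x2) : Enc S E (t112 b) (v112 x1 x2) := enc_sub (h111 h) (h56 h)

def t113 (b : Bx) : TM := tsub (t112 b) (t66 b)
noncomputable def v113 (x1 x2 : ℝ) : ℝ := v112 x1 x2 - v66 x1 x2
theorem h113 (h : In b E x1 x2) : Enc S E (t113 b) (v113 x1 x2) := enc_sub (h112 h) (h66 h)

def t114 (b : Bx) : TM := tneg (t105 b)
noncomputable def v114 (x1 x2 : ℝ) : ℝ := -(v105 x1 x2)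
theorem h114 (h : In b E x1 x2) : Enc S E (t114 b) (v114 x1 x2) := enc_neg (h105 h)

def t115 (b : Bx) : TM := tmul S (t0 b) (t111 b)
noncomputable def v115 (x1 x2 : ℝ) : ℝ := v0 x1 x2 * v111 x1 x2
theorem h115 (h : In b E x1 x2) : Enc S E (t115 b) (v115 x1 x2) := enc_mul hS (h0 h) (h111 h)

def t116 (b : Bx) : TM := tmul S (t5 b) (t113 b)
noncomputable def v116 (x1 x2 : ℝ) : ℝ := v5 x1 x2 * v113 x1 x2
theorem h116 (h : In b E x1 x2) : Enc S E (t116 b) (v116 x1 x2) := enc_mul hS (h5 h) (h113 h)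

def t117 (b : Bx) : TM := tmul S (t0 b) (t113 b)
noncomputable def v117 (x1 x2 : ℝ) : ℝ := v0 x1 x2 * v113 x1 x2
theorem h117 (h : In b E x1 x2) : Enc S E (t117 b) (v117 x1 x2) := enc_mul hS (h0 h) (h113 h)

def t118 (b : Bx) : TM := tadd (t117 b) (t115 b)
noncomputable def v118 (x1 x2 : ℝ) : ℝ := v117 x1 x2 + v115 x1 x2
theorem h118 (h : In b E x1 x2) : Enc S E (t118 b) (v118 x1 x2) := enc_add (h117 h) (h115 h)

def t119 (b : Bx) : TM := tmul S (t1 b) (t118 b)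
noncomputable def v119 (x1 x2 : ℝ) : ℝ := v1 x1 x2 * v118 x1 x2
theorem h119 (h : In b E x1 x2) : Enc S E (t119 b) (v119 x1 x2) := enc_mul hS (h1 h) (h118 h)

def t120 (b : Bx) : TM := tsub (t116 b) (t119 b)
noncomputable def v120 (x1 x2 : ℝ) : ℝ := v116 x1 x2 - v119 x1 x2
theorem h120 (h : In b E x1 x2) : Enc S E (t120 b) (v120 x1 x2) := enc_sub (h116 h) (h119 h)

def t121 (b : Bx) : TM := tsub (t117 b) (t114 b)
noncomputable def v121 (x1 x2 : ℝ) : ℝ := v117 x1 x2 - v114 x1 x2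
theorem h121 (h : In b E x1 x2) : Enc S E (t121 b) (v121 x1 x2) := enc_sub (h117 h) (h114 h)

def t122 (b : Bx) : TM := tmul S (t3 b) (t121 b)
noncomputable def v122 (x1 x2 : ℝ) : ℝ := v3 x1 x2 * v121 x1 x2
theorem h122 (h : In b E x1 x2) : Enc S E (t122 b) (v122 x1 x2) := enc_mul hS (h3 h) (h121 h)

def t123 (b : Bx) : TM := tsub (t120 b) (t122 b)
noncomputable def v123 (x1 x2 : ℝ) : ℝ := v120 x1 x2 - v122 x1 x2
theorem h123 (h : In b E x1 x2) : Enc S E (t123 b) (v123 x1 x2) := enc_sub (h120 h) (h122 h)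

def t124 (b : Bx) : TM := tmul S (t123 b) (t99 b)
noncomputable def v124 (x1 x2 : ℝ) : ℝ := v123 x1 x2 * v99 x1 x2
theorem h124 (h : In b E x1 x2) : Enc S E (t124 b) (v124 x1 x2) := enc_mul hS (h123 h) (h99 h)

def t125 (b : Bx) : TM := tnat 2 (t2 b)
noncomputable def v125 (x1 x2 : ℝ) : ℝ := ((2 : ℕ) : ℝ) * v2 x1 x2
theorem h125 (h : In b E x1 x2) : Enc S E (t125 b) (v125 x1 x2) := enc_nat 2 (h2 h)

def t126 (b : Bx) : TM := tinv S (t125 b)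
noncomputable def v126 (x1 x2 : ℝ) : ℝ := (v125 x1 x2)⁻¹
theorem h126 (h : In b E x1 x2) : Enc S E (t126 b) (v126 x1 x2) := enc_inv hS (h125 h)

def t127 (b : Bx) : TM := tmul S (t100 b) (t126 b)
noncomputable def v127 (x1 x2 : ℝ) : ℝ := v100 x1 x2 * v126 x1 x2
theorem h127 (h : In b E x1 x2) : Enc S E (t127 b) (v127 x1 x2) := enc_mul hS (h100 h) (h126 h)

def t128 (b : Bx) : TM := tadd (t124 b) (t127 b)
noncomputable def v128 (x1 x2 : ℝ) : ℝ := v124 x1 x2 + v127 x1 x2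
theorem h128 (h : In b E x1 x2) : Enc S E (t128 b) (v128 x1 x2) := enc_add (h124 h) (h127 h)

def t129 (b : Bx) : TM := tsub (t117 b) (t115 b)
noncomputable def v129 (x1 x2 : ℝ) : ℝ := v117 x1 x2 - v115 x1 x2
theorem h129 (h : In b E x1 x2) : Enc S E (t129 b) (v129 x1 x2) := enc_sub (h117 h) (h115 h)

def t130 (b : Bx) : TM := tmul S (t1 b) (t129 b)
noncomputable def v130 (x1 x2 : ℝ) : ℝ := v1 x1 x2 * v129 x1 x2
theorem h130 (h : In b E x1 x2) : Enc S E (t130 b) (v130 x1 x2) := enc_mul hS (h1 h) (h129 h)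

def t131 (b : Bx) : TM := tadd (t117 b) (t114 b)
noncomputable def v131 (x1 x2 : ℝ) : ℝ := v117 x1 x2 + v114 x1 x2
theorem h131 (h : In b E x1 x2) : Enc S E (t131 b) (v131 x1 x2) := enc_add (h117 h) (h114 h)

def t132 (b : Bx) : TM := tmul S (t3 b) (t131 b)
noncomputable def v132 (x1 x2 : ℝ) : ℝ := v3 x1 x2 * v131 x1 x2
theorem h132 (h : In b E x1 x2) : Enc S E (t132 b) (v132 x1 x2) := enc_mul hS (h3 h) (h131 h)

def t133 (b : Bx) : TM := tadd (t130 b) (t132 b)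
noncomputable def v133 (x1 x2 : ℝ) : ℝ := v130 x1 x2 + v132 x1 x2
theorem h133 (h : In b E x1 x2) : Enc S E (t133 b) (v133 x1 x2) := enc_add (h130 h) (h132 h)

def t134 (b : Bx) : TM := tsub (t133 b) (t116 b)
noncomputable def v134 (x1 x2 : ℝ) : ℝ := v133 x1 x2 - v116 x1 x2
theorem h134 (h : In b E x1 x2) : Enc S E (t134 b) (v134 x1 x2) := enc_sub (h133 h) (h116 h)

def t135 (b : Bx) : TM := tmul S (t134 b) (t99 b)
noncomputable def v135 (x1 x2 : ℝ) : ℝ := v134 x1 x2 * v99 x1 x2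
theorem h135 (h : In b E x1 x2) : Enc S E (t135 b) (v135 x1 x2) := enc_mul hS (h134 h) (h99 h)

def t136 (b : Bx) : TM := tadd (t135 b) (t127 b)
noncomputable def v136 (x1 x2 : ℝ) : ℝ := v135 x1 x2 + v127 x1 x2
theorem h136 (h : In b E x1 x2) : Enc S E (t136 b) (v136 x1 x2) := enc_add (h135 h) (h127 h)

def t137 (b : Bx) : TM := tsub (t5 b) (t8 b)
noncomputable def v137 (x1 x2 : ℝ) : ℝ := v5 x1 x2 - v8 x1 x2
theorem h137 (h : In b E x1 x2) : Enc S E (t137 b) (v137 x1 x2) := enc_sub (h5 h) (h8 h)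

def t138 (b : Bx) : TM := tmul S (t115 b) (t137 b)
noncomputable def v138 (x1 x2 : ℝ) : ℝ := v115 x1 x2 * v137 x1 x2
theorem h138 (h : In b E x1 x2) : Enc S E (t138 b) (v138 x1 x2) := enc_mul hS (h115 h) (h137 h)

def t139 (b : Bx) : TM := tsub (t5 b) (t7 b)
noncomputable def v139 (x1 x2 : ℝ) : ℝ := v5 x1 x2 - v7 x1 x2
theorem h139 (h : In b E x1 x2) : Enc S E (t139 b) (v139 x1 x2) := enc_sub (h5 h) (h7 h)

def t140 (b : Bx) : TM := tmul S (t114 b) (t139 b)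
noncomputable def v140 (x1 x2 : ℝ) : ℝ := v114 x1 x2 * v139 x1 x2
theorem h140 (h : In b E x1 x2) : Enc S E (t140 b) (v140 x1 x2) := enc_mul hS (h114 h) (h139 h)

def t141 (b : Bx) : TM := tsub (t138 b) (t140 b)
noncomputable def v141 (x1 x2 : ℝ) : ℝ := v138 x1 x2 - v140 x1 x2
theorem h141 (h : In b E x1 x2) : Enc S E (t141 b) (v141 x1 x2) := enc_sub (h138 h) (h140 h)

def t142 (b : Bx) : TM := tsub (t1 b) (t3 b)
noncomputable def v142 (x1 x2 : ℝ) : ℝ := v1 x1 x2 - v3 x1 x2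
theorem h142 (h : In b E x1 x2) : Enc S E (t142 b) (v142 x1 x2) := enc_sub (h1 h) (h3 h)

def t143 (b : Bx) : TM := tsub (t5 b) (t0 b)
noncomputable def v143 (x1 x2 : ℝ) : ℝ := v5 x1 x2 - v0 x1 x2
theorem h143 (h : In b E x1 x2) : Enc S E (t143 b) (v143 x1 x2) := enc_sub (h5 h) (h0 h)

def t144 (b : Bx) : TM := tmul S (t142 b) (t143 b)
noncomputable def v144 (x1 x2 : ℝ) : ℝ := v142 x1 x2 * v143 x1 x2
theorem h144 (h : In b E x1 x2) : Enc S E (t144 b) (v144 x1 x2) := enc_mul hS (h142 h) (h143 h)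

def t145 (b : Bx) : TM := tadd (t114 b) (t115 b)
noncomputable def v145 (x1 x2 : ℝ) : ℝ := v114 x1 x2 + v115 x1 x2
theorem h145 (h : In b E x1 x2) : Enc S E (t145 b) (v145 x1 x2) := enc_add (h114 h) (h115 h)

def t146 (b : Bx) : TM := tsub (t145 b) (t117 b)
noncomputable def v146 (x1 x2 : ℝ) : ℝ := v145 x1 x2 - v117 x1 x2
theorem h146 (h : In b E x1 x2) : Enc S E (t146 b) (v146 x1 x2) := enc_sub (h145 h) (h117 h)

def t147 (b : Bx) : TM := tmul S (t144 b) (t146 b)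
noncomputable def v147 (x1 x2 : ℝ) : ℝ := v144 x1 x2 * v146 x1 x2
theorem h147 (h : In b E x1 x2) : Enc S E (t147 b) (v147 x1 x2) := enc_mul hS (h144 h) (h146 h)

def t148 (b : Bx) : TM := tadd (t141 b) (t147 b)
noncomputable def v148 (x1 x2 : ℝ) : ℝ := v141 x1 x2 + v147 x1 x2
theorem h148 (h : In b E x1 x2) : Enc S E (t148 b) (v148 x1 x2) := enc_add (h141 h) (h147 h)

def t149 (b : Bx) : TM := tmul S (t148 b) (t99 b)
noncomputable def v149 (x1 x2 : ℝ) : ℝ := v148 x1 x2 * v99 x1 x2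
theorem h149 (h : In b E x1 x2) : Enc S E (t149 b) (v149 x1 x2) := enc_mul hS (h148 h) (h99 h)

def t150 (b : Bx) : TM := tmul S (t0 b) (t127 b)
noncomputable def v150 (x1 x2 : ℝ) : ℝ := v0 x1 x2 * v127 x1 x2
theorem h150 (h : In b E x1 x2) : Enc S E (t150 b) (v150 x1 x2) := enc_mul hS (h0 h) (h127 h)

def t151 (b : Bx) : TM := tadd (t149 b) (t150 b)
noncomputable def v151 (x1 x2 : ℝ) : ℝ := v149 x1 x2 + v150 x1 x2
theorem h151 (h : In b E x1 x2) : Enc S E (t151 b) (v151 x1 x2) := enc_add (h149 h) (h150 h)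

def t152 (b : Bx) : TM := tadd (t76 b) (t4 b)
noncomputable def v152 (x1 x2 : ℝ) : ℝ := v76 x1 x2 + v4 x1 x2
theorem h152 (h : In b E x1 x2) : Enc S E (t152 b) (v152 x1 x2) := enc_add (h76 h) (h4 h)

def t153 (b : Bx) : TM := tscale 1 4 (t152 b)
noncomputable def v153 (x1 x2 : ℝ) : ℝ := ((1 : ℕ) : ℝ) / ((4 : ℕ) : ℝ) * v152 x1 x2
theorem h153 (h : In b E x1 x2) : Enc S E (t153 b) (v153 x1 x2) := enc_scale 1 (by norm_num) (h152 h)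

def t154 (b : Bx) : TM := tmul S (t100 b) (t153 b)
noncomputable def v154 (x1 x2 : ℝ) : ℝ := v100 x1 x2 * v153 x1 x2
theorem h154 (h : In b E x1 x2) : Enc S E (t154 b) (v154 x1 x2) := enc_mul hS (h100 h) (h153 h)

def t155 (b : Bx) : TM := tmul S (t0 b) (t128 b)
noncomputable def v155 (x1 x2 : ℝ) : ℝ := v0 x1 x2 * v128 x1 x2
theorem h155 (h : In b E x1 x2) : Enc S E (t155 b) (v155 x1 x2) := enc_mul hS (h0 h) (h128 h)

def t156 (b : Bx) : TM := tphi S (t155 b) (t151 b)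
noncomputable def v156 (x1 x2 : ℝ) : ℝ := Pool.Agent.Strip051.LC.Line.phi (v155 x1 x2) (v151 x1 x2)
theorem h156 (h : In b E x1 x2) : Enc S E (t156 b) (v156 x1 x2) := enc_phi hS (h155 h) (h151 h)

def t157 (b : Bx) : TM := tmul S (t1 b) (t156 b)
noncomputable def v157 (x1 x2 : ℝ) : ℝ := v1 x1 x2 * v156 x1 x2
theorem h157 (h : In b E x1 x2) : Enc S E (t157 b) (v157 x1 x2) := enc_mul hS (h1 h) (h156 h)

def t158 (b : Bx) : TM := tmul S (t0 b) (t136 b)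
noncomputable def v158 (x1 x2 : ℝ) : ℝ := v0 x1 x2 * v136 x1 x2
theorem h158 (h : In b E x1 x2) : Enc S E (t158 b) (v158 x1 x2) := enc_mul hS (h0 h) (h136 h)

def t159 (b : Bx) : TM := tphi S (t151 b) (t158 b)
noncomputable def v159 (x1 x2 : ℝ) : ℝ := Pool.Agent.Strip051.LC.Line.phi (v151 x1 x2) (v158 x1 x2)
theorem h159 (h : In b E x1 x2) : Enc S E (t159 b) (v159 x1 x2) := enc_phi hS (h151 h) (h158 h)

def t160 (b : Bx) : TM := tmul S (t3 b) (t159 b)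
noncomputable def v160 (x1 x2 : ℝ) : ℝ := v3 x1 x2 * v159 x1 x2
theorem h160 (h : In b E x1 x2) : Enc S E (t160 b) (v160 x1 x2) := enc_mul hS (h3 h) (h159 h)

def t161 (b : Bx) : TM := tadd (t157 b) (t160 b)
noncomputable def v161 (x1 x2 : ℝ) : ℝ := v157 x1 x2 + v160 x1 x2
theorem h161 (h : In b E x1 x2) : Enc S E (t161 b) (v161 x1 x2) := enc_add (h157 h) (h160 h)

def t162 (b : Bx) : TM := tphi S (t136 b) (t128 b)
noncomputable def v162 (x1 x2 : ℝ) : ℝ := Pool.Agent.Strip051.LC.Line.phi (v136 x1 x2) (v128 x1 x2)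
theorem h162 (h : In b E x1 x2) : Enc S E (t162 b) (v162 x1 x2) := enc_phi hS (h136 h) (h128 h)

def t163 (b : Bx) : TM := tmul S (t143 b) (t162 b)
noncomputable def v163 (x1 x2 : ℝ) : ℝ := v143 x1 x2 * v162 x1 x2
theorem h163 (h : In b E x1 x2) : Enc S E (t163 b) (v163 x1 x2) := enc_mul hS (h143 h) (h162 h)

def t164 (b : Bx) : TM := tadd (t161 b) (t163 b)
noncomputable def v164 (x1 x2 : ℝ) : ℝ := v161 x1 x2 + v163 x1 x2
theorem h164 (h : In b E x1 x2) : Enc S E (t164 b) (v164 x1 x2) := enc_add (h161 h) (h163 h)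

def t165 (b : Bx) : TM := tmul S (t2 b) (t164 b)
noncomputable def v165 (x1 x2 : ℝ) : ℝ := v2 x1 x2 * v164 x1 x2
theorem h165 (h : In b E x1 x2) : Enc S E (t165 b) (v165 x1 x2) := enc_mul hS (h2 h) (h164 h)

def t166 (b : Bx) : TM := tsub (t154 b) (t165 b)
noncomputable def v166 (x1 x2 : ℝ) : ℝ := v154 x1 x2 - v165 x1 x2
theorem h166 (h : In b E x1 x2) : Enc S E (t166 b) (v166 x1 x2) := enc_sub (h154 h) (h165 h)

def t167 (b : Bx) : TM := tnat 2 (t41 b)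
noncomputable def v167 (x1 x2 : ℝ) : ℝ := ((2 : ℕ) : ℝ) * v41 x1 x2
theorem h167 (h : In b E x1 x2) : Enc S E (t167 b) (v167 x1 x2) := enc_nat 2 (h41 h)

def t168 (b : Bx) : TM := tmul S (t3 b) (t74 b)
noncomputable def v168 (x1 x2 : ℝ) : ℝ := v3 x1 x2 * v74 x1 x2
theorem h168 (h : In b E x1 x2) : Enc S E (t168 b) (v168 x1 x2) := enc_mul hS (h3 h) (h74 h)

def t169 (b : Bx) : TM := tsub (t167 b) (t168 b)
noncomputable def v169 (x1 x2 : ℝ) : ℝ := v167 x1 x2 - v168 x1 x2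
theorem h169 (h : In b E x1 x2) : Enc S E (t169 b) (v169 x1 x2) := enc_sub (h167 h) (h168 h)

def t170 (b : Bx) : TM := tsq S (t169 b)
noncomputable def v170 (x1 x2 : ℝ) : ℝ := (v169 x1 x2) ^ 2
theorem h170 (h : In b E x1 x2) : Enc S E (t170 b) (v170 x1 x2) := enc_sq hS (h169 h)

def t171 (b : Bx) : TM := tmul S (t0 b) (t170 b)
noncomputable def v171 (x1 x2 : ℝ) : ℝ := v0 x1 x2 * v170 x1 x2
theorem h171 (h : In b E x1 x2) : Enc S E (t171 b) (v171 x1 x2) := enc_mul hS (h0 h) (h170 h)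

def t172 (b : Bx) : TM := tmul S (t3 b) (t85 b)
noncomputable def v172 (x1 x2 : ℝ) : ℝ := v3 x1 x2 * v85 x1 x2
theorem h172 (h : In b E x1 x2) : Enc S E (t172 b) (v172 x1 x2) := enc_mul hS (h3 h) (h85 h)

def t173 (b : Bx) : TM := tsub (t171 b) (t172 b)
noncomputable def v173 (x1 x2 : ℝ) : ℝ := v171 x1 x2 - v172 x1 x2
theorem h173 (h : In b E x1 x2) : Enc S E (t173 b) (v173 x1 x2) := enc_sub (h171 h) (h172 h)

def t174 (_b : Bx) : TM := tconst (Nat.mul 3 S) 0 0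
noncomputable def v174 (_x1 _x2 : ℝ) : ℝ := ((3 : ℕ) : ℝ)
theorem h174 (_h : In b E x1 x2) : Enc S E (t174 b) (v174 x1 x2) := enc_nc E 3

def t175 (b : Bx) : TM := tsub (t174 b) (t41 b)
noncomputable def v175 (x1 x2 : ℝ) : ℝ := v174 x1 x2 - v41 x1 x2
theorem h175 (h : In b E x1 x2) : Enc S E (t175 b) (v175 x1 x2) := enc_sub (h174 h) (h41 h)

def g0 (b : Bx) : Bool := pos (t109 b)

def Q0 (x1 x2 : ℝ) : Prop := 0 < v109 x1 x2

theorem g0_sound (h : In b E x1 x2) (e : g0 b = true) : Q0 x1 x2 :=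
  pos_sound hS (h109 h) e

def g1 (b : Bx) : Bool := or (pos (t173 b)) (pos (t166 b))

def Q1 (x1 x2 : ℝ) : Prop := 0 < v173 x1 x2 ∨ 0 < v166 x1 x2

theorem g1_sound (h : In b E x1 x2) (e : g1 b = true) : Q1 x1 x2 :=
  ((Bool.or_eq_true_iff.mp e).imp (fun a => pos_sound hS (h173 h) a) (fun a => pos_sound hS (h166 h) a))

def g2 (b : Bx) : Bool := pos (t175 b)

def Q2 (x1 x2 : ℝ) : Prop := 0 < v175 x1 x2

theorem g2_sound (h : In b E x1 x2) (e : g2 b = true) : Q2 x1 x2 :=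
  pos_sound hS (h175 h) e

def f (b : Bx) : Nat := cond (g0 b) (cond (g1 b) (cond (g2 b) (0) (pickb 1 (t41 b) b)) (pickb 1 (t166 b) b)) (pickb 1 (t41 b) b)

/-- the statement -/
def Q (x1 x2 : ℝ) : Prop := Q0 x1 x2 ∧ Q1 x1 x2 ∧ Q2 x1 x2

theorem f_sound (b : Bx) (hb : f b = 0) (x1 x2 : ℝ) (hm : Mem S b x1 x2) : Q x1 x2 := by
  obtain ⟨E, h⟩ := pt_of_mem hm
  have h : In b E x1 x2 := h
  unfold f at hb
  have e0 : g0 b = true := by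
    rcases e : g0 b with _ | _
    · rw [e, cond_false] at hb; exact absurd hb (pickb_ne _ _ _)
    · rfl
  rw [e0, cond_true] at hb
  have e1 : g1 b = true := by
    rcases e : g1 b with _ | _
    · rw [e, cond_false] at hb; exact absurd hb (pickb_ne _ _ _)
    · rfl
  rw [e1, cond_true] at hb
  have e2 : g2 b = true := by
    rcases e : g2 b with _ | _
    · rw [e, cond_false] at hb; exact absurd hb (pickb_ne _ _ _)
    · rfl
  rw [e2, cond_true] at hb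
  exact ⟨g0_sound h e0, g1_sound h e1, g2_sound h e2⟩

/-- the box -/
def b0 : Bx := ⟨53687091, 0, 53687093, 536870912, 0, 536870913⟩

theorem chk_all {n : ℕ} {b : Bx} (h : chk f n b = true) (x1 x2 : ℝ) (hm : Mem S b x1 x2) : Q x1 x2 :=
  chk_sound (fun b hb x1 x2 hm => f_sound b hb x1 x2 hm) n b h x1 x2 hm

theorem c0 : chk f 60 b0 = true := by decide +kernel

theorem mem0 {x1 x2 : ℝ} (h0 : 0 ≤ x1) (h1 : x1 ≤ 1 / 10) (h2 : 0 ≤ x2) (h3 : x2 ≤ 1) :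
    Mem S b0 x1 x2 := by
  refine ⟨?_, ?_⟩ <;> rw [abs_le] <;> constructor <;> norm_num [S, b0] <;> linarith

end Pool.Agent.Strip051.LC.Line.Corn.VA01pm123

namespace Pool.Agent.Strip051.LC.Line.Corn.VA01pm123

theorem box {x y : ℝ} (h0 : 0 ≤ x) (h1 : x ≤ 1 / 10) (h2 : 0 ≤ y) (h3 : y ≤ 1) :
    (0 < (((-(x1_1 (-x))) + (-(y * (y1_2 (x * y))))) - ((((1 : ℕ) : ℝ) - y) * (((1 : ℕ) : ℝ) / ((2 : ℕ) : ℝ) * (wqg (x * (((1 : ℕ) : ℝ) - y))))))) ∧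
    (0 < ((x * (((((2 : ℕ) : ℝ) * ((-(x1_1 (-x))) + (-(y * (y1_2 (x * y)))))) - ((((1 : ℕ) : ℝ) - y) * (wqg (x * (((1 : ℕ) : ℝ) - y))))) ^ 2)) - ((((1 : ℕ) : ℝ) - y) * ((((4 : ℕ) : ℝ) * gh) - (x * (((1 : ℕ) : ℝ) - y))))) ∨ 0 < (coneQ ((1 : ℕ) : ℝ) x y (((1 : ℕ) : ℝ) - y) (-(-((((1 : ℕ) : ℝ) / ((2 : ℕ) : ℝ)) - (x * (-(y * (q1_2 (x * y)))))))) (x * (((b1_3 ((((2 : ℕ) : ℝ) * gh) - (x * (((1 : ℕ) : ℝ) - y)))) * ((((1 : ℕ) : ℝ) - y) * (((1 : ℕ) : ℝ) / ((2 : ℕ) : ℝ) * (wqg (x * (((1 : ℕ) : ℝ) - y)))))) + ((G1g (x * (((1 : ℕ) : ℝ) - y))) * (((-(x1_1 (-x))) + (-(y * (y1_2 (x * y))))) - ((((1 : ℕ) : ℝ) - y) * (((1 : ℕ) : ℝ) / ((2 : ℕ) : ℝ) * (wqg (x * (((1 : ℕ) : ℝ) - y))))))))) (((((b1_3 ((((2 : ℕ) : ℝ) * gh) - (x * (((1 : ℕ) : ℝ) - y)))) * ((((1 : ℕ) : ℝ) - y) * (((1 : ℕ) : ℝ) / ((2 : ℕ) : ℝ) * (wqg (x * (((1 : ℕ) : ℝ) - y)))))) + ((G1g (x * (((1 : ℕ) : ℝ) - y)))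 * (((-(x1_1 (-x))) + (-(y * (y1_2 (x * y))))) - ((((1 : ℕ) : ℝ) - y) * (((1 : ℕ) : ℝ) / ((2 : ℕ) : ℝ) * (wqg (x * (((1 : ℕ) : ℝ) - y)))))))) - (-(r1_1 (-x)))) - (-(y * (q1_2 (x * y))))) (((((-(x1_1 (-x))) * ((((2 : ℕ) : ℝ) * gh) - (x * (((1 : ℕ) : ℝ) - y)))) - (((1 : ℕ) : ℝ) / ((2 : ℕ) : ℝ) * (((1 : ℕ) : ℝ) - y))) - (((-(x1_1 (-x))) + (-(y * (y1_2 (x * y))))) * (gh + (-x)))) * ((Real.sqrt ((3 : ℕ) : ℝ))⁻¹)))) ∧
    (0 < (((3 : ℕ) : ℝ) - ((-(x1_1 (-x))) + (-(y * (y1_2 (x * y))))))) :=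
  chk_all c0 x y (mem0 h0 h1 h2 h3)

end Pool.Agent.Strip051.LC.Line.Corn.VA01pm123
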