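import Pool.Agent.Strip051.Box.C2
import Pool.Agent.Strip051.LC.Line.Corn.CellV

/-! # Vertical corner chart B02pmz213 (generated) -/

namespace Pool.Agent.Strip051.LC.Line.Corn.VB02pmz213

open Pool.Agent.Strip051.Box Pool.Agent.Strip051.Box2

abbrev S : Nat := 1073741824

theorem hS : 0 < S := by decide

/-- coordinates of a point of the box -/
def In (b : Bx) (E : Pt) (x1 x2 : ℝ) : Prop :=
  (S : ℝ) * x1 = ((b.p1 : ℝ) - b.n1) + b.q1 * E.e1 ∧ (S : ℝ) * x2 = ((b.p2 : ℝ) - b.n2) + b.q2 * E.e2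

variable {b : Bx} {E : Pt} {x1 x2 : ℝ}

def t0 (b : Bx) : TM := X1 b
noncomputable def v0 (x1 _x2 : ℝ) : ℝ := x1
theorem h0 (h : In b E x1 x2) : Enc S E (t0 b) (v0 x1 x2) := enc_X1 h.1

def t1 (b : Bx) : TM := X2 b
noncomputable def v1 (_x1 x2 : ℝ) : ℝ := x2
theorem h1 (h : In b E x1 x2) : Enc S E (t1 b) (v1 x1 x2) := enc_X2 h.2

def t2 (_b : Bx) : TM := tconst 1859775393 0 1
noncomputable def v2 (_x1 _x2 : ℝ) : ℝ := Real.sqrt ((3 : ℕ) : ℝ)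
theorem h2 (_h : In b E x1 x2) : Enc S E (t2 b) (v2 x1 x2) := enc_sqrtn E (by decide) (by decide)

def t3 (b : Bx) : TM := tscale 1 2 (t2 b)
noncomputable def v3 (x1 x2 : ℝ) : ℝ := ((1 : ℕ) : ℝ) / ((2 : ℕ) : ℝ) * v2 x1 x2
theorem h3 (h : In b E x1 x2) : Enc S E (t3 b) (v3 x1 x2) := enc_scale 1 (by norm_num) (h2 h)

def t4 (_b : Bx) : TM := tconst (Nat.mul 1 S) 0 0
noncomputable def v4 (_x1 _x2 : ℝ) : ℝ := ((1 : ℕ) : ℝ)
theorem h4 (_h : In b E x1 x2) : Enc S E (t4 b) (v4 x1 x2) := enc_nc E 1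

def t5 (b : Bx) : TM := tsq S (t0 b)
noncomputable def v5 (x1 x2 : ℝ) : ℝ := (v0 x1 x2) ^ 2
theorem h5 (h : In b E x1 x2) : Enc S E (t5 b) (v5 x1 x2) := enc_sq hS (h0 h)

def t6 (_b : Bx) : TM := tconst (Nat.mul 3 S) 0 0
noncomputable def v6 (_x1 _x2 : ℝ) : ℝ := ((3 : ℕ) : ℝ)
theorem h6 (_h : In b E x1 x2) : Enc S E (t6 b) (v6 x1 x2) := enc_nc E 3

def t7 (b : Bx) : TM := tsub (t6 b) (t5 b)
noncomputable def v7 (x1 x2 : ℝ) : ℝ := v6 x1 x2 - v5 x1 x2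
theorem h7 (h : In b E x1 x2) : Enc S E (t7 b) (v7 x1 x2) := enc_sub (h6 h) (h5 h)

def t8 (b : Bx) : TM := tsqrt S (t7 b)
noncomputable def v8 (x1 x2 : ℝ) : ℝ := Real.sqrt (v7 x1 x2)
theorem h8 (h : In b E x1 x2) : Enc S E (t8 b) (v8 x1 x2) := enc_sqrt hS (h7 h)

def t9 (b : Bx) : TM := tadd (t2 b) (t8 b)
noncomputable def v9 (x1 x2 : ℝ) : ℝ := v2 x1 x2 + v8 x1 x2
theorem h9 (h : In b E x1 x2) : Enc S E (t9 b) (v9 x1 x2) := enc_add (h2 h) (h8 h)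

def t10 (b : Bx) : TM := tinv S (t9 b)
noncomputable def v10 (x1 x2 : ℝ) : ℝ := (v9 x1 x2)⁻¹
theorem h10 (h : In b E x1 x2) : Enc S E (t10 b) (v10 x1 x2) := enc_inv hS (h9 h)

def t11 (b : Bx) : TM := tmul S (t0 b) (t10 b)
noncomputable def v11 (x1 x2 : ℝ) : ℝ := v0 x1 x2 * v10 x1 x2
theorem h11 (h : In b E x1 x2) : Enc S E (t11 b) (v11 x1 x2) := enc_mul hS (h0 h) (h10 h)

def t12 (b : Bx) : TM := tadd (t1 b) (t11 b)
noncomputable def v12 (x1 x2 : ℝ) : ℝ := v1 x1 x2 + v11 x1 x2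
theorem h12 (h : In b E x1 x2) : Enc S E (t12 b) (v12 x1 x2) := enc_add (h1 h) (h11 h)

def t13 (b : Bx) : TM := tneg (t12 b)
noncomputable def v13 (x1 x2 : ℝ) : ℝ := -(v12 x1 x2)
theorem h13 (h : In b E x1 x2) : Enc S E (t13 b) (v13 x1 x2) := enc_neg (h12 h)

def t14 (b : Bx) : TM := tneg (t4 b)
noncomputable def v14 (x1 x2 : ℝ) : ℝ := -(v4 x1 x2)
theorem h14 (h : In b E x1 x2) : Enc S E (t14 b) (v14 x1 x2) := enc_neg (h4 h)

def t15 (b : Bx) : TM := tneg (t11 b)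
noncomputable def v15 (x1 x2 : ℝ) : ℝ := -(v11 x1 x2)
theorem h15 (h : In b E x1 x2) : Enc S E (t15 b) (v15 x1 x2) := enc_neg (h11 h)

def t16 (b : Bx) : TM := tmul S (t5 b) (t10 b)
noncomputable def v16 (x1 x2 : ℝ) : ℝ := v5 x1 x2 * v10 x1 x2
theorem h16 (h : In b E x1 x2) : Enc S E (t16 b) (v16 x1 x2) := enc_mul hS (h5 h) (h10 h)

def t17 (b : Bx) : TM := tsub (t2 b) (t16 b)
noncomputable def v17 (x1 x2 : ℝ) : ℝ := v2 x1 x2 - v16 x1 x2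
theorem h17 (h : In b E x1 x2) : Enc S E (t17 b) (v17 x1 x2) := enc_sub (h2 h) (h16 h)

def t18 (b : Bx) : TM := tsub (t8 b) (t3 b)
noncomputable def v18 (x1 x2 : ℝ) : ℝ := v8 x1 x2 - v3 x1 x2
theorem h18 (h : In b E x1 x2) : Enc S E (t18 b) (v18 x1 x2) := enc_sub (h8 h) (h3 h)

def t19 (b : Bx) : TM := tsq S (t18 b)
noncomputable def v19 (x1 x2 : ℝ) : ℝ := (v18 x1 x2) ^ 2
theorem h19 (h : In b E x1 x2) : Enc S E (t19 b) (v19 x1 x2) := enc_sq hS (h18 h)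

def t20 (b : Bx) : TM := tsub (t4 b) (t19 b)
noncomputable def v20 (x1 x2 : ℝ) : ℝ := v4 x1 x2 - v19 x1 x2
theorem h20 (h : In b E x1 x2) : Enc S E (t20 b) (v20 x1 x2) := enc_sub (h4 h) (h19 h)

def t21 (b : Bx) : TM := tsqrt S (t20 b)
noncomputable def v21 (x1 x2 : ℝ) : ℝ := Real.sqrt (v20 x1 x2)
theorem h21 (h : In b E x1 x2) : Enc S E (t21 b) (v21 x1 x2) := enc_sqrt hS (h20 h)

def t22 (_b : Bx) : TM := tconst (Nat.div (Nat.mul 1 S) 2) 0 1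
noncomputable def v22 (_x1 _x2 : ℝ) : ℝ := ((1 : ℕ) : ℝ) / ((2 : ℕ) : ℝ)
theorem h22 (_h : In b E x1 x2) : Enc S E (t22 b) (v22 x1 x2) := enc_rat E 1 (by norm_num)

def t23 (b : Bx) : TM := tadd (t21 b) (t22 b)
noncomputable def v23 (x1 x2 : ℝ) : ℝ := v21 x1 x2 + v22 x1 x2
theorem h23 (h : In b E x1 x2) : Enc S E (t23 b) (v23 x1 x2) := enc_add (h21 h) (h22 h)

def t24 (b : Bx) : TM := tinv S (t23 b)
noncomputable def v24 (x1 x2 : ℝ) : ℝ := (v23 x1 x2)⁻¹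
theorem h24 (h : In b E x1 x2) : Enc S E (t24 b) (v24 x1 x2) := enc_inv hS (h23 h)

def t25 (b : Bx) : TM := tmul S (t17 b) (t24 b)
noncomputable def v25 (x1 x2 : ℝ) : ℝ := v17 x1 x2 * v24 x1 x2
theorem h25 (h : In b E x1 x2) : Enc S E (t25 b) (v25 x1 x2) := enc_mul hS (h17 h) (h24 h)

def t26 (b : Bx) : TM := tmul S (t10 b) (t25 b)
noncomputable def v26 (x1 x2 : ℝ) : ℝ := v10 x1 x2 * v25 x1 x2
theorem h26 (h : In b E x1 x2) : Enc S E (t26 b) (v26 x1 x2) := enc_mul hS (h10 h) (h25 h)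

def t27 (b : Bx) : TM := tmul S (t0 b) (t26 b)
noncomputable def v27 (x1 x2 : ℝ) : ℝ := v0 x1 x2 * v26 x1 x2
theorem h27 (h : In b E x1 x2) : Enc S E (t27 b) (v27 x1 x2) := enc_mul hS (h0 h) (h26 h)

def t28 (b : Bx) : TM := tadd (t4 b) (t27 b)
noncomputable def v28 (x1 x2 : ℝ) : ℝ := v4 x1 x2 + v27 x1 x2
theorem h28 (h : In b E x1 x2) : Enc S E (t28 b) (v28 x1 x2) := enc_add (h4 h) (h27 h)

def t29 (b : Bx) : TM := tscale 1 2 (t28 b)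
noncomputable def v29 (x1 x2 : ℝ) : ℝ := ((1 : ℕ) : ℝ) / ((2 : ℕ) : ℝ) * v28 x1 x2
theorem h29 (h : In b E x1 x2) : Enc S E (t29 b) (v29 x1 x2) := enc_scale 1 (by norm_num) (h28 h)

def t30 (_b : Bx) : TM := tconst (Nat.div (Nat.mul 489 S) 250) 0 1
noncomputable def v30 (_x1 _x2 : ℝ) : ℝ := ((489 : ℕ) : ℝ) / ((250 : ℕ) : ℝ)
theorem h30 (_h : In b E x1 x2) : Enc S E (t30 b) (v30 x1 x2) := enc_rat E 489 (by norm_num)

def t31 (b : Bx) : TM := tinv S (t3 b)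
noncomputable def v31 (x1 x2 : ℝ) : ℝ := (v3 x1 x2)⁻¹
theorem h31 (h : In b E x1 x2) : Enc S E (t31 b) (v31 x1 x2) := enc_inv hS (h3 h)

def t32 (b : Bx) : TM := tmul S (t30 b) (t31 b)
noncomputable def v32 (x1 x2 : ℝ) : ℝ := v30 x1 x2 * v31 x1 x2
theorem h32 (h : In b E x1 x2) : Enc S E (t32 b) (v32 x1 x2) := enc_mul hS (h30 h) (h31 h)

def t33 (b : Bx) : TM := tmul S (t10 b) (t32 b)
noncomputable def v33 (x1 x2 : ℝ) : ℝ := v10 x1 x2 * v32 x1 x2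
theorem h33 (h : In b E x1 x2) : Enc S E (t33 b) (v33 x1 x2) := enc_mul hS (h10 h) (h32 h)

def t34 (b : Bx) : TM := tmul S (t5 b) (t33 b)
noncomputable def v34 (x1 x2 : ℝ) : ℝ := v5 x1 x2 * v33 x1 x2
theorem h34 (h : In b E x1 x2) : Enc S E (t34 b) (v34 x1 x2) := enc_mul hS (h5 h) (h33 h)

def t35 (b : Bx) : TM := tsub (t22 b) (t34 b)
noncomputable def v35 (x1 x2 : ℝ) : ℝ := v22 x1 x2 - v34 x1 x2
theorem h35 (h : In b E x1 x2) : Enc S E (t35 b) (v35 x1 x2) := enc_sub (h22 h) (h34 h)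

def t36 (b : Bx) : TM := tmul S (t29 b) (t35 b)
noncomputable def v36 (x1 x2 : ℝ) : ℝ := v29 x1 x2 * v35 x1 x2
theorem h36 (h : In b E x1 x2) : Enc S E (t36 b) (v36 x1 x2) := enc_mul hS (h29 h) (h35 h)

def t37 (b : Bx) : TM := tmul S (t0 b) (t1 b)
noncomputable def v37 (x1 x2 : ℝ) : ℝ := v0 x1 x2 * v1 x1 x2
theorem h37 (h : In b E x1 x2) : Enc S E (t37 b) (v37 x1 x2) := enc_mul hS (h0 h) (h1 h)

def t38 (b : Bx) : TM := tmul S (t0 b) (t13 b)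
noncomputable def v38 (x1 x2 : ℝ) : ℝ := v0 x1 x2 * v13 x1 x2
theorem h38 (h : In b E x1 x2) : Enc S E (t38 b) (v38 x1 x2) := enc_mul hS (h0 h) (h13 h)

def t39 (b : Bx) : TM := tadd (t2 b) (t37 b)
noncomputable def v39 (x1 x2 : ℝ) : ℝ := v2 x1 x2 + v37 x1 x2
theorem h39 (h : In b E x1 x2) : Enc S E (t39 b) (v39 x1 x2) := enc_add (h2 h) (h37 h)

def t40 (b : Bx) : TM := tadd (t3 b) (t37 b)
noncomputable def v40 (x1 x2 : ℝ) : ℝ := v3 x1 x2 + v37 x1 x2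
theorem h40 (h : In b E x1 x2) : Enc S E (t40 b) (v40 x1 x2) := enc_add (h3 h) (h37 h)

def t41 (b : Bx) : TM := tsq S (t40 b)
noncomputable def v41 (x1 x2 : ℝ) : ℝ := (v40 x1 x2) ^ 2
theorem h41 (h : In b E x1 x2) : Enc S E (t41 b) (v41 x1 x2) := enc_sq hS (h40 h)

def t42 (b : Bx) : TM := tsub (t4 b) (t41 b)
noncomputable def v42 (x1 x2 : ℝ) : ℝ := v4 x1 x2 - v41 x1 x2
theorem h42 (h : In b E x1 x2) : Enc S E (t42 b) (v42 x1 x2) := enc_sub (h4 h) (h41 h)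

def t43 (b : Bx) : TM := tsqrt S (t42 b)
noncomputable def v43 (x1 x2 : ℝ) : ℝ := Real.sqrt (v42 x1 x2)
theorem h43 (h : In b E x1 x2) : Enc S E (t43 b) (v43 x1 x2) := enc_sqrt hS (h42 h)

def t44 (b : Bx) : TM := tadd (t43 b) (t22 b)
noncomputable def v44 (x1 x2 : ℝ) : ℝ := v43 x1 x2 + v22 x1 x2
theorem h44 (h : In b E x1 x2) : Enc S E (t44 b) (v44 x1 x2) := enc_add (h43 h) (h22 h)

def t45 (b : Bx) : TM := tinv S (t44 b)
noncomputable def v45 (x1 x2 : ℝ) : ℝ := (v44 x1 x2)⁻¹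
theorem h45 (h : In b E x1 x2) : Enc S E (t45 b) (v45 x1 x2) := enc_inv hS (h44 h)

def t46 (b : Bx) : TM := tmul S (t39 b) (t45 b)
noncomputable def v46 (x1 x2 : ℝ) : ℝ := v39 x1 x2 * v45 x1 x2
theorem h46 (h : In b E x1 x2) : Enc S E (t46 b) (v46 x1 x2) := enc_mul hS (h39 h) (h45 h)

def t47 (b : Bx) : TM := tneg (t46 b)
noncomputable def v47 (x1 x2 : ℝ) : ℝ := -(v46 x1 x2)
theorem h47 (h : In b E x1 x2) : Enc S E (t47 b) (v47 x1 x2) := enc_neg (h46 h)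

def t48 (b : Bx) : TM := tmul S (t1 b) (t47 b)
noncomputable def v48 (x1 x2 : ℝ) : ℝ := v1 x1 x2 * v47 x1 x2
theorem h48 (h : In b E x1 x2) : Enc S E (t48 b) (v48 x1 x2) := enc_mul hS (h1 h) (h47 h)

def t49 (b : Bx) : TM := tmul S (t4 b) (t29 b)
noncomputable def v49 (x1 x2 : ℝ) : ℝ := v4 x1 x2 * v29 x1 x2
theorem h49 (h : In b E x1 x2) : Enc S E (t49 b) (v49 x1 x2) := enc_mul hS (h4 h) (h29 h)

def t50 (b : Bx) : TM := tneg (t49 b)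
noncomputable def v50 (x1 x2 : ℝ) : ℝ := -(v49 x1 x2)
theorem h50 (h : In b E x1 x2) : Enc S E (t50 b) (v50 x1 x2) := enc_neg (h49 h)

def t51 (b : Bx) : TM := tmul S (t4 b) (t36 b)
noncomputable def v51 (x1 x2 : ℝ) : ℝ := v4 x1 x2 * v36 x1 x2
theorem h51 (h : In b E x1 x2) : Enc S E (t51 b) (v51 x1 x2) := enc_mul hS (h4 h) (h36 h)

def t52 (b : Bx) : TM := tneg (t51 b)
noncomputable def v52 (x1 x2 : ℝ) : ℝ := -(v51 x1 x2)
theorem h52 (h : In b E x1 x2) : Enc S E (t52 b) (v52 x1 x2) := enc_neg (h51 h)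

def t53 (b : Bx) : TM := tsub (t50 b) (t48 b)
noncomputable def v53 (x1 x2 : ℝ) : ℝ := v50 x1 x2 - v48 x1 x2
theorem h53 (h : In b E x1 x2) : Enc S E (t53 b) (v53 x1 x2) := enc_sub (h50 h) (h48 h)

def t54 (b : Bx) : TM := tneg (t53 b)
noncomputable def v54 (x1 x2 : ℝ) : ℝ := -(v53 x1 x2)
theorem h54 (h : In b E x1 x2) : Enc S E (t54 b) (v54 x1 x2) := enc_neg (h53 h)

def t55 (b : Bx) : TM := tadd (t3 b) (t38 b)
noncomputable def v55 (x1 x2 : ℝ) : ℝ := v3 x1 x2 + v38 x1 x2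
theorem h55 (h : In b E x1 x2) : Enc S E (t55 b) (v55 x1 x2) := enc_add (h3 h) (h38 h)

def t56 (b : Bx) : TM := tmul S (t48 b) (t8 b)
noncomputable def v56 (x1 x2 : ℝ) : ℝ := v48 x1 x2 * v8 x1 x2
theorem h56 (h : In b E x1 x2) : Enc S E (t56 b) (v56 x1 x2) := enc_mul hS (h48 h) (h8 h)

def t57 (b : Bx) : TM := tscale 1 2 (t15 b)
noncomputable def v57 (x1 x2 : ℝ) : ℝ := ((1 : ℕ) : ℝ) / ((2 : ℕ) : ℝ) * v15 x1 x2
theorem h57 (h : In b E x1 x2) : Enc S E (t57 b) (v57 x1 x2) := enc_scale 1 (by norm_num) (h15 h)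

def t58 (b : Bx) : TM := tadd (t56 b) (t57 b)
noncomputable def v58 (x1 x2 : ℝ) : ℝ := v56 x1 x2 + v57 x1 x2
theorem h58 (h : In b E x1 x2) : Enc S E (t58 b) (v58 x1 x2) := enc_add (h56 h) (h57 h)

def t59 (b : Bx) : TM := tmul S (t50 b) (t40 b)
noncomputable def v59 (x1 x2 : ℝ) : ℝ := v50 x1 x2 * v40 x1 x2
theorem h59 (h : In b E x1 x2) : Enc S E (t59 b) (v59 x1 x2) := enc_mul hS (h50 h) (h40 h)

def t60 (b : Bx) : TM := tsub (t58 b) (t59 b)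
noncomputable def v60 (x1 x2 : ℝ) : ℝ := v58 x1 x2 - v59 x1 x2
theorem h60 (h : In b E x1 x2) : Enc S E (t60 b) (v60 x1 x2) := enc_sub (h58 h) (h59 h)

def t61 (b : Bx) : TM := tinv S (t2 b)
noncomputable def v61 (x1 x2 : ℝ) : ℝ := (v2 x1 x2)⁻¹
theorem h61 (h : In b E x1 x2) : Enc S E (t61 b) (v61 x1 x2) := enc_inv hS (h2 h)

def t62 (b : Bx) : TM := tmul S (t60 b) (t61 b)
noncomputable def v62 (x1 x2 : ℝ) : ℝ := v60 x1 x2 * v61 x1 x2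
theorem h62 (h : In b E x1 x2) : Enc S E (t62 b) (v62 x1 x2) := enc_mul hS (h60 h) (h61 h)

def t63 (b : Bx) : TM := tmul S (t0 b) (t54 b)
noncomputable def v63 (x1 x2 : ℝ) : ℝ := v0 x1 x2 * v54 x1 x2
theorem h63 (h : In b E x1 x2) : Enc S E (t63 b) (v63 x1 x2) := enc_mul hS (h0 h) (h54 h)

def t64 (b : Bx) : TM := tadd (t22 b) (t63 b)
noncomputable def v64 (x1 x2 : ℝ) : ℝ := v22 x1 x2 + v63 x1 x2
theorem h64 (h : In b E x1 x2) : Enc S E (t64 b) (v64 x1 x2) := enc_add (h22 h) (h63 h)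

def t65 (b : Bx) : TM := tmul S (t3 b) (t13 b)
noncomputable def v65 (x1 x2 : ℝ) : ℝ := v3 x1 x2 * v13 x1 x2
theorem h65 (h : In b E x1 x2) : Enc S E (t65 b) (v65 x1 x2) := enc_mul hS (h3 h) (h13 h)

def t66 (b : Bx) : TM := tnat 2 (t65 b)
noncomputable def v66 (x1 x2 : ℝ) : ℝ := ((2 : ℕ) : ℝ) * v65 x1 x2
theorem h66 (h : In b E x1 x2) : Enc S E (t66 b) (v66 x1 x2) := enc_nat 2 (h65 h)

def t67 (b : Bx) : TM := tadd (t54 b) (t66 b)
noncomputable def v67 (x1 x2 : ℝ) : ℝ := v54 x1 x2 + v66 x1 x2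
theorem h67 (h : In b E x1 x2) : Enc S E (t67 b) (v67 x1 x2) := enc_add (h54 h) (h66 h)

def t68 (b : Bx) : TM := tsq S (t54 b)
noncomputable def v68 (x1 x2 : ℝ) : ℝ := (v54 x1 x2) ^ 2
theorem h68 (h : In b E x1 x2) : Enc S E (t68 b) (v68 x1 x2) := enc_sq hS (h54 h)

def t69 (b : Bx) : TM := tsq S (t13 b)
noncomputable def v69 (x1 x2 : ℝ) : ℝ := (v13 x1 x2) ^ 2
theorem h69 (h : In b E x1 x2) : Enc S E (t69 b) (v69 x1 x2) := enc_sq hS (h13 h)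

def t70 (b : Bx) : TM := tadd (t68 b) (t69 b)
noncomputable def v70 (x1 x2 : ℝ) : ℝ := v68 x1 x2 + v69 x1 x2
theorem h70 (h : In b E x1 x2) : Enc S E (t70 b) (v70 x1 x2) := enc_add (h68 h) (h69 h)

def t71 (b : Bx) : TM := tmul S (t0 b) (t70 b)
noncomputable def v71 (x1 x2 : ℝ) : ℝ := v0 x1 x2 * v70 x1 x2
theorem h71 (h : In b E x1 x2) : Enc S E (t71 b) (v71 x1 x2) := enc_mul hS (h0 h) (h70 h)

def t72 (b : Bx) : TM := tadd (t67 b) (t71 b)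
noncomputable def v72 (x1 x2 : ℝ) : ℝ := v67 x1 x2 + v71 x1 x2
theorem h72 (h : In b E x1 x2) : Enc S E (t72 b) (v72 x1 x2) := enc_add (h67 h) (h71 h)

def t73 (b : Bx) : TM := tneg (t38 b)
noncomputable def v73 (x1 x2 : ℝ) : ℝ := -(v38 x1 x2)
theorem h73 (h : In b E x1 x2) : Enc S E (t73 b) (v73 x1 x2) := enc_neg (h38 h)

def t74 (_b : Bx) : TM := tconst (Nat.div (Nat.mul 1 S) 10) 0 1
noncomputable def v74 (_x1 _x2 : ℝ) : ℝ := ((1 : ℕ) : ℝ) / ((10 : ℕ) : ℝ)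
theorem h74 (_h : In b E x1 x2) : Enc S E (t74 b) (v74 x1 x2) := enc_rat E 1 (by norm_num)

def t75 (b : Bx) : TM := tsub (t73 b) (t74 b)
noncomputable def v75 (x1 x2 : ℝ) : ℝ := v73 x1 x2 - v74 x1 x2
theorem h75 (h : In b E x1 x2) : Enc S E (t75 b) (v75 x1 x2) := enc_sub (h73 h) (h74 h)

def t76 (b : Bx) : TM := tneg (t72 b)
noncomputable def v76 (x1 x2 : ℝ) : ℝ := -(v72 x1 x2)
theorem h76 (h : In b E x1 x2) : Enc S E (t76 b) (v76 x1 x2) := enc_neg (h72 h)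

def t77 (b : Bx) : TM := tsq S (t55 b)
noncomputable def v77 (x1 x2 : ℝ) : ℝ := (v55 x1 x2) ^ 2
theorem h77 (h : In b E x1 x2) : Enc S E (t77 b) (v77 x1 x2) := enc_sq hS (h55 h)

def t78 (b : Bx) : TM := tsub (t4 b) (t77 b)
noncomputable def v78 (x1 x2 : ℝ) : ℝ := v4 x1 x2 - v77 x1 x2
theorem h78 (h : In b E x1 x2) : Enc S E (t78 b) (v78 x1 x2) := enc_sub (h4 h) (h77 h)

def t79 (b : Bx) : TM := tsqrt S (t78 b)
noncomputable def v79 (x1 x2 : ℝ) : ℝ := Real.sqrt (v78 x1 x2)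
theorem h79 (h : In b E x1 x2) : Enc S E (t79 b) (v79 x1 x2) := enc_sqrt hS (h78 h)

def t80 (b : Bx) : TM := tsub (t55 b) (t3 b)
noncomputable def v80 (x1 x2 : ℝ) : ℝ := v55 x1 x2 - v3 x1 x2
theorem h80 (h : In b E x1 x2) : Enc S E (t80 b) (v80 x1 x2) := enc_sub (h55 h) (h3 h)

def t81 (b : Bx) : TM := tsq S (t80 b)
noncomputable def v81 (x1 x2 : ℝ) : ℝ := (v80 x1 x2) ^ 2
theorem h81 (h : In b E x1 x2) : Enc S E (t81 b) (v81 x1 x2) := enc_sq hS (h80 h)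

def t82 (b : Bx) : TM := tsub (t4 b) (t81 b)
noncomputable def v82 (x1 x2 : ℝ) : ℝ := v4 x1 x2 - v81 x1 x2
theorem h82 (h : In b E x1 x2) : Enc S E (t82 b) (v82 x1 x2) := enc_sub (h4 h) (h81 h)

def t83 (b : Bx) : TM := tsqrt S (t82 b)
noncomputable def v83 (x1 x2 : ℝ) : ℝ := Real.sqrt (v82 x1 x2)
theorem h83 (h : In b E x1 x2) : Enc S E (t83 b) (v83 x1 x2) := enc_sqrt hS (h82 h)

def t84 (b : Bx) : TM := tadd (t83 b) (t22 b)
noncomputable def v84 (x1 x2 : ℝ) : ℝ := v83 x1 x2 + v22 x1 x2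
theorem h84 (h : In b E x1 x2) : Enc S E (t84 b) (v84 x1 x2) := enc_add (h83 h) (h22 h)

def t85 (b : Bx) : TM := tadd (t79 b) (t84 b)
noncomputable def v85 (x1 x2 : ℝ) : ℝ := v79 x1 x2 + v84 x1 x2
theorem h85 (h : In b E x1 x2) : Enc S E (t85 b) (v85 x1 x2) := enc_add (h79 h) (h84 h)

def t86 (b : Bx) : TM := tscale 1 2 (t85 b)
noncomputable def v86 (x1 x2 : ℝ) : ℝ := ((1 : ℕ) : ℝ) / ((2 : ℕ) : ℝ) * v85 x1 x2
theorem h86 (h : In b E x1 x2) : Enc S E (t86 b) (v86 x1 x2) := enc_scale 1 (by norm_num) (h85 h)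

def t87 (b : Bx) : TM := tmul S (t55 b) (t31 b)
noncomputable def v87 (x1 x2 : ℝ) : ℝ := v55 x1 x2 * v31 x1 x2
theorem h87 (h : In b E x1 x2) : Enc S E (t87 b) (v87 x1 x2) := enc_mul hS (h55 h) (h31 h)

def t88 (b : Bx) : TM := tsub (t87 b) (t4 b)
noncomputable def v88 (x1 x2 : ℝ) : ℝ := v87 x1 x2 - v4 x1 x2
theorem h88 (h : In b E x1 x2) : Enc S E (t88 b) (v88 x1 x2) := enc_sub (h87 h) (h4 h)

def t89 (b : Bx) : TM := tscale 71 25 (t88 b)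
noncomputable def v89 (x1 x2 : ℝ) : ℝ := ((71 : ℕ) : ℝ) / ((25 : ℕ) : ℝ) * v88 x1 x2
theorem h89 (h : In b E x1 x2) : Enc S E (t89 b) (v89 x1 x2) := enc_scale 71 (by norm_num) (h88 h)

def t90 (_b : Bx) : TM := tconst (Nat.div (Nat.mul 173 S) 200) 0 1
noncomputable def v90 (_x1 _x2 : ℝ) : ℝ := ((173 : ℕ) : ℝ) / ((200 : ℕ) : ℝ)
theorem h90 (_h : In b E x1 x2) : Enc S E (t90 b) (v90 x1 x2) := enc_rat E 173 (by norm_num)

def t91 (b : Bx) : TM := tadd (t90 b) (t89 b)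
noncomputable def v91 (x1 x2 : ℝ) : ℝ := v90 x1 x2 + v89 x1 x2
theorem h91 (h : In b E x1 x2) : Enc S E (t91 b) (v91 x1 x2) := enc_add (h90 h) (h89 h)

def t92 (b : Bx) : TM := tmul S (t86 b) (t91 b)
noncomputable def v92 (x1 x2 : ℝ) : ℝ := v86 x1 x2 * v91 x1 x2
theorem h92 (h : In b E x1 x2) : Enc S E (t92 b) (v92 x1 x2) := enc_mul hS (h86 h) (h91 h)

def t93 (b : Bx) : TM := tnat 2 (t79 b)
noncomputable def v93 (x1 x2 : ℝ) : ℝ := ((2 : ℕ) : ℝ) * v79 x1 x2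
theorem h93 (h : In b E x1 x2) : Enc S E (t93 b) (v93 x1 x2) := enc_nat 2 (h79 h)

def t94 (b : Bx) : TM := tadd (t4 b) (t93 b)
noncomputable def v94 (x1 x2 : ℝ) : ℝ := v4 x1 x2 + v93 x1 x2
theorem h94 (h : In b E x1 x2) : Enc S E (t94 b) (v94 x1 x2) := enc_add (h4 h) (h93 h)

def t95 (b : Bx) : TM := tmul S (t2 b) (t55 b)
noncomputable def v95 (x1 x2 : ℝ) : ℝ := v2 x1 x2 * v55 x1 x2
theorem h95 (h : In b E x1 x2) : Enc S E (t95 b) (v95 x1 x2) := enc_mul hS (h2 h) (h55 h)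

def t96 (b : Bx) : TM := tsub (t95 b) (t79 b)
noncomputable def v96 (x1 x2 : ℝ) : ℝ := v95 x1 x2 - v79 x1 x2
theorem h96 (h : In b E x1 x2) : Enc S E (t96 b) (v96 x1 x2) := enc_sub (h95 h) (h79 h)

def t97 (b : Bx) : TM := tmul S (t94 b) (t96 b)
noncomputable def v97 (x1 x2 : ℝ) : ℝ := v94 x1 x2 * v96 x1 x2
theorem h97 (h : In b E x1 x2) : Enc S E (t97 b) (v97 x1 x2) := enc_mul hS (h94 h) (h96 h)

def t98 (b : Bx) : TM := tadd (t4 b) (t95 b)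
noncomputable def v98 (x1 x2 : ℝ) : ℝ := v4 x1 x2 + v95 x1 x2
theorem h98 (h : In b E x1 x2) : Enc S E (t98 b) (v98 x1 x2) := enc_add (h4 h) (h95 h)

def t99 (b : Bx) : TM := tsub (t98 b) (t79 b)
noncomputable def v99 (x1 x2 : ℝ) : ℝ := v98 x1 x2 - v79 x1 x2
theorem h99 (h : In b E x1 x2) : Enc S E (t99 b) (v99 x1 x2) := enc_sub (h98 h) (h79 h)

def t100 (b : Bx) : TM := tnat 2 (t99 b)
noncomputable def v100 (x1 x2 : ℝ) : ℝ := ((2 : ℕ) : ℝ) * v99 x1 x2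
theorem h100 (h : In b E x1 x2) : Enc S E (t100 b) (v100 x1 x2) := enc_nat 2 (h99 h)

def t101 (b : Bx) : TM := tinv S (t100 b)
noncomputable def v101 (x1 x2 : ℝ) : ℝ := (v100 x1 x2)⁻¹
theorem h101 (h : In b E x1 x2) : Enc S E (t101 b) (v101 x1 x2) := enc_inv hS (h100 h)

def t102 (b : Bx) : TM := tmul S (t97 b) (t101 b)
noncomputable def v102 (x1 x2 : ℝ) : ℝ := v97 x1 x2 * v101 x1 x2
theorem h102 (h : In b E x1 x2) : Enc S E (t102 b) (v102 x1 x2) := enc_mul hS (h97 h) (h101 h)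

def t103 (b : Bx) : TM := tsub (t92 b) (t102 b)
noncomputable def v103 (x1 x2 : ℝ) : ℝ := v92 x1 x2 - v102 x1 x2
theorem h103 (h : In b E x1 x2) : Enc S E (t103 b) (v103 x1 x2) := enc_sub (h92 h) (h102 h)

def t104 (b : Bx) : TM := tsub (t86 b) (t79 b)
noncomputable def v104 (x1 x2 : ℝ) : ℝ := v86 x1 x2 - v79 x1 x2
theorem h104 (h : In b E x1 x2) : Enc S E (t104 b) (v104 x1 x2) := enc_sub (h86 h) (h79 h)

def t105 (b : Bx) : TM := tinv S (t104 b)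
noncomputable def v105 (x1 x2 : ℝ) : ℝ := (v104 x1 x2)⁻¹
theorem h105 (h : In b E x1 x2) : Enc S E (t105 b) (v105 x1 x2) := enc_inv hS (h104 h)

def t106 (b : Bx) : TM := tmul S (t103 b) (t105 b)
noncomputable def v106 (x1 x2 : ℝ) : ℝ := v103 x1 x2 * v105 x1 x2
theorem h106 (h : In b E x1 x2) : Enc S E (t106 b) (v106 x1 x2) := enc_mul hS (h103 h) (h105 h)

def t107 (b : Bx) : TM := tadd (t2 b) (t38 b)
noncomputable def v107 (x1 x2 : ℝ) : ℝ := v2 x1 x2 + v38 x1 x2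
theorem h107 (h : In b E x1 x2) : Enc S E (t107 b) (v107 x1 x2) := enc_add (h2 h) (h38 h)

def t108 (b : Bx) : TM := tadd (t79 b) (t22 b)
noncomputable def v108 (x1 x2 : ℝ) : ℝ := v79 x1 x2 + v22 x1 x2
theorem h108 (h : In b E x1 x2) : Enc S E (t108 b) (v108 x1 x2) := enc_add (h79 h) (h22 h)

def t109 (b : Bx) : TM := tinv S (t108 b)
noncomputable def v109 (x1 x2 : ℝ) : ℝ := (v108 x1 x2)⁻¹
theorem h109 (h : In b E x1 x2) : Enc S E (t109 b) (v109 x1 x2) := enc_inv hS (h108 h)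

def t110 (b : Bx) : TM := tmul S (t107 b) (t109 b)
noncomputable def v110 (x1 x2 : ℝ) : ℝ := v107 x1 x2 * v109 x1 x2
theorem h110 (h : In b E x1 x2) : Enc S E (t110 b) (v110 x1 x2) := enc_mul hS (h107 h) (h109 h)

def t111 (b : Bx) : TM := tneg (t110 b)
noncomputable def v111 (x1 x2 : ℝ) : ℝ := -(v110 x1 x2)
theorem h111 (h : In b E x1 x2) : Enc S E (t111 b) (v111 x1 x2) := enc_neg (h110 h)

def t112 (b : Bx) : TM := tnat 3 (t111 b)
noncomputable def v112 (x1 x2 : ℝ) : ℝ := ((3 : ℕ) : ℝ) * v111 x1 x2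
theorem h112 (h : In b E x1 x2) : Enc S E (t112 b) (v112 x1 x2) := enc_nat 3 (h111 h)

def t113 (b : Bx) : TM := tmul S (t2 b) (t79 b)
noncomputable def v113 (x1 x2 : ℝ) : ℝ := v2 x1 x2 * v79 x1 x2
theorem h113 (h : In b E x1 x2) : Enc S E (t113 b) (v113 x1 x2) := enc_mul hS (h2 h) (h79 h)

def t114 (b : Bx) : TM := tnat 2 (t113 b)
noncomputable def v114 (x1 x2 : ℝ) : ℝ := ((2 : ℕ) : ℝ) * v113 x1 x2
theorem h114 (h : In b E x1 x2) : Enc S E (t114 b) (v114 x1 x2) := enc_nat 2 (h113 h)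

def t115 (b : Bx) : TM := tadd (t112 b) (t114 b)
noncomputable def v115 (x1 x2 : ℝ) : ℝ := v112 x1 x2 + v114 x1 x2
theorem h115 (h : In b E x1 x2) : Enc S E (t115 b) (v115 x1 x2) := enc_add (h112 h) (h114 h)

def t116 (b : Bx) : TM := tnat 2 (t2 b)
noncomputable def v116 (x1 x2 : ℝ) : ℝ := ((2 : ℕ) : ℝ) * v2 x1 x2
theorem h116 (h : In b E x1 x2) : Enc S E (t116 b) (v116 x1 x2) := enc_nat 2 (h2 h)

def t117 (b : Bx) : TM := tadd (t115 b) (t116 b)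
noncomputable def v117 (x1 x2 : ℝ) : ℝ := v115 x1 x2 + v116 x1 x2
theorem h117 (h : In b E x1 x2) : Enc S E (t117 b) (v117 x1 x2) := enc_add (h115 h) (h116 h)

def t118 (b : Bx) : TM := tnat 2 (t38 b)
noncomputable def v118 (x1 x2 : ℝ) : ℝ := ((2 : ℕ) : ℝ) * v38 x1 x2
theorem h118 (h : In b E x1 x2) : Enc S E (t118 b) (v118 x1 x2) := enc_nat 2 (h38 h)

def t119 (b : Bx) : TM := tadd (t117 b) (t118 b)
noncomputable def v119 (x1 x2 : ℝ) : ℝ := v117 x1 x2 + v118 x1 x2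
theorem h119 (h : In b E x1 x2) : Enc S E (t119 b) (v119 x1 x2) := enc_add (h117 h) (h118 h)

def t120 (b : Bx) : TM := tmul S (t119 b) (t101 b)
noncomputable def v120 (x1 x2 : ℝ) : ℝ := v119 x1 x2 * v101 x1 x2
theorem h120 (h : In b E x1 x2) : Enc S E (t120 b) (v120 x1 x2) := enc_mul hS (h119 h) (h101 h)

def t121 (b : Bx) : TM := tmul S (t13 b) (t120 b)
noncomputable def v121 (x1 x2 : ℝ) : ℝ := v13 x1 x2 * v120 x1 x2
theorem h121 (h : In b E x1 x2) : Enc S E (t121 b) (v121 x1 x2) := enc_mul hS (h13 h) (h120 h)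

def t122 (b : Bx) : TM := tmul S (t13 b) (t111 b)
noncomputable def v122 (x1 x2 : ℝ) : ℝ := v13 x1 x2 * v111 x1 x2
theorem h122 (h : In b E x1 x2) : Enc S E (t122 b) (v122 x1 x2) := enc_mul hS (h13 h) (h111 h)

def t123 (b : Bx) : TM := tsub (t54 b) (t122 b)
noncomputable def v123 (x1 x2 : ℝ) : ℝ := v54 x1 x2 - v122 x1 x2
theorem h123 (h : In b E x1 x2) : Enc S E (t123 b) (v123 x1 x2) := enc_sub (h54 h) (h122 h)

def t124 (b : Bx) : TM := tmul S (t106 b) (t123 b)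
noncomputable def v124 (x1 x2 : ℝ) : ℝ := v106 x1 x2 * v123 x1 x2
theorem h124 (h : In b E x1 x2) : Enc S E (t124 b) (v124 x1 x2) := enc_mul hS (h106 h) (h123 h)

def t125 (b : Bx) : TM := tadd (t121 b) (t124 b)
noncomputable def v125 (x1 x2 : ℝ) : ℝ := v121 x1 x2 + v124 x1 x2
theorem h125 (h : In b E x1 x2) : Enc S E (t125 b) (v125 x1 x2) := enc_add (h121 h) (h124 h)

def t126 (b : Bx) : TM := tneg (t125 b)
noncomputable def v126 (x1 x2 : ℝ) : ℝ := -(v125 x1 x2)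
theorem h126 (h : In b E x1 x2) : Enc S E (t126 b) (v126 x1 x2) := enc_neg (h125 h)

def t127 (b : Bx) : TM := tmul S (t0 b) (t48 b)
noncomputable def v127 (x1 x2 : ℝ) : ℝ := v0 x1 x2 * v48 x1 x2
theorem h127 (h : In b E x1 x2) : Enc S E (t127 b) (v127 x1 x2) := enc_mul hS (h0 h) (h48 h)

def t128 (b : Bx) : TM := tadd (t22 b) (t127 b)
noncomputable def v128 (x1 x2 : ℝ) : ℝ := v22 x1 x2 + v127 x1 x2
theorem h128 (h : In b E x1 x2) : Enc S E (t128 b) (v128 x1 x2) := enc_add (h22 h) (h127 h)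

def t132 (b : Bx) : TM := tmul S (t0 b) (t52 b)
noncomputable def v132 (x1 x2 : ℝ) : ℝ := v0 x1 x2 * v52 x1 x2
theorem h132 (h : In b E x1 x2) : Enc S E (t132 b) (v132 x1 x2) := enc_mul hS (h0 h) (h52 h)

def t133 (b : Bx) : TM := tsub (t52 b) (t48 b)
noncomputable def v133 (x1 x2 : ℝ) : ℝ := v52 x1 x2 - v48 x1 x2
theorem h133 (h : In b E x1 x2) : Enc S E (t133 b) (v133 x1 x2) := enc_sub (h52 h) (h48 h)

def t134 (b : Bx) : TM := tsub (t133 b) (t126 b)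
noncomputable def v134 (x1 x2 : ℝ) : ℝ := v133 x1 x2 - v126 x1 x2
theorem h134 (h : In b E x1 x2) : Enc S E (t134 b) (v134 x1 x2) := enc_sub (h133 h) (h126 h)

def t136 (b : Bx) : TM := tneg (t128 b)
noncomputable def v136 (x1 x2 : ℝ) : ℝ := -(v128 x1 x2)
theorem h136 (h : In b E x1 x2) : Enc S E (t136 b) (v136 x1 x2) := enc_neg (h128 h)

def t137 (b : Bx) : TM := tneg (t123 b)
noncomputable def v137 (x1 x2 : ℝ) : ℝ := -(v123 x1 x2)
theorem h137 (h : In b E x1 x2) : Enc S E (t137 b) (v137 x1 x2) := enc_neg (h123 h)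

def t138 (b : Bx) : TM := tmul S (t3 b) (t134 b)
noncomputable def v138 (x1 x2 : ℝ) : ℝ := v3 x1 x2 * v134 x1 x2
theorem h138 (h : In b E x1 x2) : Enc S E (t138 b) (v138 x1 x2) := enc_mul hS (h3 h) (h134 h)

def t139 (b : Bx) : TM := tmul S (t0 b) (t134 b)
noncomputable def v139 (x1 x2 : ℝ) : ℝ := v0 x1 x2 * v134 x1 x2
theorem h139 (h : In b E x1 x2) : Enc S E (t139 b) (v139 x1 x2) := enc_mul hS (h0 h) (h134 h)

def t140 (b : Bx) : TM := tadd (t139 b) (t136 b)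
noncomputable def v140 (x1 x2 : ℝ) : ℝ := v139 x1 x2 + v136 x1 x2
theorem h140 (h : In b E x1 x2) : Enc S E (t140 b) (v140 x1 x2) := enc_add (h139 h) (h136 h)

def t141 (b : Bx) : TM := tmul S (t11 b) (t140 b)
noncomputable def v141 (x1 x2 : ℝ) : ℝ := v11 x1 x2 * v140 x1 x2
theorem h141 (h : In b E x1 x2) : Enc S E (t141 b) (v141 x1 x2) := enc_mul hS (h11 h) (h140 h)

def t142 (b : Bx) : TM := tsub (t138 b) (t141 b)
noncomputable def v142 (x1 x2 : ℝ) : ℝ := v138 x1 x2 - v141 x1 x2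
theorem h142 (h : In b E x1 x2) : Enc S E (t142 b) (v142 x1 x2) := enc_sub (h138 h) (h141 h)

def t143 (b : Bx) : TM := tsub (t139 b) (t132 b)
noncomputable def v143 (x1 x2 : ℝ) : ℝ := v139 x1 x2 - v132 x1 x2
theorem h143 (h : In b E x1 x2) : Enc S E (t143 b) (v143 x1 x2) := enc_sub (h139 h) (h132 h)

def t144 (b : Bx) : TM := tmul S (t1 b) (t143 b)
noncomputable def v144 (x1 x2 : ℝ) : ℝ := v1 x1 x2 * v143 x1 x2
theorem h144 (h : In b E x1 x2) : Enc S E (t144 b) (v144 x1 x2) := enc_mul hS (h1 h) (h143 h)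

def t145 (b : Bx) : TM := tsub (t142 b) (t144 b)
noncomputable def v145 (x1 x2 : ℝ) : ℝ := v142 x1 x2 - v144 x1 x2
theorem h145 (h : In b E x1 x2) : Enc S E (t145 b) (v145 x1 x2) := enc_sub (h142 h) (h144 h)

def t146 (b : Bx) : TM := tmul S (t145 b) (t61 b)
noncomputable def v146 (x1 x2 : ℝ) : ℝ := v145 x1 x2 * v61 x1 x2
theorem h146 (h : In b E x1 x2) : Enc S E (t146 b) (v146 x1 x2) := enc_mul hS (h145 h) (h61 h)

def t147 (b : Bx) : TM := tnat 2 (t4 b)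
noncomputable def v147 (x1 x2 : ℝ) : ℝ := ((2 : ℕ) : ℝ) * v4 x1 x2
theorem h147 (h : In b E x1 x2) : Enc S E (t147 b) (v147 x1 x2) := enc_nat 2 (h4 h)

def t148 (b : Bx) : TM := tinv S (t147 b)
noncomputable def v148 (x1 x2 : ℝ) : ℝ := (v147 x1 x2)⁻¹
theorem h148 (h : In b E x1 x2) : Enc S E (t148 b) (v148 x1 x2) := enc_inv hS (h147 h)

def t149 (b : Bx) : TM := tmul S (t62 b) (t148 b)
noncomputable def v149 (x1 x2 : ℝ) : ℝ := v62 x1 x2 * v148 x1 x2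
theorem h149 (h : In b E x1 x2) : Enc S E (t149 b) (v149 x1 x2) := enc_mul hS (h62 h) (h148 h)

def t150 (b : Bx) : TM := tadd (t146 b) (t149 b)
noncomputable def v150 (x1 x2 : ℝ) : ℝ := v146 x1 x2 + v149 x1 x2
theorem h150 (h : In b E x1 x2) : Enc S E (t150 b) (v150 x1 x2) := enc_add (h146 h) (h149 h)

def t151 (b : Bx) : TM := tsub (t139 b) (t136 b)
noncomputable def v151 (x1 x2 : ℝ) : ℝ := v139 x1 x2 - v136 x1 x2
theorem h151 (h : In b E x1 x2) : Enc S E (t151 b) (v151 x1 x2) := enc_sub (h139 h) (h136 h)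

def t152 (b : Bx) : TM := tmul S (t11 b) (t151 b)
noncomputable def v152 (x1 x2 : ℝ) : ℝ := v11 x1 x2 * v151 x1 x2
theorem h152 (h : In b E x1 x2) : Enc S E (t152 b) (v152 x1 x2) := enc_mul hS (h11 h) (h151 h)

def t153 (b : Bx) : TM := tadd (t139 b) (t132 b)
noncomputable def v153 (x1 x2 : ℝ) : ℝ := v139 x1 x2 + v132 x1 x2
theorem h153 (h : In b E x1 x2) : Enc S E (t153 b) (v153 x1 x2) := enc_add (h139 h) (h132 h)

def t154 (b : Bx) : TM := tmul S (t1 b) (t153 b)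
noncomputable def v154 (x1 x2 : ℝ) : ℝ := v1 x1 x2 * v153 x1 x2
theorem h154 (h : In b E x1 x2) : Enc S E (t154 b) (v154 x1 x2) := enc_mul hS (h1 h) (h153 h)

def t155 (b : Bx) : TM := tadd (t152 b) (t154 b)
noncomputable def v155 (x1 x2 : ℝ) : ℝ := v152 x1 x2 + v154 x1 x2
theorem h155 (h : In b E x1 x2) : Enc S E (t155 b) (v155 x1 x2) := enc_add (h152 h) (h154 h)

def t156 (b : Bx) : TM := tsub (t155 b) (t138 b)
noncomputable def v156 (x1 x2 : ℝ) : ℝ := v155 x1 x2 - v138 x1 x2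
theorem h156 (h : In b E x1 x2) : Enc S E (t156 b) (v156 x1 x2) := enc_sub (h155 h) (h138 h)

def t157 (b : Bx) : TM := tmul S (t156 b) (t61 b)
noncomputable def v157 (x1 x2 : ℝ) : ℝ := v156 x1 x2 * v61 x1 x2
theorem h157 (h : In b E x1 x2) : Enc S E (t157 b) (v157 x1 x2) := enc_mul hS (h156 h) (h61 h)

def t158 (b : Bx) : TM := tadd (t157 b) (t149 b)
noncomputable def v158 (x1 x2 : ℝ) : ℝ := v157 x1 x2 + v149 x1 x2
theorem h158 (h : In b E x1 x2) : Enc S E (t158 b) (v158 x1 x2) := enc_add (h157 h) (h149 h)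

def t159 (b : Bx) : TM := tsub (t3 b) (t37 b)
noncomputable def v159 (x1 x2 : ℝ) : ℝ := v3 x1 x2 - v37 x1 x2
theorem h159 (h : In b E x1 x2) : Enc S E (t159 b) (v159 x1 x2) := enc_sub (h3 h) (h37 h)

def t160 (b : Bx) : TM := tmul S (t136 b) (t159 b)
noncomputable def v160 (x1 x2 : ℝ) : ℝ := v136 x1 x2 * v159 x1 x2
theorem h160 (h : In b E x1 x2) : Enc S E (t160 b) (v160 x1 x2) := enc_mul hS (h136 h) (h159 h)

def t161 (b : Bx) : TM := tmul S (t0 b) (t11 b)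
noncomputable def v161 (x1 x2 : ℝ) : ℝ := v0 x1 x2 * v11 x1 x2
theorem h161 (h : In b E x1 x2) : Enc S E (t161 b) (v161 x1 x2) := enc_mul hS (h0 h) (h11 h)

def t162 (b : Bx) : TM := tsub (t3 b) (t161 b)
noncomputable def v162 (x1 x2 : ℝ) : ℝ := v3 x1 x2 - v161 x1 x2
theorem h162 (h : In b E x1 x2) : Enc S E (t162 b) (v162 x1 x2) := enc_sub (h3 h) (h161 h)

def t163 (b : Bx) : TM := tmul S (t132 b) (t162 b)
noncomputable def v163 (x1 x2 : ℝ) : ℝ := v132 x1 x2 * v162 x1 x2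
theorem h163 (h : In b E x1 x2) : Enc S E (t163 b) (v163 x1 x2) := enc_mul hS (h132 h) (h162 h)

def t164 (b : Bx) : TM := tsub (t160 b) (t163 b)
noncomputable def v164 (x1 x2 : ℝ) : ℝ := v160 x1 x2 - v163 x1 x2
theorem h164 (h : In b E x1 x2) : Enc S E (t164 b) (v164 x1 x2) := enc_sub (h160 h) (h163 h)

def t165 (b : Bx) : TM := tsub (t162 b) (t37 b)
noncomputable def v165 (x1 x2 : ℝ) : ℝ := v162 x1 x2 - v37 x1 x2
theorem h165 (h : In b E x1 x2) : Enc S E (t165 b) (v165 x1 x2) := enc_sub (h162 h) (h37 h)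

def t166 (b : Bx) : TM := tadd (t132 b) (t136 b)
noncomputable def v166 (x1 x2 : ℝ) : ℝ := v132 x1 x2 + v136 x1 x2
theorem h166 (h : In b E x1 x2) : Enc S E (t166 b) (v166 x1 x2) := enc_add (h132 h) (h136 h)

def t167 (b : Bx) : TM := tsub (t166 b) (t139 b)
noncomputable def v167 (x1 x2 : ℝ) : ℝ := v166 x1 x2 - v139 x1 x2
theorem h167 (h : In b E x1 x2) : Enc S E (t167 b) (v167 x1 x2) := enc_sub (h166 h) (h139 h)

def t168 (b : Bx) : TM := tmul S (t165 b) (t167 b)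
noncomputable def v168 (x1 x2 : ℝ) : ℝ := v165 x1 x2 * v167 x1 x2
theorem h168 (h : In b E x1 x2) : Enc S E (t168 b) (v168 x1 x2) := enc_mul hS (h165 h) (h167 h)

def t169 (b : Bx) : TM := tmul S (t14 b) (t168 b)
noncomputable def v169 (x1 x2 : ℝ) : ℝ := v14 x1 x2 * v168 x1 x2
theorem h169 (h : In b E x1 x2) : Enc S E (t169 b) (v169 x1 x2) := enc_mul hS (h14 h) (h168 h)

def t170 (b : Bx) : TM := tadd (t164 b) (t169 b)
noncomputable def v170 (x1 x2 : ℝ) : ℝ := v164 x1 x2 + v169 x1 x2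
theorem h170 (h : In b E x1 x2) : Enc S E (t170 b) (v170 x1 x2) := enc_add (h164 h) (h169 h)

def t171 (b : Bx) : TM := tmul S (t170 b) (t61 b)
noncomputable def v171 (x1 x2 : ℝ) : ℝ := v170 x1 x2 * v61 x1 x2
theorem h171 (h : In b E x1 x2) : Enc S E (t171 b) (v171 x1 x2) := enc_mul hS (h170 h) (h61 h)

def t172 (b : Bx) : TM := tmul S (t0 b) (t149 b)
noncomputable def v172 (x1 x2 : ℝ) : ℝ := v0 x1 x2 * v149 x1 x2
theorem h172 (h : In b E x1 x2) : Enc S E (t172 b) (v172 x1 x2) := enc_mul hS (h0 h) (h149 h)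

def t173 (b : Bx) : TM := tadd (t171 b) (t172 b)
noncomputable def v173 (x1 x2 : ℝ) : ℝ := v171 x1 x2 + v172 x1 x2
theorem h173 (h : In b E x1 x2) : Enc S E (t173 b) (v173 x1 x2) := enc_add (h171 h) (h172 h)

def t174 (_b : Bx) : TM := tconst (Nat.mul 2 S) 0 0
noncomputable def v174 (_x1 _x2 : ℝ) : ℝ := ((2 : ℕ) : ℝ)
theorem h174 (_h : In b E x1 x2) : Enc S E (t174 b) (v174 x1 x2) := enc_nc E 2

def t175 (b : Bx) : TM := tadd (t174 b) (t2 b)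
noncomputable def v175 (x1 x2 : ℝ) : ℝ := v174 x1 x2 + v2 x1 x2
theorem h175 (h : In b E x1 x2) : Enc S E (t175 b) (v175 x1 x2) := enc_add (h174 h) (h2 h)

def t176 (b : Bx) : TM := tscale 1 4 (t175 b)
noncomputable def v176 (x1 x2 : ℝ) : ℝ := ((1 : ℕ) : ℝ) / ((4 : ℕ) : ℝ) * v175 x1 x2
theorem h176 (h : In b E x1 x2) : Enc S E (t176 b) (v176 x1 x2) := enc_scale 1 (by norm_num) (h175 h)

def t177 (b : Bx) : TM := tmul S (t62 b) (t176 b)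
noncomputable def v177 (x1 x2 : ℝ) : ℝ := v62 x1 x2 * v176 x1 x2
theorem h177 (h : In b E x1 x2) : Enc S E (t177 b) (v177 x1 x2) := enc_mul hS (h62 h) (h176 h)

def t178 (b : Bx) : TM := tmul S (t0 b) (t150 b)
noncomputable def v178 (x1 x2 : ℝ) : ℝ := v0 x1 x2 * v150 x1 x2
theorem h178 (h : In b E x1 x2) : Enc S E (t178 b) (v178 x1 x2) := enc_mul hS (h0 h) (h150 h)

def t179 (b : Bx) : TM := tphi S (t178 b) (t173 b)
noncomputable def v179 (x1 x2 : ℝ) : ℝ := Pool.Agent.Strip051.LC.Line.phi (v178 x1 x2) (v173 x1 x2)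
theorem h179 (h : In b E x1 x2) : Enc S E (t179 b) (v179 x1 x2) := enc_phi hS (h178 h) (h173 h)

def t180 (b : Bx) : TM := tmul S (t11 b) (t179 b)
noncomputable def v180 (x1 x2 : ℝ) : ℝ := v11 x1 x2 * v179 x1 x2
theorem h180 (h : In b E x1 x2) : Enc S E (t180 b) (v180 x1 x2) := enc_mul hS (h11 h) (h179 h)

def t181 (b : Bx) : TM := tmul S (t0 b) (t158 b)
noncomputable def v181 (x1 x2 : ℝ) : ℝ := v0 x1 x2 * v158 x1 x2
theorem h181 (h : In b E x1 x2) : Enc S E (t181 b) (v181 x1 x2) := enc_mul hS (h0 h) (h158 h)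

def t182 (b : Bx) : TM := tphi S (t173 b) (t181 b)
noncomputable def v182 (x1 x2 : ℝ) : ℝ := Pool.Agent.Strip051.LC.Line.phi (v173 x1 x2) (v181 x1 x2)
theorem h182 (h : In b E x1 x2) : Enc S E (t182 b) (v182 x1 x2) := enc_phi hS (h173 h) (h181 h)

def t183 (b : Bx) : TM := tmul S (t1 b) (t182 b)
noncomputable def v183 (x1 x2 : ℝ) : ℝ := v1 x1 x2 * v182 x1 x2
theorem h183 (h : In b E x1 x2) : Enc S E (t183 b) (v183 x1 x2) := enc_mul hS (h1 h) (h182 h)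

def t184 (b : Bx) : TM := tadd (t180 b) (t183 b)
noncomputable def v184 (x1 x2 : ℝ) : ℝ := v180 x1 x2 + v183 x1 x2
theorem h184 (h : In b E x1 x2) : Enc S E (t184 b) (v184 x1 x2) := enc_add (h180 h) (h183 h)

def t185 (b : Bx) : TM := tphi S (t158 b) (t150 b)
noncomputable def v185 (x1 x2 : ℝ) : ℝ := Pool.Agent.Strip051.LC.Line.phi (v158 x1 x2) (v150 x1 x2)
theorem h185 (h : In b E x1 x2) : Enc S E (t185 b) (v185 x1 x2) := enc_phi hS (h158 h) (h150 h)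

def t186 (b : Bx) : TM := tmul S (t165 b) (t185 b)
noncomputable def v186 (x1 x2 : ℝ) : ℝ := v165 x1 x2 * v185 x1 x2
theorem h186 (h : In b E x1 x2) : Enc S E (t186 b) (v186 x1 x2) := enc_mul hS (h165 h) (h185 h)

def t187 (b : Bx) : TM := tadd (t184 b) (t186 b)
noncomputable def v187 (x1 x2 : ℝ) : ℝ := v184 x1 x2 + v186 x1 x2
theorem h187 (h : In b E x1 x2) : Enc S E (t187 b) (v187 x1 x2) := enc_add (h184 h) (h186 h)

def t188 (b : Bx) : TM := tmul S (t4 b) (t187 b)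
noncomputable def v188 (x1 x2 : ℝ) : ℝ := v4 x1 x2 * v187 x1 x2
theorem h188 (h : In b E x1 x2) : Enc S E (t188 b) (v188 x1 x2) := enc_mul hS (h4 h) (h187 h)

def t189 (b : Bx) : TM := tsub (t177 b) (t188 b)
noncomputable def v189 (x1 x2 : ℝ) : ℝ := v177 x1 x2 - v188 x1 x2
theorem h189 (h : In b E x1 x2) : Enc S E (t189 b) (v189 x1 x2) := enc_sub (h177 h) (h188 h)

def t190 (b : Bx) : TM := tneg (t167 b)
noncomputable def v190 (x1 x2 : ℝ) : ℝ := -(v167 x1 x2)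
theorem h190 (h : In b E x1 x2) : Enc S E (t190 b) (v190 x1 x2) := enc_neg (h167 h)

def t191 (b : Bx) : TM := tmul S (t1 b) (t11 b)
noncomputable def v191 (x1 x2 : ℝ) : ℝ := v1 x1 x2 * v11 x1 x2
theorem h191 (h : In b E x1 x2) : Enc S E (t191 b) (v191 x1 x2) := enc_mul hS (h1 h) (h11 h)

def t192 (b : Bx) : TM := tnat 2 (t191 b)
noncomputable def v192 (x1 x2 : ℝ) : ℝ := ((2 : ℕ) : ℝ) * v191 x1 x2
theorem h192 (h : In b E x1 x2) : Enc S E (t192 b) (v192 x1 x2) := enc_nat 2 (h191 h)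

def t193 (b : Bx) : TM := tsq S (t11 b)
noncomputable def v193 (x1 x2 : ℝ) : ℝ := (v11 x1 x2) ^ 2
theorem h193 (h : In b E x1 x2) : Enc S E (t193 b) (v193 x1 x2) := enc_sq hS (h11 h)

def t194 (b : Bx) : TM := tadd (t192 b) (t193 b)
noncomputable def v194 (x1 x2 : ℝ) : ℝ := v192 x1 x2 + v193 x1 x2
theorem h194 (h : In b E x1 x2) : Enc S E (t194 b) (v194 x1 x2) := enc_add (h192 h) (h193 h)

def t195 (b : Bx) : TM := tmul S (t3 b) (t47 b)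
noncomputable def v195 (x1 x2 : ℝ) : ℝ := v3 x1 x2 * v47 x1 x2
theorem h195 (h : In b E x1 x2) : Enc S E (t195 b) (v195 x1 x2) := enc_mul hS (h3 h) (h47 h)

def t196 (b : Bx) : TM := tadd (t195 b) (t43 b)
noncomputable def v196 (x1 x2 : ℝ) : ℝ := v195 x1 x2 + v43 x1 x2
theorem h196 (h : In b E x1 x2) : Enc S E (t196 b) (v196 x1 x2) := enc_add (h195 h) (h43 h)

def t197 (b : Bx) : TM := tmul S (t196 b) (t45 b)
noncomputable def v197 (x1 x2 : ℝ) : ℝ := v196 x1 x2 * v45 x1 x2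
theorem h197 (h : In b E x1 x2) : Enc S E (t197 b) (v197 x1 x2) := enc_mul hS (h196 h) (h45 h)

def t198 (b : Bx) : TM := tneg (t197 b)
noncomputable def v198 (x1 x2 : ℝ) : ℝ := -(v197 x1 x2)
theorem h198 (h : In b E x1 x2) : Enc S E (t198 b) (v198 x1 x2) := enc_neg (h197 h)

def t199 (b : Bx) : TM := tmul S (t0 b) (t29 b)
noncomputable def v199 (x1 x2 : ℝ) : ℝ := v0 x1 x2 * v29 x1 x2
theorem h199 (h : In b E x1 x2) : Enc S E (t199 b) (v199 x1 x2) := enc_mul hS (h0 h) (h29 h)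

def t200 (b : Bx) : TM := tadd (t43 b) (t199 b)
noncomputable def v200 (x1 x2 : ℝ) : ℝ := v43 x1 x2 + v199 x1 x2
theorem h200 (h : In b E x1 x2) : Enc S E (t200 b) (v200 x1 x2) := enc_add (h43 h) (h199 h)

def t201 (b : Bx) : TM := tsq S (t29 b)
noncomputable def v201 (x1 x2 : ℝ) : ℝ := (v29 x1 x2) ^ 2
theorem h201 (h : In b E x1 x2) : Enc S E (t201 b) (v201 x1 x2) := enc_sq hS (h29 h)

def t202 (b : Bx) : TM := tmul S (t3 b) (t10 b)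
noncomputable def v202 (x1 x2 : ℝ) : ℝ := v3 x1 x2 * v10 x1 x2
theorem h202 (h : In b E x1 x2) : Enc S E (t202 b) (v202 x1 x2) := enc_mul hS (h3 h) (h10 h)

def t203 (b : Bx) : TM := tnat 2 (t202 b)
noncomputable def v203 (x1 x2 : ℝ) : ℝ := ((2 : ℕ) : ℝ) * v202 x1 x2
theorem h203 (h : In b E x1 x2) : Enc S E (t203 b) (v203 x1 x2) := enc_nat 2 (h202 h)

def t204 (b : Bx) : TM := tsub (t201 b) (t203 b)
noncomputable def v204 (x1 x2 : ℝ) : ℝ := v201 x1 x2 - v203 x1 x2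
theorem h204 (h : In b E x1 x2) : Enc S E (t204 b) (v204 x1 x2) := enc_sub (h201 h) (h203 h)

def t205 (b : Bx) : TM := tadd (t204 b) (t194 b)
noncomputable def v205 (x1 x2 : ℝ) : ℝ := v204 x1 x2 + v194 x1 x2
theorem h205 (h : In b E x1 x2) : Enc S E (t205 b) (v205 x1 x2) := enc_add (h204 h) (h194 h)

def t206 (b : Bx) : TM := tnat 4 (t3 b)
noncomputable def v206 (x1 x2 : ℝ) : ℝ := ((4 : ℕ) : ℝ) * v3 x1 x2
theorem h206 (h : In b E x1 x2) : Enc S E (t206 b) (v206 x1 x2) := enc_nat 4 (h3 h)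

def t207 (b : Bx) : TM := tinv S (t206 b)
noncomputable def v207 (x1 x2 : ℝ) : ℝ := (v206 x1 x2)⁻¹
theorem h207 (h : In b E x1 x2) : Enc S E (t207 b) (v207 x1 x2) := enc_inv hS (h206 h)

def t208 (b : Bx) : TM := tmul S (t47 b) (t207 b)
noncomputable def v208 (x1 x2 : ℝ) : ℝ := v47 x1 x2 * v207 x1 x2
theorem h208 (h : In b E x1 x2) : Enc S E (t208 b) (v208 x1 x2) := enc_mul hS (h47 h) (h207 h)

def t209 (b : Bx) : TM := tneg (t208 b)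
noncomputable def v209 (x1 x2 : ℝ) : ℝ := -(v208 x1 x2)
theorem h209 (h : In b E x1 x2) : Enc S E (t209 b) (v209 x1 x2) := enc_neg (h208 h)

def t210 (b : Bx) : TM := tmul S (t1 b) (t198 b)
noncomputable def v210 (x1 x2 : ℝ) : ℝ := v1 x1 x2 * v198 x1 x2
theorem h210 (h : In b E x1 x2) : Enc S E (t210 b) (v210 x1 x2) := enc_mul hS (h1 h) (h198 h)

def t211 (b : Bx) : TM := tmul S (t29 b) (t210 b)
noncomputable def v211 (x1 x2 : ℝ) : ℝ := v29 x1 x2 * v210 x1 x2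
theorem h211 (h : In b E x1 x2) : Enc S E (t211 b) (v211 x1 x2) := enc_mul hS (h29 h) (h210 h)

def t212 (b : Bx) : TM := tscale 1 2 (t47 b)
noncomputable def v212 (x1 x2 : ℝ) : ℝ := ((1 : ℕ) : ℝ) / ((2 : ℕ) : ℝ) * v47 x1 x2
theorem h212 (h : In b E x1 x2) : Enc S E (t212 b) (v212 x1 x2) := enc_scale 1 (by norm_num) (h47 h)

def t213 (b : Bx) : TM := tmul S (t212 b) (t205 b)
noncomputable def v213 (x1 x2 : ℝ) : ℝ := v212 x1 x2 * v205 x1 x2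
theorem h213 (h : In b E x1 x2) : Enc S E (t213 b) (v213 x1 x2) := enc_mul hS (h212 h) (h205 h)

def t214 (b : Bx) : TM := tadd (t211 b) (t213 b)
noncomputable def v214 (x1 x2 : ℝ) : ℝ := v211 x1 x2 + v213 x1 x2
theorem h214 (h : In b E x1 x2) : Enc S E (t214 b) (v214 x1 x2) := enc_add (h211 h) (h213 h)

def t215 (b : Bx) : TM := tmul S (t43 b) (t10 b)
noncomputable def v215 (x1 x2 : ℝ) : ℝ := v43 x1 x2 * v10 x1 x2
theorem h215 (h : In b E x1 x2) : Enc S E (t215 b) (v215 x1 x2) := enc_mul hS (h43 h) (h10 h)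

def t216 (b : Bx) : TM := tsub (t214 b) (t215 b)
noncomputable def v216 (x1 x2 : ℝ) : ℝ := v214 x1 x2 - v215 x1 x2
theorem h216 (h : In b E x1 x2) : Enc S E (t216 b) (v216 x1 x2) := enc_sub (h214 h) (h215 h)

def t217 (b : Bx) : TM := tmul S (t29 b) (t1 b)
noncomputable def v217 (x1 x2 : ℝ) : ℝ := v29 x1 x2 * v1 x1 x2
theorem h217 (h : In b E x1 x2) : Enc S E (t217 b) (v217 x1 x2) := enc_mul hS (h29 h) (h1 h)

def t218 (b : Bx) : TM := tadd (t216 b) (t217 b)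
noncomputable def v218 (x1 x2 : ℝ) : ℝ := v216 x1 x2 + v217 x1 x2
theorem h218 (h : In b E x1 x2) : Enc S E (t218 b) (v218 x1 x2) := enc_add (h216 h) (h217 h)

def t219 (b : Bx) : TM := tnat 2 (t3 b)
noncomputable def v219 (x1 x2 : ℝ) : ℝ := ((2 : ℕ) : ℝ) * v3 x1 x2
theorem h219 (h : In b E x1 x2) : Enc S E (t219 b) (v219 x1 x2) := enc_nat 2 (h3 h)

def t220 (b : Bx) : TM := tinv S (t219 b)
noncomputable def v220 (x1 x2 : ℝ) : ℝ := (v219 x1 x2)⁻¹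
theorem h220 (h : In b E x1 x2) : Enc S E (t220 b) (v220 x1 x2) := enc_inv hS (h219 h)

def t221 (b : Bx) : TM := tmul S (t218 b) (t220 b)
noncomputable def v221 (x1 x2 : ℝ) : ℝ := v218 x1 x2 * v220 x1 x2
theorem h221 (h : In b E x1 x2) : Enc S E (t221 b) (v221 x1 x2) := enc_mul hS (h218 h) (h220 h)

def t222 (b : Bx) : TM := tadd (t200 b) (t79 b)
noncomputable def v222 (x1 x2 : ℝ) : ℝ := v200 x1 x2 + v79 x1 x2
theorem h222 (h : In b E x1 x2) : Enc S E (t222 b) (v222 x1 x2) := enc_add (h200 h) (h79 h)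

def t223 (b : Bx) : TM := tinv S (t222 b)
noncomputable def v223 (x1 x2 : ℝ) : ℝ := (v222 x1 x2)⁻¹
theorem h223 (h : In b E x1 x2) : Enc S E (t223 b) (v223 x1 x2) := enc_inv hS (h222 h)

def t224 (b : Bx) : TM := tmul S (t106 b) (t223 b)
noncomputable def v224 (x1 x2 : ℝ) : ℝ := v106 x1 x2 * v223 x1 x2
theorem h224 (h : In b E x1 x2) : Enc S E (t224 b) (v224 x1 x2) := enc_mul hS (h106 h) (h223 h)

def t225 (b : Bx) : TM := tadd (t208 b) (t224 b)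
noncomputable def v225 (x1 x2 : ℝ) : ℝ := v208 x1 x2 + v224 x1 x2
theorem h225 (h : In b E x1 x2) : Enc S E (t225 b) (v225 x1 x2) := enc_add (h208 h) (h224 h)

def t226 (b : Bx) : TM := tmul S (t11 b) (t32 b)
noncomputable def v226 (x1 x2 : ℝ) : ℝ := v11 x1 x2 * v32 x1 x2
theorem h226 (h : In b E x1 x2) : Enc S E (t226 b) (v226 x1 x2) := enc_mul hS (h11 h) (h32 h)

def t227 (b : Bx) : TM := tmul S (t210 b) (t220 b)
noncomputable def v227 (x1 x2 : ℝ) : ℝ := v210 x1 x2 * v220 x1 x2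
theorem h227 (h : In b E x1 x2) : Enc S E (t227 b) (v227 x1 x2) := enc_mul hS (h210 h) (h220 h)

def t228 (b : Bx) : TM := tsub (t227 b) (t226 b)
noncomputable def v228 (x1 x2 : ℝ) : ℝ := v227 x1 x2 - v226 x1 x2
theorem h228 (h : In b E x1 x2) : Enc S E (t228 b) (v228 x1 x2) := enc_sub (h227 h) (h226 h)

def t229 (b : Bx) : TM := tmul S (t29 b) (t228 b)
noncomputable def v229 (x1 x2 : ℝ) : ℝ := v29 x1 x2 * v228 x1 x2
theorem h229 (h : In b E x1 x2) : Enc S E (t229 b) (v229 x1 x2) := enc_mul hS (h29 h) (h228 h)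

def t230 (b : Bx) : TM := tneg (t229 b)
noncomputable def v230 (x1 x2 : ℝ) : ℝ := -(v229 x1 x2)
theorem h230 (h : In b E x1 x2) : Enc S E (t230 b) (v230 x1 x2) := enc_neg (h229 h)

def t231 (b : Bx) : TM := tmul S (t208 b) (t205 b)
noncomputable def v231 (x1 x2 : ℝ) : ℝ := v208 x1 x2 * v205 x1 x2
theorem h231 (h : In b E x1 x2) : Enc S E (t231 b) (v231 x1 x2) := enc_mul hS (h208 h) (h205 h)

def t232 (b : Bx) : TM := tsub (t230 b) (t231 b)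
noncomputable def v232 (x1 x2 : ℝ) : ℝ := v230 x1 x2 - v231 x1 x2
theorem h232 (h : In b E x1 x2) : Enc S E (t232 b) (v232 x1 x2) := enc_sub (h230 h) (h231 h)

def t233 (b : Bx) : TM := tsq S (t12 b)
noncomputable def v233 (x1 x2 : ℝ) : ℝ := (v12 x1 x2) ^ 2
theorem h233 (h : In b E x1 x2) : Enc S E (t233 b) (v233 x1 x2) := enc_sq hS (h12 h)

def t234 (b : Bx) : TM := tmul S (t2 b) (t111 b)
noncomputable def v234 (x1 x2 : ℝ) : ℝ := v2 x1 x2 * v111 x1 x2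
theorem h234 (h : In b E x1 x2) : Enc S E (t234 b) (v234 x1 x2) := enc_mul hS (h2 h) (h111 h)

def t235 (b : Bx) : TM := tsub (t234 b) (t4 b)
noncomputable def v235 (x1 x2 : ℝ) : ℝ := v234 x1 x2 - v4 x1 x2
theorem h235 (h : In b E x1 x2) : Enc S E (t235 b) (v235 x1 x2) := enc_sub (h234 h) (h4 h)

def t236 (b : Bx) : TM := tmul S (t235 b) (t109 b)
noncomputable def v236 (x1 x2 : ℝ) : ℝ := v235 x1 x2 * v109 x1 x2
theorem h236 (h : In b E x1 x2) : Enc S E (t236 b) (v236 x1 x2) := enc_mul hS (h235 h) (h109 h)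

def t237 (b : Bx) : TM := tnat 3 (t236 b)
noncomputable def v237 (x1 x2 : ℝ) : ℝ := ((3 : ℕ) : ℝ) * v236 x1 x2
theorem h237 (h : In b E x1 x2) : Enc S E (t237 b) (v237 x1 x2) := enc_nat 3 (h236 h)

def t238 (b : Bx) : TM := tadd (t237 b) (t174 b)
noncomputable def v238 (x1 x2 : ℝ) : ℝ := v237 x1 x2 + v174 x1 x2
theorem h238 (h : In b E x1 x2) : Enc S E (t238 b) (v238 x1 x2) := enc_add (h237 h) (h174 h)

def t239 (b : Bx) : TM := tnat 2 (t234 b)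
noncomputable def v239 (x1 x2 : ℝ) : ℝ := ((2 : ℕ) : ℝ) * v234 x1 x2
theorem h239 (h : In b E x1 x2) : Enc S E (t239 b) (v239 x1 x2) := enc_nat 2 (h234 h)

def t240 (b : Bx) : TM := tadd (t238 b) (t239 b)
noncomputable def v240 (x1 x2 : ℝ) : ℝ := v238 x1 x2 + v239 x1 x2
theorem h240 (h : In b E x1 x2) : Enc S E (t240 b) (v240 x1 x2) := enc_add (h238 h) (h239 h)

def t241 (b : Bx) : TM := tmul S (t240 b) (t101 b)
noncomputable def v241 (x1 x2 : ℝ) : ℝ := v240 x1 x2 * v101 x1 x2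
theorem h241 (h : In b E x1 x2) : Enc S E (t241 b) (v241 x1 x2) := enc_mul hS (h240 h) (h101 h)

def t242 (b : Bx) : TM := tmul S (t233 b) (t241 b)
noncomputable def v242 (x1 x2 : ℝ) : ℝ := v233 x1 x2 * v241 x1 x2
theorem h242 (h : In b E x1 x2) : Enc S E (t242 b) (v242 x1 x2) := enc_mul hS (h233 h) (h241 h)

def t243 (b : Bx) : TM := tadd (t232 b) (t242 b)
noncomputable def v243 (x1 x2 : ℝ) : ℝ := v232 x1 x2 + v242 x1 x2
theorem h243 (h : In b E x1 x2) : Enc S E (t243 b) (v243 x1 x2) := enc_add (h232 h) (h242 h)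

def t244 (b : Bx) : TM := tmul S (t10 b) (t43 b)
noncomputable def v244 (x1 x2 : ℝ) : ℝ := v10 x1 x2 * v43 x1 x2
theorem h244 (h : In b E x1 x2) : Enc S E (t244 b) (v244 x1 x2) := enc_mul hS (h10 h) (h43 h)

def t245 (b : Bx) : TM := tmul S (t1 b) (t36 b)
noncomputable def v245 (x1 x2 : ℝ) : ℝ := v1 x1 x2 * v36 x1 x2
theorem h245 (h : In b E x1 x2) : Enc S E (t245 b) (v245 x1 x2) := enc_mul hS (h1 h) (h36 h)

def t246 (b : Bx) : TM := tsub (t244 b) (t245 b)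
noncomputable def v246 (x1 x2 : ℝ) : ℝ := v244 x1 x2 - v245 x1 x2
theorem h246 (h : In b E x1 x2) : Enc S E (t246 b) (v246 x1 x2) := enc_sub (h244 h) (h245 h)

def t247 (b : Bx) : TM := tmul S (t0 b) (t241 b)
noncomputable def v247 (x1 x2 : ℝ) : ℝ := v0 x1 x2 * v241 x1 x2
theorem h247 (h : In b E x1 x2) : Enc S E (t247 b) (v247 x1 x2) := enc_mul hS (h0 h) (h241 h)

def t248 (b : Bx) : TM := tmul S (t233 b) (t247 b)
noncomputable def v248 (x1 x2 : ℝ) : ℝ := v233 x1 x2 * v247 x1 x2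
theorem h248 (h : In b E x1 x2) : Enc S E (t248 b) (v248 x1 x2) := enc_mul hS (h233 h) (h247 h)

def t249 (b : Bx) : TM := tsub (t248 b) (t48 b)
noncomputable def v249 (x1 x2 : ℝ) : ℝ := v248 x1 x2 - v48 x1 x2
theorem h249 (h : In b E x1 x2) : Enc S E (t249 b) (v249 x1 x2) := enc_sub (h248 h) (h48 h)

def t250 (b : Bx) : TM := tmul S (t106 b) (t72 b)
noncomputable def v250 (x1 x2 : ℝ) : ℝ := v106 x1 x2 * v72 x1 x2
theorem h250 (h : In b E x1 x2) : Enc S E (t250 b) (v250 x1 x2) := enc_mul hS (h106 h) (h72 h)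

def t251 (b : Bx) : TM := tmul S (t250 b) (t223 b)
noncomputable def v251 (x1 x2 : ℝ) : ℝ := v250 x1 x2 * v223 x1 x2
theorem h251 (h : In b E x1 x2) : Enc S E (t251 b) (v251 x1 x2) := enc_mul hS (h250 h) (h223 h)

def t252 (b : Bx) : TM := tadd (t249 b) (t251 b)
noncomputable def v252 (x1 x2 : ℝ) : ℝ := v249 x1 x2 + v251 x1 x2
theorem h252 (h : In b E x1 x2) : Enc S E (t252 b) (v252 x1 x2) := enc_add (h249 h) (h251 h)

def t253 (b : Bx) : TM := tmul S (t0 b) (t252 b)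
noncomputable def v253 (x1 x2 : ℝ) : ℝ := v0 x1 x2 * v252 x1 x2
theorem h253 (h : In b E x1 x2) : Enc S E (t253 b) (v253 x1 x2) := enc_mul hS (h0 h) (h252 h)

def t254 (b : Bx) : TM := tadd (t43 b) (t253 b)
noncomputable def v254 (x1 x2 : ℝ) : ℝ := v43 x1 x2 + v253 x1 x2
theorem h254 (h : In b E x1 x2) : Enc S E (t254 b) (v254 x1 x2) := enc_add (h43 h) (h253 h)

def t255 (b : Bx) : TM := tadd (t11 b) (t1 b)
noncomputable def v255 (x1 x2 : ℝ) : ℝ := v11 x1 x2 + v1 x1 x2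
theorem h255 (h : In b E x1 x2) : Enc S E (t255 b) (v255 x1 x2) := enc_add (h11 h) (h1 h)

def t256 (b : Bx) : TM := tmul S (t209 b) (t72 b)
noncomputable def v256 (x1 x2 : ℝ) : ℝ := v209 x1 x2 * v72 x1 x2
theorem h256 (h : In b E x1 x2) : Enc S E (t256 b) (v256 x1 x2) := enc_mul hS (h209 h) (h72 h)

def t257 (b : Bx) : TM := tmul S (t0 b) (t221 b)
noncomputable def v257 (x1 x2 : ℝ) : ℝ := v0 x1 x2 * v221 x1 x2
theorem h257 (h : In b E x1 x2) : Enc S E (t257 b) (v257 x1 x2) := enc_mul hS (h0 h) (h221 h)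

def t258 (b : Bx) : TM := tadd (t256 b) (t257 b)
noncomputable def v258 (x1 x2 : ℝ) : ℝ := v256 x1 x2 + v257 x1 x2
theorem h258 (h : In b E x1 x2) : Enc S E (t258 b) (v258 x1 x2) := enc_add (h256 h) (h257 h)

def t259 (b : Bx) : TM := tmul S (t43 b) (t1 b)
noncomputable def v259 (x1 x2 : ℝ) : ℝ := v43 x1 x2 * v1 x1 x2
theorem h259 (h : In b E x1 x2) : Enc S E (t259 b) (v259 x1 x2) := enc_mul hS (h43 h) (h1 h)

def t260 (b : Bx) : TM := tmul S (t36 b) (t162 b)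
noncomputable def v260 (x1 x2 : ℝ) : ℝ := v36 x1 x2 * v162 x1 x2
theorem h260 (h : In b E x1 x2) : Enc S E (t260 b) (v260 x1 x2) := enc_mul hS (h36 h) (h162 h)

def t261 (b : Bx) : TM := tadd (t259 b) (t260 b)
noncomputable def v261 (x1 x2 : ℝ) : ℝ := v259 x1 x2 + v260 x1 x2
theorem h261 (h : In b E x1 x2) : Enc S E (t261 b) (v261 x1 x2) := enc_add (h259 h) (h260 h)

def t262 (b : Bx) : TM := tmul S (t3 b) (t252 b)
noncomputable def v262 (x1 x2 : ℝ) : ℝ := v3 x1 x2 * v252 x1 x2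
theorem h262 (h : In b E x1 x2) : Enc S E (t262 b) (v262 x1 x2) := enc_mul hS (h3 h) (h252 h)

def t263 (b : Bx) : TM := tadd (t261 b) (t262 b)
noncomputable def v263 (x1 x2 : ℝ) : ℝ := v261 x1 x2 + v262 x1 x2
theorem h263 (h : In b E x1 x2) : Enc S E (t263 b) (v263 x1 x2) := enc_add (h261 h) (h262 h)

def t264 (b : Bx) : TM := tmul S (t255 b) (t254 b)
noncomputable def v264 (x1 x2 : ℝ) : ℝ := v255 x1 x2 * v254 x1 x2
theorem h264 (h : In b E x1 x2) : Enc S E (t264 b) (v264 x1 x2) := enc_mul hS (h255 h) (h254 h)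

def t265 (b : Bx) : TM := tsub (t263 b) (t264 b)
noncomputable def v265 (x1 x2 : ℝ) : ℝ := v263 x1 x2 - v264 x1 x2
theorem h265 (h : In b E x1 x2) : Enc S E (t265 b) (v265 x1 x2) := enc_sub (h263 h) (h264 h)

def t266 (b : Bx) : TM := tinv S (t12 b)
noncomputable def v266 (x1 x2 : ℝ) : ℝ := (v12 x1 x2)⁻¹
theorem h266 (h : In b E x1 x2) : Enc S E (t266 b) (v266 x1 x2) := enc_inv hS (h12 h)

def t267 (b : Bx) : TM := tmul S (t10 b) (t266 b)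
noncomputable def v267 (x1 x2 : ℝ) : ℝ := v10 x1 x2 * v266 x1 x2
theorem h267 (h : In b E x1 x2) : Enc S E (t267 b) (v267 x1 x2) := enc_mul hS (h10 h) (h266 h)

def t268 (b : Bx) : TM := tnat 2 (t267 b)
noncomputable def v268 (x1 x2 : ℝ) : ℝ := ((2 : ℕ) : ℝ) * v267 x1 x2
theorem h268 (h : In b E x1 x2) : Enc S E (t268 b) (v268 x1 x2) := enc_nat 2 (h267 h)

def t269 (b : Bx) : TM := tmul S (t0 b) (t255 b)
noncomputable def v269 (x1 x2 : ℝ) : ℝ := v0 x1 x2 * v255 x1 x2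
theorem h269 (h : In b E x1 x2) : Enc S E (t269 b) (v269 x1 x2) := enc_mul hS (h0 h) (h255 h)

def t270 (b : Bx) : TM := tsub (t3 b) (t269 b)
noncomputable def v270 (x1 x2 : ℝ) : ℝ := v3 x1 x2 - v269 x1 x2
theorem h270 (h : In b E x1 x2) : Enc S E (t270 b) (v270 x1 x2) := enc_sub (h3 h) (h269 h)

def t271 (b : Bx) : TM := tmul S (t270 b) (t254 b)
noncomputable def v271 (x1 x2 : ℝ) : ℝ := v270 x1 x2 * v254 x1 x2
theorem h271 (h : In b E x1 x2) : Enc S E (t271 b) (v271 x1 x2) := enc_mul hS (h270 h) (h254 h)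

def t272 (b : Bx) : TM := tmul S (t268 b) (t271 b)
noncomputable def v272 (x1 x2 : ℝ) : ℝ := v268 x1 x2 * v271 x1 x2
theorem h272 (h : In b E x1 x2) : Enc S E (t272 b) (v272 x1 x2) := enc_mul hS (h268 h) (h271 h)

def t273 (b : Bx) : TM := tsub (t265 b) (t272 b)
noncomputable def v273 (x1 x2 : ℝ) : ℝ := v265 x1 x2 - v272 x1 x2
theorem h273 (h : In b E x1 x2) : Enc S E (t273 b) (v273 x1 x2) := enc_sub (h265 h) (h272 h)

def t274 (b : Bx) : TM := tmul S (t3 b) (t258 b)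
noncomputable def v274 (x1 x2 : ℝ) : ℝ := v3 x1 x2 * v258 x1 x2
theorem h274 (h : In b E x1 x2) : Enc S E (t274 b) (v274 x1 x2) := enc_mul hS (h3 h) (h258 h)

def t275 (b : Bx) : TM := tinv S (t4 b)
noncomputable def v275 (x1 x2 : ℝ) : ℝ := (v4 x1 x2)⁻¹
theorem h275 (h : In b E x1 x2) : Enc S E (t275 b) (v275 x1 x2) := enc_inv hS (h4 h)

def t276 (b : Bx) : TM := tmul S (t274 b) (t275 b)
noncomputable def v276 (x1 x2 : ℝ) : ℝ := v274 x1 x2 * v275 x1 x2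
theorem h276 (h : In b E x1 x2) : Enc S E (t276 b) (v276 x1 x2) := enc_mul hS (h274 h) (h275 h)

def t277 (b : Bx) : TM := tadd (t273 b) (t276 b)
noncomputable def v277 (x1 x2 : ℝ) : ℝ := v273 x1 x2 + v276 x1 x2
theorem h277 (h : In b E x1 x2) : Enc S E (t277 b) (v277 x1 x2) := enc_add (h273 h) (h276 h)

def t278 (_b : Bx) : TM := tconst (Nat.mul 0 S) 0 0
noncomputable def v278 (_x1 _x2 : ℝ) : ℝ := ((0 : ℕ) : ℝ)
theorem h278 (_h : In b E x1 x2) : Enc S E (t278 b) (v278 x1 x2) := enc_nc E 0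

def t279 (b : Bx) : TM := tmul S (t278 b) (t220 b)
noncomputable def v279 (x1 x2 : ℝ) : ℝ := v278 x1 x2 * v220 x1 x2
theorem h279 (h : In b E x1 x2) : Enc S E (t279 b) (v279 x1 x2) := enc_mul hS (h278 h) (h220 h)

def t280 (b : Bx) : TM := tmul S (t209 b) (t148 b)
noncomputable def v280 (x1 x2 : ℝ) : ℝ := v209 x1 x2 * v148 x1 x2
theorem h280 (h : In b E x1 x2) : Enc S E (t280 b) (v280 x1 x2) := enc_mul hS (h209 h) (h148 h)

def t281 (b : Bx) : TM := tadd (t279 b) (t280 b)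
noncomputable def v281 (x1 x2 : ℝ) : ℝ := v279 x1 x2 + v280 x1 x2
theorem h281 (h : In b E x1 x2) : Enc S E (t281 b) (v281 x1 x2) := enc_add (h279 h) (h280 h)

def t282 (b : Bx) : TM := tmul S (t270 b) (t225 b)
noncomputable def v282 (x1 x2 : ℝ) : ℝ := v270 x1 x2 * v225 x1 x2
theorem h282 (h : In b E x1 x2) : Enc S E (t282 b) (v282 x1 x2) := enc_mul hS (h270 h) (h225 h)

def t283 (b : Bx) : TM := tmul S (t282 b) (t220 b)
noncomputable def v283 (x1 x2 : ℝ) : ℝ := v282 x1 x2 * v220 x1 x2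
theorem h283 (h : In b E x1 x2) : Enc S E (t283 b) (v283 x1 x2) := enc_mul hS (h282 h) (h220 h)

def t284 (b : Bx) : TM := tadd (t281 b) (t283 b)
noncomputable def v284 (x1 x2 : ℝ) : ℝ := v281 x1 x2 + v283 x1 x2
theorem h284 (h : In b E x1 x2) : Enc S E (t284 b) (v284 x1 x2) := enc_add (h281 h) (h283 h)

def t285 (b : Bx) : TM := tsub (t281 b) (t283 b)
noncomputable def v285 (x1 x2 : ℝ) : ℝ := v281 x1 x2 - v283 x1 x2
theorem h285 (h : In b E x1 x2) : Enc S E (t285 b) (v285 x1 x2) := enc_sub (h281 h) (h283 h)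

def t286 (b : Bx) : TM := tmul S (t209 b) (t176 b)
noncomputable def v286 (x1 x2 : ℝ) : ℝ := v209 x1 x2 * v176 x1 x2
theorem h286 (h : In b E x1 x2) : Enc S E (t286 b) (v286 x1 x2) := enc_mul hS (h209 h) (h176 h)

def t287 (b : Bx) : TM := tphi S (t285 b) (t284 b)
noncomputable def v287 (x1 x2 : ℝ) : ℝ := Pool.Agent.Strip051.LC.Line.phi (v285 x1 x2) (v284 x1 x2)
theorem h287 (h : In b E x1 x2) : Enc S E (t287 b) (v287 x1 x2) := enc_phi hS (h285 h) (h284 h)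

def t288 (b : Bx) : TM := tmul S (t270 b) (t287 b)
noncomputable def v288 (x1 x2 : ℝ) : ℝ := v270 x1 x2 * v287 x1 x2
theorem h288 (h : In b E x1 x2) : Enc S E (t288 b) (v288 x1 x2) := enc_mul hS (h270 h) (h287 h)

def t289 (b : Bx) : TM := tpos (t284 b)
noncomputable def v289 (x1 x2 : ℝ) : ℝ := max (v284 x1 x2) 0
theorem h289 (h : In b E x1 x2) : Enc S E (t289 b) (v289 x1 x2) := enc_pos hS (h284 h)

def t290 (b : Bx) : TM := tmul S (t11 b) (t289 b)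
noncomputable def v290 (x1 x2 : ℝ) : ℝ := v11 x1 x2 * v289 x1 x2
theorem h290 (h : In b E x1 x2) : Enc S E (t290 b) (v290 x1 x2) := enc_mul hS (h11 h) (h289 h)

def t291 (b : Bx) : TM := tpos (t285 b)
noncomputable def v291 (x1 x2 : ℝ) : ℝ := max (v285 x1 x2) 0
theorem h291 (h : In b E x1 x2) : Enc S E (t291 b) (v291 x1 x2) := enc_pos hS (h285 h)

def t292 (b : Bx) : TM := tmul S (t1 b) (t291 b)
noncomputable def v292 (x1 x2 : ℝ) : ℝ := v1 x1 x2 * v291 x1 x2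
theorem h292 (h : In b E x1 x2) : Enc S E (t292 b) (v292 x1 x2) := enc_mul hS (h1 h) (h291 h)

def t293 (b : Bx) : TM := tadd (t290 b) (t292 b)
noncomputable def v293 (x1 x2 : ℝ) : ℝ := v290 x1 x2 + v292 x1 x2
theorem h293 (h : In b E x1 x2) : Enc S E (t293 b) (v293 x1 x2) := enc_add (h290 h) (h292 h)

def t294 (b : Bx) : TM := tscale 1 2 (t293 b)
noncomputable def v294 (x1 x2 : ℝ) : ℝ := ((1 : ℕ) : ℝ) / ((2 : ℕ) : ℝ) * v293 x1 x2
theorem h294 (h : In b E x1 x2) : Enc S E (t294 b) (v294 x1 x2) := enc_scale 1 (by norm_num) (h293 h)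

def t295 (b : Bx) : TM := tmul S (t0 b) (t294 b)
noncomputable def v295 (x1 x2 : ℝ) : ℝ := v0 x1 x2 * v294 x1 x2
theorem h295 (h : In b E x1 x2) : Enc S E (t295 b) (v295 x1 x2) := enc_mul hS (h0 h) (h294 h)

def t296 (b : Bx) : TM := tadd (t288 b) (t295 b)
noncomputable def v296 (x1 x2 : ℝ) : ℝ := v288 x1 x2 + v295 x1 x2
theorem h296 (h : In b E x1 x2) : Enc S E (t296 b) (v296 x1 x2) := enc_add (h288 h) (h295 h)

def t297 (b : Bx) : TM := tmul S (t4 b) (t296 b)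
noncomputable def v297 (x1 x2 : ℝ) : ℝ := v4 x1 x2 * v296 x1 x2
theorem h297 (h : In b E x1 x2) : Enc S E (t297 b) (v297 x1 x2) := enc_mul hS (h4 h) (h296 h)

def t298 (b : Bx) : TM := tsub (t286 b) (t297 b)
noncomputable def v298 (x1 x2 : ℝ) : ℝ := v286 x1 x2 - v297 x1 x2
theorem h298 (h : In b E x1 x2) : Enc S E (t298 b) (v298 x1 x2) := enc_sub (h286 h) (h297 h)

def t299 (b : Bx) : TM := tmul S (t246 b) (t220 b)
noncomputable def v299 (x1 x2 : ℝ) : ℝ := v246 x1 x2 * v220 x1 x2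
theorem h299 (h : In b E x1 x2) : Enc S E (t299 b) (v299 x1 x2) := enc_mul hS (h246 h) (h220 h)

def t300 (b : Bx) : TM := tmul S (t221 b) (t148 b)
noncomputable def v300 (x1 x2 : ℝ) : ℝ := v221 x1 x2 * v148 x1 x2
theorem h300 (h : In b E x1 x2) : Enc S E (t300 b) (v300 x1 x2) := enc_mul hS (h221 h) (h148 h)

def t301 (b : Bx) : TM := tadd (t299 b) (t300 b)
noncomputable def v301 (x1 x2 : ℝ) : ℝ := v299 x1 x2 + v300 x1 x2
theorem h301 (h : In b E x1 x2) : Enc S E (t301 b) (v301 x1 x2) := enc_add (h299 h) (h300 h)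

def t302 (b : Bx) : TM := tmul S (t270 b) (t243 b)
noncomputable def v302 (x1 x2 : ℝ) : ℝ := v270 x1 x2 * v243 x1 x2
theorem h302 (h : In b E x1 x2) : Enc S E (t302 b) (v302 x1 x2) := enc_mul hS (h270 h) (h243 h)

def t303 (b : Bx) : TM := tmul S (t302 b) (t220 b)
noncomputable def v303 (x1 x2 : ℝ) : ℝ := v302 x1 x2 * v220 x1 x2
theorem h303 (h : In b E x1 x2) : Enc S E (t303 b) (v303 x1 x2) := enc_mul hS (h302 h) (h220 h)

def t304 (b : Bx) : TM := tadd (t301 b) (t303 b)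
noncomputable def v304 (x1 x2 : ℝ) : ℝ := v301 x1 x2 + v303 x1 x2
theorem h304 (h : In b E x1 x2) : Enc S E (t304 b) (v304 x1 x2) := enc_add (h301 h) (h303 h)

def t305 (b : Bx) : TM := tsub (t301 b) (t303 b)
noncomputable def v305 (x1 x2 : ℝ) : ℝ := v301 x1 x2 - v303 x1 x2
theorem h305 (h : In b E x1 x2) : Enc S E (t305 b) (v305 x1 x2) := enc_sub (h301 h) (h303 h)

def t306 (b : Bx) : TM := tmul S (t221 b) (t176 b)
noncomputable def v306 (x1 x2 : ℝ) : ℝ := v221 x1 x2 * v176 x1 x2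
theorem h306 (h : In b E x1 x2) : Enc S E (t306 b) (v306 x1 x2) := enc_mul hS (h221 h) (h176 h)

def t307 (b : Bx) : TM := tphi S (t305 b) (t304 b)
noncomputable def v307 (x1 x2 : ℝ) : ℝ := Pool.Agent.Strip051.LC.Line.phi (v305 x1 x2) (v304 x1 x2)
theorem h307 (h : In b E x1 x2) : Enc S E (t307 b) (v307 x1 x2) := enc_phi hS (h305 h) (h304 h)

def t308 (b : Bx) : TM := tmul S (t270 b) (t307 b)
noncomputable def v308 (x1 x2 : ℝ) : ℝ := v270 x1 x2 * v307 x1 x2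
theorem h308 (h : In b E x1 x2) : Enc S E (t308 b) (v308 x1 x2) := enc_mul hS (h270 h) (h307 h)

def t309 (b : Bx) : TM := tpos (t304 b)
noncomputable def v309 (x1 x2 : ℝ) : ℝ := max (v304 x1 x2) 0
theorem h309 (h : In b E x1 x2) : Enc S E (t309 b) (v309 x1 x2) := enc_pos hS (h304 h)

def t310 (b : Bx) : TM := tmul S (t11 b) (t309 b)
noncomputable def v310 (x1 x2 : ℝ) : ℝ := v11 x1 x2 * v309 x1 x2
theorem h310 (h : In b E x1 x2) : Enc S E (t310 b) (v310 x1 x2) := enc_mul hS (h11 h) (h309 h)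

def t311 (b : Bx) : TM := tpos (t305 b)
noncomputable def v311 (x1 x2 : ℝ) : ℝ := max (v305 x1 x2) 0
theorem h311 (h : In b E x1 x2) : Enc S E (t311 b) (v311 x1 x2) := enc_pos hS (h305 h)

def t312 (b : Bx) : TM := tmul S (t1 b) (t311 b)
noncomputable def v312 (x1 x2 : ℝ) : ℝ := v1 x1 x2 * v311 x1 x2
theorem h312 (h : In b E x1 x2) : Enc S E (t312 b) (v312 x1 x2) := enc_mul hS (h1 h) (h311 h)

def t313 (b : Bx) : TM := tadd (t310 b) (t312 b)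
noncomputable def v313 (x1 x2 : ℝ) : ℝ := v310 x1 x2 + v312 x1 x2
theorem h313 (h : In b E x1 x2) : Enc S E (t313 b) (v313 x1 x2) := enc_add (h310 h) (h312 h)

def t314 (b : Bx) : TM := tscale 1 2 (t313 b)
noncomputable def v314 (x1 x2 : ℝ) : ℝ := ((1 : ℕ) : ℝ) / ((2 : ℕ) : ℝ) * v313 x1 x2
theorem h314 (h : In b E x1 x2) : Enc S E (t314 b) (v314 x1 x2) := enc_scale 1 (by norm_num) (h313 h)

def t315 (b : Bx) : TM := tmul S (t0 b) (t314 b)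
noncomputable def v315 (x1 x2 : ℝ) : ℝ := v0 x1 x2 * v314 x1 x2
theorem h315 (h : In b E x1 x2) : Enc S E (t315 b) (v315 x1 x2) := enc_mul hS (h0 h) (h314 h)

def t316 (b : Bx) : TM := tadd (t308 b) (t315 b)
noncomputable def v316 (x1 x2 : ℝ) : ℝ := v308 x1 x2 + v315 x1 x2
theorem h316 (h : In b E x1 x2) : Enc S E (t316 b) (v316 x1 x2) := enc_add (h308 h) (h315 h)

def t317 (b : Bx) : TM := tmul S (t4 b) (t316 b)
noncomputable def v317 (x1 x2 : ℝ) : ℝ := v4 x1 x2 * v316 x1 x2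
theorem h317 (h : In b E x1 x2) : Enc S E (t317 b) (v317 x1 x2) := enc_mul hS (h4 h) (h316 h)

def t318 (b : Bx) : TM := tsub (t306 b) (t317 b)
noncomputable def v318 (x1 x2 : ℝ) : ℝ := v306 x1 x2 - v317 x1 x2
theorem h318 (h : In b E x1 x2) : Enc S E (t318 b) (v318 x1 x2) := enc_sub (h306 h) (h317 h)

def t319 (b : Bx) : TM := tneg (t277 b)
noncomputable def v319 (x1 x2 : ℝ) : ℝ := -(v277 x1 x2)
theorem h319 (h : In b E x1 x2) : Enc S E (t319 b) (v319 x1 x2) := enc_neg (h277 h)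

def t320 (b : Bx) : TM := tsub (t86 b) (t64 b)
noncomputable def v320 (x1 x2 : ℝ) : ℝ := v86 x1 x2 - v64 x1 x2
theorem h320 (h : In b E x1 x2) : Enc S E (t320 b) (v320 x1 x2) := enc_sub (h86 h) (h64 h)

def t321 (b : Bx) : TM := tsub (t6 b) (t77 b)
noncomputable def v321 (x1 x2 : ℝ) : ℝ := v6 x1 x2 - v77 x1 x2
theorem h321 (h : In b E x1 x2) : Enc S E (t321 b) (v321 x1 x2) := enc_sub (h6 h) (h77 h)

def t322 (b : Bx) : TM := tsqrt S (t321 b)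
noncomputable def v322 (x1 x2 : ℝ) : ℝ := Real.sqrt (v321 x1 x2)
theorem h322 (h : In b E x1 x2) : Enc S E (t322 b) (v322 x1 x2) := enc_sqrt hS (h321 h)

def t323 (b : Bx) : TM := tadd (t84 b) (t322 b)
noncomputable def v323 (x1 x2 : ℝ) : ℝ := v84 x1 x2 + v322 x1 x2
theorem h323 (h : In b E x1 x2) : Enc S E (t323 b) (v323 x1 x2) := enc_add (h84 h) (h322 h)

def t324 (b : Bx) : TM := tscale 1 2 (t323 b)
noncomputable def v324 (x1 x2 : ℝ) : ℝ := ((1 : ℕ) : ℝ) / ((2 : ℕ) : ℝ) * v323 x1 x2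
theorem h324 (h : In b E x1 x2) : Enc S E (t324 b) (v324 x1 x2) := enc_scale 1 (by norm_num) (h323 h)

def t325 (b : Bx) : TM := tsub (t64 b) (t324 b)
noncomputable def v325 (x1 x2 : ℝ) : ℝ := v64 x1 x2 - v324 x1 x2
theorem h325 (h : In b E x1 x2) : Enc S E (t325 b) (v325 x1 x2) := enc_sub (h64 h) (h324 h)

def t326 (b : Bx) : TM := tsub (t324 b) (t64 b)
noncomputable def v326 (x1 x2 : ℝ) : ℝ := v324 x1 x2 - v64 x1 x2
theorem h326 (h : In b E x1 x2) : Enc S E (t326 b) (v326 x1 x2) := enc_sub (h324 h) (h64 h)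

def t327 (b : Bx) : TM := tsub (t64 b) (t322 b)
noncomputable def v327 (x1 x2 : ℝ) : ℝ := v64 x1 x2 - v322 x1 x2
theorem h327 (h : In b E x1 x2) : Enc S E (t327 b) (v327 x1 x2) := enc_sub (h64 h) (h322 h)

def g0 (b : Bx) : Bool := or (pos (t75 b)) (or (pos (t76 b)) (pos (t64 b)))

def Q0 (x1 x2 : ℝ) : Prop := 0 < v75 x1 x2 ∨ 0 < v76 x1 x2 ∨ 0 < v64 x1 x2

theorem g0_sound (h : In b E x1 x2) (e : g0 b = true) : Q0 x1 x2 :=
  ((Bool.or_eq_true_iff.mp e).imp (fun a => pos_sound hS (h75 h) a) (fun a => ((Bool.or_eq_true_iff.mp a).imp (fun a => pos_sound hS (h76 h) a) (fun a => pos_sound hS (h64 h) a))))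

def g1 (b : Bx) : Bool := or (pos (t75 b)) (or (pos (t76 b)) (or (pos (t137 b)) (or (and (pos (t189 b)) (pos (t190 b))) (and (pos (t298 b)) (and (pos (t318 b)) (pos (t319 b)))))))

def Q1 (x1 x2 : ℝ) : Prop := 0 < v75 x1 x2 ∨ 0 < v76 x1 x2 ∨ 0 < v137 x1 x2 ∨ (0 < v189 x1 x2 ∧ 0 < v190 x1 x2) ∨ (0 < v298 x1 x2 ∧ 0 < v318 x1 x2 ∧ 0 < v319 x1 x2)

theorem g1_sound (h : In b E x1 x2) (e : g1 b = true) : Q1 x1 x2 :=
  ((Bool.or_eq_true_iff.mp e).imp (fun a => pos_sound hS (h75 h) a) (fun a => ((Bool.or_eq_true_iff.mp a).imp (fun a => pos_sound hS (h76 h) a) (fun a => ((Bool.or_eq_true_iff.mp a).imp (fun a => pos_sound hS (h137 h) a) (fun a => ((Bool.or_eq_true_iff.mp a).imp (fun a => ⟨pos_sound hS (h189 h) (Bool.and_eq_true_iff.mp a).1, pos_sound hS (h190 h) (Bool.and_eq_true_iff.mp a).2⟩) (fun a => ⟨pos_sound hS (h298 h) (Bool.and_eq_true_iff.mp a).1, ⟨pos_sound hS (h318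 h) (Bool.and_eq_true_iff.mp (Bool.and_eq_true_iff.mp a).2).1, pos_sound hS (h319 h) (Bool.and_eq_true_iff.mp (Bool.and_eq_true_iff.mp a).2).2⟩⟩))))))))

def g2 (b : Bx) : Bool := or (pos (t75 b)) (or (pos (t76 b)) (or (pos (t320 b)) (pos (t325 b))))

def Q2 (x1 x2 : ℝ) : Prop := 0 < v75 x1 x2 ∨ 0 < v76 x1 x2 ∨ 0 < v320 x1 x2 ∨ 0 < v325 x1 x2

theorem g2_sound (h : In b E x1 x2) (e : g2 b = true) : Q2 x1 x2 :=
  ((Bool.or_eq_true_iff.mp e).imp (fun a => pos_sound hS (h75 h) a) (fun a => ((Bool.or_eq_true_iff.mp a).imp (fun a => pos_sound hS (h76 h) a) (fun a => ((Bool.or_eq_true_iff.mp a).imp (fun a => pos_sound hS (h320 h) a) (fun a => pos_sound hS (h325 h) a))))))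

def g3 (b : Bx) : Bool := or (pos (t75 b)) (or (pos (t76 b)) (or (pos (t326 b)) (pos (t327 b))))

def Q3 (x1 x2 : ℝ) : Prop := 0 < v75 x1 x2 ∨ 0 < v76 x1 x2 ∨ 0 < v326 x1 x2 ∨ 0 < v327 x1 x2

theorem g3_sound (h : In b E x1 x2) (e : g3 b = true) : Q3 x1 x2 :=
  ((Bool.or_eq_true_iff.mp e).imp (fun a => pos_sound hS (h75 h) a) (fun a => ((Bool.or_eq_true_iff.mp a).imp (fun a => pos_sound hS (h76 h) a) (fun a => ((Bool.or_eq_true_iff.mp a).imp (fun a => pos_sound hS (h326 h) a) (fun a => pos_sound hS (h327 h) a))))))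

def f (b : Bx) : Nat := cond (g0 b) (cond (g1 b) (cond (g2 b) (cond (g3 b) (0) (pickb 1 (t326 b) b)) (pickb 1 (t320 b) b)) (pickb 1 (t189 b) b)) (pickb 1 (t64 b) b)

/-- the statement -/
def Q (x1 x2 : ℝ) : Prop := Q0 x1 x2 ∧ Q1 x1 x2 ∧ Q2 x1 x2 ∧ Q3 x1 x2

theorem f_sound (b : Bx) (hb : f b = 0) (x1 x2 : ℝ) (hm : Mem S b x1 x2) : Q x1 x2 := by
  obtain ⟨E, h⟩ := pt_of_mem hm
  have h : In b E x1 x2 := h
  unfold f at hb
  have e0 : g0 b = true := by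
    rcases e : g0 b with _ | _
    · rw [e, cond_false] at hb; exact absurd hb (pickb_ne _ _ _)
    · rfl
  rw [e0, cond_true] at hb
  have e1 : g1 b = true := by
    rcases e : g1 b with _ | _
    · rw [e, cond_false] at hb; exact absurd hb (pickb_ne _ _ _)
    · rfl
  rw [e1, cond_true] at hb
  have e2 : g2 b = true := by
    rcases e : g2 b with _ | _
    · rw [e, cond_false] at hb; exact absurd hb (pickb_ne _ _ _)
    · rfl
  rw [e2, cond_true] at hb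
  have e3 : g3 b = true := by
    rcases e : g3 b with _ | _
    · rw [e, cond_false] at hb; exact absurd hb (pickb_ne _ _ _)
    · rfl
  rw [e3, cond_true] at hb
  exact ⟨g0_sound h e0, g1_sound h e1, g2_sound h e2, g3_sound h e3⟩

/-- the box -/
def b0 : Bx := ⟨311438816, 0, 311438818, 536870912, 0, 536870913⟩

theorem chk_all {n : ℕ} {b : Bx} (h : chk f n b = true) (x1 x2 : ℝ) (hm : Mem S b x1 x2) : Q x1 x2 :=
  chk_sound (fun b hb x1 x2 hm => f_sound b hb x1 x2 hm) n b h x1 x2 hm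

theorem c0 : chk f 60 b0 = true := by decide +kernel

theorem mem0 {x1 x2 : ℝ} (h0 : 0 ≤ x1) (h1 : x1 ≤ 5801 / 10000) (h2 : 0 ≤ x2) (h3 : x2 ≤ 1) :
    Mem S b0 x1 x2 := by
  refine ⟨?_, ?_⟩ <;> rw [abs_le] <;> constructor <;> norm_num [S, b0] <;> linarith

end Pool.Agent.Strip051.LC.Line.Corn.VB02pmz213

namespace Pool.Agent.Strip051.LC.Line.Corn.VB02pmz213

theorem box {x y : ℝ} (h0 : 0 ≤ x) (h1 : x ≤ 5801 / 10000) (h2 : 0 ≤ y) (h3 : y ≤ 1) :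
    (0 < ((-(x * (-(y + (x * (gqz x)))))) - (((1 : ℕ) : ℝ) / ((10 : ℕ) : ℝ))) ∨ 0 < (-(((-((-(((1 : ℕ) : ℝ) * (x2z x))) - (y * (x1_2 (x * y))))) + (((2 : ℕ) : ℝ) * (gh * (-(y + (x * (gqz x))))))) + (x * (((-((-(((1 : ℕ) : ℝ) * (x2z x))) - (y * (x1_2 (x * y))))) ^ 2) + ((-(y + (x * (gqz x)))) ^ 2))))) ∨ 0 < ((((1 : ℕ) : ℝ) / ((2 : ℕ) : ℝ)) + (x * (-((-(((1 : ℕ) : ℝ) * (x2z x))) - (y * (x1_2 (x * y)))))))) ∧
    (0 < ((-(x * (-(y + (x * (gqz x)))))) - (((1 : ℕ) : ℝ) / ((10 : ℕ) : ℝ))) ∨ 0 < (-(((-((-(((1 : ℕ) : ℝ) * (x2z x))) - (y * (x1_2 (x * y))))) + (((2 : ℕ) : ℝ) * (gh * (-(y + (x * (gqz x))))))) + (x * (((-((-(((1 : ℕ) : ℝ) * (x2z x))) - (y * (x1_2 (x * y))))) ^ 2) + ((-(y + (x * (gqz x)))) ^ 2))))) ∨ 0 < (-((-((-(((1 : ℕ) : ℝ) * (x2z x))) - (y * (x1_2 (x * y))))) - ((-(y + (x * (gqz x)))) * (x1_1 (x * (-(y + (x * (gqz x))))))))) ∨ (0 < (scaleQ ((1 : ℕ) : ℝ) x (x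 * (gqz x)) y (x * (-(((1 : ℕ) : ℝ) * ((x2z x) * (b2z x))))) (-((((1 : ℕ) : ℝ) / ((2 : ℕ) : ℝ)) + (x * (y * (x1_2 (x * y)))))) (((-(((1 : ℕ) : ℝ) * ((x2z x) * (b2z x)))) - (y * (x1_2 (x * y)))) - (-(((-(y + (x * (gqz x)))) * (r1_1 (x * (-(y + (x * (gqz x))))))) + ((g0_1 (x * (-(y + (x * (gqz x)))))) * ((-((-(((1 : ℕ) : ℝ) * (x2z x))) - (y * (x1_2 (x * y))))) - ((-(y + (x * (gqz x)))) * (x1_1 (x * (-(y + (x * (gqz x)))))))))))) (((((y * (x1_2 (x * y))) * (kc3 x)) + (((1 : ℕ) : ℝ) / ((2 : ℕ) : ℝ) * (-(x * (gqz x))))) - ((-(((1 : ℕ) : ℝ) * (x2z x))) * (gh + (x * y)))) * ((Real.sqrt ((3 : ℕ) : ℝ))⁻¹)) (-((1 : ℕ) : ℝ))) ∧ 0 < (-(((x * (-(((1 : ℕ) : ℝ) * ((x2z x) * (b2z x))))) + (-((((1 : ℕ) : ℝ) / ((2 : ℕ) : ℝ)) + (x * (y * (x1_2 (x * y))))))) - (x * (((-(((1 : ℕ) : ℝ) * ((x2z x) * (b2z x)))) - (y * (x1_2 (x * y)))) - (-(((-(y + (x * (gqz x)))) * (r1_1 (x * (-(y + (x * (gqz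 x))))))) + ((g0_1 (x * (-(y + (x * (gqz x)))))) * ((-((-(((1 : ℕ) : ℝ) * (x2z x))) - (y * (x1_2 (x * y))))) - ((-(y + (x * (gqz x)))) * (x1_1 (x * (-(y + (x * (gqz x)))))))))))))))) ∨ (0 < (degQ ((1 : ℕ) : ℝ) x (x * (gqz x)) y (((x1_2 (x * y)) * ((((4 : ℕ) : ℝ) * gh)⁻¹)) + ((g0_1 (x * (-(y + (x * (gqz x)))))) * ((((kc1 (gh + (x * y))) + (x * (x2z x))) + (kc1 (gh + (x * (-(y + (x * (gqz x))))))))⁻¹))) ((0 : ℕ) : ℝ) (-((x1_2 (x * y)) * ((((4 : ℕ) : ℝ) * gh)⁻¹)))) ∧ 0 < (degQ ((1 : ℕ) : ℝ) x (x * (gqz x)) y (((-((x2z x) * (((y * (K1q (x * y))) * ((((2 : ℕ) : ℝ) * gh)⁻¹)) - ((x * (gqz x)) * m2z)))) - (((x1_2 (x * y)) * ((((4 : ℕ) : ℝ) * gh)⁻¹)) * ((((x2z x) ^ 2) - (((2 : ℕ) : ℝ) * (gh * (gqz x)))) + ((((2 : ℕ) : ℝ) * (y * (x * (gqz x)))) + ((x * (gqz x)) ^ 2))))) + (((y + (x * (gqz x))) ^ 2) * (r1q (x * (-(y + (x * (gqz x)))))))) (((gqz x) * (kc1 (gh + (x * y)))) - (y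 * ((x2z x) * (b2z x)))) ((((((x2z x) * (y * (K1q (x * y)))) + ((((1 : ℕ) : ℝ) / ((2 : ℕ) : ℝ) * (x1_2 (x * y))) * ((((x2z x) ^ 2) - (((2 : ℕ) : ℝ) * (gh * (gqz x)))) + ((((2 : ℕ) : ℝ) * (y * (x * (gqz x)))) + ((x * (gqz x)) ^ 2))))) - ((kc1 (gh + (x * y))) * (gqz x))) + ((x2z x) * y)) * ((((2 : ℕ) : ℝ) * gh)⁻¹))) ∧ 0 < (-(((((((kc1 (gh + (x * y))) * y) + (((x2z x) * (b2z x)) * (gh - (x * (x * (gqz x)))))) + (gh * (((((y + (x * (gqz x))) ^ 2) * (x * (r1q (x * (-(y + (x * (gqz x)))))))) - (y * (x1_2 (x * y)))) + (((g0_1 (x * (-(y + (x * (gqz x)))))) * (((-((-(((1 : ℕ) : ℝ) * (x2z x))) - (y * (x1_2 (x * y))))) + (((2 : ℕ) : ℝ) * (gh * (-(y + (x * (gqz x))))))) + (x * (((-((-(((1 : ℕ) : ℝ) * (x2z x))) - (y * (x1_2 (x * y))))) ^ 2) + ((-(y + (x * (gqz x)))) ^ 2))))) * ((((kc1 (gh + (x * y))) + (x * (x2z x))) + (kc1 (gh + (x * (-(y + (x * (gqz x))))))))⁻¹))))) - (((x * (gqz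 x)) + y) * ((kc1 (gh + (x * y))) + (x * (((((y + (x * (gqz x))) ^ 2) * (x * (r1q (x * (-(y + (x * (gqz x)))))))) - (y * (x1_2 (x * y)))) + (((g0_1 (x * (-(y + (x * (gqz x)))))) * (((-((-(((1 : ℕ) : ℝ) * (x2z x))) - (y * (x1_2 (x * y))))) + (((2 : ℕ) : ℝ) * (gh * (-(y + (x * (gqz x))))))) + (x * (((-((-(((1 : ℕ) : ℝ) * (x2z x))) - (y * (x1_2 (x * y))))) ^ 2) + ((-(y + (x * (gqz x)))) ^ 2))))) * ((((kc1 (gh + (x * y))) + (x * (x2z x))) + (kc1 (gh + (x * (-(y + (x * (gqz x))))))))⁻¹))))))) - ((((2 : ℕ) : ℝ) * ((gqz x) * ((y + (x * (gqz x)))⁻¹))) * ((gh - (x * ((x * (gqz x)) + y))) * ((kc1 (gh + (x * y))) + (x * (((((y + (x * (gqz x))) ^ 2) * (x * (r1q (x * (-(y + (x * (gqz x)))))))) - (y * (x1_2 (x * y)))) + (((g0_1 (x * (-(y + (x * (gqz x)))))) * (((-((-(((1 : ℕ) : ℝ) * (x2z x))) - (y * (x1_2 (x * y))))) + (((2 : ℕ) : ℝ) * (gh * (-(y + (x * (gqz x))))))) + (x * (((-((-(((1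 : ℕ) : ℝ) * (x2z x))) - (y * (x1_2 (x * y))))) ^ 2) + ((-(y + (x * (gqz x)))) ^ 2))))) * ((((kc1 (gh + (x * y))) + (x * (x2z x))) + (kc1 (gh + (x * (-(y + (x * (gqz x))))))))⁻¹)))))))) + ((gh * (((-((x1_2 (x * y)) * ((((4 : ℕ) : ℝ) * gh)⁻¹))) * (((-((-(((1 : ℕ) : ℝ) * (x2z x))) - (y * (x1_2 (x * y))))) + (((2 : ℕ) : ℝ) * (gh * (-(y + (x * (gqz x))))))) + (x * (((-((-(((1 : ℕ) : ℝ) * (x2z x))) - (y * (x1_2 (x * y))))) ^ 2) + ((-(y + (x * (gqz x)))) ^ 2))))) + (x * ((((((x2z x) * (y * (K1q (x * y)))) + ((((1 : ℕ) : ℝ) / ((2 : ℕ) : ℝ) * (x1_2 (x * y))) * ((((x2z x) ^ 2) - (((2 : ℕ) : ℝ) * (gh * (gqz x)))) + ((((2 : ℕ) : ℝ) * (y * (x * (gqz x)))) + ((x * (gqz x)) ^ 2))))) - ((kc1 (gh + (x * y))) * (gqz x))) + ((x2z x) * y)) * ((((2 : ℕ) : ℝ) * gh)⁻¹))))) * (((1 : ℕ) : ℝ)⁻¹)))))) ∧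
    (0 < ((-(x * (-(y + (x * (gqz x)))))) - (((1 : ℕ) : ℝ) / ((10 : ℕ) : ℝ))) ∨ 0 < (-(((-((-(((1 : ℕ) : ℝ) * (x2z x))) - (y * (x1_2 (x * y))))) + (((2 : ℕ) : ℝ) * (gh * (-(y + (x * (gqz x))))))) + (x * (((-((-(((1 : ℕ) : ℝ) * (x2z x))) - (y * (x1_2 (x * y))))) ^ 2) + ((-(y + (x * (gqz x)))) ^ 2))))) ∨ 0 < ((kf1m (gh + (x * (-(y + (x * (gqz x))))))) - ((((1 : ℕ) : ℝ) / ((2 : ℕ) : ℝ)) + (x * (-((-(((1 : ℕ) : ℝ) * (x2z x))) - (y * (x1_2 (x * y)))))))) ∨ 0 < (((((1 : ℕ) : ℝ) / ((2 : ℕ) : ℝ)) + (x * (-((-(((1 : ℕ) : ℝ) * (x2z x))) - (y * (x1_2 (x * y))))))) - (kf2m (gh + (x * (-(y + (x * (gqz x))))))))) ∧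
    (0 < ((-(x * (-(y + (x * (gqz x)))))) - (((1 : ℕ) : ℝ) / ((10 : ℕ) : ℝ))) ∨ 0 < (-(((-((-(((1 : ℕ) : ℝ) * (x2z x))) - (y * (x1_2 (x * y))))) + (((2 : ℕ) : ℝ) * (gh * (-(y + (x * (gqz x))))))) + (x * (((-((-(((1 : ℕ) : ℝ) * (x2z x))) - (y * (x1_2 (x * y))))) ^ 2) + ((-(y + (x * (gqz x)))) ^ 2))))) ∨ 0 < ((kf2m (gh + (x * (-(y + (x * (gqz x))))))) - ((((1 : ℕ) : ℝ) / ((2 : ℕ) : ℝ)) + (x * (-((-(((1 : ℕ) : ℝ) * (x2z x))) - (y * (x1_2 (x * y)))))))) ∨ 0 < (((((1 : ℕ) : ℝ) / ((2 : ℕ) : ℝ)) + (x * (-((-(((1 : ℕ) : ℝ) * (x2z x))) - (y * (x1_2 (x * y))))))) - (kc3 (gh + (x * (-(y + (x * (gqz x))))))))) :=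
  chk_all c0 x y (mem0 h0 h1 h2 h3)

end Pool.Agent.Strip051.LC.Line.Corn.VB02pmz213

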