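import Pool.Agent.Strip051.LC.Line.Corn.VA01pm123
import Pool.Agent.Strip051.LC.Line.Corn.VA01pm123z

/-! # The vertical corner, a unit side and a middle side (generated) -/

namespace Pool.Agent.Strip051.LC.Line.Corn

open Pool.Agent.StripNear Pool.Agent.StripSquare Pool.Agent.Strip051.Sweep
  Pool.Agent.Strip051.LC

/-- **The chart near the circle of radius `√3`.** -/
theorem main_A01pm123z {v : ℝ → Fin 5 → ℝ} (hv : CTV v) {x y t t' : ℝ} (hx : 0 < x) (hx1 : x ≤ 1 / 10)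
    (hy : 0 ≤ y) (hy1 : y ≤ 6) (ht : t = h0 - x) (hT : t + t' = kc3 (x * y)) (k3 : h0 ≤ t')
    (k4 : t' ≤ h0 + 1 / 10) (k5 : 2 * h0 - 1 / 10 ≤ t + t')
    (hlo : f2 (t + t') ≤ 1 * (1 * cv 0 t + (-1) * cv 1 t')) (hhi : 1 * (1 * cv 0 t + (-1) * cv 1 t') ≤ c3 (t + t')) :
    NFV 1 (1 * cv 0 t) (1 * cv 0 t + (-1) * cv 1 t') t t' (valA 0 1 1 (-1) 1 2 t t' v) := by
  have hp := h0_gt
  have hl := h0_lt
  have b0 := VA01pm123z.box hx.le hx1 hy hy1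
  have hZ : 0 ≤ x * y := mul_nonneg hx.le hy
  have hZ1 : x * y ≤ 6 / 10 := by nlinarith
  have hT0 : 2 * h0 - 1 / 10 ≤ kc3 (x * y) := by rw [← hT]; exact k5
  have hg := kz_gap hZ hZ1
  obtain ⟨gq0, gq1⟩ := kz_g hZ hZ1
  have hwz := kz_W0 hZ hZ1
  have hk : kc3 (x * y) = 2 * h0 - x * (x * ((y ^ 2) * (gqz (x * y)))) := by
    linear_combination hg
  have e1 : t' = h0 + (x * (((1 : ℕ) : ℝ) - (x * ((y ^ 2) * (gqz (x * y)))))) := by
    have h := hT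
    rw [hk] at h
    push_cast at h ⊢
    linear_combination h - ht
  have z0 : -x = t - h0 := by linarith
  have z1 : (x * (((1 : ℕ) : ℝ) - (x * ((y ^ 2) * (gqz (x * y)))))) = t' - h0 := by linarith [e1]
  have e0 : t = h0 + (-x) := by linarith
  have g0 : cv 0 t = 1 / 2 + x * (-(x1_1 (-x))) := by
    change c1 t = _
    rw [e0, germ_x1_1 (s := -x) (by rw [z0]; linarith) (by rw [z0]; linarith)]
    ring
  have g1 : cv 1 t' = 1 / 2 - x * (-((((1 : ℕ) : ℝ) - (x * ((y ^ 2) * (gqz (x * y))))) * (y1_2 (x * (((1 : ℕ) : ℝ) - (x * ((y ^ 2) * (gqz (x * y))))))))) := by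
    change f1 t' = _
    rw [e1, germ_y1_2 (s := (x * (((1 : ℕ) : ℝ) - (x * ((y ^ 2) * (gqz (x * y))))))) (by rw [z1]; linarith) (by rw [z1]; linarith)]
    ring
  have r0 : v t (tg 0) = ((((1 : ℕ) : ℝ) / ((2 : ℕ) : ℝ)) + (x * (-(r1_1 (-x))))) := by
    change v t 0 = _
    rw [e0, germ_r1_1 (s := -x) (by rw [z0]; linarith) (by rw [z0]; linarith) hv.toCT]
    push_cast
    ring
  have r1 : v t' (tg 1) = -(-((((1 : ℕ) : ℝ) / ((2 : ℕ) : ℝ)) - (x * (-((((1 : ℕ) : ℝ) - (x * ((y ^ 2) * (gqz (x * y))))) * (q1_2 (x * (((1 : ℕ) : ℝ) - (x * ((y ^ 2) * (gqz (x * y)))))))))))) := by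
    change v t' 1 = _
    rw [e1, germ_q1_2 (s := (x * (((1 : ℕ) : ℝ) - (x * ((y ^ 2) * (gqz (x * y))))))) (by rw [z1]; linarith) (by rw [z1]; linarith) hv.toCT]
    push_cast
    ring
  have hX : 1 * cv 0 t + (-1) * cv 1 t' = x * ((-(x1_1 (-x))) + (-((((1 : ℕ) : ℝ) - (x * ((y ^ 2) * (gqz (x * y))))) * (y1_2 (x * (((1 : ℕ) : ℝ) - (x * ((y ^ 2) * (gqz (x * y)))))))))) := by
    rw [g0, g1]
    ring
  have ha : 0 ≤ (((1 : ℕ) : ℝ) - (x * ((y ^ 2) * (gqz (x * y))))) := by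
    have h7 : 0 ≤ x * (((1 : ℕ) : ℝ) - (x * ((y ^ 2) * (gqz (x * y))))) := by linarith [z1]
    exact (mul_nonneg_iff_of_pos_left hx).1 h7
  have hb : 0 ≤ (x * ((y ^ 2) * (gqz (x * y)))) := by positivity
  have ha1 : (((1 : ℕ) : ℝ) - (x * ((y ^ 2) * (gqz (x * y))))) ≤ 1 := by
    push_cast
    push_cast at hb
    linarith
  have he : exc (1 * cv 0 t) (1 * cv 0 t + (-1) * cv 1 t') t t' = x * (((((-(x1_1 (-x))) * (kc3 (x * y))) - (((1 : ℕ) : ℝ) / ((2 : ℕ) : ℝ) * (x * ((y ^ 2) * (gqz (x * y)))))) - (((-(x1_1 (-x))) + (-((((1 : ℕ) : ℝ) - (x * ((y ^ 2) * (gqz (x * y))))) * (y1_2 (x * (((1 : ℕ) : ℝ) - (x * ((y ^ 2) * (gqz (x * y)))))))))) * (gh + (-x)))) * ((Real.sqrt ((3 : ℕ) : ℝ))⁻¹)) := by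
    apply exc_of
    rw [hX, g0, hT, e0, gh_eq]
    push_cast at hk ⊢
    linear_combination (1 / 2) * hk
  have f2e := kz_f2 hZ hZ1
  have v3e := kz_v3 hZ hZ1 hv hT0
  have G2e := kz_G2 hZ hZ1 hv hT0
  rw [hX, hT] at hlo hhi
  have hs := seg_low (v := v) (i := 2) (G := G2z (x * y)) G2e hlo hhi
  have hf2 : x * y * x2z (x * y) = x * (((1 : ℕ) : ℝ) / ((2 : ℕ) : ℝ) * (y + ((x * ((y ^ 2) * (gqz (x * y)))) * (wqz (x * y))))) := by
    unfold x2z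
    push_cast
    ring
  rw [f2e, hf2] at hlo
  rw [kz_c3 hZ hZ1] at hhi
  rcases b0 with hb' | hb' | hb' | hb'
  · exfalso
    push_cast at ha hb'
    linarith
  · exfalso
    have h7 := mul_pos hx hb'
    push_cast at h7 hhi
    linarith
  · exfalso
    have h7 := mul_pos hx hb'
    push_cast at h7 hlo
    linarith
  · refine cell_123 one_pos hx hx1 ha ha1 he (d := (((((b2z (x * y)) * (((1 : ℕ) : ℝ) / ((2 : ℕ) : ℝ) * (y + ((x * ((y ^ 2) * (gqz (x * y)))) * (wqz (x * y)))))) + ((G2z (x * y)) * (((-(x1_1 (-x))) + (-((((1 : ℕ) : ℝ) - (x * ((y ^ 2) * (gqz (x * y))))) * (y1_2 (x * (((1 : ℕ) : ℝ) - (x * ((y ^ 2) * (gqz (x * y)))))))))) - (((1 : ℕ) : ℝ) / ((2 : ℕ) : ℝ) * (y + ((x * ((y ^ 2) * (gqz (x * y)))) * (wqz (x * y)))))))) - (-(r1_1 (-x)))) - (-((((1 : ℕ) : ℝ) - (x * ((y ^ 2) * (gqz (x * y))))) * (q1_2 (x * (((1 : ℕ) : ℝ) - (x * ((y ^ 2) * (gqz (x * y)))))))))))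 ?_ ht (by rw [e1]) (A1 := -(-((((1 : ℕ) : ℝ) / ((2 : ℕ) : ℝ)) - (x * (-((((1 : ℕ) : ℝ) - (x * ((y ^ 2) * (gqz (x * y))))) * (q1_2 (x * (((1 : ℕ) : ℝ) - (x * ((y ^ 2) * (gqz (x * y))))))))))))) (A2 := x * (((b2z (x * y)) * (((1 : ℕ) : ℝ) / ((2 : ℕ) : ℝ) * (y + ((x * ((y ^ 2) * (gqz (x * y)))) * (wqz (x * y)))))) + ((G2z (x * y)) * (((-(x1_1 (-x))) + (-((((1 : ℕ) : ℝ) - (x * ((y ^ 2) * (gqz (x * y))))) * (y1_2 (x * (((1 : ℕ) : ℝ) - (x * ((y ^ 2) * (gqz (x * y)))))))))) - (((1 : ℕ) : ℝ) / ((2 : ℕ) : ℝ) * (y + ((x * ((y ^ 2) * (gqz (x * y)))) * (wqz (x * y))))))))) ?_ ?_ ?_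
    · change 1 * segW v 2 (1 * (1 * cv 0 t + (-1) * cv 1 t')) (t + t') - 1 * v t (tg 0) - (-1) * v t' (tg 1) = _
      rw [hX, hT, hs, r0, r1]
      change 1 * (v (kc3 (x * y)) 3 + _ * (_ - f2 (kc3 (x * y)))) - _ - _ = _
      rw [v3e, f2e, ← mul_assoc (x * y), hf2]
      push_cast
      ring
    · change -(-((((1 : ℕ) : ℝ) / ((2 : ℕ) : ℝ)) - (x * (-((((1 : ℕ) : ℝ) - (x * ((y ^ 2) * (gqz (x * y))))) * (q1_2 (x * (((1 : ℕ) : ℝ) - (x * ((y ^ 2) * (gqz (x * y)))))))))))) = -((-1) * v t' (tg 1))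
      rw [r1]
      ring
    · change x * (((b2z (x * y)) * (((1 : ℕ) : ℝ) / ((2 : ℕ) : ℝ) * (y + ((x * ((y ^ 2) * (gqz (x * y)))) * (wqz (x * y)))))) + ((G2z (x * y)) * (((-(x1_1 (-x))) + (-((((1 : ℕ) : ℝ) - (x * ((y ^ 2) * (gqz (x * y))))) * (y1_2 (x * (((1 : ℕ) : ℝ) - (x * ((y ^ 2) * (gqz (x * y)))))))))) - (((1 : ℕ) : ℝ) / ((2 : ℕ) : ℝ) * (y + ((x * ((y ^ 2) * (gqz (x * y)))) * (wqz (x * y)))))))) = 1 * segW v 2 (1 * (1 * cv 0 t + (-1) * cv 1 t')) (t + t')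
      rw [hX, hT, hs]
      change _ = 1 * (v (kc3 (x * y)) 3 + _ * (_ - f2 (kc3 (x * y))))
      rw [v3e, f2e, ← mul_assoc (x * y), hf2]
      push_cast
      ring
    · have h8 := hb'.le
      have hab : (1 : ℝ) - (((1 : ℕ) : ℝ) - (x * ((y ^ 2) * (gqz (x * y))))) = (x * ((y ^ 2) * (gqz (x * y)))) := by
        push_cast
        ring
      rw [hab]
      push_cast at h8 ⊢
      exact h8

/-- **The chart.** -/
theorem main_A01pm123 {v : ℝ → Fin 5 → ℝ} (hv : CTV v) {x y t t' : ℝ} (hx : 0 < x) (hx1 : x ≤ 1 / 10)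
    (hy : 0 ≤ y) (hy1 : y ≤ 1) (ht : t = h0 - x) (ht' : t' = h0 + x * y)
    (k1 : t < h0) (k3 : h0 ≤ t') (k4 : t' ≤ h0 + 1 / 10) (k5 : 2 * h0 - 1 / 10 ≤ t + t') {i : Fin 3} {ε : ℝ} (hε : ε = 1 ∨ ε = -1)
    (H : HypA 0 1 1 (-1) ε i t t') :
    NFV 1 (1 * cv 0 t) (1 * cv 0 t + (-1) * cv 1 t') t t' (valA 0 1 1 (-1) ε i t t' v) := by
  have hp := h0_gt
  have hl := h0_lt
  obtain ⟨b0, b1, b2⟩ := VA01pm123.box hx.le hx1 hy hy1
  obtain ⟨-, -, -, -, -, h1, h3, hlo, hhi⟩ := H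
  have ea : 0 ≤ x * y := mul_nonneg hx.le hy
  have eb : 0 ≤ x * (1 - y) := mul_nonneg hx.le (by linarith)
  have za : x * y ≤ 1 / 10 := by nlinarith
  have zb : x * (1 - y) ≤ 1 / 10 := by nlinarith
  have e1 : t' = h0 + (x * y) := ht'
  have e2 : t + t' = 2 * h0 - (x * (1 - y)) := by rw [ht, ht']; ring
  have z0 : -x = t - h0 := by linarith
  have z1 : (x * y) = t' - h0 := by linarith [e1]
  have e0 : t = h0 + (-x) := by linarith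
  have g0 : cv 0 t = 1 / 2 + x * (-(x1_1 (-x))) := by
    change c1 t = _
    rw [e0, germ_x1_1 (s := -x) (by rw [z0]; linarith) (by rw [z0]; linarith)]
    ring
  have g1 : cv 1 t' = 1 / 2 - x * (-(y * (y1_2 (x * y)))) := by
    change f1 t' = _
    rw [e1, germ_y1_2 (s := (x * y)) (by rw [z1]; linarith) (by rw [z1]; linarith)]
    ring
  have r0 : v t (tg 0) = ((((1 : ℕ) : ℝ) / ((2 : ℕ) : ℝ)) + (x * (-(r1_1 (-x))))) := by
    change v t 0 = _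
    rw [e0, germ_r1_1 (s := -x) (by rw [z0]; linarith) (by rw [z0]; linarith) hv.toCT]
    push_cast
    ring
  have r1 : v t' (tg 1) = -(-((((1 : ℕ) : ℝ) / ((2 : ℕ) : ℝ)) - (x * (-(y * (q1_2 (x * y))))))) := by
    change v t' 1 = _
    rw [e1, germ_q1_2 (s := (x * y)) (by rw [z1]; linarith) (by rw [z1]; linarith) hv.toCT]
    push_cast
    ring
  have hX : 1 * cv 0 t + (-1) * cv 1 t' = x * ((-(x1_1 (-x))) + (-(y * (y1_2 (x * y))))) := by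
    rw [g0, g1]
    ring
  have he : exc (1 * cv 0 t) (1 * cv 0 t + (-1) * cv 1 t') t t' = x * (((((-(x1_1 (-x))) * ((((2 : ℕ) : ℝ) * gh) - (x * (((1 : ℕ) : ℝ) - y)))) - (((1 : ℕ) : ℝ) / ((2 : ℕ) : ℝ) * (((1 : ℕ) : ℝ) - y))) - (((-(x1_1 (-x))) + (-(y * (y1_2 (x * y))))) * (gh + (-x)))) * ((Real.sqrt ((3 : ℕ) : ℝ))⁻¹)) := by
    apply exc_of
    rw [hX, g0, e2, e0, gh_eq]
    push_cast
    ring
  have f1e := vg_f1 eb zb
  have wq := vg_wq eb zb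
  have v1e := vg_v1 eb zb hv
  have G1e := vg_G1 eb zb hv
  have hc3 := vg_c3 eb zb
  have hc0 := c3_nonneg (2 * h0 - (x * (1 - y)))
  have hf : f2 (2 * h0 - (x * (1 - y))) = ((x * (1 - y)) * wqg (x * (1 - y)) + c3 (2 * h0 - (x * (1 - y)))) / 2 := by
    unfold f2
    rw [vg_W eb zb]
  have hw : 0 ≤ (x * (1 - y)) * wqg (x * (1 - y)) := mul_nonneg eb wq.1.le
  have hXp : 0 < x * ((-(x1_1 (-x))) + (-(y * (y1_2 (x * y))))) := by
    have h7 := mul_pos hx b0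
    push_cast at h7 ⊢
    linarith
  have hc := cv_nonneg i.castSucc (T := t + t') (by linarith) (by rw [e2]; nlinarith [h0_sq'])
  rcases hε with rfl | rfl
  · have hlo0 := hlo
    have hhi0 := hhi
    rw [hX, e2] at hlo hhi
    fin_cases i
    · exfalso
      have l1 : 1 * (x * ((-(x1_1 (-x))) + (-(y * (y1_2 (x * y)))))) ≤ f1 (2 * h0 - (x * (1 - y))) := hhi
      rw [f1e] at l1
      have h7 := mul_pos hx b0
      push_cast at h7 l1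
      linarith
    · have l0 : f1 (2 * h0 - (x * (1 - y))) ≤ 1 * (x * ((-(x1_1 (-x))) + (-(y * (y1_2 (x * y)))))) := hlo
      have l1 : 1 * (x * ((-(x1_1 (-x))) + (-(y * (y1_2 (x * y)))))) ≤ f2 (2 * h0 - (x * (1 - y))) := hhi
      have hs := seg_low (v := v) (i := 1) (G := G1g (x * (1 - y))) G1e hlo hhi
      rw [f1e] at l0
      rw [hf] at l1
      rcases b1 with hb | hb
      · exfalso
        have h5 : 0 ≤ x * (2 * ((-(x1_1 (-x))) + (-(y * (y1_2 (x * y))))) - (1 - y) * wqg (x * (1 - y))) := by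
          push_cast at l0 ⊢
          linarith
        have h6 : x * (2 * ((-(x1_1 (-x))) + (-(y * (y1_2 (x * y))))) - (1 - y) * wqg (x * (1 - y))) ≤ c3 (2 * h0 - (x * (1 - y))) := by
          push_cast at l1 ⊢
          linarith
        have h7 := pow_le_pow_left₀ h5 h6 2
        have h8 := mul_pos hx hb
        rw [hc3] at h7
        rw [gh_eq] at h8
        push_cast at h7 h8
        nlinarith
      · refine cell_123 one_pos hx hx1 hy hy1 he (d := (((((b1_3 ((((2 : ℕ) : ℝ) * gh) - (x * (((1 : ℕ) : ℝ) - y)))) * ((((1 : ℕ) : ℝ) - y) * (((1 : ℕ) : ℝ) / ((2 : ℕ) : ℝ) * (wqg (x * (((1 : ℕ) : ℝ) - y)))))) + ((G1g (x * (((1 : ℕ) : ℝ) - y))) * (((-(x1_1 (-x))) + (-(y * (y1_2 (x * y))))) - ((((1 : ℕ) : ℝ) - y) * (((1 : ℕ) : ℝ) / ((2 : ℕ) : ℝ) * (wqg (x * (((1 : ℕ) : ℝ) - y)))))))) - (-(r1_1 (-x)))) - (-(y * (q1_2 (x * y)))))) ?_ ht ht' (A1 := -(-((((1 : ℕ) : ℝ) /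 ((2 : ℕ) : ℝ)) - (x * (-(y * (q1_2 (x * y)))))))) (A2 := x * (((b1_3 ((((2 : ℕ) : ℝ) * gh) - (x * (((1 : ℕ) : ℝ) - y)))) * ((((1 : ℕ) : ℝ) - y) * (((1 : ℕ) : ℝ) / ((2 : ℕ) : ℝ) * (wqg (x * (((1 : ℕ) : ℝ) - y)))))) + ((G1g (x * (((1 : ℕ) : ℝ) - y))) * (((-(x1_1 (-x))) + (-(y * (y1_2 (x * y))))) - ((((1 : ℕ) : ℝ) - y) * (((1 : ℕ) : ℝ) / ((2 : ℕ) : ℝ) * (wqg (x * (((1 : ℕ) : ℝ) - y))))))))) ?_ ?_ ?_
        · change 1 * segW v 1 (1 * (1 * cv 0 t + (-1) * cv 1 t')) (t + t') - 1 * v t (tg 0) - (-1) * v t' (tg 1) = _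
          rw [hX, e2, hs, r0, r1]
          change 1 * (v (2 * h0 - (x * (1 - y))) 1 + _ * (_ - f1 (2 * h0 - (x * (1 - y))))) - _ - _ = _
          rw [v1e, f1e, gh_eq]
          push_cast
          ring_nf
        · change -(-((((1 : ℕ) : ℝ) / ((2 : ℕ) : ℝ)) - (x * (-(y * (q1_2 (x * y))))))) = -((-1) * v t' (tg 1))
          rw [r1]
          ring
        · change x * (((b1_3 ((((2 : ℕ) : ℝ) * gh) - (x * (((1 : ℕ) : ℝ) - y)))) * ((((1 : ℕ) : ℝ) - y) * (((1 : ℕ) : ℝ) / ((2 : ℕ) : ℝ) * (wqg (x * (((1 : ℕ) : ℝ) - y)))))) + ((G1g (x * (((1 : ℕ) : ℝ) - y))) * (((-(x1_1 (-x))) + (-(y * (y1_2 (x * y))))) - ((((1 : ℕ) : ℝ) - y) * (((1 : ℕ) : ℝ) / ((2 : ℕ) : ℝ) * (wqg (x * (((1 : ℕ) : ℝ) - y)))))))) = 1 * segW v 1 (1 * (1 * cv 0 t + (-1) * cv 1 t')) (t + t')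
          rw [hX, e2, hs]
          change _ = 1 * (v (2 * h0 - (x * (1 - y))) 1 + _ * (_ - f1 (2 * h0 - (x * (1 - y)))))
          rw [v1e, f1e, gh_eq]
          push_cast
          ring_nf
        · have h8 := hb.le
          push_cast at h8 ⊢
          exact h8
    · have l0 : f2 (2 * h0 - (x * (1 - y))) ≤ 1 * (x * ((-(x1_1 (-x))) + (-(y * (y1_2 (x * y)))))) := hlo
      rw [hf] at l0
      have h7 := mul_pos hx b2
      have hz6 : c3 (2 * h0 - (x * (1 - y))) ≤ 6 * x := by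
        push_cast at h7 l0
        linarith
      have hk : t + t' = kc3 (x * (c3 (2 * h0 - (x * (1 - y))) / x)) := by
        have e3 : x * (c3 (2 * h0 - (x * (1 - y))) / x) = c3 (2 * h0 - (x * (1 - y))) := by field_simp
        rw [e3, kc3_eq, e2]
        have hnn : 0 ≤ 2 * h0 - (x * (1 - y)) := by linarith
        have hq := h0_sq'
        have e4 : (3 : ℝ) - c3 (2 * h0 - (x * (1 - y))) ^ 2 = (2 * h0 - (x * (1 - y))) ^ 2 := by
          rw [hc3]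
          nlinarith
        change 2 * h0 - (x * (1 - y)) = √(3 - c3 (2 * h0 - (x * (1 - y))) ^ 2)
        rw [e4, Real.sqrt_sq hnn]
      exact main_A01pm123z hv hx hx1 (div_nonneg hc0 hx.le) (by rw [div_le_iff₀ hx]; linarith) ht hk k3 k4 k5 hlo0 hhi0
  · exfalso
    rw [hX] at hlo
    linarith

end Pool.Agent.Strip051.LC.Line.Corn
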